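import Pool.Agent.Helper32.FG.Pr
import Pool.Graph.R_pool_sql_team_seeded_1acbe0a2.Y662.TR.Acs

/-! Absolutely continuous spectrum from moment bounds, for a countable set of sites. -/

set_option autoImplicit false
set_option linter.unusedSectionVars false
set_option linter.unusedSimpArgs false
set_option linter.deprecated false
set_option linter.unusedVariables false

open scoped BigOperators InnerProductSpace Topology ENNReal
open Filter MeasureTheory ProbabilityTheory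

namespace Pool.Agent.Helper32.FG

open Pool.Agent.TH369.AN (Rz rz_eq rz_uniq rz_norm)
open Pool.Agent.TH369.MU (SpM ep zk qk Fk qk_sq poisson_ae)
open Pool.Agent.TH369.MU.PO2 (ep_pos ep_tendsto)
open Pool.Agent.TH794.LL2 (Po Po_int Po_im)
open Pool.Agent.Y662.TR (LL lmk lmk_apply ll_inner ll_ext ll_summable ll_coord ll_sum dv dv_apply
  dv_self dv_ne inner_dv norm_dv ev ev_apply add_coord sub_coord neg_coord smul_coord
  approx rz_two qk_po zk_eq all_vec fatou_om)

variable {V : Type}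

theorem zk_im (E : ℝ) (k : ℕ) : (zk E k).im = ep k := by
  rw [zk_eq]
  simp

theorem zk_im_pos (E : ℝ) (k : ℕ) : 0 < (zk E k).im := by
  rw [zk_im]
  exact ep_pos k

theorem zk_cont (k : ℕ) : Continuous fun E : ℝ => zk E k := by
  unfold zk
  fun_prop

theorem dv_ne_zero (v : V) : (dv v : LL V) ≠ 0 := by
  intro h
  have := norm_dv v
  rw [h, norm_zero] at this
  exact zero_ne_one this

/-- the Green function at a site -/
noncomputable def GF (L : LL V →L[ℂ] LL V) (lam b : ℝ) (z : ℂ) (v : V) (ω : V → ℝ) : ℂ :=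
  Gg L Set.univ (dv v) lam b z ω

theorem gf_contE {L : LL V →L[ℂ] LL V} (hL : IsSelfAdjoint L) (lam b : ℝ) (k : ℕ) (v : V)
    (ω : V → ℝ) : Continuous fun E : ℝ => GF L lam b (zk E k) v ω := by
  have h1 := Gg_contz hL Set.univ (dv v) lam b ω
  rw [← continuousOn_univ]
  exact h1.comp (zk_cont k).continuousOn fun E _ => zk_im_pos E k

theorem gf_joint [Countable V] {L : LL V →L[ℂ] LL V} (hL : IsSelfAdjoint L) (lam b : ℝ) (k : ℕ)
    (v : V) : Measurable (Function.uncurry fun (E : ℝ) (ω : V → ℝ) =>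
      GF L lam b (zk E k) v ω) :=
  measurable_uncurry_of_continuous_of_measurable (fun ω => gf_contE hL lam b k v ω)
    (fun E => (Gg_cont hL Set.univ (dv v) lam b (zk E k) (zk_im_pos E k)).measurable)

theorem gf_im_pos {L : LL V →L[ℂ] LL V} (hL : IsSelfAdjoint L) (lam b : ℝ) {z : ℂ}
    (hz : 0 < z.im) (v : V) (ω : V → ℝ) : 0 < (GF L lam b z v ω).im :=
  Gg_pos hL Set.univ (dv_ne_zero v) lam b hz ω

/-- the first quantity -/
noncomputable def q1 (L : LL V →L[ℂ] LL V) (lam b : ℝ) (k : ℕ) (v : V) (E : ℝ)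
    (ω : V → ℝ) : ENNReal := ENNReal.ofReal (‖GF L lam b (zk E k) v ω‖ ^ 2)

/-- the second quantity -/
noncomputable def q2 (L : LL V →L[ℂ] LL V) (lam b : ℝ) (k : ℕ) (v : V) (E : ℝ)
    (ω : V → ℝ) : ENNReal := ENNReal.ofReal ((1 / (GF L lam b (zk E k) v ω).im) ^ 2)

theorem q1_joint [Countable V] {L : LL V →L[ℂ] LL V} (hL : IsSelfAdjoint L) (lam b : ℝ) (k : ℕ)
    (v : V) : Measurable (Function.uncurry (q1 L lam b k v)) := by
  have h1 : Measurable fun p : ℝ × (V → ℝ) => GF L lam b (zk p.1 k) v p.2 :=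
    gf_joint hL lam b k v
  exact (h1.norm.pow_const 2).ennreal_ofReal

theorem q2_joint [Countable V] {L : LL V →L[ℂ] LL V} (hL : IsSelfAdjoint L) (lam b : ℝ) (k : ℕ)
    (v : V) : Measurable (Function.uncurry (q2 L lam b k v)) := by
  have h1 : Measurable fun p : ℝ × (V → ℝ) => GF L lam b (zk p.1 k) v p.2 :=
    gf_joint hL lam b k v
  exact (((Complex.measurable_im.comp h1).const_div 1).pow_const 2).ennreal_ofReal

theorem gf_qk {L : LL V →L[ℂ] LL V} (hL : IsSelfAdjoint L) (lam b E : ℝ) (k : ℕ) (v : V)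
    (ω : V → ℝ) :
    qk (Th L Set.univ lam b ω) E k (dv v) ^ 2 = (GF L lam b (zk E k) v ω).im := by
  rw [qk_sq _ (Th_sa hL _ _ _ _)]
  rfl

/-- upper bound -/
theorem det_ac {L : LL V →L[ℂ] LL V} (hL : IsSelfAdjoint L) (lam b α β : ℝ) (ω : V → ℝ)
    (h : ∀ s : Finset V, liminf (fun k => ∫⁻ E in Set.Ioo α β, ∑ v ∈ s,
      q1 L lam b k v E ω) atTop < ∞) (φ : LL V) (m : Measure ℝ)
    (hm : SpM (Th L Set.univ lam b ω) φ m) (A : Set ℝ)
    (hA : A ⊆ Set.Ioo α β) (h0 : volume A = 0) : m A = 0 := by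
  refine all_vec _ (Th_sa hL _ _ _ _) α β (fun s => ?_) φ m hm A hA h0
  obtain ⟨C, hC1, hC2⟩ := exists_between (h s)
  have hfreq := frequently_lt_of_liminf_lt (by isBoundedDefault) hC1
  refine ⟨C, hC2.ne, hfreq.mono fun k hk v hv => ?_⟩
  have hpt : ∀ E, ENNReal.ofReal (qk (Th L Set.univ lam b ω) E k (dv v) ^ 2) ^ 2 ≤
      q1 L lam b k v E ω := by
    intro E
    have g1 := gf_im_pos hL lam b (zk_im_pos E k) v ω
    rw [gf_qk hL, ← ENNReal.ofReal_pow g1.le]
    apply ENNReal.ofReal_le_ofReal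
    have := Complex.im_le_norm (GF L lam b (zk E k) v ω)
    gcongr
  refine le_trans (lintegral_mono fun E => ?_) hk.le
  exact (hpt E).trans (Finset.single_le_sum (f := fun v => q1 L lam b k v E ω)
    (fun _ _ => zero_le) hv)

/-- lower bound -/
theorem det_pos [Countable V] {L : LL V →L[ℂ] LL V} (hL : IsSelfAdjoint L) (lam b α β : ℝ)
    (v : V) (ω : V → ℝ)
    (h : liminf (fun k => ∫⁻ E in Set.Ioo α β, q2 L lam b k v E ω) atTop < ∞)
    (m : Measure ℝ) (hm : SpM (Th L Set.univ lam b ω) (dv v) m) (A : Set ℝ)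
    (hA : A ⊆ Set.Ioo α β) (hAm : MeasurableSet A) (h0 : m A = 0) : volume A = 0 := by
  haveI := hm.1
  have hmeas : ∀ k, Measurable fun E => q2 L lam b k v E ω := fun k =>
    Measurable.of_uncurry_right (q2_joint hL lam b k v)
  have h1 : ∫⁻ E in Set.Ioo α β, liminf (fun k => q2 L lam b k v E ω) atTop < ∞ :=
    (lintegral_liminf_le hmeas).trans_lt h
  have h2 : ∀ᵐ E ∂(volume.restrict (Set.Ioo α β)),
      liminf (fun k => q2 L lam b k v E ω) atTop < ∞ :=
    ae_lt_top (Measurable.liminf hmeas) h1.ne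
  have h3 : ∀ᵐ E ∂(volume.restrict (Set.Ioo α β)), m.rnDeriv volume E ≠ 0 := by
    filter_upwards [h2, ae_restrict_of_ae (poisson_ae m)] with E e1 e2 hzero
    obtain ⟨C, hC1, hC2⟩ := exists_between e1
    have hfreq := frequently_lt_of_liminf_lt (by isBoundedDefault) hC1
    rw [hzero, ENNReal.toReal_zero, mul_zero] at e2
    have hδ : 0 < 1 / (Real.sqrt C.toReal + 1) := by positivity
    have e4 := e2.eventually_lt_const hδ
    obtain ⟨k, k1, k2⟩ := (hfreq.and_eventually e4).exists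
    have g1 := gf_im_pos hL lam b (zk_im_pos E k) v ω
    have g5 := qk_po _ (Th_sa hL Set.univ lam b ω) (dv v) m hm E k
    rw [gf_qk hL] at g5
    obtain ⟨y, hy⟩ : ∃ y, y = (GF L lam b (zk E k) v ω).im := ⟨_, rfl⟩
    unfold q2 at k1
    rw [← hy] at g1 g5 k1
    have g6 : (1 / y) ^ 2 < C.toReal := by
      rw [← ENNReal.ofReal_lt_ofReal_iff_of_nonneg (sq_nonneg _), ENNReal.ofReal_toReal hC2.ne]
      exact k1
    have g7 : 1 / y ≤ Real.sqrt C.toReal := Real.le_sqrt_of_sq_le g6.le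
    have g9 : y < 1 / (Real.sqrt C.toReal + 1) := by
      rw [g5]
      exact k2
    rw [lt_div_iff₀ (by positivity)] at g9
    rw [div_le_iff₀ g1] at g7
    nlinarith
  have h4 : ∫⁻ E in A, m.rnDeriv volume E = 0 :=
    le_antisymm ((Measure.setLIntegral_rnDeriv_le A).trans h0.le) zero_le
  have h5 : ∀ᵐ E ∂(volume.restrict A), m.rnDeriv volume E = 0 := by
    have := (lintegral_eq_zero_iff (Measure.measurable_rnDeriv m volume)).1 h4
    filter_upwards [this] with E hE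
    exact hE
  have h6 : ∀ᵐ E ∂(volume.restrict A), m.rnDeriv volume E ≠ 0 :=
    ae_restrict_of_ae_restrict_of_subset hA h3
  have h7 : ∀ᵐ E ∂(volume.restrict A), False := by
    filter_upwards [h5, h6] with E e1 e2
    exact e2 e1
  rw [Filter.eventually_false_iff_eq_bot, ae_eq_bot, Measure.restrict_eq_zero] at h7
  exact h7

/-- **the criterion** -/
theorem main_ac [Countable V] {L : LL V →L[ℂ] LL V} (hL : IsSelfAdjoint L) (lam b α β : ℝ)
    (P : Measure (V → ℝ)) [IsProbabilityMeasure P] (C1 C2 : ENNReal) (hC1 : C1 ≠ ∞)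
    (hC2 : C2 ≠ ∞) (k0 : ℕ)
    (hb1 : ∀ k, k0 ≤ k → ∀ E ∈ Set.Ioo α β, ∀ v : V, ∫⁻ ω, q1 L lam b k v E ω ∂P ≤ C1)
    (hb2 : ∀ k, k0 ≤ k → ∀ E ∈ Set.Ioo α β, ∀ v : V, ∫⁻ ω, q2 L lam b k v E ω ∂P ≤ C2) :
    ∀ᵐ ω ∂P,
        (∀ (φ : LL V) (m : Measure ℝ), SpM (Th L Set.univ lam b ω) φ m →
          ∀ A : Set ℝ, A ⊆ Set.Ioo α β → volume A = 0 → m A = 0) ∧
        (∀ (v : V) (m : Measure ℝ), SpM (Th L Set.univ lam b ω) (dv v) m →
          ∀ A : Set ℝ, A ⊆ Set.Ioo α β → MeasurableSet A → m A = 0 → volume A = 0) := by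
  have hm1 : ∀ k v E, Measurable fun ω => q1 L lam b k v E ω := fun k v E =>
    Measurable.of_uncurry_left (q1_joint hL lam b k v)
  have hall1 : ∀ s : Finset V, ∀ᵐ ω ∂P,
      liminf (fun k => ∫⁻ E in Set.Ioo α β, ∑ v ∈ s, q1 L lam b k v E ω) atTop < ∞ := by
    intro s
    refine fatou_om P (fun k E ω => ∑ v ∈ s, q1 L lam b k v E ω)
      (fun k => Finset.measurable_fun_sum s fun v _ => q1_joint hL lam b k v)
      (Set.Ioo α β) measurableSet_Ioo (by simp) (s.card * C1)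
      (ENNReal.mul_ne_top (ENNReal.natCast_ne_top _) hC1) k0
      (fun k hk E hE => ?_)
    rw [lintegral_finsetSum s fun v _ => hm1 k v E]
    refine (Finset.sum_le_sum fun v _ => hb1 k hk E hE v).trans ?_
    rw [Finset.sum_const, nsmul_eq_mul]
  have hall2 : ∀ v : V, ∀ᵐ ω ∂P,
      liminf (fun k => ∫⁻ E in Set.Ioo α β, q2 L lam b k v E ω) atTop < ∞ := by
    intro v
    exact fatou_om P (fun k E ω => q2 L lam b k v E ω)
      (fun k => q2_joint hL lam b k v) (Set.Ioo α β) measurableSet_Ioo (by simp) C2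
      hC2 k0 (fun k hk E hE => hb2 k hk E hE v)
  filter_upwards [ae_all_iff.2 hall1, ae_all_iff.2 hall2] with ω hω1 hω2
  refine ⟨fun φ m hm A hA' hv => ?_, fun v m hm A hA' hAm hv => ?_⟩
  · exact det_ac hL lam b α β ω hω1 φ m hm A hA' hv
  · exact det_pos hL lam b α β v ω (hω2 v) m hm A hA' hAm hv

end Pool.Agent.Helper32.FG
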