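import Mathlib

/-! Proper holomorphic maps from the upper half plane to the disc are finite Blaschke products. -/

set_option autoImplicit false
set_option linter.unusedSectionVars false
set_option linter.unusedSimpArgs false
set_option linter.deprecated false
set_option linter.unusedVariables false

open scoped BigOperators Topology
open Filter

namespace Pool.Agent.Helper32.FG

/-- the upper half plane -/
def Up : Set ℂ := {z | 0 < z.im}

theorem Up_open : IsOpen Up := isOpen_lt continuous_const Complex.continuous_im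

theorem Up_conn : IsPreconnected Up := by
  have h : Convex ℝ Up := by
    intro x hx y hy a b ha hb hab
    have hx' : 0 < x.im := hx
    have hy' : 0 < y.im := hy
    change 0 < (a • x + b • y).im
    rw [Complex.add_im, Complex.smul_im, Complex.smul_im, smul_eq_mul, smul_eq_mul]
    rcases ha.eq_or_lt with h | h
    · rw [← h] at hab ⊢
      rw [zero_add] at hab
      rw [hab]
      simpa using hy'
    · have : 0 < a * x.im := by positivity
      have : 0 ≤ b * y.im := by positivity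
      linarith
  exact h.isPreconnected

theorem Up_not_compact : ¬ IsCompact Up := by
  intro h
  have h1 := h.isClosed
  have h2 : (0 : ℂ) ∈ closure Up := by
    rw [Metric.mem_closure_iff]
    intro ε hε
    refine ⟨((ε / 2 : ℝ) : ℂ) * Complex.I, ?_, ?_⟩
    · change 0 < (((ε / 2 : ℝ) : ℂ) * Complex.I).im
      simp [hε]
    · rw [dist_zero_left, norm_mul, Complex.norm_real, Complex.norm_I, mul_one,
        Real.norm_of_nonneg (by positivity)]
      linarith
  rw [h1.closure_eq] at h2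
  have h3 : (0 : ℝ) < (0 : ℂ).im := h2
  simp at h3

/-- proper maps to the closed disc -/
structure Pm (f : ℂ → ℂ) : Prop where
  diff : DifferentiableOn ℂ f Up
  le : ∀ z ∈ Up, ‖f z‖ ≤ 1
  cpt : ∀ r : ℝ, r < 1 → IsCompact {z | z ∈ Up ∧ ‖f z‖ ≤ r}

/-- no zeros -/
theorem Pm.const {f : ℂ → ℂ} (h : Pm f) (h0 : ∀ z ∈ Up, f z ≠ 0) : ∃ c, ∀ z ∈ Up, f z = c := by
  have hI : Complex.I ∈ Up := by
    change 0 < Complex.I.im
    simp
  by_cases hlt : ∃ z0 ∈ Up, ‖f z0‖ < 1
  · exfalso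
    obtain ⟨z0, hz0, hz1⟩ := hlt
    have hK := h.cpt ‖f z0‖ hz1
    have hcont : ContinuousOn (fun z => ‖f z‖) {z | z ∈ Up ∧ ‖f z‖ ≤ ‖f z0‖} :=
      (h.diff.continuousOn.mono fun z hz => hz.1).norm
    obtain ⟨c, hc, hmin⟩ := hK.exists_isMinOn ⟨z0, hz0, le_rfl⟩ hcont
    have hd : DifferentiableOn ℂ (fun z => (f z)⁻¹) Up := h.diff.inv h0
    have hmax : IsMaxOn (norm ∘ fun z => (f z)⁻¹) Up c := by
      intro z hz
      simp only [Function.comp, Set.mem_setOf_eq, norm_inv]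
      apply inv_anti₀ (norm_pos_iff.2 (h0 c hc.1))
      by_cases hzK : ‖f z‖ ≤ ‖f z0‖
      · exact hmin ⟨hz, hzK⟩
      · push Not at hzK
        exact hc.2.trans hzK.le
    have heq := Complex.eqOn_of_isPreconnected_of_isMaxOn_norm Up_conn Up_open hd hc.1 hmax
    have heq2 : ∀ z ∈ Up, f z = f c := by
      intro z hz
      have := heq hz
      simp only [Function.const] at this
      exact inv_injective this
    apply Up_not_compact
    have : {z | z ∈ Up ∧ ‖f z‖ ≤ ‖f z0‖} = Up := by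
      ext z
      constructor
      · exact fun hz => hz.1
      · intro hz
        refine ⟨hz, ?_⟩
        rw [heq2 z hz, heq2 z0 hz0]
    rwa [this] at hK
  · push Not at hlt
    have hmax : IsMaxOn (norm ∘ f) Up Complex.I := by
      intro z hz
      simp only [Function.comp, Set.mem_setOf_eq]
      exact (h.le z hz).trans (hlt _ hI)
    have heq := Complex.eqOn_of_isPreconnected_of_isMaxOn_norm Up_conn Up_open h.diff hI hmax
    exact ⟨f Complex.I, fun z hz => heq hz⟩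

/-- the Blaschke factor -/
noncomputable def bl (ζ z : ℂ) : ℂ := (z - ζ) / (z - (starRingEnd ℂ) ζ)

theorem sub_conj_ne {ζ z : ℂ} (hζ : ζ ∈ Up) (hz : 0 ≤ z.im) : z - (starRingEnd ℂ) ζ ≠ 0 := by
  intro h
  have h1 := congrArg Complex.im h
  rw [Complex.sub_im, Complex.conj_im, Complex.zero_im] at h1
  have : 0 < ζ.im := hζ
  linarith

theorem bl_sq {ζ z : ℂ} (hζ : ζ ∈ Up) (hz : 0 ≤ z.im) :
    ‖bl ζ z‖ ^ 2 = 1 - 4 * ζ.im * z.im / ‖z - (starRingEnd ℂ) ζ‖ ^ 2 := by
  have h1 := norm_ne_zero_iff.2 (sub_conj_ne hζ hz)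
  unfold bl
  rw [norm_div, div_pow]
  have h2 : ‖z - ζ‖ ^ 2 = ‖z - (starRingEnd ℂ) ζ‖ ^ 2 - 4 * ζ.im * z.im := by
    rw [Complex.sq_norm, Complex.sq_norm, Complex.normSq_apply, Complex.normSq_apply]
    simp only [Complex.sub_re, Complex.sub_im, Complex.conj_re, Complex.conj_im]
    ring
  rw [h2]
  field_simp

theorem bl_lt {ζ z : ℂ} (hζ : ζ ∈ Up) (hz : z ∈ Up) : ‖bl ζ z‖ < 1 := by
  have hζ' : 0 < ζ.im := hζ
  have hz' : 0 < z.im := hz
  have h1 := bl_sq hζ hz'.le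
  have h2 := norm_pos_iff.2 (sub_conj_ne hζ hz'.le)
  have h3 : 0 < 4 * ζ.im * z.im / ‖z - (starRingEnd ℂ) ζ‖ ^ 2 := by positivity
  have h4 := norm_nonneg (bl ζ z)
  by_contra hcon
  push Not at hcon
  nlinarith

/-- hyperbolic discs are compact -/
theorem bl_cpt {ζ : ℂ} (hζ : ζ ∈ Up) {r : ℝ} (hr0 : 0 ≤ r) (hr : r < 1) :
    IsCompact {z | z ∈ Up ∧ ‖bl ζ z‖ ≤ r} := by
  have hζ' : 0 < ζ.im := hζ
  -- closed description
  have hset : {z | z ∈ Up ∧ ‖bl ζ z‖ ≤ r} =
      {z | 0 ≤ z.im ∧ (1 - r ^ 2) * ‖z - (starRingEnd ℂ) ζ‖ ^ 2 ≤ 4 * ζ.im * z.im} := by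
    ext z
    constructor
    · rintro ⟨hz, hzr⟩
      have hz' : 0 < z.im := hz
      refine ⟨hz'.le, ?_⟩
      have h1 := bl_sq hζ hz'.le
      have h2 := norm_pos_iff.2 (sub_conj_ne hζ hz'.le)
      have h3 : ‖bl ζ z‖ ^ 2 ≤ r ^ 2 := by gcongr
      rw [h1] at h3
      have h4 : 4 * ζ.im * z.im / ‖z - (starRingEnd ℂ) ζ‖ ^ 2 ≥ 1 - r ^ 2 := by linarith
      rw [ge_iff_le, le_div_iff₀ (by positivity)] at h4
      exact h4
    · rintro ⟨hz, hzr⟩
      have h2 := norm_pos_iff.2 (sub_conj_ne hζ hz)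
      have h5 : 0 < 1 - r ^ 2 := by nlinarith
      have h6 : 0 < 4 * ζ.im * z.im := lt_of_lt_of_le (by positivity) hzr
      have hz' : 0 < z.im := by
        by_contra hcon
        push Not at hcon
        have : z.im = 0 := le_antisymm hcon hz
        rw [this, mul_zero] at h6
        exact lt_irrefl _ h6
      refine ⟨hz', ?_⟩
      have h1 := bl_sq hζ hz
      have h4 : 1 - r ^ 2 ≤ 4 * ζ.im * z.im / ‖z - (starRingEnd ℂ) ζ‖ ^ 2 := by
        rw [le_div_iff₀ (by positivity)]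
        exact hzr
      have h7 : ‖bl ζ z‖ ^ 2 ≤ r ^ 2 := by linarith
      exact (pow_le_pow_iff_left₀ (norm_nonneg _) hr0 two_ne_zero).1 h7
  rw [hset]
  apply Metric.isCompact_of_isClosed_isBounded
  · refine IsClosed.inter (isClosed_le continuous_const Complex.continuous_im)
      (isClosed_le (continuous_const.mul ((continuous_id.sub continuous_const).norm.pow 2)) ?_)
    exact continuous_const.mul Complex.continuous_im
  · rw [Metric.isBounded_iff_subset_closedBall ((starRingEnd ℂ) ζ)]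
    refine ⟨4 * ζ.im / (1 - r ^ 2) + 1, fun z hz => ?_⟩
    rw [Metric.mem_closedBall, dist_eq_norm]
    obtain ⟨h1, h2⟩ := hz
    have h5 : 0 < 1 - r ^ 2 := by nlinarith
    have h3 : z.im ≤ ‖z - (starRingEnd ℂ) ζ‖ := by
      have e1 := Complex.abs_im_le_norm (z - (starRingEnd ℂ) ζ)
      rw [Complex.sub_im, Complex.conj_im] at e1
      have e2 := le_abs_self (z.im - -ζ.im)
      linarith
    have h4 : (1 - r ^ 2) * ‖z - (starRingEnd ℂ) ζ‖ ≤ 4 * ζ.im := by
      have h6 := norm_pos_iff.2 (sub_conj_ne hζ h1)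
      have h7 : (1 - r ^ 2) * ‖z - (starRingEnd ℂ) ζ‖ ^ 2 ≤
          4 * ζ.im * ‖z - (starRingEnd ℂ) ζ‖ := h2.trans (by gcongr)
      nlinarith
    have h8 : ‖z - (starRingEnd ℂ) ζ‖ ≤ 4 * ζ.im / (1 - r ^ 2) := by
      rw [le_div_iff₀ h5]
      linarith
    linarith

/-- the division by a Blaschke factor -/
theorem Pm.div {f : ℂ → ℂ} (h : Pm f) {ζ : ℂ} (hζ : ζ ∈ Up) (hf : f ζ = 0) :
    ∃ g, Pm g ∧ ∀ z ∈ Up, f z = bl ζ z * g z := by
  obtain ⟨g, hg⟩ : ∃ g : ℂ → ℂ, g = fun z => (z - (starRingEnd ℂ) ζ) * dslope f ζ z := ⟨_, rfl⟩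
  have hgd : DifferentiableOn ℂ g Up := by
    rw [hg]
    refine DifferentiableOn.mul (by fun_prop) ?_
    exact (Complex.differentiableOn_dslope (Up_open.mem_nhds hζ)).2 h.diff
  have hfg : ∀ z ∈ Up, f z = bl ζ z * g z := by
    intro z hz
    have hz' : 0 < z.im := hz
    rw [hg]
    unfold bl
    have h1 := sub_conj_ne hζ hz'.le
    have h2 := sub_smul_dslope f ζ z
    rw [hf, sub_zero, smul_eq_mul] at h2
    field_simp
    rw [← h2]
  have hle : ∀ z ∈ Up, ‖g z‖ ≤ 1 := by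
    intro z0 hz0
    by_contra hcon
    push Not at hcon
    obtain ⟨m, hm⟩ : ∃ m, m = ‖g z0‖ := ⟨_, rfl⟩
    rw [← hm] at hcon
    have hm1 : 1 / m < 1 := by
      rw [div_lt_one (by linarith)]
      exact hcon
    have hbm : ∀ z ∈ Up, m ≤ ‖g z‖ → ‖bl ζ z‖ ≤ 1 / m := by
      intro z hz hgm
      have h1 := h.le z hz
      rw [hfg z hz, norm_mul] at h1
      rw [le_div_iff₀ (by linarith)]
      have := norm_nonneg (bl ζ z)
      nlinarith
    have hL := bl_cpt hζ (show 0 ≤ 1 / m by positivity) hm1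
    have hcont : ContinuousOn (fun z => ‖g z‖) {z | z ∈ Up ∧ ‖bl ζ z‖ ≤ 1 / m} :=
      (hgd.continuousOn.mono fun z hz => hz.1).norm
    obtain ⟨c, hc, hmax⟩ := hL.exists_isMaxOn ⟨z0, hz0, hbm z0 hz0 hm.le⟩ hcont
    have hcm : m ≤ ‖g c‖ := by
      rw [hm]
      exact hmax ⟨hz0, hbm z0 hz0 hm.le⟩
    have hmax' : IsMaxOn (norm ∘ g) Up c := by
      intro z hz
      simp only [Function.comp, Set.mem_setOf_eq]
      by_cases hzL : ‖bl ζ z‖ ≤ 1 / m
      · exact hmax ⟨hz, hzL⟩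
      · by_contra hcon2
        push Not at hcon2
        exact hzL (hbm z hz (hcm.trans hcon2.le))
    have heq := Complex.eqOn_of_isPreconnected_of_isMaxOn_norm Up_conn Up_open hgd hc.1 hmax'
    apply Up_not_compact
    have : {z | z ∈ Up ∧ ‖bl ζ z‖ ≤ 1 / m} = Up := by
      ext z
      constructor
      · exact fun hz => hz.1
      · intro hz
        refine ⟨hz, hbm z hz ?_⟩
        have := heq hz
        simp only [Function.const] at this
        rw [this]
        exact hcm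
    rwa [this] at hL
  refine ⟨g, ⟨hgd, hle, fun r hr => ?_⟩, hfg⟩
  have h1 := h.cpt r hr
  have h2 : {z | z ∈ Up ∧ ‖g z‖ ≤ r} = {z | z ∈ Up ∧ ‖f z‖ ≤ r} ∩ {z | z ∈ Up ∧ ‖g z‖ ≤ r} := by
    ext z
    constructor
    · intro hz
      refine ⟨⟨hz.1, ?_⟩, hz⟩
      rw [hfg z hz.1, norm_mul]
      have e1 := (bl_lt hζ hz.1).le
      have e2 := norm_nonneg (g z)
      have e3 := hz.2
      nlinarith
    · exact fun hz => hz.2
  rw [h2]
  have h3 : {z | z ∈ Up ∧ ‖f z‖ ≤ r} ∩ {z | z ∈ Up ∧ ‖g z‖ ≤ r} =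
      {z | z ∈ Up ∧ ‖f z‖ ≤ r} ∩ (fun z => ‖g z‖) ⁻¹' (Set.Iic r) := by
    ext z
    constructor
    · exact fun hz => ⟨hz.1, hz.2.2⟩
    · exact fun hz => ⟨hz.1, hz.1.1, hz.2⟩
  rw [h3]
  have h4 : IsClosed ({z | z ∈ Up ∧ ‖f z‖ ≤ r} ∩ (fun z => ‖g z‖) ⁻¹' (Set.Iic r)) :=
    ContinuousOn.preimage_isClosed_of_isClosed (hgd.continuousOn.mono fun z hz => hz.1).norm
      h1.isClosed isClosed_Iic
  exact h1.of_isClosed_subset h4 Set.inter_subset_left

open Polynomial in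
/-- **finite Blaschke products** -/
theorem Pm.poly {f : ℂ → ℂ} (h : Pm f) : ∃ (c : ℂ) (P P' : ℂ[X]), (∀ z ∈ Up, P'.eval z ≠ 0) ∧
    ∀ z ∈ Up, f z * P'.eval z = c * P.eval z := by
  -- a point which is not a zero
  obtain ⟨z1, hz1, hfz1⟩ : ∃ z1 ∈ Up, f z1 ≠ 0 := by
    by_contra hcon
    push Not at hcon
    have h1 := h.cpt 0 (by norm_num)
    apply Up_not_compact
    have : {z | z ∈ Up ∧ ‖f z‖ ≤ 0} = Up := by
      ext z
      constructor
      · exact fun hz => hz.1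
      · intro hz
        exact ⟨hz, by rw [hcon z hz, norm_zero]⟩
    rwa [this] at h1
  obtain ⟨Z, hZ⟩ : ∃ Z : Set ℂ, Z = {z | z ∈ Up ∧ ‖f z‖ ≤ 0} := ⟨_, rfl⟩
  have hZc : IsCompact Z := by
    rw [hZ]
    exact h.cpt 0 (by norm_num)
  -- the uniform bound of the Blaschke factors at z1
  obtain ⟨q, hq0, hq1, hq⟩ : ∃ q : ℝ, 0 < q ∧ q < 1 ∧ ∀ ζ ∈ Z, ‖bl ζ z1‖ ≤ q := by
    rcases Z.eq_empty_or_nonempty with hZe | hZn
    · exact ⟨1 / 2, by norm_num, by norm_num, fun ζ hζ => by rw [hZe] at hζ; exact hζ.elim⟩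
    · have hcont : ContinuousOn (fun ζ => ‖bl ζ z1‖) Z := by
        refine ContinuousOn.norm ?_
        unfold bl
        refine ContinuousOn.div (by fun_prop) ?_ ?_
        · exact continuousOn_const.sub Complex.continuous_conj.continuousOn
        · intro ζ hζ
          rw [hZ] at hζ
          exact sub_conj_ne hζ.1 (le_of_lt hz1)
      obtain ⟨ζ, hζ, hmax⟩ := hZc.exists_isMaxOn hZn hcont
      have hζ' := hζ
      rw [hZ] at hζ'
      refine ⟨max (1 / 2) ‖bl ζ z1‖, by positivity, max_lt (by norm_num) (bl_lt hζ'.1 hz1), ?_⟩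
      intro ξ hξ
      exact (hmax hξ).trans (le_max_right _ _)
  have key : ∀ n : ℕ, ∀ g : ℂ → ℂ, Pm g → (∀ z ∈ Up, g z = 0 → z ∈ Z) → q ^ n < ‖g z1‖ →
      ∃ (c : ℂ) (P P' : ℂ[X]), (∀ z ∈ Up, P'.eval z ≠ 0) ∧
        ∀ z ∈ Up, g z * P'.eval z = c * P.eval z := by
    intro n
    induction n with
    | zero =>
      intro g hg hgZ hgn
      rw [pow_zero] at hgn
      exact absurd (hg.le z1 hz1) (not_le.2 hgn)
    | succ n ih =>
      intro g hg hgZ hgn
      by_cases h0 : ∀ z ∈ Up, g z ≠ 0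
      · obtain ⟨c, hc⟩ := hg.const h0
        refine ⟨c, 1, 1, fun z _ => by simp, fun z hz => by simp [hc z hz]⟩
      · push Not at h0
        obtain ⟨ζ, hζ, hgζ⟩ := h0
        obtain ⟨g1, hg1, hgg⟩ := hg.div hζ hgζ
        have hζZ := hgZ ζ hζ hgζ
        have hg1Z : ∀ z ∈ Up, g1 z = 0 → z ∈ Z := by
          intro z hz hz0
          apply hgZ z hz
          rw [hgg z hz, hz0, mul_zero]
        have hg1n : q ^ n < ‖g1 z1‖ := by
          have e1 := hgg z1 hz1
          rw [e1, norm_mul, pow_succ] at hgn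
          have e2 := hq ζ hζZ
          have e3 := norm_nonneg (g1 z1)
          have e4 : ‖bl ζ z1‖ * ‖g1 z1‖ ≤ q * ‖g1 z1‖ := by gcongr
          have e5 : q ^ n * q < q * ‖g1 z1‖ := hgn.trans_le e4
          nlinarith
        obtain ⟨c, P, P', hP', hPP⟩ := ih g1 hg1 hg1Z hg1n
        refine ⟨c, (X - C ζ) * P, (X - C ((starRingEnd ℂ) ζ)) * P', fun z hz => ?_,
          fun z hz => ?_⟩
        · rw [eval_mul, eval_sub, eval_X, eval_C]
          exact mul_ne_zero (sub_conj_ne hζ (le_of_lt hz)) (hP' z hz)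
        · rw [eval_mul, eval_sub, eval_X, eval_C, eval_mul, eval_sub, eval_X, eval_C, hgg z hz]
          have e1 := hPP z hz
          have e2 := sub_conj_ne hζ (le_of_lt hz)
          unfold bl
          field_simp
          linear_combination (z - ζ) * e1
  obtain ⟨n, hn⟩ := exists_pow_lt_of_lt_one (norm_pos_iff.2 hfz1) hq1
  exact key n f h (fun z hz hz0 => by
    rw [hZ]
    exact ⟨hz, by rw [hz0, norm_zero]⟩) hn

end Pool.Agent.Helper32.FG
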