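import Mathlib

/-! The sets of the elements of a free product whose reduced word starts in a given factor. -/

set_option autoImplicit false
set_option linter.unusedSectionVars false

open Monoid (CoprodI)
open Monoid.CoprodI (of Word)

namespace Pool.Agent.Helper32.FG

variable {ι : Type} {Γ : ι → Type} [∀ i, Group (Γ i)]

open Classical in
/-- the factor of the first letter -/
noncomputable def hd (x : CoprodI Γ) : Option ι := (Word.equiv x).fstIdx

theorem hd_one : hd (1 : CoprodI Γ) = none := by
  classical
  unfold hd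
  have h : Word.equiv (1 : CoprodI Γ) = Word.empty := by
    change (1 : CoprodI Γ) • (Word.empty : Word Γ) = (Word.empty : Word Γ)
    rw [one_smul]
  rw [h]
  rfl

theorem hd_mul {i : ι} {y : Γ i} (hy : y ≠ 1) {x : CoprodI Γ} (hx : hd x ≠ some i) :
    hd (of y * x) = some i := by
  classical
  unfold hd at hx ⊢
  have h : Word.equiv (of y * x) = Word.cons y (Word.equiv x) hx hy := by
    rw [Word.cons_eq_smul]
    change (of y * x) • (Word.empty : Word Γ) =
      (of y : CoprodI Γ) • (x • (Word.empty : Word Γ))
    rw [mul_smul]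
  rw [h, Word.fstIdx_cons]

theorem hd_of {i : ι} {y : Γ i} (hy : y ≠ 1) : hd (of y : CoprodI Γ) = some i := by
  have h := hd_mul hy (x := (1 : CoprodI Γ)) (by rw [hd_one]; simp)
  rwa [mul_one] at h

theorem hd_eq_none {x : CoprodI Γ} (h : hd x = none) : x = 1 := by
  classical
  unfold hd at h
  have h1 : Word.equiv x = Word.empty := by
    obtain ⟨w, hw⟩ : ∃ w, w = Word.equiv x := ⟨_, rfl⟩
    rw [← hw] at h ⊢
    obtain ⟨l, h2, h3⟩ := w
    cases l with
    | nil => rfl
    | cons p l => simp [Word.fstIdx] at h
  have h2 := Word.equiv.symm_apply_apply x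
  rw [h1] at h2
  rw [← h2]
  change Word.prod Word.empty = 1
  exact Word.prod_empty

theorem hd_word (w : Word Γ) : hd w.prod = w.fstIdx := by
  classical
  unfold hd
  have h : Word.equiv w.prod = w := by
    have := Word.equiv.apply_symm_apply w
    exact this
  convert congrArg Word.fstIdx h

theorem hd_right_aux {k : ι} (s : Γ k) (w : Word Γ) : ∀ j : ι, w.fstIdx = some j →
    hd (w.prod * of s) = some j ∨ w.prod * of s = 1 := by
  classical
  refine Word.consRecOn w ?_ ?_
  · intro j h
    simp [Word.fstIdx, Word.empty] at h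
  · intro i m w hmw h1 ih j hj
    rw [Word.fstIdx_cons] at hj
    simp only [Option.some.injEq] at hj
    subst hj
    rw [Word.prod_cons, mul_assoc]
    by_cases hw : w.fstIdx = none
    · have hw1 : w.prod = 1 := hd_eq_none (by rw [hd_word]; exact hw)
      rw [hw1, one_mul]
      by_cases hs : s = 1
      · left
        rw [hs, map_one, mul_one]
        exact hd_of h1
      · by_cases hk : k = i
        · subst hk
          rw [← map_mul]
          by_cases hms : m * s = 1
          · right
            rw [hms, map_one]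
          · left
            exact hd_of hms
        · left
          refine hd_mul h1 ?_
          rw [hd_of hs]
          simpa using hk
    · left
      obtain ⟨l, hl⟩ := Option.ne_none_iff_exists'.1 hw
      refine hd_mul h1 ?_
      rcases ih l hl with h | h
      · rw [h, ← hl]
        exact hmw
      · rw [h, hd_one]
        simp

/-- a right multiplication by a letter does not change the first factor -/
theorem hd_right {j k : ι} (s : Γ k) {x : CoprodI Γ} (hx : hd x = some j) :
    hd (x * of s) = some j ∨ x * of s = 1 := by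
  classical
  obtain ⟨w, rfl⟩ : ∃ w : Word Γ, w.prod = x := by
    refine ⟨Word.equiv x, ?_⟩
    have := Word.equiv.symm_apply_apply x
    exact this
  exact hd_right_aux s w j (by rw [← hd_word]; exact hx)

/-- the elements which start in the factor `i` -/
def Bs (i : ι) : Set (CoprodI Γ) := {x | hd x = some i}

theorem mem_Bs {i : ι} {x : CoprodI Γ} : x ∈ Bs i ↔ hd x = some i := Iff.rfl

theorem one_notMem (i : ι) : (1 : CoprodI Γ) ∉ Bs i := by
  rw [mem_Bs, hd_one]
  simp

theorem mul_mem {i : ι} {y : Γ i} (hy : y ≠ 1) {x : CoprodI Γ} (hx : x ∉ Bs i) :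
    of y * x ∈ Bs i := hd_mul hy hx

theorem of_mem {i : ι} {y : Γ i} (hy : y ≠ 1) : (of y : CoprodI Γ) ∈ Bs i := hd_of hy

theorem mem_right {j k : ι} (s : Γ k) {x : CoprodI Γ} (hx : x ∈ Bs j) :
    x * of s ∈ Bs j ∨ x * of s = 1 := hd_right s hx

theorem Bs_disj {i j : ι} (hij : i ≠ j) {x : CoprodI Γ} (hx : x ∈ Bs i) : x ∉ Bs j := by
  rw [mem_Bs] at hx ⊢
  rw [hx]
  simpa using hij

theorem of_mem_iff {j k : ι} {s : Γ k} (h : (of s : CoprodI Γ) ∈ Bs j) : k = j ∧ s ≠ 1 := by
  rw [mem_Bs] at h
  have hs : s ≠ 1 := by
    rintro rfl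
    rw [map_one, hd_one] at h
    simp at h
  rw [hd_of hs] at h
  exact ⟨by simpa using h, hs⟩

/-- every element is `1` or starts in some factor -/
theorem cover (x : CoprodI Γ) : x = 1 ∨ ∃ i, x ∈ Bs i := by
  by_cases h : hd x = none
  · exact Or.inl (hd_eq_none h)
  · obtain ⟨l, hl⟩ := Option.ne_none_iff_exists'.1 h
    exact Or.inr ⟨l, hl⟩

/-- different translates of the complement of `Bs i` are disjoint -/
theorem tr_disj {i : ι} {y y' : Γ i} (h : y ≠ y') {x x' : CoprodI Γ} (hx : x ∉ Bs i)
    (hx' : x' ∉ Bs i) : of y * x ≠ of y' * x' := by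
  intro h1
  have h2 : x = of (y⁻¹ * y') * x' := by
    rw [map_mul, mul_assoc, ← h1, ← mul_assoc, ← map_mul, inv_mul_cancel, map_one, one_mul]
  apply hx
  rw [h2]
  refine mul_mem ?_ hx'
  intro h3
  exact h (inv_mul_eq_one.1 h3)

theorem coprod_countable [Countable ι] [∀ i, Countable (Γ i)] : Countable (CoprodI Γ) := by
  classical
  have h : Function.Injective (fun x : CoprodI Γ => (Word.equiv x).toList) := by
    intro x y hxy
    apply Word.equiv.injective
    exact Word.ext hxy
  exact h.countable

end Pool.Agent.Helper32.FG
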