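import Pool.Agent.Helper32.FG.One
import Pool.Agent.Helper32.FG.Word

/-! The branching recursion on a free product. -/

set_option autoImplicit false
set_option linter.unusedSectionVars false
set_option linter.unusedSimpArgs false
set_option linter.deprecated false

open scoped BigOperators InnerProductSpace Topology
open Filter MeasureTheory
open Monoid (CoprodI)
open Monoid.CoprodI (of Word of_injective)

namespace Pool.Agent.Helper32.FG

open Pool.Agent.TH369.AN (Rz rz_eq rz_uniq rz_norm)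
open Pool.Agent.Y662.TR (LL lmk lmk_apply ll_inner ll_ext ll_summable ll_coord ll_sum dv dv_apply
  dv_self dv_ne inner_dv norm_dv ev ev_apply add_coord sub_coord neg_coord smul_coord Cf Cf_apply
  Cf_norm clp clp_abs clp_eq clp_cont Mw Mw_apply Mw_norm Mw_sa Mw_tendsto)
open Pool.Agent.Helper32.BS (pw clp_pw)

variable {ι : Type} [Fintype ι] [DecidableEq ι] {Γ : ι → Type} [∀ i, Group (Γ i)]

/-- the embedding of a factor -/
abbrev em (Γ : ι → Type) [∀ i, Group (Γ i)] (i : ι) : Γ i →* CoprodI Γ := of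

theorem em_inj (i : ι) : Function.Injective (em Γ i) := of_injective i

/-- the hopping on the free product -/
noncomputable def Lf (a : ∀ i, Γ i →₀ ℝ) : LL (CoprodI Γ) →L[ℂ] LL (CoprodI Γ) :=
  ∑ i, Cv (em Γ i) (a i)

theorem Lf_sa {a : ∀ i, Γ i →₀ ℝ} (h : ∀ i s, a i s⁻¹ = a i s) : IsSelfAdjoint (Lf a) := by
  unfold Lf
  rw [isSelfAdjoint_iff, star_sum]
  exact Finset.sum_congr rfl fun i _ => (Cv_sa (em Γ i) (h i)).star_eq

theorem Lf_apply (a : ∀ i, Γ i →₀ ℝ) (u : LL (CoprodI Γ)) (x : CoprodI Γ) :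
    Lf a u x = ∑ i, ∑ s ∈ (a i).support, ((a i s : ℝ) : ℂ) * u (x * em Γ i s) := by
  unfold Lf
  rw [ContinuousLinearMap.sum_apply, sum_coord]
  exact Finset.sum_congr rfl fun i _ => Cv_apply _ _ _ _

/-- the vector of the weights of the factor `i` -/
noncomputable def Ai (a : ∀ i, Γ i →₀ ℝ) (i : ι) : LL (CoprodI Γ) := Av (em Γ i) (a i)

open Classical in
theorem av_sym {Γ' Q : Type} [Group Γ'] [Group Q] (f : Γ' →* Q) {a : Γ' →₀ ℝ}
    (h : ∀ s, a s⁻¹ = a s) (x : Q) (c : ℂ) :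
    ∑ s ∈ a.support, ((a s : ℝ) : ℂ) * (if x * f s = 1 then c else 0) = Av f a x * c := by
  rw [Av_apply, Finset.sum_mul]
  refine Finset.sum_equiv (Equiv.inv Γ') (supp_inv h) fun s hs => ?_
  rw [Equiv.inv_apply, h, dv_apply, map_inv]
  by_cases hx : x * f s = 1
  · rw [if_pos hx, if_pos (eq_inv_of_mul_eq_one_left hx), mul_one]
  · rw [if_neg hx, if_neg (fun h2 => hx (by rw [h2, inv_mul_cancel]))]
    ring

theorem Ai_ne {a : ∀ i, Γ i →₀ ℝ} {j k : ι} (hjk : k ≠ j)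
    {x : CoprodI Γ} (hx : x ∈ Bs j) : Ai a k x = 0 := by
  apply Av_ne
  intro s hs
  rw [← hs] at hx
  exact hjk (of_mem_iff hx).1

theorem Ai_notMem {a : ∀ i, Γ i →₀ ℝ} (h1 : ∀ i, a i 1 = 0) {i : ι} {x : CoprodI Γ}
    (hx : x ∉ Bs i) : Ai a i x = 0 := by
  by_cases h : ∃ s, em Γ i s = x
  · obtain ⟨s, rfl⟩ := h
    unfold Ai
    rw [Av_of (em_inj i)]
    by_cases hs : s = 1
    · rw [hs, h1, Complex.ofReal_zero]
    · exact absurd (of_mem hs) hx
  · exact Av_ne _ _ _ fun s hs => h ⟨s, hs⟩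

/-- the left translation of the environment -/
def tr (g : CoprodI Γ) (ω : CoprodI Γ → ℝ) : CoprodI Γ → ℝ := fun x => ω (g * x)

theorem tr_apply (g : CoprodI Γ) (ω : CoprodI Γ → ℝ) (x : CoprodI Γ) : tr g ω x = ω (g * x) := rfl

/-- the left translation of the vectors -/
noncomputable def Lt (g : CoprodI Γ) : LL (CoprodI Γ) →L[ℂ] LL (CoprodI Γ) :=
  Cf (fun x : CoprodI Γ => g * x) (lt_inj g)

theorem Lt_apply (g : CoprodI Γ) (u : LL (CoprodI Γ)) (x : CoprodI Γ) : Lt g u x = u (g * x) := rfl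

/-- the resolvent on a branch -/
theorem side {a : ∀ i, Γ i →₀ ℝ} (hs : ∀ i s, a i s⁻¹ = a i s) (h1 : ∀ i, a i 1 = 0)
    (B : Set (CoprodI Γ)) (lam b : ℝ) (ω : CoprodI Γ → ℝ) (z : ℂ) (hz : 0 < z.im)
    (u f : LL (CoprodI Γ)) (hu : Th (Lf a) B lam b ω u - z • u = f) (g : CoprodI Γ) (hg : g ∈ B)
    (j : ι) (hB : ∀ x ∈ Bs j, g * x ∈ B) (hf : ∀ x ∈ Bs j, f (g * x) = 0) :
    Pj (Bs j) (Lt g u) = -(u g) • Rz (Th (Lf a) (Bs j) lam b (tr g ω)) z (Ai a j) := by
  classical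
  rw [← map_smul]
  apply rz_uniq _ (Th_sa (Lf_sa hs) _ _ _ _) z hz.ne'
  apply ll_ext
  intro x
  rw [sub_coord, smul_coord, smul_coord]
  by_cases hx : x ∈ Bs j
  · rw [Th_mem _ _ _ _ _ hx, Pj_mem _ hx, Lt_apply, Lf_apply, tr_apply]
    have e1 : (Th (Lf a) B lam b ω u - z • u : LL (CoprodI Γ)) (g * x) = 0 := by
      rw [hu]
      exact hf x hx
    rw [sub_coord, smul_coord, Th_mem _ _ _ _ _ (hB x hx), Lf_apply] at e1
    have e2 : ∀ (k : ι) (s : Γ k), Pj B u (g * x * em Γ k s) =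
        Pj (Bs j) (Pj (Bs j) (Lt g u)) (x * em Γ k s) +
          (if x * em Γ k s = 1 then u g else 0) := by
      intro k s
      rw [mul_assoc]
      rcases mem_right s hx with h2 | h2
      · have h3 : x * em Γ k s ≠ 1 := by
          intro h4
          have h5 : x * em Γ k s ∈ Bs j := h2
          rw [h4] at h5
          exact one_notMem j h5
        rw [if_neg h3, add_zero, Pj_mem _ h2, Pj_mem _ h2, Lt_apply, Pj_mem _ (hB _ h2)]
      · have h2' : x * em Γ k s = 1 := h2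
        rw [if_pos h2', h2', mul_one, Pj_mem _ hg, Pj_notMem _ (one_notMem j), zero_add]
    have e3 : ∀ k : ι, ∑ s ∈ (a k).support, ((a k s : ℝ) : ℂ) * Pj B u (g * x * em Γ k s) =
        ∑ s ∈ (a k).support, ((a k s : ℝ) : ℂ) *
          Pj (Bs j) (Pj (Bs j) (Lt g u)) (x * em Γ k s) + Ai a k x * u g := by
      intro k
      rw [Ai, ← av_sym (em Γ k) (hs k) x (u g), ← Finset.sum_add_distrib]
      refine Finset.sum_congr rfl fun s _ => ?_
      rw [e2]
      ring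
    simp only [e3] at e1
    rw [Finset.sum_add_distrib] at e1
    have e4 : ∑ k, Ai a k x * u g = Ai a j x * u g := by
      refine Finset.sum_eq_single_of_mem j (Finset.mem_univ j) fun k _ hk => ?_
      rw [Ai_ne hk hx, zero_mul]
    rw [e4] at e1
    linear_combination e1
  · rw [Th_notMem _ _ _ _ _ hx, Pj_notMem _ hx, Ai_notMem h1 hx]
    ring

/-- the Green function of a branch -/
noncomputable def Fi (a : ∀ i, Γ i →₀ ℝ) (i : ι) (lam b : ℝ) (z : ℂ) (ω : CoprodI Γ → ℝ) : ℂ :=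
  Gg (Lf a) (Bs i) (Ai a i) lam b z ω

/-- the self-energy -/
noncomputable def Ws (a : ∀ i, Γ i →₀ ℝ) (J : Finset ι) (lam b : ℝ) (z : ℂ)
    (ω : CoprodI Γ → ℝ) : ℂ :=
  z + ∑ j ∈ J, Fi a j lam b z ω - ((lam * clp b (ω 1) : ℝ) : ℂ)

/-- the reduced operator of a factor -/
noncomputable def Dp {Γ' : Type} [Group Γ'] (a : Γ' →₀ ℝ) : LL Γ' →L[ℂ] LL Γ' :=
  Cp (Cv (MonoidHom.id Γ') a) {1}ᶜ

/-- the vector of the weights of a factor -/
noncomputable def Ag {Γ' : Type} [Group Γ'] (a : Γ' →₀ ℝ) : LL Γ' := Av (MonoidHom.id Γ') a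

theorem Ag_apply {Γ' : Type} [Group Γ'] (a : Γ' →₀ ℝ) (y : Γ') : Ag a y = ((a y : ℝ) : ℂ) :=
  Av_of (f := MonoidHom.id Γ') Function.injective_id a y

theorem Ag_inner {Γ' : Type} [Group Γ'] (a : Γ' →₀ ℝ) (u : LL Γ') :
    ⟪Ag a, u⟫_ℂ = ∑ s ∈ a.support, ((a s : ℝ) : ℂ) * u s := Av_inner (MonoidHom.id Γ') a u

theorem Dp_sa {Γ' : Type} [Group Γ'] {a : Γ' →₀ ℝ} (h : ∀ s, a s⁻¹ = a s) :
    IsSelfAdjoint (Dp a) := Cp_sa (Cv_sa _ h) _

theorem Dp_apply {Γ' : Type} [Group Γ'] (a : Γ' →₀ ℝ) (u : LL Γ') {y : Γ'} (hy : y ≠ 1) :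
    Dp a u y = ∑ s ∈ a.support, ((a s : ℝ) : ℂ) * Pj {1}ᶜ u (y * s) := by
  unfold Dp
  rw [Cp_mem _ _ (show y ∈ ({1}ᶜ : Set Γ') from hy), Cv_apply]
  rfl

theorem Dp_one {Γ' : Type} [Group Γ'] (a : Γ' →₀ ℝ) (u : LL Γ') : Dp a u 1 = 0 := by
  unfold Dp
  exact Cp_notMem _ _ (by simp)

theorem Dp_cj {Γ' : Type} [Group Γ'] (a : Γ' →₀ ℝ) (u : LL Γ') : Dp a (cj u) = cj (Dp a u) := by
  classical
  apply ll_ext
  intro y
  rw [cj_apply]
  by_cases hy : y = 1
  · rw [hy, Dp_one, Dp_one, map_zero]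
  · rw [Dp_apply _ _ hy, Dp_apply _ _ hy, map_sum]
    refine Finset.sum_congr rfl fun s _ => ?_
    rw [map_mul, Complex.conj_ofReal, Pj_apply, Pj_apply]
    split_ifs
    · rw [cj_apply]
    · rw [map_zero]

theorem Ag_cj {Γ' : Type} [Group Γ'] (a : Γ' →₀ ℝ) : cj (Ag a) = Ag a := by
  apply ll_ext
  intro y
  rw [cj_apply, Ag_apply, Complex.conj_ofReal]

/-- the resolvent vector on a branch, restricted to the first copy -/
noncomputable def Uv (a : ∀ i, Γ i →₀ ℝ) (i : ι) (lam b : ℝ) (z : ℂ) (ω : CoprodI Γ → ℝ) :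
    LL (Γ i) := Cf (em Γ i) (em_inj i) (Rz (Th (Lf a) (Bs i) lam b ω) z (Ai a i))

theorem Fi_eq (a : ∀ i, Γ i →₀ ℝ) (i : ι) (lam b : ℝ) (z : ℂ) (ω : CoprodI Γ → ℝ) :
    Fi a i lam b z ω = ⟪Ag (a i), Uv a i lam b z ω⟫_ℂ := by
  unfold Fi Gg
  rw [Ag_inner]
  exact Av_inner _ _ _

/-- the equation on the first copy -/
theorem br_eq {a : ∀ i, Γ i →₀ ℝ} (hs : ∀ i s, a i s⁻¹ = a i s) (h1 : ∀ i, a i 1 = 0) (i : ι)
    (lam b : ℝ) {z : ℂ} (hz : 0 < z.im) (ω : CoprodI Γ → ℝ) (y : Γ i) :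
    Dp (a i) (Uv a i lam b z ω) y -
      Ws a (Finset.univ.erase i) lam b z (tr (em Γ i y) ω) * Uv a i lam b z ω y =
        Ag (a i) y := by
  obtain ⟨u, hu⟩ : ∃ u, u = Rz (Th (Lf a) (Bs i) lam b ω) z (Ai a i) := ⟨_, rfl⟩
  have hU : ∀ t : Γ i, Uv a i lam b z ω t = u (em Γ i t) := by
    intro t
    unfold Uv
    rw [← hu]
    rfl
  have he : Th (Lf a) (Bs i) lam b ω u - z • u = Ai a i := by
    rw [hu]
    exact rz_eq _ (Th_sa (Lf_sa hs) _ _ _ _) z hz.ne' _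
  by_cases hy : y = 1
  · subst hy
    have hu1 : u 1 = 0 := by
      have h2 : (Th (Lf a) (Bs i) lam b ω u - z • u : LL (CoprodI Γ)) 1 = 0 := by
        rw [he]
        exact Ai_notMem h1 (one_notMem i)
      rw [sub_coord, smul_coord, Th_notMem _ _ _ _ _ (one_notMem i), zero_sub, neg_eq_zero,
        mul_eq_zero] at h2
      rcases h2 with h2 | h2
      · rw [h2] at hz
        simp at hz
      · exact h2
    rw [Dp_one, hU, map_one, hu1, Ag_apply, h1]
    simp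
  · have hyB : em Γ i y ∈ Bs i := of_mem hy
    have e1 : (Th (Lf a) (Bs i) lam b ω u - z • u : LL (CoprodI Γ)) (em Γ i y) =
        ((a i y : ℝ) : ℂ) := by
      rw [he]
      exact Av_of (em_inj i) _ _
    rw [sub_coord, smul_coord, Th_mem _ _ _ _ _ hyB, Lf_apply,
      ← Finset.add_sum_erase _ _ (Finset.mem_univ i)] at e1
    have e2 : ∑ s ∈ (a i).support, ((a i s : ℝ) : ℂ) * Pj (Bs i) u (em Γ i y * em Γ i s) =
        Dp (a i) (Uv a i lam b z ω) y := by
      rw [Dp_apply _ _ hy]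
      refine Finset.sum_congr rfl fun s _ => ?_
      congr 1
      rw [← map_mul]
      by_cases hys : y * s = 1
      · rw [hys, map_one, Pj_notMem _ (one_notMem i), Pj_notMem _ (by simp)]
      · rw [Pj_mem _ (show em Γ i (y * s) ∈ Bs i from of_mem hys), Pj_mem _ (by simpa using hys),
          hU]
    have e3 : ∀ k ∈ Finset.univ.erase i,
        ∑ s ∈ (a k).support, ((a k s : ℝ) : ℂ) * Pj (Bs i) u (em Γ i y * em Γ k s) =
          -(u (em Γ i y)) * Fi a k lam b z (tr (em Γ i y) ω) := by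
      intro k hk
      have hki : k ≠ i := Finset.ne_of_mem_erase hk
      have h3 := side hs h1 (Bs i) lam b ω z hz u (Ai a i) he (em Γ i y) hyB k
        (fun x hx => mul_mem hy (Bs_disj hki hx)) (fun x hx => by
          apply Av_ne
          intro s h4
          have h5 : x = em Γ i (y⁻¹ * s) := by
            rw [map_mul, h4, ← mul_assoc, ← map_mul, inv_mul_cancel, map_one, one_mul]
          rw [h5] at hx
          exact hki (of_mem_iff hx).1.symm)
      unfold Fi Gg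
      have h4 : Ai a k = Av (em Γ k) (a k) := rfl
      rw [h4, Av_inner, Finset.mul_sum, ← h4]
      refine Finset.sum_congr rfl fun s hs' => ?_
      have hs1 : s ≠ 1 := by
        rintro rfl
        rw [Finsupp.mem_support_iff, h1] at hs'
        exact hs' rfl
      have hsk : em Γ k s ∈ Bs k := of_mem hs1
      have h5 : Pj (Bs k) (Lt (em Γ i y) u) (em Γ k s) =
          -(u (em Γ i y)) * Rz (Th (Lf a) (Bs k) lam b (tr (em Γ i y) ω)) z (Ai a k)
            (em Γ k s) := by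
        rw [h3, smul_coord]
      rw [Pj_mem _ hsk, Lt_apply] at h5
      rw [Pj_mem _ (mul_mem hy (Bs_disj hki hsk)), h5]
      ring
    rw [e2, Finset.sum_congr rfl e3, ← Finset.mul_sum] at e1
    rw [hU, Ag_apply, ← e1]
    unfold Ws
    rw [tr_apply, mul_one]
    ring

/-- the root: the elements of the branches of `J`, and `1` -/
def Rg (J : Finset ι) : Set (CoprodI Γ) := {x | ∀ j, x ∈ Bs j → j ∈ J}

theorem Rg_univ : Rg (Finset.univ : Finset ι) = (Set.univ : Set (CoprodI Γ)) := by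
  ext x
  simp [Rg]

theorem one_mem_Rg (J : Finset ι) : (1 : CoprodI Γ) ∈ Rg J := fun j hj =>
  absurd hj (one_notMem j)

theorem Bs_sub_Rg {J : Finset ι} {j : ι} (hj : j ∈ J) {x : CoprodI Γ} (hx : x ∈ Bs j) :
    x ∈ Rg J := by
  intro k hk
  by_cases hkj : k = j
  · rw [hkj]
    exact hj
  · exact absurd hk (Bs_disj (Ne.symm hkj) hx)

theorem Rg_erase (i : ι) : Rg (Finset.univ.erase i) = (Bs i : Set (CoprodI Γ))ᶜ := by
  ext x
  simp only [Rg, Set.mem_setOf_eq, Finset.mem_erase, Finset.mem_univ, and_true,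
    Set.mem_compl_iff]
  constructor
  · intro h hx
    exact h i hx rfl
  · rintro h j hj rfl
    exact h hj

/-- the Green function at the root -/
theorem root_eq {a : ∀ i, Γ i →₀ ℝ} (hs : ∀ i s, a i s⁻¹ = a i s) (h1 : ∀ i, a i 1 = 0)
    (J : Finset ι) (lam b : ℝ) {z : ℂ} (hz : 0 < z.im) (ω : CoprodI Γ → ℝ) :
    Gg (Lf a) (Rg J) (dv 1) lam b z ω * Ws a J lam b z ω = -1 := by
  obtain ⟨u, hu⟩ : ∃ u, u = Rz (Th (Lf a) (Rg J) lam b ω) z (dv 1) := ⟨_, rfl⟩
  have he : Th (Lf a) (Rg J) lam b ω u - z • u = dv 1 := by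
    rw [hu]
    exact rz_eq _ (Th_sa (Lf_sa hs) _ _ _ _) z hz.ne' _
  have hG : Gg (Lf a) (Rg J) (dv 1) lam b z ω = u 1 := by
    unfold Gg
    rw [inner_dv, ← hu]
  rw [hG]
  have e1 : (Th (Lf a) (Rg J) lam b ω u - z • u : LL (CoprodI Γ)) 1 = 1 := by
    rw [he, dv_self]
  rw [sub_coord, smul_coord, Th_mem _ _ _ _ _ (one_mem_Rg J), Lf_apply] at e1
  have e2 : ∀ k ∈ J, ∑ s ∈ (a k).support, ((a k s : ℝ) : ℂ) * Pj (Rg J) u (1 * em Γ k s) =
      -(u 1) * Fi a k lam b z ω := by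
    intro k hk
    have h3 := side hs h1 (Rg J) lam b ω z hz u (dv 1) he 1 (one_mem_Rg J) k
      (fun x hx => by rw [one_mul]; exact Bs_sub_Rg hk hx) (fun x hx => by
        rw [one_mul, dv_ne]
        rintro rfl
        exact one_notMem k hx)
    have h0 : tr 1 ω = ω := by
      funext x
      rw [tr_apply, one_mul]
    rw [h0] at h3
    unfold Fi Gg
    have h4 : Ai a k = Av (em Γ k) (a k) := rfl
    rw [h4, Av_inner, Finset.mul_sum, ← h4]
    refine Finset.sum_congr rfl fun s hs' => ?_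
    have hs1 : s ≠ 1 := by
      rintro rfl
      rw [Finsupp.mem_support_iff, h1] at hs'
      exact hs' rfl
    have hsk : em Γ k s ∈ Bs k := of_mem hs1
    have h5 : Pj (Bs k) (Lt 1 u) (em Γ k s) =
        -(u 1) * Rz (Th (Lf a) (Bs k) lam b ω) z (Ai a k) (em Γ k s) := by
      rw [h3, smul_coord]
    rw [Pj_mem _ hsk, Lt_apply, one_mul] at h5
    rw [one_mul, Pj_mem _ (Bs_sub_Rg hk hsk), h5]
    ring
  have e3 : ∀ k ∉ J, ∑ s ∈ (a k).support, ((a k s : ℝ) : ℂ) * Pj (Rg J) u (1 * em Γ k s) =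
      0 := by
    intro k hk
    refine Finset.sum_eq_zero fun s hs' => ?_
    have hs1 : s ≠ 1 := by
      rintro rfl
      rw [Finsupp.mem_support_iff, h1] at hs'
      exact hs' rfl
    have hsk : em Γ k s ∈ Bs k := of_mem hs1
    have hn : em Γ k s ∉ Rg J := fun h => hk (h k hsk)
    rw [one_mul, Pj_notMem _ hn, mul_zero]
  have e4 : ∑ k, ∑ s ∈ (a k).support, ((a k s : ℝ) : ℂ) * Pj (Rg J) u (1 * em Γ k s) =
      ∑ k ∈ J, -(u 1) * Fi a k lam b z ω := by
    rw [← Finset.sum_subset (Finset.subset_univ J) (fun k _ hk => e3 k hk)]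
    exact Finset.sum_congr rfl e2
  rw [e4, ← Finset.mul_sum] at e1
  unfold Ws
  linear_combination -e1

/-- translation invariance -/
theorem gg_tr {a : ∀ i, Γ i →₀ ℝ} (hs : ∀ i s, a i s⁻¹ = a i s) (lam b : ℝ) {z : ℂ}
    (hz : 0 < z.im) (ω : CoprodI Γ → ℝ) (g : CoprodI Γ) :
    Gg (Lf a) Set.univ (dv g) lam b z ω = Gg (Lf a) Set.univ (dv 1) lam b z (tr g ω) := by
  obtain ⟨u, hu⟩ : ∃ u, u = Rz (Th (Lf a) Set.univ lam b ω) z (dv g) := ⟨_, rfl⟩
  have he : Th (Lf a) Set.univ lam b ω u - z • u = dv g := by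
    rw [hu]
    exact rz_eq _ (Th_sa (Lf_sa hs) _ _ _ _) z hz.ne' _
  have h2 : Lt g u = Rz (Th (Lf a) Set.univ lam b (tr g ω)) z (dv 1) := by
    apply rz_uniq _ (Th_sa (Lf_sa hs) _ _ _ _) z hz.ne'
    apply ll_ext
    intro x
    have e1 : (Th (Lf a) Set.univ lam b ω u - z • u : LL (CoprodI Γ)) (g * x) = dv g (g * x) := by
      rw [he]
    rw [sub_coord, smul_coord, Th_mem _ _ _ _ _ (Set.mem_univ _), Lf_apply] at e1
    rw [sub_coord, smul_coord, Th_mem _ _ _ _ _ (Set.mem_univ _), Lf_apply, Lt_apply, tr_apply]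
    have e2 : (dv 1 : LL (CoprodI Γ)) x = dv g (g * x) := by
      classical
      rw [dv_apply, dv_apply]
      by_cases hx : x = 1
      · rw [if_pos hx, if_pos (by rw [hx, mul_one])]
      · rw [if_neg hx, if_neg (fun h => hx (by simpa using h))]
    rw [e2, ← e1]
    congr 2
    refine Finset.sum_congr rfl fun k _ => Finset.sum_congr rfl fun s _ => ?_
    rw [Pj_mem _ (Set.mem_univ _), Pj_mem _ (Set.mem_univ _), Lt_apply, mul_assoc]
  unfold Gg
  rw [inner_dv, inner_dv, ← hu, ← h2, Lt_apply, mul_one]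

end Pool.Agent.Helper32.FG
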