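import Pool.Agent.Helper32.BS.Env
import Pool.Graph.R_pool_sql_team_seeded_1acbe0a2.Y662.TR.Der

/-! Operators on `ℓ²` of a group. -/

set_option autoImplicit false
set_option linter.unusedSectionVars false
set_option linter.unusedSimpArgs false
set_option linter.deprecated false

open scoped BigOperators InnerProductSpace Topology
open Filter MeasureTheory

namespace Pool.Agent.Helper32.FG

open Pool.Agent.TH369.AN (Rz rz_eq rz_uniq rz_norm)
open Pool.Agent.Y662.TR (LL lmk lmk_apply ll_inner ll_ext ll_summable ll_coord ll_sum dv dv_apply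
  dv_self dv_ne inner_dv norm_dv ev ev_apply add_coord sub_coord neg_coord smul_coord Cf Cf_apply
  Cf_norm Cf_dv Cf_dv_ne Cf_adj Cf_adj_ne Cf_adj_norm clp clp_abs clp_eq clp_cont Mw Mw_apply
  Mw_norm Mw_sa Mw_tendsto rz_two)
open Pool.Agent.Helper32.BS (pw pw_tendsto clp_pw real_smul_sa rz_sub rz_tendsto)

section grp

variable {Q Γ : Type} [Group Q] [Group Γ]

theorem rt_inj (g : Q) : Function.Injective (fun x : Q => x * g) := mul_left_injective g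

theorem lt_inj (g : Q) : Function.Injective (fun x : Q => g * x) := mul_right_injective g

/-- the right translation -/
noncomputable def Rt (g : Q) : LL Q →L[ℂ] LL Q := Cf (fun x : Q => x * g) (rt_inj g)

theorem Rt_apply (g : Q) (u : LL Q) (x : Q) : Rt g u x = u (x * g) := rfl

theorem Rt_adj (g : Q) : ContinuousLinearMap.adjoint (Rt g) = Rt g⁻¹ := by
  ext1 u
  apply ll_ext
  intro x
  have h := Cf_adj (fun x : Q => x * g) (rt_inj g) u (x * g⁻¹)
  simp only [inv_mul_cancel_right] at h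
  exact h

/-- the hopping -/
noncomputable def Cv (f : Γ →* Q) (a : Γ →₀ ℝ) : LL Q →L[ℂ] LL Q :=
  ∑ s ∈ a.support, ((a s : ℝ) : ℂ) • Rt (f s)

theorem sum_coord {V κ : Type} (s : Finset κ) (u : κ → LL V) (x : V) :
    (∑ i ∈ s, u i : LL V) x = ∑ i ∈ s, u i x := by
  rw [← ev_apply x, map_sum]
  rfl

theorem Cv_apply (f : Γ →* Q) (a : Γ →₀ ℝ) (u : LL Q) (x : Q) :
    Cv f a u x = ∑ s ∈ a.support, ((a s : ℝ) : ℂ) * u (x * f s) := by
  unfold Cv
  rw [ContinuousLinearMap.sum_apply, sum_coord]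
  rfl

theorem supp_inv {a : Γ →₀ ℝ} (h : ∀ s, a s⁻¹ = a s) (s : Γ) :
    s ∈ a.support ↔ (Equiv.inv Γ) s ∈ a.support := by
  rw [Finsupp.mem_support_iff, Finsupp.mem_support_iff, Equiv.inv_apply, h]

theorem Cv_sa (f : Γ →* Q) {a : Γ →₀ ℝ} (h : ∀ s, a s⁻¹ = a s) : IsSelfAdjoint (Cv f a) := by
  rw [isSelfAdjoint_iff]
  unfold Cv
  rw [star_sum]
  refine Finset.sum_equiv (Equiv.inv Γ) (supp_inv h) fun s hs => ?_
  rw [star_smul, ContinuousLinearMap.star_eq_adjoint, Rt_adj, Equiv.inv_apply, h, map_inv]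
  congr 1
  exact Complex.conj_ofReal _

/-- the vector of the weights -/
noncomputable def Av (f : Γ →* Q) (a : Γ →₀ ℝ) : LL Q :=
  ∑ s ∈ a.support, ((a s : ℝ) : ℂ) • dv (f s)

theorem Av_apply (f : Γ →* Q) (a : Γ →₀ ℝ) (x : Q) :
    Av f a x = ∑ s ∈ a.support, ((a s : ℝ) : ℂ) * dv (f s) x := by
  unfold Av
  rw [sum_coord]
  rfl

theorem Av_of {f : Γ →* Q} (hf : Function.Injective f) (a : Γ →₀ ℝ) (s : Γ) :
    Av f a (f s) = ((a s : ℝ) : ℂ) := by
  rw [Av_apply]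
  by_cases hs : s ∈ a.support
  · rw [Finset.sum_eq_single_of_mem s hs, dv_self, mul_one]
    intro t _ hts
    rw [dv_ne, mul_zero]
    intro h
    exact hts (hf h).symm
  · rw [Finset.sum_eq_zero]
    · rw [Finsupp.notMem_support_iff] at hs
      rw [hs, Complex.ofReal_zero]
    · intro t ht
      rw [dv_ne, mul_zero]
      intro h
      rw [hf h] at hs
      exact hs ht

theorem Av_ne (f : Γ →* Q) (a : Γ →₀ ℝ) (x : Q) (h : ∀ s, f s ≠ x) : Av f a x = 0 := by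
  rw [Av_apply]
  refine Finset.sum_eq_zero fun t _ => ?_
  rw [dv_ne, mul_zero]
  exact fun h2 => h t h2.symm

theorem Av_inner (f : Γ →* Q) (a : Γ →₀ ℝ) (u : LL Q) :
    ⟪Av f a, u⟫_ℂ = ∑ s ∈ a.support, ((a s : ℝ) : ℂ) * u (f s) := by
  unfold Av
  rw [sum_inner]
  refine Finset.sum_congr rfl fun s _ => ?_
  rw [inner_smul_left, inner_dv, Complex.conj_ofReal]

theorem Av_ne_zero {f : Γ →* Q} (hf : Function.Injective f) {a : Γ →₀ ℝ} (ha : a ≠ 0) :
    Av f a ≠ 0 := by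
  intro h
  apply ha
  ext s
  have h1 := Av_of hf a s
  rw [h] at h1
  have h2 : ((a s : ℝ) : ℂ) = 0 := h1.symm
  simpa using h2

end grp

section proj

variable {V : Type}

/-- the projection to the functions on `B` -/
noncomputable def Pj (B : Set V) : LL V →L[ℂ] LL V := Mw 1 (B.indicator 1)

open Classical in
theorem Pj_apply (B : Set V) (u : LL V) (x : V) : Pj B u x = if x ∈ B then u x else 0 := by
  unfold Pj
  rw [Mw_apply]
  by_cases h : x ∈ B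
  · rw [Set.indicator_of_mem h, if_pos h, clp_eq (by simp)]
    simp
  · rw [Set.indicator_of_notMem h, if_neg h, clp_eq (by simp)]
    simp

theorem Pj_mem {B : Set V} (u : LL V) {x : V} (h : x ∈ B) : Pj B u x = u x := by
  rw [Pj_apply, if_pos h]

theorem Pj_notMem {B : Set V} (u : LL V) {x : V} (h : x ∉ B) : Pj B u x = 0 := by
  rw [Pj_apply, if_neg h]

theorem Pj_sa (B : Set V) : IsSelfAdjoint (Pj B) := Mw_sa _ _

theorem Pj_norm (B : Set V) : ‖Pj B‖ ≤ 1 := by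
  have h := Mw_norm (1 : ℝ) (B.indicator (1 : V → ℝ))
  rwa [abs_one] at h

/-- the compression -/
noncomputable def Cp (L : LL V →L[ℂ] LL V) (B : Set V) : LL V →L[ℂ] LL V := Pj B * L * Pj B

theorem Cp_sa {L : LL V →L[ℂ] LL V} (hL : IsSelfAdjoint L) (B : Set V) : IsSelfAdjoint (Cp L B) := by
  unfold Cp
  rw [isSelfAdjoint_iff, star_mul, star_mul, hL.star_eq, (Pj_sa B).star_eq, mul_assoc]

theorem Cp_mem (L : LL V →L[ℂ] LL V) {B : Set V} (u : LL V) {x : V} (h : x ∈ B) :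
    Cp L B u x = L (Pj B u) x := by
  unfold Cp
  rw [mul_assoc, ContinuousLinearMap.mul_apply, Pj_mem _ h, ContinuousLinearMap.mul_apply]

theorem Cp_notMem (L : LL V →L[ℂ] LL V) {B : Set V} (u : LL V) {x : V} (h : x ∉ B) :
    Cp L B u x = 0 := by
  unfold Cp
  rw [mul_assoc, ContinuousLinearMap.mul_apply, Pj_notMem _ h]

theorem Cp_norm (L : LL V →L[ℂ] LL V) (B : Set V) : ‖Cp L B‖ ≤ ‖L‖ := by
  unfold Cp
  have h1 := norm_mul_le (Pj B * L) (Pj B)
  have h2 := norm_mul_le (Pj B) L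
  have h3 := Pj_norm B
  have h4 := norm_nonneg (Pj B)
  have h5 := norm_nonneg L
  have h6 := norm_nonneg (Pj B * L)
  nlinarith

/-- the Hamiltonian on `B` -/
noncomputable def Th (L : LL V →L[ℂ] LL V) (B : Set V) (lam b : ℝ) (ω : V → ℝ) :
    LL V →L[ℂ] LL V := Cp (L + Mw (lam * b) (pw lam b ω)) B

theorem Th_sa {L : LL V →L[ℂ] LL V} (hL : IsSelfAdjoint L) (B : Set V) (lam b : ℝ) (ω : V → ℝ) :
    IsSelfAdjoint (Th L B lam b ω) := Cp_sa (hL.add (Mw_sa _ _)) B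

theorem Th_mem (L : LL V →L[ℂ] LL V) {B : Set V} (lam b : ℝ) (ω : V → ℝ) (u : LL V) {x : V}
    (h : x ∈ B) : Th L B lam b ω u x = L (Pj B u) x + ((lam * clp b (ω x) : ℝ) : ℂ) * u x := by
  unfold Th
  rw [Cp_mem _ _ h, ContinuousLinearMap.add_apply, add_coord, Mw_apply, clp_pw, Pj_mem _ h]

theorem Th_notMem (L : LL V →L[ℂ] LL V) {B : Set V} (lam b : ℝ) (ω : V → ℝ) (u : LL V) {x : V}
    (h : x ∉ B) : Th L B lam b ω u x = 0 := Cp_notMem _ _ h

theorem Th_norm (L : LL V →L[ℂ] LL V) (B : Set V) (lam b : ℝ) (ω : V → ℝ) :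
    ‖Th L B lam b ω‖ ≤ ‖L‖ + |lam * b| := by
  refine (Cp_norm _ B).trans ((norm_add_le _ _).trans ?_)
  have := Mw_norm (lam * b) (pw lam b ω)
  linarith

theorem Th_tendsto {α : Type} {F : Filter α} (L : LL V →L[ℂ] LL V) (B : Set V) (lam b : ℝ)
    (w : α → V → ℝ) (w0 : V → ℝ) (hw : ∀ x, Tendsto (fun k => w k x) F (𝓝 (w0 x))) (u : LL V) :
    Tendsto (fun k => Th L B lam b (w k) u) F (𝓝 (Th L B lam b w0 u)) := by
  unfold Th Cp
  simp only [ContinuousLinearMap.mul_apply, ContinuousLinearMap.add_apply]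
  refine ((Pj B).continuous.tendsto _).comp ?_
  refine tendsto_const_nhds.add (Mw_tendsto _ _ _ (fun x => ?_) _)
  have h : Continuous fun ω : ℝ => lam * clp b ω := (clp_cont b).const_mul lam
  exact (h.tendsto (w0 x)).comp (hw x)

/-- the values on `B` matter -/
theorem Th_congr (L : LL V →L[ℂ] LL V) {B : Set V} (lam b : ℝ) {ω ω' : V → ℝ}
    (h : ∀ x ∈ B, ω x = ω' x) : Th L B lam b ω = Th L B lam b ω' := by
  ext1 u
  apply ll_ext
  intro x
  by_cases hx : x ∈ B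
  · rw [Th_mem _ _ _ _ _ hx, Th_mem _ _ _ _ _ hx, h x hx]
  · rw [Th_notMem _ _ _ _ _ hx, Th_notMem _ _ _ _ _ hx]

/-- the matrix element of the resolvent -/
noncomputable def Gg (L : LL V →L[ℂ] LL V) (B : Set V) (v : LL V) (lam b : ℝ) (z : ℂ)
    (ω : V → ℝ) : ℂ := ⟪v, Rz (Th L B lam b ω) z v⟫_ℂ

theorem Gg_cont {L : LL V →L[ℂ] LL V} (hL : IsSelfAdjoint L) (B : Set V) (v : LL V) (lam b : ℝ)
    (z : ℂ) (hz : 0 < z.im) : Continuous fun ω : V → ℝ => Gg L B v lam b z ω := by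
  rw [continuous_iff_continuousAt]
  intro ω0
  unfold ContinuousAt Gg
  refine ((innerSL ℂ v).continuous.tendsto _).comp ?_
  exact rz_tendsto (fun ω : V → ℝ => Th L B lam b ω) _ (fun ω => Th_sa hL _ _ _ _)
    (Th_sa hL _ _ _ _) (fun u => Th_tendsto L B lam b _ _
      (fun x => (continuous_apply x).tendsto ω0) u) z hz.ne' _

theorem Gg_two {L : LL V →L[ℂ] LL V} (hL : IsSelfAdjoint L) (B : Set V) (v : LL V) (lam b : ℝ)
    {w z : ℂ} (hw : 0 < w.im) (hz : 0 < z.im) (ω : V → ℝ) :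
    ‖Gg L B v lam b w ω - Gg L B v lam b z ω‖ ≤ ‖v‖ ^ 2 * ‖w - z‖ / (w.im * z.im) := by
  unfold Gg
  rw [← inner_sub_right]
  refine (norm_inner_le_norm _ _).trans ?_
  have h1 := rz_two _ (Th_sa hL B lam b ω) w z hw hz v
  have h2 := rz_norm _ (Th_sa hL B lam b ω) z hz.ne' v
  rw [abs_of_pos hz] at h2
  calc ‖v‖ * ‖Rz (Th L B lam b ω) w v - Rz (Th L B lam b ω) z v‖ ≤
        ‖v‖ * (‖w - z‖ * (‖v‖ / z.im) / w.im) := by
          refine mul_le_mul_of_nonneg_left (h1.trans ?_) (norm_nonneg _)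
          gcongr
    _ = _ := by
      field_simp

theorem Gg_contz {L : LL V →L[ℂ] LL V} (hL : IsSelfAdjoint L) (B : Set V) (v : LL V) (lam b : ℝ)
    (ω : V → ℝ) : ContinuousOn (fun z : ℂ => Gg L B v lam b z ω) {z | 0 < z.im} := by
  intro z0 hz0
  have hz0' : 0 < z0.im := hz0
  unfold ContinuousWithinAt
  rw [tendsto_iff_norm_sub_tendsto_zero]
  have h1 : Tendsto (fun z : ℂ => ‖v‖ ^ 2 * ‖z - z0‖ / (z.im * z0.im)) (𝓝[{z | 0 < z.im}] z0)
      (𝓝 0) := by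
    have h2 : ContinuousAt (fun z : ℂ => ‖v‖ ^ 2 * ‖z - z0‖ / (z.im * z0.im)) z0 := by
      refine ContinuousAt.div (by fun_prop) ?_ (mul_pos hz0' hz0').ne'
      exact (Complex.continuous_im.mul continuous_const).continuousAt
    have h3 := h2.tendsto
    simp only [sub_self, norm_zero, mul_zero, zero_div] at h3
    exact h3.mono_left nhdsWithin_le_nhds
  refine squeeze_zero' (Eventually.of_forall fun z => norm_nonneg _) ?_ h1
  filter_upwards [self_mem_nhdsWithin] with z hz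
  exact Gg_two hL B v lam b hz hz0' ω

theorem Gg_norm {L : LL V →L[ℂ] LL V} (hL : IsSelfAdjoint L) (B : Set V) (v : LL V) (lam b : ℝ)
    {z : ℂ} (hz : 0 < z.im) (ω : V → ℝ) : ‖Gg L B v lam b z ω‖ ≤ ‖v‖ ^ 2 / z.im := by
  unfold Gg
  refine (norm_inner_le_norm _ _).trans ?_
  have h2 := rz_norm _ (Th_sa hL B lam b ω) z hz.ne' v
  rw [abs_of_pos hz] at h2
  calc ‖v‖ * ‖Rz (Th L B lam b ω) z v‖ ≤ ‖v‖ * (‖v‖ / z.im) := by
        gcongr
    _ = _ := by ring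

theorem rz_lower {X : Type} [NormedAddCommGroup X] [InnerProductSpace ℂ X] [CompleteSpace X]
    (T : X →L[ℂ] X) (hT : IsSelfAdjoint T) (z : ℂ) (hz : 0 < z.im) (φ : X) :
    ‖φ‖ ≤ (‖T‖ + ‖z‖) * ‖Rz T z φ‖ := by
  have h := rz_eq T hT z hz.ne' φ
  calc ‖φ‖ = ‖T (Rz T z φ) - z • Rz T z φ‖ := by rw [h]
    _ ≤ ‖T (Rz T z φ)‖ + ‖z • Rz T z φ‖ := norm_sub_le _ _
    _ ≤ ‖T‖ * ‖Rz T z φ‖ + ‖z‖ * ‖Rz T z φ‖ := by
        rw [norm_smul]
        have := T.le_opNorm (Rz T z φ)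
        linarith
    _ = _ := by ring

theorem Gg_im {L : LL V →L[ℂ] LL V} (hL : IsSelfAdjoint L) (B : Set V) (v : LL V) (lam b : ℝ)
    {z : ℂ} (hz : 0 < z.im) (ω : V → ℝ) :
    (Gg L B v lam b z ω).im = z.im * ‖Rz (Th L B lam b ω) z v‖ ^ 2 :=
  Pool.Agent.H12R2.And.im_inner (Th_sa hL B lam b ω) hz.ne' v

theorem Gg_im_lower {L : LL V →L[ℂ] LL V} (hL : IsSelfAdjoint L) (B : Set V) (v : LL V)
    (lam b : ℝ) {z : ℂ} (hz : 0 < z.im) (ω : V → ℝ) {R : ℝ} (hR : ‖L‖ + |lam * b| + ‖z‖ ≤ R) :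
    z.im * ‖v‖ ^ 2 ≤ R ^ 2 * (Gg L B v lam b z ω).im := by
  rw [Gg_im hL B v lam b hz ω]
  have h1 := rz_lower _ (Th_sa hL B lam b ω) z hz v
  have h2 := Th_norm L B lam b ω
  have h3 : ‖v‖ ≤ R * ‖Rz (Th L B lam b ω) z v‖ := by
    refine h1.trans ?_
    gcongr
    linarith
  have h4 : ‖v‖ ^ 2 ≤ (R * ‖Rz (Th L B lam b ω) z v‖) ^ 2 := by gcongr
  nlinarith

theorem Gg_pos {L : LL V →L[ℂ] LL V} (hL : IsSelfAdjoint L) (B : Set V) {v : LL V} (hv : v ≠ 0)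
    (lam b : ℝ) {z : ℂ} (hz : 0 < z.im) (ω : V → ℝ) : 0 < (Gg L B v lam b z ω).im := by
  have h1 := Gg_im_lower hL B v lam b hz ω le_rfl
  have h2 : 0 < ‖v‖ := norm_pos_iff.2 hv
  have h3 : 0 < (‖L‖ + |lam * b| + ‖z‖) ^ 2 * (Gg L B v lam b z ω).im := by
    refine lt_of_lt_of_le ?_ h1
    positivity
  by_contra h4
  push Not at h4
  have h5 : (‖L‖ + |lam * b| + ‖z‖) ^ 2 * (Gg L B v lam b z ω).im ≤ 0 :=
    mul_nonpos_of_nonneg_of_nonpos (sq_nonneg _) h4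
  linarith

/-- small potentials -/
theorem Gg_lam {L : LL V →L[ℂ] LL V} (hL : IsSelfAdjoint L) (B : Set V) (v : LL V) (lam b : ℝ)
    {z : ℂ} (hz : 0 < z.im) (ω : V → ℝ) :
    ‖Gg L B v lam b z ω - Gg L B v 0 b z 0‖ ≤ ‖v‖ ^ 2 * |lam * b| / z.im ^ 2 := by
  unfold Gg
  rw [← inner_sub_right, rz_sub (Th_sa hL B lam b ω) (Th_sa hL B 0 b 0) z hz.ne']
  refine (norm_inner_le_norm _ _).trans ?_
  obtain ⟨r, hr⟩ : ∃ r, r = Rz (Th L B 0 b 0) z v := ⟨_, rfl⟩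
  rw [← hr]
  have h2 := rz_norm _ (Th_sa hL B 0 b 0) z hz.ne' v
  rw [← hr, abs_of_pos hz] at h2
  have h3 : ‖Th L B 0 b 0 r - Th L B lam b ω r‖ ≤ |lam * b| * ‖r‖ := by
    have h4 : Th L B 0 b 0 r - Th L B lam b ω r = -(Cp (Mw (lam * b) (pw lam b ω)) B r) := by
      apply ll_ext
      intro x
      rw [sub_coord, neg_coord]
      by_cases hx : x ∈ B
      · rw [Th_mem _ _ _ _ _ hx, Th_mem _ _ _ _ _ hx, Cp_mem _ _ hx, Mw_apply, clp_pw,
          Pj_mem _ hx]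
        push_cast
        ring
      · rw [Th_notMem _ _ _ _ _ hx, Th_notMem _ _ _ _ _ hx, Cp_notMem _ _ hx]
        ring
    rw [h4, norm_neg]
    refine ((Cp (Mw (lam * b) (pw lam b ω)) B).le_opNorm r).trans ?_
    have h5 := Cp_norm (Mw (lam * b) (pw lam b ω)) B
    have h6 := Mw_norm (lam * b) (pw lam b ω)
    have := norm_nonneg r
    gcongr
    exact h5.trans h6
  have h7 := rz_norm _ (Th_sa hL B lam b ω) z hz.ne' (Th L B 0 b 0 r - Th L B lam b ω r)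
  rw [abs_of_pos hz] at h7
  calc ‖v‖ * ‖Rz (Th L B lam b ω) z (Th L B 0 b 0 r - Th L B lam b ω r)‖ ≤
        ‖v‖ * (|lam * b| * (‖v‖ / z.im) / z.im) := by
          refine mul_le_mul_of_nonneg_left (h7.trans ?_) (norm_nonneg _)
          gcongr
          refine h3.trans ?_
          gcongr
    _ = _ := by field_simp

theorem clp_zero (x : ℝ) : clp 0 x = 0 := by
  have := clp_abs 0 x
  rw [abs_zero] at this
  exact abs_nonpos_iff.1 this

theorem Th_zero (L : LL V →L[ℂ] LL V) (B : Set V) (b : ℝ) (ω : V → ℝ) :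
    Th L B 0 b ω = Cp L B := by
  ext1 u
  apply ll_ext
  intro x
  by_cases hx : x ∈ B
  · rw [Th_mem _ _ _ _ _ hx, Cp_mem _ _ hx]
    simp
  · rw [Th_notMem _ _ _ _ _ hx, Cp_notMem _ _ hx]

end proj

end Pool.Agent.Helper32.FG
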