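import Pool.Agent.Helper32.FG.Bl
import Pool.Agent.Helper32.FG.Op

/-! If the Green function has no cluster value in the upper half plane then the cyclic space is
finite dimensional. -/

set_option autoImplicit false
set_option linter.unusedSectionVars false
set_option linter.unusedSimpArgs false
set_option linter.deprecated false
set_option linter.unusedVariables false

open scoped BigOperators InnerProductSpace Topology
open Filter

namespace Pool.Agent.Helper32.FG

open Pool.Agent.TH369.AN (Rz rz_eq rz_uniq rz_norm rz_diff)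

variable {X : Type} [NormedAddCommGroup X] [InnerProductSpace ℂ X] [CompleteSpace X]

/-- the Green function -/
noncomputable def gr (T : X →L[ℂ] X) (φ : X) (z : ℂ) : ℂ := ⟪φ, Rz T z φ⟫_ℂ

/-- cluster values in the upper half plane -/
def Clu (T : X →L[ℂ] X) (φ : X) (E : ℝ) : Prop :=
  ∃ (z : ℕ → ℂ) (w : ℂ), (∀ n, 0 < (z n).im) ∧ Tendsto z atTop (𝓝 (E : ℂ)) ∧
    Tendsto (fun n => gr T φ (z n)) atTop (𝓝 w) ∧ 0 < w.im

theorem gr_im (T : X →L[ℂ] X) (hT : IsSelfAdjoint T) (φ : X) {z : ℂ} (hz : z ∈ Up) :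
    0 ≤ (gr T φ z).im := by
  have hz' : 0 < z.im := hz
  have h : (gr T φ z).im = z.im * ‖Rz T z φ‖ ^ 2 :=
    Pool.Agent.H12R2.And.im_inner hT hz'.ne' φ
  rw [h]
  positivity

theorem gr_diff (T : X →L[ℂ] X) (hT : IsSelfAdjoint T) (φ : X) :
    DifferentiableOn ℂ (gr T φ) Up := fun z hz =>
  (rz_diff T hT φ φ z (ne_of_gt hz)).differentiableWithinAt

/-- decay -/
theorem gr_decay (T : X →L[ℂ] X) (hT : IsSelfAdjoint T) (φ : X) {z : ℂ} (hz : z ∈ Up) :
    ‖gr T φ z‖ * (‖z‖ - ‖T‖) ≤ ‖φ‖ ^ 2 := by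
  have hz' : 0 < z.im := hz
  have h1 := rz_eq T hT z hz'.ne' φ
  obtain ⟨u, hu⟩ : ∃ u, u = Rz T z φ := ⟨_, rfl⟩
  rw [← hu] at h1
  have e1 : ‖z • u‖ ≤ ‖T u‖ + ‖φ‖ := by
    have e2 : z • u = T u - φ := by rw [← h1]; abel
    rw [e2]
    exact norm_sub_le _ _
  rw [norm_smul] at e1
  have e3 := T.le_opNorm u
  have e4 : ‖u‖ * (‖z‖ - ‖T‖) ≤ ‖φ‖ := by nlinarith
  have e5 : ‖gr T φ z‖ ≤ ‖φ‖ * ‖u‖ := by
    unfold gr
    rw [← hu]
    exact norm_inner_le_norm _ _
  have e6 := norm_nonneg φ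
  by_cases h : 0 ≤ ‖z‖ - ‖T‖
  · nlinarith
  · push Not at h
    have e7 := norm_nonneg (gr T φ z)
    nlinarith

/-- the Cayley transform -/
noncomputable def cay (w : ℂ) : ℂ := (w - Complex.I) / (w + Complex.I)

theorem add_I_ne {w : ℂ} (hw : 0 ≤ w.im) : w + Complex.I ≠ 0 := by
  intro h
  have h1 := congrArg Complex.im h
  rw [Complex.add_im, Complex.I_im, Complex.zero_im] at h1
  linarith

theorem cay_id (w : ℂ) : ‖w + Complex.I‖ ^ 2 = ‖w - Complex.I‖ ^ 2 + 4 * w.im := by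
  rw [Complex.sq_norm, Complex.sq_norm, Complex.normSq_apply, Complex.normSq_apply]
  simp only [Complex.add_re, Complex.add_im, Complex.sub_re, Complex.sub_im, Complex.I_re,
    Complex.I_im]
  ring

theorem cay_le {w : ℂ} (hw : 0 ≤ w.im) : ‖cay w‖ ≤ 1 := by
  unfold cay
  rw [norm_div, div_le_one (norm_pos_iff.2 (add_I_ne hw))]
  have h := cay_id w
  have h1 := norm_nonneg (w - Complex.I)
  have h2 := norm_nonneg (w + Complex.I)
  by_contra hcon
  push Not at hcon
  nlinarith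

/-- the preimage of a disc -/
theorem cay_pre {w : ℂ} (hw : 0 ≤ w.im) {r : ℝ} (hr0 : 0 ≤ r) (hr : r < 1) (h : ‖cay w‖ ≤ r) :
    (1 - r ^ 2) / 4 ≤ w.im ∧ ‖w‖ ≤ 2 + 16 / (1 - r ^ 2) ∧ (1 - r) / (1 + r) ≤ ‖w‖ := by
  have h0 := norm_pos_iff.2 (add_I_ne hw)
  unfold cay at h
  rw [norm_div, div_le_iff₀ h0] at h
  have h1 := cay_id w
  have h2 := norm_nonneg (w - Complex.I)
  have h3 : ‖w - Complex.I‖ ^ 2 ≤ r ^ 2 * ‖w + Complex.I‖ ^ 2 := by
    rw [← mul_pow]
    gcongr
  have h4 : (1 - r ^ 2) * ‖w + Complex.I‖ ^ 2 ≤ 4 * w.im := by linarith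
  have h5 : 0 < 1 - r ^ 2 := by nlinarith
  have h6 : 1 ≤ ‖w + Complex.I‖ := by
    have := Complex.abs_im_le_norm (w + Complex.I)
    rw [Complex.add_im, Complex.I_im] at this
    have := le_abs_self (w.im + 1)
    linarith
  refine ⟨?_, ?_, ?_⟩
  · have h7 : 1 ≤ ‖w + Complex.I‖ ^ 2 := by nlinarith
    nlinarith
  · by_contra hcon
    push Not at hcon
    have h7 : 0 < 16 / (1 - r ^ 2) := by positivity
    have h8 : ‖w‖ - 1 ≤ ‖w + Complex.I‖ := by
      have e1 := norm_sub_le (w + Complex.I) Complex.I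
      rw [add_sub_cancel_right, Complex.norm_I] at e1
      linarith
    have h9 : ‖w‖ / 2 ≤ ‖w + Complex.I‖ := by linarith
    have h10 : (1 - r ^ 2) * (‖w‖ / 2) ^ 2 ≤ 4 * ‖w‖ := by
      have e1 : (‖w‖ / 2) ^ 2 ≤ ‖w + Complex.I‖ ^ 2 := by gcongr
      have e2 := (le_abs_self w.im).trans (Complex.abs_im_le_norm w)
      nlinarith
    have h11 : 16 < (1 - r ^ 2) * ‖w‖ := by
      have e1 : 16 / (1 - r ^ 2) < ‖w‖ := by linarith
      rw [div_lt_iff₀ h5] at e1
      linarith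
    have h12 : 0 < ‖w‖ := by linarith
    nlinarith
  · rw [div_le_iff₀ (by linarith)]
    have e1 := norm_sub_le (w + Complex.I) w
    have e2 : ‖w + Complex.I‖ ≤ ‖w‖ + 1 := by
      have := norm_add_le w Complex.I
      rwa [Complex.norm_I] at this
    have e3 : 1 - ‖w‖ ≤ ‖w - Complex.I‖ := by
      have := norm_sub_norm_le Complex.I w
      rw [Complex.norm_I, norm_sub_rev] at this
      exact this
    nlinarith

/-- properness -/
theorem gr_pm (T : X →L[ℂ] X) (hT : IsSelfAdjoint T) (φ : X) (H : ∀ E : ℝ, ¬ Clu T φ E) :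
    Pm fun z => cay (gr T φ z) := by
  have hd : DifferentiableOn ℂ (fun z => cay (gr T φ z)) Up := by
    unfold cay
    refine ((gr_diff T hT φ).sub_const _).div ((gr_diff T hT φ).add_const _) fun z hz => ?_
    exact add_I_ne (gr_im T hT φ hz)
  refine ⟨hd, fun z hz => cay_le (gr_im T hT φ hz), fun r hr => ?_⟩
  by_cases hr0 : 0 ≤ r
  swap
  · push Not at hr0
    have : {z | z ∈ Up ∧ ‖cay (gr T φ z)‖ ≤ r} = ∅ := by
      ext z
      constructor
      · rintro ⟨-, h⟩
        have := norm_nonneg (cay (gr T φ z))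
        linarith
      · exact fun h => h.elim
    rw [this]
    exact isCompact_empty
  have hr2 : 0 < (1 - r) / (1 + r) := div_pos (by linarith) (by linarith)
  have h5 : 0 < 1 - r ^ 2 := by nlinarith
  apply Metric.isCompact_of_isClosed_isBounded
  · rw [← isSeqClosed_iff_isClosed]
    intro z w hz hzw
    have him : 0 ≤ w.im := by
      refine ge_of_tendsto' ((Complex.continuous_im.tendsto w).comp hzw) fun n => ?_
      exact le_of_lt (hz n).1
    rcases him.eq_or_lt with h0 | h0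
    · exfalso
      have hw : w = ((w.re : ℝ) : ℂ) := by
        apply Complex.ext
        · simp
        · simp [← h0]
      have hK : IsCompact (Metric.closedBall (0 : ℂ) (2 + 16 / (1 - r ^ 2)) ∩
          {p | (1 - r ^ 2) / 4 ≤ p.im}) :=
        (isCompact_closedBall _ _).inter_right
          (isClosed_le continuous_const Complex.continuous_im)
      obtain ⟨p, hp, ψ, hψ, hlim⟩ := hK.tendsto_subseq (x := fun n => gr T φ (z n)) (fun n => by
        obtain ⟨e1, e2, -⟩ := cay_pre (gr_im T hT φ (hz n).1) hr0 hr (hz n).2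
        exact ⟨by simpa using e2, e1⟩)
      apply H w.re
      refine ⟨z ∘ ψ, p, fun n => (hz (ψ n)).1, ?_, hlim, ?_⟩
      · rw [← hw]
        exact hzw.comp hψ.tendsto_atTop
      · have : (1 - r ^ 2) / 4 ≤ p.im := hp.2
        have : 0 < (1 - r ^ 2) / 4 := by positivity
        linarith
    · refine ⟨h0, ?_⟩
      have h1 : ContinuousAt (fun z => cay (gr T φ z)) w :=
        hd.continuousOn.continuousAt (Up_open.mem_nhds h0)
      exact le_of_tendsto' (h1.norm.tendsto.comp hzw) fun n => (hz n).2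
  · rw [Metric.isBounded_iff_subset_closedBall 0]
    refine ⟨‖T‖ + ‖φ‖ ^ 2 / ((1 - r) / (1 + r)), fun z hz => ?_⟩
    rw [Metric.mem_closedBall, dist_zero_right]
    obtain ⟨-, -, e3⟩ := cay_pre (gr_im T hT φ hz.1) hr0 hr hz.2
    have e4 := gr_decay T hT φ hz.1
    by_contra hcon
    push Not at hcon
    have e5 : ‖φ‖ ^ 2 / ((1 - r) / (1 + r)) < ‖z‖ - ‖T‖ := by linarith
    rw [div_lt_iff₀ hr2] at e5
    have e6 : 0 < ‖z‖ - ‖T‖ := by
      have : 0 ≤ ‖φ‖ ^ 2 / ((1 - r) / (1 + r)) := by positivity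
      linarith
    nlinarith

open Polynomial in
/-- the resolvent of polynomials -/
theorem gr_poly (T : X →L[ℂ] X) (hT : IsSelfAdjoint T) (φ : X) (Q : ℂ[X]) :
    ∃ p : ℂ[X], ∀ z ∈ Up, ⟪φ, Rz T z (aeval T Q φ)⟫_ℂ = Q.eval z * gr T φ z + p.eval z := by
  have hstep : ∀ (w : X) (z : ℂ), z ∈ Up → ⟪φ, Rz T z (T w)⟫_ℂ = ⟪φ, w⟫_ℂ +
      z * ⟪φ, Rz T z w⟫_ℂ := by
    intro w z hz
    have hz' : z.im ≠ 0 := ne_of_gt hz
    have h1 : Rz T z (T w) = w + z • Rz T z w := by
      symm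
      apply rz_uniq T hT z hz'
      have h2 := rz_eq T hT z hz' w
      have h3 : T (Rz T z w) = w + z • Rz T z w := sub_eq_iff_eq_add.1 h2
      rw [map_add, map_smul, h3, smul_add]
      abel
    rw [h1, inner_add_right, inner_smul_right]
  induction Q using Polynomial.induction_on with
  | C a =>
    refine ⟨0, fun z hz => ?_⟩
    rw [aeval_C, eval_C, eval_zero, add_zero, Algebra.algebraMap_eq_smul_one]
    rw [ContinuousLinearMap.smul_apply, ContinuousLinearMap.one_apply, map_smul,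
      inner_smul_right]
    rfl
  | add p q hp hq =>
    obtain ⟨p1, hp1⟩ := hp
    obtain ⟨q1, hq1⟩ := hq
    refine ⟨p1 + q1, fun z hz => ?_⟩
    rw [map_add, ContinuousLinearMap.add_apply, map_add, inner_add_right, hp1 z hz, hq1 z hz,
      eval_add, eval_add]
    ring
  | monomial n a h =>
    obtain ⟨p1, hp1⟩ := h
    refine ⟨C ⟪φ, aeval T (C a * Polynomial.X ^ n) φ⟫_ℂ + Polynomial.X * p1, fun z hz => ?_⟩
    have h1 : aeval T (C a * Polynomial.X ^ (n + 1)) φ = T (aeval T (C a * Polynomial.X ^ n) φ) := by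
      have h2 : C a * Polynomial.X ^ (n + 1) = Polynomial.X * (C a * Polynomial.X ^ n) := by ring
      rw [h2, map_mul, aeval_X, ContinuousLinearMap.mul_apply]
    rw [h1, hstep _ z hz, hp1 z hz]
    simp only [eval_mul, eval_C, eval_pow, eval_X, eval_add]
    ring

open Polynomial in
/-- **no cluster values** -/
theorem gr_fin (T : X →L[ℂ] X) (hT : IsSelfAdjoint T) (φ : X) (H : ∀ E : ℝ, ¬ Clu T φ E) :
    ∃ Q : ℂ[X], Q ≠ 0 ∧ aeval T Q φ = 0 := by
  obtain ⟨c, P, P', hP', hPP⟩ := (gr_pm T hT φ H).poly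
  obtain ⟨Q, hQ⟩ : ∃ Q, Q = P' - C c * P := ⟨_, rfl⟩
  obtain ⟨P1, hP1⟩ : ∃ P1, P1 = C Complex.I * (P' + C c * P) := ⟨_, rfl⟩
  have hid : ∀ z ∈ Up, Q.eval z * gr T φ z = P1.eval z := by
    intro z hz
    have h1 := hPP z hz
    have h2 := add_I_ne (gr_im T hT φ hz)
    unfold cay at h1
    rw [hQ, hP1]
    simp only [eval_sub, eval_mul, eval_C, eval_add]
    field_simp at h1
    linear_combination h1
  have hQ0 : Q ≠ 0 := by
    intro h0
    have hI : Complex.I ∈ Up := by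
      change 0 < Complex.I.im
      simp
    have h1 := hid _ hI
    rw [h0, eval_zero, zero_mul, hP1] at h1
    have h2 : P' = C c * P := by
      rw [hQ] at h0
      exact sub_eq_zero.1 h0
    rw [← h2, eval_mul, eval_C, eval_add] at h1
    have h3 : P'.eval Complex.I = 0 := by
      have h4 : Complex.I * (P'.eval Complex.I + P'.eval Complex.I) = 0 := h1.symm
      have h5 := (mul_eq_zero.1 h4).resolve_left Complex.I_ne_zero
      have h6 : (2 : ℂ) * P'.eval Complex.I = 0 := by linear_combination h5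
      exact (mul_eq_zero.1 h6).resolve_left two_ne_zero
    exact hP' _ hI h3
  refine ⟨Q, hQ0, ?_⟩
  obtain ⟨v, hv⟩ : ∃ v, v = aeval T Q φ := ⟨_, rfl⟩
  rw [← hv]
  -- the resolvent of v
  obtain ⟨p, hp⟩ := gr_poly T hT φ Q
  rw [← hv] at hp
  obtain ⟨yn, hyn⟩ : ∃ yn : ℕ → ℂ, yn = fun n : ℕ => (((n : ℝ) + 1 : ℝ) : ℂ) * Complex.I :=
    ⟨_, rfl⟩
  have hyi : ∀ n, (yn n).im = (n : ℝ) + 1 := by
    intro n
    rw [hyn]
    simp
  have hyU : ∀ n, yn n ∈ Up := by
    intro n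
    change 0 < (yn n).im
    rw [hyi]
    positivity
  have hdec : ∀ w : X, Tendsto (fun n => ⟪φ, Rz T (yn n) w⟫_ℂ) atTop (𝓝 0) := by
    intro w
    rw [tendsto_zero_iff_norm_tendsto_zero]
    have h1 : Tendsto (fun n : ℕ => ‖φ‖ * ‖w‖ * (1 / ((n : ℝ) + 1))) atTop (𝓝 0) := by
      simpa using (tendsto_one_div_add_atTop_nhds_zero_nat (𝕜 := ℝ)).const_mul (‖φ‖ * ‖w‖)
    refine squeeze_zero (fun n => norm_nonneg _) (fun n => ?_) h1
    refine (norm_inner_le_norm _ _).trans ?_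
    have h2 := rz_norm T hT (yn n) (ne_of_gt (hyU n)) w
    rw [hyi, abs_of_pos (by positivity)] at h2
    calc ‖φ‖ * ‖Rz T (yn n) w‖ ≤ ‖φ‖ * (‖w‖ / ((n : ℝ) + 1)) := by gcongr
      _ = _ := by ring
  have hzero : ∀ z ∈ Up, ⟪φ, Rz T z v⟫_ℂ = 0 := by
    have h1 : ∀ z ∈ Up, ⟪φ, Rz T z v⟫_ℂ = (P1 + p).eval z := by
      intro z hz
      rw [hp z hz, hid z hz, eval_add]
    have h2 : Tendsto (fun n => (P1 + p).eval (yn n)) atTop (𝓝 0) :=
      (hdec v).congr fun n => h1 _ (hyU n)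
    have h3 : P1 + p = 0 := by
      by_cases hdeg : 0 < (P1 + p).degree
      · exfalso
        have h4 : Tendsto (fun n => ‖yn n‖) atTop atTop := by
          have h5 : ∀ n, ‖yn n‖ = (n : ℝ) + 1 := by
            intro n
            rw [hyn]
            rw [norm_mul, Complex.norm_real, Complex.norm_I, mul_one,
              Real.norm_of_nonneg (by positivity)]
          simp only [h5]
          exact tendsto_atTop_add_const_right _ _ tendsto_natCast_atTop_atTop
        have h6 := Polynomial.tendsto_norm_atTop (P1 + p) hdeg h4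
        have h7 := h2.norm
        rw [norm_zero] at h7
        exact not_tendsto_nhds_of_tendsto_atTop h6 0 h7
      · have h4 := Polynomial.eq_C_of_degree_le_zero (not_lt.1 hdeg)
        rw [h4] at h2 ⊢
        simp only [eval_C] at h2
        have h5 := tendsto_nhds_unique tendsto_const_nhds h2
        rw [h5, C_0]
    intro z hz
    rw [h1 z hz, h3, eval_zero]
  -- all the moments vanish
  have hmom : ∀ n : ℕ, (∀ z ∈ Up, ⟪φ, Rz T z ((T ^ n) v)⟫_ℂ = 0) ∧ ⟪φ, (T ^ n) v⟫_ℂ = 0 := by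
    have hst : ∀ w : X, (∀ z ∈ Up, ⟪φ, Rz T z w⟫_ℂ = 0) → (⟪φ, w⟫_ℂ = 0 ∧
        ∀ z ∈ Up, ⟪φ, Rz T z (T w)⟫_ℂ = 0) := by
      intro w hw
      have h1 : ∀ z ∈ Up, ⟪φ, Rz T z (T w)⟫_ℂ = ⟪φ, w⟫_ℂ := by
        intro z hz
        have hz' : z.im ≠ 0 := ne_of_gt hz
        have h1 : Rz T z (T w) = w + z • Rz T z w := by
          symm
          apply rz_uniq T hT z hz'
          have h2 := rz_eq T hT z hz' w
          have h3 : T (Rz T z w) = w + z • Rz T z w := sub_eq_iff_eq_add.1 h2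
          rw [map_add, map_smul, h3, smul_add]
          abel
        rw [h1, inner_add_right, inner_smul_right, hw z hz, mul_zero, add_zero]
      have h2 : ⟪φ, w⟫_ℂ = 0 := by
        have h3 := (hdec (T w)).congr fun n => h1 _ (hyU n)
        exact tendsto_nhds_unique tendsto_const_nhds h3
      exact ⟨h2, fun z hz => by rw [h1 z hz, h2]⟩
    intro n
    induction n with
    | zero =>
      rw [pow_zero]
      exact ⟨hzero, (hst v hzero).1⟩
    | succ n ih =>
      have h1 : (T ^ (n + 1)) v = T ((T ^ n) v) := by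
        rw [pow_succ', ContinuousLinearMap.mul_apply]
      rw [h1]
      have h2 := (hst _ ih.1).2
      exact ⟨h2, (hst _ h2).1⟩
  -- conclusion
  have hTn : ∀ (n : ℕ) (x y : X), ⟪(T ^ n) x, y⟫_ℂ = ⟪x, (T ^ n) y⟫_ℂ := by
    intro n x y
    have h1 : IsSelfAdjoint (T ^ n) := hT.pow n
    rw [ContinuousLinearMap.isSelfAdjoint_iff_isSymmetric] at h1
    exact h1 x y
  have hvv : ⟪v, v⟫_ℂ = 0 := by
    have h1 : v = Q.sum fun n a => a • (T ^ n) φ := by
      rw [hv, aeval_eq_sum_range, Polynomial.sum_over_range]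
      · rw [ContinuousLinearMap.sum_apply]
        exact Finset.sum_congr rfl fun n _ => rfl
      · intro n
        rw [zero_smul]
    have h2 : ⟪Q.sum fun n a => a • (T ^ n) φ, v⟫_ℂ = 0 := by
      unfold Polynomial.sum
      rw [sum_inner]
      refine Finset.sum_eq_zero fun n _ => ?_
      rw [inner_smul_left, hTn, (hmom n).2, mul_zero]
    rw [← h1] at h2
    exact h2
  exact inner_self_eq_zero.1 hvv

end Pool.Agent.Helper32.FG
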