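import Pool.Agent.Helper32.FG.Main

/-! Regular energies which are not exceptional. -/

set_option autoImplicit false
set_option linter.unusedSectionVars false
set_option linter.unusedSimpArgs false
set_option linter.deprecated false
set_option linter.unusedVariables false

open scoped BigOperators InnerProductSpace Topology ENNReal
open Filter MeasureTheory ProbabilityTheory
open Monoid (CoprodI)
open Monoid.CoprodI (of Word of_injective)

namespace Pool.Agent.Helper32.FG

open Pool.Agent.TH369.AN (Rz rz_eq rz_uniq rz_norm)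
open Pool.Agent.Y662.TR (LL dv lmk lmk_apply ll_inner ll_ext ll_summable ll_sum add_coord
  sub_coord smul_coord)

section phi

variable {Γ' : Type} [Group Γ']

/-- the degenerate weights -/
theorem Ph_deg {a : Γ' →₀ ℝ} (h : ∀ s, a s⁻¹ = a s) (h1 : a 1 = 0) {μ : ℝ}
    (hμ : ∀ y : Γ', y ≠ 1 → ∑ s ∈ a.support, a s * a (y * s) = μ * a y) {W : ℂ}
    (hW : 0 < W.im) : Ph a W * (μ - W) = ((‖Ag a‖ ^ 2 : ℝ) : ℂ) := by
  have hμW : (μ : ℂ) - W ≠ 0 := by
    intro h
    have := congrArg Complex.im h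
    rw [Complex.sub_im, Complex.ofReal_im, Complex.zero_im] at this
    linarith
  have h2 : ((μ : ℂ) - W)⁻¹ • Ag a = Rz (Dp a) W (Ag a) := by
    apply rz_uniq _ (Dp_sa h) _ hW.ne'
    apply ll_ext
    intro y
    rw [sub_coord, smul_coord, map_smul, smul_coord]
    by_cases hy : y = 1
    · rw [hy, Dp_one, Ag_apply, h1, smul_coord, Ag_apply, h1]
      simp
    · rw [Dp_apply _ _ hy, smul_coord, Ag_apply]
      have e1 : ∀ s, Pj {1}ᶜ (Ag a) (y * s) = ((a (y * s) : ℝ) : ℂ) := by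
        intro s
        classical
        rw [Pj_apply]
        by_cases hs : y * s = 1
        · rw [if_neg (by simp [hs]), hs, h1]
          simp
        · rw [if_pos (by simpa using hs), Ag_apply]
      simp only [e1]
      have e2 : ∑ s ∈ a.support, ((a s : ℝ) : ℂ) * ((a (y * s) : ℝ) : ℂ) = μ * a y := by
        have := hμ y hy
        exact_mod_cast this
      rw [e2]
      field_simp
  unfold Ph
  rw [← h2, inner_smul_right, inner_self_eq_norm_sq_to_K]
  push_cast
  field_simp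
  rfl

end phi

variable {ι : Type} [Fintype ι] [DecidableEq ι] {Γ : ι → Type} [∀ i, Group (Γ i)]

/-- the exceptional case -/
theorem exc_reg {a : ∀ i, Γ i →₀ ℝ} (hs : ∀ i s, a i s⁻¹ = a i s)
    (h1 : ∀ i, a i 1 = 0) (h0 : ∀ i, a i ≠ 0) {μ : ℝ} (hμ : Exc a μ) :
    ∃ E : ℝ, RegE a E ∧ E ≠ μ := by
  obtain ⟨k, l, hkl, huniv⟩ := Finset.card_eq_two.1 (by
    have := hμ.1
    rwa [← Finset.card_univ] at this)
  have hWk : (Finset.univ.erase k : Finset ι) = {l} := by
    rw [huniv]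
    ext i
    simp only [Finset.mem_erase, Finset.mem_insert, Finset.mem_singleton]
    constructor
    · rintro ⟨h1, h2⟩
      exact h2.resolve_left h1
    · rintro rfl
      exact ⟨hkl.symm, Or.inr rfl⟩
  have hWl : (Finset.univ.erase l : Finset ι) = {k} := by
    rw [huniv]
    ext i
    simp only [Finset.mem_erase, Finset.mem_insert, Finset.mem_singleton]
    constructor
    · rintro ⟨h1, h2⟩
      exact h2.resolve_right h1
    · rintro rfl
      exact ⟨hkl, Or.inl rfl⟩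
  obtain ⟨nk, hnk⟩ : ∃ nk, nk = ‖Ag (a k)‖ ^ 2 := ⟨_, rfl⟩
  obtain ⟨nl, hnl⟩ : ∃ nl, nl = ‖Ag (a l)‖ ^ 2 := ⟨_, rfl⟩
  have hnk0 : 0 < nk := by
    rw [hnk]
    have := norm_pos_iff.2 (Ag_ne_zero (h0 k))
    positivity
  have hnl0 : 0 < nl := by
    rw [hnl]
    have := norm_pos_iff.2 (Ag_ne_zero (h0 l))
    positivity
  have hFk : ∀ z : ℂ, 0 < z.im → F0 a k z * (μ - (z + F0 a l z)) = nk := by
    intro z hz
    obtain ⟨e1, e2⟩ := F0_eq hs h1 k hz h0
    rw [hWk, Finset.sum_singleton] at e1 e2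
    have e3 := Ph_deg (hs k) (h1 k) (hμ.2 k) e1
    rw [← e2, ← hnk] at e3
    exact e3
  have hFl : ∀ z : ℂ, 0 < z.im → F0 a l z * (μ - (z + F0 a k z)) = nl := by
    intro z hz
    obtain ⟨e1, e2⟩ := F0_eq hs h1 l hz h0
    rw [hWl, Finset.sum_singleton] at e1 e2
    have e3 := Ph_deg (hs l) (h1 l) (hμ.2 l) e1
    rw [← e2, ← hnl] at e3
    exact e3
  have hpos : ∀ (z : ℂ), 0 < z.im → ∀ j, 0 < (F0 a j z).im := fun z hz j =>
    Gg_pos (Lf_sa hs) _ (Av_ne_zero (em_inj j) (h0 j)) 0 0 hz 0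
  obtain ⟨x, hx, hx2⟩ : ∃ x : ℝ, 0 < x ∧ x ^ 2 = nk + nl :=
    ⟨Real.sqrt (nk + nl), Real.sqrt_pos.2 (by positivity), Real.sq_sqrt (by positivity)⟩
  -- the points
  obtain ⟨zn, hzn⟩ : ∃ zn : ℕ → ℂ, zn = fun n : ℕ => ((μ - x : ℝ) : ℂ) +
      ((1 / ((n : ℝ) + 1) : ℝ) : ℂ) * Complex.I := ⟨_, rfl⟩
  have him : ∀ n, 0 < (zn n).im := by
    intro n
    rw [hzn]
    simp only [Complex.add_im, Complex.ofReal_im, Complex.mul_im, Complex.ofReal_re,
      Complex.I_im, mul_one, Complex.I_re, mul_zero, add_zero, zero_add]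
    positivity
  have hlimz : Tendsto zn atTop (𝓝 ((μ - x : ℝ) : ℂ)) := by
    rw [hzn]
    have e2 : Tendsto (fun n : ℕ => ((μ - x : ℝ) : ℂ) +
        ((1 / ((n : ℝ) + 1) : ℝ) : ℂ) * Complex.I) atTop
        (𝓝 (((μ - x : ℝ) : ℂ) + ((0 : ℝ) : ℂ) * Complex.I)) :=
      tendsto_const_nhds.add (((Complex.continuous_ofReal.tendsto 0).comp
        tendsto_one_div_add_atTop_nhds_zero_nat).mul_const _)
    simpa using e2
  obtain ⟨P, hP⟩ : ∃ P : ℕ → ℂ, P = fun n => F0 a k (zn n) * F0 a l (zn n) := ⟨_, rfl⟩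
  have hxk : ∀ n, F0 a k (zn n) * (μ - zn n) = P n + nk := by
    intro n
    have := hFk (zn n) (him n)
    rw [hP]
    linear_combination this
  have hxl : ∀ n, F0 a l (zn n) * (μ - zn n) = P n + nl := by
    intro n
    have := hFl (zn n) (him n)
    rw [hP]
    linear_combination this
  have hquad : ∀ n, P n ^ 2 = ((μ - zn n) ^ 2 - (nk + nl)) * P n - nk * nl := by
    intro n
    have e1 : P n * (μ - zn n) ^ 2 = (P n + nk) * (P n + nl) := by
      rw [← hxk, ← hxl, hP]
      ring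
    linear_combination -e1
  have hεlim : Tendsto (fun n => (μ - zn n) ^ 2 - ((nk : ℂ) + nl)) atTop (𝓝 0) := by
    have e1 : Tendsto (fun n => (μ - zn n) ^ 2 - ((nk : ℂ) + nl)) atTop
        (𝓝 (((μ : ℂ) - ((μ - x : ℝ) : ℂ)) ^ 2 - ((nk : ℂ) + nl))) :=
      ((tendsto_const_nhds.sub hlimz).pow 2).sub tendsto_const_nhds
    have e2 : ((μ : ℂ) - ((μ - x : ℝ) : ℂ)) ^ 2 - ((nk : ℂ) + nl) = 0 := by
      have e3 : ((x ^ 2 : ℝ) : ℂ) = ((nk + nl : ℝ) : ℂ) := by rw [hx2]
      push_cast at e3 ⊢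
      linear_combination e3
    rwa [e2] at e1
  -- boundedness
  obtain ⟨N, hN⟩ : ∃ N, ∀ n ≥ N, ‖(μ - zn n) ^ 2 - ((nk : ℂ) + nl)‖ ≤ 1 := by
    have e1 := hεlim.norm
    rw [norm_zero] at e1
    have e2 := e1.eventually (gt_mem_nhds (show (0 : ℝ) < 1 from one_pos))
    obtain ⟨N, hN⟩ := eventually_atTop.1 e2
    exact ⟨N, fun n hn => (hN n hn).le⟩
  have hbd : ∀ n, ‖P (n + N)‖ ≤ 1 + nk * nl := by
    intro n
    have e1 := congrArg norm (hquad (n + N))
    rw [norm_pow] at e1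
    have e2 := norm_sub_le (((μ - zn (n + N)) ^ 2 - ((nk : ℂ) + nl)) * P (n + N))
      ((nk : ℂ) * nl)
    rw [norm_mul] at e2
    have e3 : ‖((nk : ℂ) * nl)‖ = nk * nl := by
      rw [norm_mul, Complex.norm_real, Complex.norm_real, Real.norm_of_nonneg hnk0.le,
        Real.norm_of_nonneg hnl0.le]
    rw [e3] at e2
    have e4 := hN (n + N) (by omega)
    have e5 := norm_nonneg (P (n + N))
    have e6 : ‖P (n + N)‖ ^ 2 ≤ ‖P (n + N)‖ + nk * nl := by
      nlinarith
    have e7 : 0 < nk * nl := by positivity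
    by_contra hcon
    push Not at hcon
    nlinarith
  obtain ⟨p, hp, ψ, hψ, hlim⟩ := (isCompact_closedBall (0 : ℂ) (1 + nk * nl)).tendsto_subseq
    (x := fun n => P (n + N)) (fun n => by simpa using hbd n)
  have hsub : Tendsto (fun n => ψ n + N) atTop atTop :=
    (tendsto_add_atTop_nat N).comp hψ.tendsto_atTop
  have hp2 : p ^ 2 = -(nk * nl) := by
    have e1 : Tendsto (fun n => P (ψ n + N) ^ 2) atTop (𝓝 (p ^ 2)) := hlim.pow 2
    have e2 : Tendsto (fun n => ((μ - zn (ψ n + N)) ^ 2 - ((nk : ℂ) + nl)) * P (ψ n + N) -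
        nk * nl) atTop (𝓝 (0 * p - nk * nl)) :=
      ((hεlim.comp hsub).mul hlim).sub tendsto_const_nhds
    have e3 := tendsto_nhds_unique (e1.congr fun n => hquad _) e2
    rw [e3]
    ring
  have hpim : p.im ≠ 0 := by
    intro h
    have e1 : p = ((p.re : ℝ) : ℂ) := by
      apply Complex.ext
      · simp
      · simp [h]
    rw [e1] at hp2
    have e2 : p.re ^ 2 = -(nk * nl) := by exact_mod_cast hp2
    have e3 : 0 < nk * nl := by positivity
    nlinarith [sq_nonneg p.re]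
  have hx0 : (x : ℂ) ≠ 0 := by exact_mod_cast hx.ne'
  have hlimk : Tendsto (fun n => F0 a k (zn (ψ n + N))) atTop (𝓝 ((p + nk) / x)) := by
    have e1 : Tendsto (fun n => (P (ψ n + N) + nk) / (μ - zn (ψ n + N))) atTop
        (𝓝 ((p + nk) / (μ - ((μ - x : ℝ) : ℂ)))) := by
      refine (hlim.add_const _).div (tendsto_const_nhds.sub (hlimz.comp hsub)) ?_
      push_cast
      intro h
      apply hx0
      linear_combination h
    have e2 : (μ : ℂ) - ((μ - x : ℝ) : ℂ) = x := by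
      push_cast
      ring
    rw [e2] at e1
    refine e1.congr fun n => ?_
    rw [← hxk, mul_div_assoc, div_self, mul_one]
    intro h
    have e3 := congrArg Complex.im h
    rw [Complex.sub_im, Complex.ofReal_im, Complex.zero_im] at e3
    have := him (ψ n + N)
    linarith
  have hliml : Tendsto (fun n => F0 a l (zn (ψ n + N))) atTop (𝓝 ((p + nl) / x)) := by
    have e1 : Tendsto (fun n => (P (ψ n + N) + nl) / (μ - zn (ψ n + N))) atTop
        (𝓝 ((p + nl) / (μ - ((μ - x : ℝ) : ℂ)))) := by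
      refine (hlim.add_const _).div (tendsto_const_nhds.sub (hlimz.comp hsub)) ?_
      push_cast
      intro h
      apply hx0
      linear_combination h
    have e2 : (μ : ℂ) - ((μ - x : ℝ) : ℂ) = x := by
      push_cast
      ring
    rw [e2] at e1
    refine e1.congr fun n => ?_
    rw [← hxl, mul_div_assoc, div_self, mul_one]
    intro h
    have e3 := congrArg Complex.im h
    rw [Complex.sub_im, Complex.ofReal_im, Complex.zero_im] at e3
    have := him (ψ n + N)
    linarith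
  have hdivim : ∀ n : ℝ, ((p + (n : ℂ)) / x).im = p.im / x := by
    intro n
    rw [Complex.div_ofReal_im, Complex.add_im, Complex.ofReal_im, add_zero]
  have hpx : 0 < p.im / x := by
    have e1 := (Complex.continuous_im.tendsto _).comp hlimk
    rw [hdivim] at e1
    have e2 : 0 ≤ p.im / x := ge_of_tendsto' e1 fun n => (hpos _ (him _) k).le
    refine lt_of_le_of_ne e2 fun h => ?_
    rcases div_eq_zero_iff.1 h.symm with h | h
    · exact hpim h
    · exact hx.ne' h
  obtain ⟨q, hq⟩ : ∃ q : ℂ, q = ((μ - x : ℝ) : ℂ) + ((p + nk) / x + (p + nl) / x) := ⟨_, rfl⟩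
  have hqim : 0 < q.im := by
    rw [hq, Complex.add_im, Complex.ofReal_im, Complex.add_im, hdivim, hdivim]
    linarith
  have hq0 : q ≠ 0 := by
    rintro rfl
    simp at hqim
  refine ⟨μ - x, ⟨fun n => zn (ψ n + N), -q⁻¹, fun n => him _, hlimz.comp hsub, ?_, ?_⟩, ?_⟩
  · have e1 : ∀ n, G0 a (zn n) = -(zn n + (F0 a k (zn n) + F0 a l (zn n)))⁻¹ := by
      intro n
      have e2 := G0_eq hs h1 (him n)
      rw [huniv, Finset.sum_pair hkl] at e2
      have e3 : zn n + (F0 a k (zn n) + F0 a l (zn n)) ≠ 0 := by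
        intro h0
        rw [h0, mul_zero] at e2
        norm_num at e2
      field_simp
      exact e2
    simp only [e1]
    have e2 : Tendsto (fun n => zn (ψ n + N) + (F0 a k (zn (ψ n + N)) +
        F0 a l (zn (ψ n + N)))) atTop (𝓝 q) := by
      rw [hq]
      exact (hlimz.comp hsub).add (hlimk.add hliml)
    exact (e2.inv₀ hq0).neg
  · rw [Complex.neg_im, Complex.inv_im]
    have := Complex.normSq_pos.2 hq0
    have e2 : -(-q.im / Complex.normSq q) = q.im / Complex.normSq q := by ring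
    rw [e2]
    positivity
  · intro h
    linarith

/-- **regular energies which are not exceptional** -/
theorem good_exists [Nontrivial ι] [∀ i, Countable (Γ i)] {a : ∀ i, Γ i →₀ ℝ} (hs : ∀ i s, a i s⁻¹ = a i s)
    (h1 : ∀ i, a i 1 = 0) (h0 : ∀ i, a i ≠ 0) : ∃ E : ℝ, RegE a E ∧ ¬ Exc a E := by
  by_cases h : ∃ μ : ℝ, Exc a μ
  · obtain ⟨μ, hμ⟩ := h
    obtain ⟨E, hE, hne⟩ := exc_reg hs h1 h0 hμ
    exact ⟨E, hE, fun hE' => hne (exc_uniq h1 h0 hE' hμ)⟩
  · obtain ⟨E, hE⟩ := reg_exists hs h1 h0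
    exact ⟨E, hE, fun h2 => h ⟨E, h2⟩⟩

end Pool.Agent.Helper32.FG
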