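import Pool.Agent.Helper32.FG.Mo2

/-! The continuity argument. -/

set_option autoImplicit false
set_option linter.unusedSectionVars false
set_option linter.unusedSimpArgs false
set_option linter.deprecated false
set_option linter.unusedVariables false

open scoped BigOperators InnerProductSpace Topology
open Filter MeasureTheory ProbabilityTheory
open Monoid (CoprodI)
open Monoid.CoprodI (of Word of_injective)

namespace Pool.Agent.Helper32.FG

open Pool.Agent.TH369.AN (Rz rz_eq rz_uniq rz_norm)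
open Pool.Agent.Y662.TR (LL)

theorem Xd_bd {p q : ℂ} {c B : ℝ} (hc : 0 < c) (hp : c ≤ p.im) (hB : ‖p‖ ≤ B) (hq : 0 < q.im) :
    Xd p q ≤ (B + ‖q‖) ^ 2 / (c * q.im) := by
  unfold Xd
  have h1 := norm_sub_le p q
  have h2 := norm_nonneg (p - q)
  have h3 : ‖p - q‖ ≤ B + ‖q‖ := by linarith
  gcongr

theorem Xd_cont {p q : ℂ} (hp : 0 < p.im) (hq : 0 < q.im) :
    ContinuousAt (fun p : ℂ => Xd p q) p := by
  unfold Xd
  refine ContinuousAt.div (by fun_prop) ?_ (mul_pos hp hq).ne'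
  exact (Complex.continuous_im.mul continuous_const).continuousAt

variable {ι : Type} [Fintype ι] [DecidableEq ι] {Γ : ι → Type} [∀ i, Group (Γ i)]
  [∀ i, Countable (Γ i)]

variable {a : ∀ i, Γ i →₀ ℝ} {E0 : ℝ} {F : ι → ℂ} {u : ∀ i, LL (Γ i)}

/-- the unperturbed Green functions of the branches -/
noncomputable def F0 (a : ∀ i, Γ i →₀ ℝ) (i : ι) (z : ℂ) : ℂ := Fi a i 0 0 z 0

theorem Fi_zero (a : ∀ i, Γ i →₀ ℝ) (i : ι) (b : ℝ) (z : ℂ) (ω : CoprodI Γ → ℝ) :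
    Fi a i 0 b z ω = F0 a i z := by
  unfold F0 Fi Gg
  rw [Th_zero, Th_zero]

theorem Fi_lam (R : Rf a E0 F u) (i : ι) (lam b : ℝ) {z : ℂ} (hz : 0 < z.im)
    (ω : CoprodI Γ → ℝ) : ‖Fi a i lam b z ω - F0 a i z‖ ≤ ‖Ai a i‖ ^ 2 * |lam * b| / z.im ^ 2 := by
  rw [← Fi_zero a i b z 0]
  exact Gg_lam R.sa _ _ lam b hz ω

/-- the point on the segment -/
noncomputable def zs (z1 z : ℂ) (s : ℝ) : ℂ := z1 + (s : ℂ) * (z - z1)

theorem zs_cont (z1 z : ℂ) : Continuous (zs z1 z) := by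
  unfold zs
  fun_prop

theorem zs_im (z1 z : ℂ) (s : ℝ) : (zs z1 z s).im = (1 - s) * z1.im + s * z.im := by
  unfold zs
  rw [Complex.add_im, Complex.im_ofReal_mul, Complex.sub_im]
  ring

theorem zs_im_le {z1 z : ℂ} {s : ℝ} (hs : s ∈ Set.Icc (0 : ℝ) 1) :
    min z1.im z.im ≤ (zs z1 z s).im := by
  rw [zs_im]
  have h1 := min_le_left z1.im z.im
  have h2 := min_le_right z1.im z.im
  obtain ⟨h3, h4⟩ := hs
  nlinarith

theorem zs_ball {z1 z w : ℂ} {r s : ℝ} (hs : s ∈ Set.Icc (0 : ℝ) 1) (h1 : ‖z1 - w‖ < r)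
    (h2 : ‖z - w‖ < r) : ‖zs z1 z s - w‖ < r := by
  have h3 : zs z1 z s - w = ((1 - s : ℝ) : ℂ) * (z1 - w) + (s : ℂ) * (z - w) := by
    unfold zs
    push_cast
    ring
  obtain ⟨h4, h5⟩ := hs
  rw [h3]
  refine (norm_add_le _ _).trans_lt ?_
  rw [norm_mul, norm_mul, Complex.norm_real, Complex.norm_real,
    Real.norm_of_nonneg (by linarith), Real.norm_of_nonneg h4]
  rcases h4.eq_or_lt with h6 | h6
  · rw [← h6]
    simpa using h1
  · nlinarith [norm_nonneg (z1 - w)]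

theorem mX_cont (R : Rf a E0 F u) (lam b : ℝ) (ρ : Measure ℝ) [IsProbabilityMeasure ρ] (i : ι)
    {z1 z : ℂ} (hz1 : 0 < z1.im) (hz : 0 < z.im) :
    ContinuousOn (fun s : ℝ => mX a F lam b (zs z1 z s) ρ i) (Set.Icc 0 1) := by
  have hη : 0 < min z1.im z.im := lt_min hz1 hz
  obtain ⟨η, hηd⟩ : ∃ η, η = min z1.im z.im := ⟨_, rfl⟩
  rw [← hηd] at hη
  have him : ∀ s ∈ Set.Icc (0 : ℝ) 1, η ≤ (zs z1 z s).im := by
    intro s hs
    rw [hηd]
    exact zs_im_le hs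
  have hpos : ∀ s ∈ Set.Icc (0 : ℝ) 1, 0 < (zs z1 z s).im := fun s hs =>
    hη.trans_le (him s hs)
  obtain ⟨N, hN⟩ : ∃ N, N = ‖z1‖ + ‖z‖ := ⟨_, rfl⟩
  have hnorm : ∀ s ∈ Set.Icc (0 : ℝ) 1, ‖zs z1 z s‖ ≤ N := by
    intro s hs
    have h3 : zs z1 z s = ((1 - s : ℝ) : ℂ) * z1 + (s : ℂ) * z := by
      unfold zs
      push_cast
      ring
    obtain ⟨h4, h5⟩ := hs
    rw [h3]
    refine (norm_add_le _ _).trans ?_
    rw [norm_mul, norm_mul, Complex.norm_real, Complex.norm_real,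
      Real.norm_of_nonneg (by linarith), Real.norm_of_nonneg h4, hN]
    nlinarith [norm_nonneg z1, norm_nonneg z]
  have hA : 0 < ‖Ai a i‖ := norm_pos_iff.2 (Ai_ne_zero R i)
  obtain ⟨c, hc⟩ : ∃ c, c = η * ‖Ai a i‖ ^ 2 / (‖Lf a‖ + |lam * b| + N + 1) ^ 2 := ⟨_, rfl⟩
  have hN0 : 0 ≤ N := by
    rw [hN]
    positivity
  have hc0 : 0 < c := by
    rw [hc]
    positivity
  have hlow : ∀ s ∈ Set.Icc (0 : ℝ) 1, ∀ ω : CoprodI Γ → ℝ,
      c ≤ (Fi a i lam b (zs z1 z s) ω).im := by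
    intro s hs ω
    refine le_trans ?_ (Fi_low R i lam b (hpos s hs) ω)
    rw [hc]
    have := him s hs
    have := hnorm s hs
    have := hpos s hs
    gcongr
  have hup : ∀ s ∈ Set.Icc (0 : ℝ) 1, ∀ ω : CoprodI Γ → ℝ,
      ‖Fi a i lam b (zs z1 z s) ω‖ ≤ ‖Ai a i‖ ^ 2 / η := by
    intro s hs ω
    refine (Gg_norm R.sa _ _ lam b (hpos s hs) ω).trans ?_
    have := him s hs
    gcongr
  unfold mX
  refine continuousOn_of_dominated (bound := fun _ =>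
    ((‖Ai a i‖ ^ 2 / η + ‖F i‖) ^ 2 / (c * (F i).im)) ^ 2) ?_ ?_ (integrable_const _) ?_
  · intro s hs
    exact (Xi_BM R i lam b (hpos s hs)).sqR.1.aestronglyMeasurable
  · intro s hs
    refine Eventually.of_forall fun ω => ?_
    rw [Real.norm_of_nonneg (sq_nonneg _)]
    refine pow_le_pow_left₀ (Xi_nonneg R i lam b (hpos s hs) ω) ?_ 2
    exact Xd_bd hc0 (hlow s hs ω) (hup s hs ω) (R.Fpos i)
  · refine Eventually.of_forall fun ω => ?_
    refine ContinuousOn.pow ?_ 2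
    intro s hs
    have h1 : ContinuousWithinAt (fun s : ℝ => Fi a i lam b (zs z1 z s) ω) (Set.Icc 0 1) s := by
      have h2 := Gg_contz R.sa (Bs i) (Ai a i) lam b ω
      have h3 : ContinuousOn (fun s : ℝ => Fi a i lam b (zs z1 z s) ω) (Set.Icc 0 1) :=
        h2.comp (zs_cont z1 z).continuousOn fun s hs => hpos s hs
      exact h3 s hs
    exact ContinuousAt.comp_continuousWithinAt (g := fun p : ℂ => Xd p (F i))
      (f := fun s : ℝ => Fi a i lam b (zs z1 z s) ω)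
      (Xd_cont (Fi_pos R i lam b (hpos s hs) ω) (R.Fpos i)) h1

/-- **the bootstrap** -/
theorem boot (R : Rf a E0 F u) [Nonempty ι] {t cW Ci C : ℝ} (ht : 0 < t) (ht1 : t ≤ 1 / 2)
    (hcW : 0 < cW) (hcW' : ∀ i, cW ≤ (W0 E0 F i).im) (hCi : 0 ≤ Ci) (hInv : Inv E0 F u Ci)
    (hC : 0 < C) (hAP : AP (ww E0 F) (fun i => kq (u i)) t Ci C)
    (hst : ∀ η : ℝ, 0 < η → ∃ z : ℂ, 0 < z.im ∧ ‖z - E0‖ < η ∧ ∀ i, Xd (F0 a i z) (F i) < η) :
    ∃ ε1 > 0, ∃ lam1 > 0, ∀ z : ℂ, 0 < z.im → ‖z - E0‖ < ε1 → ∀ lam b : ℝ, |lam * b| ≤ lam1 →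
      ∀ (ρ : Measure ℝ) [IsProbabilityMeasure ρ], ∀ i, mX a F lam b z ρ i ≤ 1 / (2 * C) := by
  -- the size of the gap
  obtain ⟨ε0, hε0, hε1, hε2⟩ : ∃ ε0 : ℝ, 0 < ε0 ∧ (1 + 1 / t) * (ε0 / cW) ^ 2 ≤ t / 2 ∧
      4 * C ^ 2 * ((1 + 1 / t) * (ε0 / cW) ^ 2) ^ 2 < 1 := by
    have h1 : ContinuousAt (fun ε : ℝ => (1 + 1 / t) * (ε / cW) ^ 2) 0 := by fun_prop
    have h2 : ContinuousAt (fun ε : ℝ => 4 * C ^ 2 * ((1 + 1 / t) * (ε / cW) ^ 2) ^ 2) 0 := by
      fun_prop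
    have h3 := h1.eventually_lt_const (show (1 + 1 / t) * ((0 : ℝ) / cW) ^ 2 < t / 2 by
      simp
      exact ht)
    have h4 := h2.eventually_lt_const
      (show 4 * C ^ 2 * ((1 + 1 / t) * ((0 : ℝ) / cW) ^ 2) ^ 2 < 1 by simp)
    have h5 := h3.and h4
    rw [Metric.eventually_nhds_iff] at h5
    obtain ⟨r, hr, h6⟩ := h5
    have h7 : dist (r / 2) (0 : ℝ) < r := by
      rw [Real.dist_eq, sub_zero, abs_of_pos (by positivity)]
      linarith
    exact ⟨r / 2, by positivity, (h6 h7).1.le, (h6 h7).2⟩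
  obtain ⟨K, hK⟩ : ∃ K, K = 1 / (2 * C) := ⟨_, rfl⟩
  have hK0 : 0 < K := by
    rw [hK]
    positivity
  rw [← hK]
  -- the gap
  have hgap : ∀ z : ℂ, 0 < z.im → ‖z - E0‖ < ε0 / 2 → ∀ lam b : ℝ, |lam * b| ≤ ε0 / 2 →
      ∀ (ρ : Measure ℝ) [IsProbabilityMeasure ρ], ∀ M, (∀ i, mX a F lam b z ρ i ≤ M) →
        (∃ i, mX a F lam b z ρ i = M) → M ≤ K → M < K := by
    intro z hz hz1 lam b hl ρ _ M h1 h2 h3
    have h4 := mom_rec ρ R ht ht1 hcW hcW' hCi hInv hAP lam b hz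
      (show ‖z - E0‖ + |lam * b| ≤ ε0 by linarith) hε1 M h1 h2
    have hM0 : 0 ≤ M := by
      obtain ⟨i, hi⟩ := h2
      rw [← hi]
      exact integral_nonneg fun ω => sq_nonneg _
    have h5 : C * M ^ 2 ≤ M / 2 := by
      have h6 : C * M ≤ 1 / 2 := by
        calc C * M ≤ C * K := by gcongr
          _ = 1 / 2 := by
            rw [hK]
            field_simp
      nlinarith
    have h7 : M ≤ 2 * C * ((1 + 1 / t) * (ε0 / cW) ^ 2) ^ 2 := by linarith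
    refine h7.trans_lt ?_
    rw [hK, lt_div_iff₀ (by positivity)]
    linarith
  -- the start
  obtain ⟨η0, hη0, hη1⟩ : ∃ η0 : ℝ, 0 < η0 ∧ η0 ^ 2 < K := by
    refine ⟨min 1 (K / 2), by positivity, ?_⟩
    have h1 := min_le_left 1 (K / 2)
    have h2 := min_le_right 1 (K / 2)
    have h3 : 0 < min 1 (K / 2) := by positivity
    nlinarith
  obtain ⟨z1, hz1, hz2, hz3⟩ := hst (min (ε0 / 2) η0) (by positivity)
  have hz2' : ‖z1 - E0‖ < ε0 / 2 := hz2.trans_le (min_le_left _ _)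
  have hz3' : ∀ i, Xd (F0 a i z1) (F i) < η0 := fun i => (hz3 i).trans_le (min_le_right _ _)
  have hF0pos : ∀ i, 0 < (F0 a i z1).im := fun i => Fi_pos R i 0 0 hz1 0
  obtain ⟨δ, hδ, hδ1⟩ : ∃ δ : ℝ, 0 < δ ∧ ∀ i, ∀ p : ℂ, ‖p - F0 a i z1‖ < δ → Xd p (F i) < η0 := by
    have h1 : ∀ i, ∃ δ : ℝ, 0 < δ ∧ ∀ p : ℂ, ‖p - F0 a i z1‖ < δ → Xd p (F i) < η0 := by
      intro i
      have h2 := (Xd_cont (hF0pos i) (R.Fpos i)).eventually_lt_const (hz3' i)
      rw [Metric.eventually_nhds_iff] at h2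
      obtain ⟨r, hr, h6⟩ := h2
      exact ⟨r, hr, fun p hp => h6 (by rwa [dist_eq_norm])⟩
    choose δ h2 h3 using h1
    obtain ⟨k, hk⟩ := Finite.exists_min δ
    exact ⟨δ k, h2 k, fun i p hp => h3 i p (hp.trans_le (hk i))⟩
  obtain ⟨S, hS⟩ : ∃ S, S = ∑ i, ‖Ai a i‖ ^ 2 := ⟨_, rfl⟩
  have hSi : ∀ i, ‖Ai a i‖ ^ 2 ≤ S := fun i => by
    rw [hS]
    exact Finset.single_le_sum (f := fun i => ‖Ai a i‖ ^ 2) (fun _ _ => sq_nonneg _)
      (Finset.mem_univ i)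
  have hS0 : 0 ≤ S := by
    rw [hS]
    positivity
  refine ⟨ε0 / 2, by positivity, min (ε0 / 2) (δ * z1.im ^ 2 / (2 * (S + 1))), by positivity, ?_⟩
  intro z hz hzE lam b hl ρ _
  have hl1 : |lam * b| ≤ ε0 / 2 := hl.trans (min_le_left _ _)
  have hl2 : |lam * b| ≤ δ * z1.im ^ 2 / (2 * (S + 1)) := hl.trans (min_le_right _ _)
  -- the start of the path
  have hs0 : ∀ i, mX a F lam b z1 ρ i ≤ K := by
    intro i
    have h1 : ∀ ω : CoprodI Γ → ℝ, Xi a F i lam b z1 ω ^ 2 ≤ K := by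
      intro ω
      have h2 : ‖Fi a i lam b z1 ω - F0 a i z1‖ < δ := by
        refine (Fi_lam R i lam b hz1 ω).trans_lt ?_
        rw [div_lt_iff₀ (by positivity)]
        calc ‖Ai a i‖ ^ 2 * |lam * b| ≤ S * (δ * z1.im ^ 2 / (2 * (S + 1))) := by
              have := hSi i
              gcongr
          _ = δ * z1.im ^ 2 * (S / (2 * (S + 1))) := by ring
          _ < δ * z1.im ^ 2 * 1 := by
              have h3 : S / (2 * (S + 1)) < 1 := by
                rw [div_lt_one (by positivity)]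
                linarith
              have h4 : 0 < δ * z1.im ^ 2 := by positivity
              exact mul_lt_mul_of_pos_left h3 h4
          _ = δ * z1.im ^ 2 := mul_one _
      have h3 := hδ1 i _ h2
      have h4 := Xi_nonneg R i lam b hz1 ω
      have h5 : Xi a F i lam b z1 ω ^ 2 ≤ η0 ^ 2 := pow_le_pow_left₀ h4 h3.le 2
      linarith
    unfold mX
    refine (integral_mono ((Xi_BM R i lam b hz1).sqR.int _) (integrable_const K)
      (fun ω => h1 ω)).trans ?_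
    simp
  -- the maximum along the path
  have hne : (Finset.univ : Finset ι).Nonempty := Finset.univ_nonempty
  obtain ⟨g, hg⟩ : ∃ g : ℝ → ℝ, g = fun s =>
      Finset.univ.sup' hne fun i => mX a F lam b (zs z1 z s) ρ i := ⟨_, rfl⟩
  have hgc : ContinuousOn g (Set.Icc 0 1) := by
    rw [hg]
    exact ContinuousOn.finset_sup'_apply hne fun i _ => mX_cont R lam b ρ i hz1 hz
  have hgle : ∀ s i, mX a F lam b (zs z1 z s) ρ i ≤ g s := by
    intro s i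
    rw [hg]
    exact Finset.le_sup' (fun i => mX a F lam b (zs z1 z s) ρ i) (Finset.mem_univ i)
  have hgex : ∀ s, ∃ i, mX a F lam b (zs z1 z s) ρ i = g s := by
    intro s
    obtain ⟨i, -, hi⟩ := Finset.exists_mem_eq_sup' hne
      (fun i => mX a F lam b (zs z1 z s) ρ i)
    refine ⟨i, ?_⟩
    rw [hg]
    exact hi.symm
  have hz0 : zs z1 z 0 = z1 := by
    unfold zs
    simp
  have hz1' : zs z1 z 1 = z := by
    unfold zs
    simp
  have hg0 : g 0 ≤ K := by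
    obtain ⟨i, hi⟩ := hgex 0
    rw [← hi, hz0]
    exact hs0 i
  have hg1 : g 1 ≤ K := by
    by_contra hcon
    push Not at hcon
    obtain ⟨s, hs, hsK⟩ := intermediate_value_Icc (zero_le_one) hgc ⟨hg0, hcon.le⟩
    have h1 : 0 < (zs z1 z s).im := (lt_min hz1 hz).trans_le (zs_im_le hs)
    have h2 := hgap (zs z1 z s) h1 (zs_ball hs hz2' hzE) lam b hl1 ρ (g s) (hgle s) (hgex s)
      hsK.le
    rw [hsK] at h2
    exact lt_irrefl _ h2
  intro i
  have := hgle 1 i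
  rw [hz1'] at this
  exact this.trans hg1

end Pool.Agent.Helper32.FG
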