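import Mathlib

/-! Inequalities for the moments. -/

set_option autoImplicit false
set_option linter.unusedSectionVars false
set_option linter.unusedSimpArgs false
set_option linter.deprecated false
set_option linter.unusedVariables false

open scoped BigOperators

namespace Pool.Agent.Helper32.FG

/-- the hyperbolic distance function -/
noncomputable def Xd (p q : ℂ) : ℝ := ‖p - q‖ ^ 2 / (p.im * q.im)

theorem Xd_nonneg {p q : ℂ} (hp : 0 < p.im) (hq : 0 < q.im) : 0 ≤ Xd p q := by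
  unfold Xd
  positivity

theorem Xd_mul {p q : ℂ} (hp : 0 < p.im) (hq : 0 < q.im) :
    ‖p - q‖ ^ 2 = Xd p q * q.im * p.im := by
  unfold Xd
  field_simp

theorem im_sq_le (p q : ℂ) : (p.im - q.im) ^ 2 ≤ ‖p - q‖ ^ 2 := by
  have h := Complex.abs_im_le_norm (p - q)
  rw [Complex.sub_im] at h
  rw [← sq_abs]
  gcongr

theorem Xd_low {p q : ℂ} (hp : 0 < p.im) (hq : 0 < q.im) : q.im ≤ (Xd p q + 2) * p.im := by
  have h1 := Xd_mul hp hq
  have h2 := im_sq_le p q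
  have h3 : q.im * q.im ≤ (Xd p q + 2) * p.im * q.im := by nlinarith [sq_nonneg p.im]
  exact le_of_mul_le_mul_right h3 hq

theorem Xd_up {p q : ℂ} (hp : 0 < p.im) (hq : 0 < q.im) : p.im ≤ (Xd p q + 2) * q.im := by
  have h1 := Xd_mul hp hq
  have h2 := im_sq_le p q
  have h3 : p.im * p.im ≤ (Xd p q + 2) * q.im * p.im := by nlinarith [sq_nonneg q.im]
  exact le_of_mul_le_mul_right h3 hp

theorem Xd_le {p q : ℂ} (hp : 0 < p.im) (hq : 0 < q.im) :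
    Xd p q ≤ 3 * (‖p - q‖ ^ 2 / q.im ^ 2) + Xd p q ^ 2 := by
  have h0 := Xd_nonneg hp hq
  have h1 := Xd_mul hp hq
  have h2 := Xd_low hp hq
  by_cases h : Xd p q ≤ 1
  · have h3 : q.im ≤ 3 * p.im := by nlinarith
    have h4 : ‖p - q‖ ^ 2 / q.im ^ 2 = Xd p q * (p.im / q.im) := by
      rw [h1]
      field_simp
    have h5 : 1 / 3 ≤ p.im / q.im := by
      rw [div_le_div_iff₀ (by norm_num) hq]
      linarith
    rw [h4]
    nlinarith [sq_nonneg (Xd p q)]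
  · push Not at h
    have h3 : 0 ≤ ‖p - q‖ ^ 2 / q.im ^ 2 := by positivity
    nlinarith

theorem young {t : ℝ} (ht : 0 < t) (x y : ℝ) :
    (x + y) ^ 2 ≤ (1 + t) * x ^ 2 + (1 + 1 / t) * y ^ 2 := by
  have h : (1 + t) * x ^ 2 + (1 + 1 / t) * y ^ 2 - (x + y) ^ 2 = (t * x - y) ^ 2 / t := by
    field_simp
    ring
  have h2 : 0 ≤ (t * x - y) ^ 2 / t := by positivity
  linarith

theorem youngC {t : ℝ} (ht : 0 < t) (x y : ℂ) :
    ‖x + y‖ ^ 2 ≤ (1 + t) * ‖x‖ ^ 2 + (1 + 1 / t) * ‖y‖ ^ 2 :=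
  (pow_le_pow_left₀ (norm_nonneg _) (norm_add_le x y) 2).trans (young ht _ _)

section step

variable {ι : Type} (J : Finset ι) (p q : ι → ℂ) (P Q : ℂ)

/-- Jensen's inequality -/
theorem jensen (w x : ι → ℝ) (hw : ∀ j ∈ J, 0 ≤ w j) (h1 : ∑ j ∈ J, w j = 1) :
    (∑ j ∈ J, w j * x j) ^ 2 ≤ ∑ j ∈ J, w j * x j ^ 2 := by
  have h := Finset.sum_sq_le_sum_mul_sum_of_sq_eq_mul J (r := fun j => w j * x j) (f := w)
    (g := fun j => w j * x j ^ 2) hw (fun j hj => mul_nonneg (hw j hj) (sq_nonneg _))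
    (fun j _ => by ring)
  rwa [h1, one_mul] at h

theorem step_X (hp : ∀ j ∈ J, 0 < (p j).im) (hq : ∀ j ∈ J, 0 < (q j).im)
    (hQ : Q.im = ∑ j ∈ J, (q j).im) (hQ0 : 0 < Q.im) (hP : ∑ j ∈ J, (p j).im ≤ P.im)
    (hP0 : 0 < P.im) {ε t θ : ℝ} (ht : 0 < t) (hε : 0 ≤ ε)
    (hPQ : ‖P - Q‖ ≤ ∑ j ∈ J, ‖p j - q j‖ + ε)
    (hθ : (1 + 1 / t) * (ε / Q.im) ^ 2 ≤ θ) (hθ1 : θ ≤ t / 2) (ht1 : t ≤ 1 / 2) :
    Xd P Q ≤ (1 + t) ^ 2 * ∑ j ∈ J, (q j).im / Q.im * Xd (p j) (q j) + 4 * θ := by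
  have hX : ∀ j ∈ J, 0 ≤ Xd (p j) (q j) := fun j hj => Xd_nonneg (hp j hj) (hq j hj)
  have h1 : (∑ j ∈ J, ‖p j - q j‖) ^ 2 ≤ (∑ j ∈ J, Xd (p j) (q j) * (q j).im) * P.im := by
    refine (Finset.sum_sq_le_sum_mul_sum_of_sq_eq_mul J (f := fun j => Xd (p j) (q j) * (q j).im)
      (g := fun j => (p j).im) (fun j hj => mul_nonneg (hX j hj) (hq j hj).le)
      (fun j hj => (hp j hj).le) (fun j hj => Xd_mul (hp j hj) (hq j hj))).trans ?_
    refine mul_le_mul_of_nonneg_left hP ?_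
    exact Finset.sum_nonneg fun j hj => mul_nonneg (hX j hj) (hq j hj).le
  obtain ⟨S, hS⟩ : ∃ S, S = ∑ j ∈ J, (q j).im / Q.im * Xd (p j) (q j) := ⟨_, rfl⟩
  have hS1 : ∑ j ∈ J, Xd (p j) (q j) * (q j).im = S * Q.im := by
    rw [hS, Finset.sum_mul]
    refine Finset.sum_congr rfl fun j _ => ?_
    field_simp
  have hS0 : 0 ≤ S := by
    rw [hS]
    exact Finset.sum_nonneg fun j hj => mul_nonneg (div_nonneg (hq j hj).le hQ0.le) (hX j hj)
  rw [hS1] at h1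
  rw [← hS]
  have hn : 0 ≤ ∑ j ∈ J, ‖p j - q j‖ := Finset.sum_nonneg fun j _ => norm_nonneg _
  have h2 : ‖P - Q‖ ^ 2 ≤ (1 + t) * (S * Q.im * P.im) + (1 + 1 / t) * ε ^ 2 := by
    refine (pow_le_pow_left₀ (norm_nonneg _) hPQ 2).trans ((young ht _ _).trans ?_)
    gcongr
  have h3 := Xd_mul hP0 hQ0
  have h4 := Xd_low hP0 hQ0
  have hX0 := Xd_nonneg hP0 hQ0
  obtain ⟨Y, hY⟩ : ∃ Y, Y = Xd P Q := ⟨_, rfl⟩
  rw [← hY] at h3 h4 hX0 ⊢
  have hθ0 : 0 ≤ θ := le_trans (by positivity) hθ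
  have h5 : (1 + 1 / t) * ε ^ 2 ≤ θ * Q.im ^ 2 := by
    have h6 : (1 + 1 / t) * ε ^ 2 = (1 + 1 / t) * (ε / Q.im) ^ 2 * Q.im ^ 2 := by
      field_simp
    rw [h6]
    gcongr
  have h7 : Y ≤ (1 + t) * S + θ * (Y + 2) := by
    have h8 : Y * (Q.im * P.im) ≤ ((1 + t) * S + θ * (Y + 2)) * (Q.im * P.im) := by
      have h9 : θ * Q.im * Q.im ≤ θ * Q.im * ((Y + 2) * P.im) := by gcongr
      nlinarith
    exact le_of_mul_le_mul_right h8 (mul_pos hQ0 hP0)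
  have h8 : Y * (1 - θ) ≤ (1 + t) * S + 2 * θ := by linarith
  have h9 : 1 ≤ (1 - θ) * (1 + 2 * θ) := by nlinarith
  have h10 : Y ≤ ((1 + t) * S + 2 * θ) * (1 + 2 * θ) := by
    calc Y = Y * 1 := (mul_one _).symm
      _ ≤ Y * ((1 - θ) * (1 + 2 * θ)) := mul_le_mul_of_nonneg_left h9 hX0
      _ = Y * (1 - θ) * (1 + 2 * θ) := by ring
      _ ≤ _ := by gcongr
  have h11 : (1 + t) * S * (1 + 2 * θ) ≤ (1 + t) * S * (1 + t) := by
    have : 1 + 2 * θ ≤ 1 + t := by linarith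
    gcongr
  have h12 : 2 * θ * (1 + 2 * θ) ≤ 2 * θ * 2 := by
    have : 1 + 2 * θ ≤ 2 := by linarith
    gcongr
  nlinarith

theorem step_V (hq : ∀ j ∈ J, 0 < (q j).im) (hQ : Q.im = ∑ j ∈ J, (q j).im) (hQ0 : 0 < Q.im)
    {ε t θ : ℝ} (ht : 0 < t) (hPQ : ‖P - Q‖ ≤ ∑ j ∈ J, ‖p j - q j‖ + ε)
    (hθ : (1 + 1 / t) * (ε / Q.im) ^ 2 ≤ θ) :
    (‖P - Q‖ / Q.im) ^ 2 ≤
      (1 + t) * ∑ j ∈ J, (q j).im / Q.im * (‖p j - q j‖ ^ 2 / (q j).im ^ 2) + θ := by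
  have h1 : (∑ j ∈ J, (q j).im / Q.im * (‖p j - q j‖ / (q j).im)) ^ 2 ≤
      ∑ j ∈ J, (q j).im / Q.im * (‖p j - q j‖ / (q j).im) ^ 2 := by
    refine jensen J _ _ (fun j hj => div_nonneg (hq j hj).le hQ0.le) ?_
    rw [← Finset.sum_div, ← hQ, div_self hQ0.ne']
  have h2 : ∑ j ∈ J, (q j).im / Q.im * (‖p j - q j‖ / (q j).im) =
      (∑ j ∈ J, ‖p j - q j‖) / Q.im := by
    rw [Finset.sum_div]
    refine Finset.sum_congr rfl fun j hj => ?_
    have := (hq j hj).ne'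
    field_simp
  rw [h2] at h1
  have h3 : ‖P - Q‖ / Q.im ≤ (∑ j ∈ J, ‖p j - q j‖) / Q.im + ε / Q.im := by
    rw [← add_div]
    gcongr
  refine (pow_le_pow_left₀ (by positivity) h3 2).trans ((young ht _ _).trans ?_)
  refine add_le_add (mul_le_mul_of_nonneg_left (h1.trans (le_of_eq ?_)) (by positivity)) hθ
  refine Finset.sum_congr rfl fun j _ => ?_
  rw [div_pow]

end step

section contr

variable {ι : Type} [Fintype ι] [DecidableEq ι]

/-- a two step contraction -/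
theorem contr (w : ι → ι → ℝ) (κ : ι → ℝ) (i0 : ι) {δ c a : ℝ} (hw0 : ∀ i j, 0 ≤ w i j)
    (hw1 : ∀ i, ∑ j ∈ Finset.univ.erase i, w i j = 1) (hc : 0 < c) (hc1 : c ≤ 1)
    (hwc : ∀ i, i ≠ i0 → c ≤ w i i0) (hδ : 0 < δ) (hδ1 : δ ≤ 1)
    (hκ0 : ∀ i, 0 ≤ κ i) (hκ1 : ∀ i, κ i ≤ 1)
    (hκ : κ i0 ≤ 1 - δ) (ha : 1 ≤ a) (hat : a ^ 2 * (1 - c * δ) ≤ 1 - c * δ / 2) (m : ι → ℝ)
    (hm : ∀ i, 0 ≤ m i) {err : ℝ} (herr : 0 ≤ err)
    (h : ∀ i, m i ≤ a * κ i * ∑ j ∈ Finset.univ.erase i, w i j * m j + err) (i : ι) :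
    m i ≤ 2 * (a + 1) / (c * δ) * err := by
  haveI : Nonempty ι := ⟨i0⟩
  obtain ⟨k, hk⟩ := Finite.exists_max m
  obtain ⟨N, hN⟩ : ∃ N, N = m k := ⟨_, rfl⟩
  rw [← hN] at hk
  have hN0 : 0 ≤ N := by
    rw [hN]
    exact hm k
  have hsum : ∀ i, ∑ j ∈ Finset.univ.erase i, w i j * m j ≤ N := by
    intro i
    calc ∑ j ∈ Finset.univ.erase i, w i j * m j ≤ ∑ j ∈ Finset.univ.erase i, w i j * N :=
          Finset.sum_le_sum fun j _ => mul_le_mul_of_nonneg_left (hk j) (hw0 i j)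
      _ = N := by rw [← Finset.sum_mul, hw1, one_mul]
  have hs0 : ∀ i, 0 ≤ ∑ j ∈ Finset.univ.erase i, w i j * m j := fun i =>
    Finset.sum_nonneg fun j _ => mul_nonneg (hw0 i j) (hm j)
  have h0 : m i0 ≤ a * (1 - δ) * N + err := by
    refine (h i0).trans ?_
    have h1 : a * κ i0 * ∑ j ∈ Finset.univ.erase i0, w i0 j * m j ≤ a * (1 - δ) * N := by
      have := hsum i0
      have := hs0 i0
      have := hκ0 i0
      gcongr
    linarith
  have hall : ∀ i, m i ≤ a ^ 2 * (1 - c * δ) * N + (a + 1) * err := by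
    intro i
    have hcd : 0 ≤ 1 - c * δ := by nlinarith
    by_cases hi : i = i0
    · rw [hi]
      refine h0.trans ?_
      have e1 : a * (1 - δ) ≤ a ^ 2 * (1 - c * δ) := by
        have e2 : 1 - δ ≤ 1 - c * δ := by nlinarith
        have e3 : a ≤ a ^ 2 := by nlinarith
        nlinarith
      have e4 : a * (1 - δ) * N ≤ a ^ 2 * (1 - c * δ) * N := by gcongr
      nlinarith
    · have e1 : ∑ j ∈ Finset.univ.erase i, w i j * m j ≤ (1 - c) * N + c * m i0 := by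
        have hmem : i0 ∈ Finset.univ.erase i := Finset.mem_erase.2 ⟨Ne.symm hi, Finset.mem_univ _⟩
        have e2 := hw1 i
        rw [← Finset.add_sum_erase _ _ hmem] at e2 ⊢
        have e3 : ∑ j ∈ (Finset.univ.erase i).erase i0, w i j * m j ≤
            (∑ j ∈ (Finset.univ.erase i).erase i0, w i j) * N := by
          rw [Finset.sum_mul]
          exact Finset.sum_le_sum fun j _ => mul_le_mul_of_nonneg_left (hk j) (hw0 i j)
        have e4 := hwc i hi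
        have e5 := hk i0
        nlinarith
      have e2 : 0 ≤ (1 - c) * N + c * m i0 := by
        have := hm i0
        have : 0 ≤ 1 - c := by linarith
        positivity
      have e3 : a * κ i * ∑ j ∈ Finset.univ.erase i, w i j * m j ≤
          a * 1 * ((1 - c) * N + c * m i0) := by
        have := hκ0 i
        have := hκ1 i
        have := hs0 i
        gcongr
      have e4 : a * 1 * ((1 - c) * N + c * m i0) ≤
          a * ((1 - c) * N + c * (a * (1 - δ) * N + err)) := by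
        rw [mul_one]
        gcongr
      have e5 : a * ((1 - c) * N) ≤ a ^ 2 * ((1 - c) * N) := by
        have : a ≤ a ^ 2 := by nlinarith
        have : 0 ≤ (1 - c) * N := mul_nonneg (by linarith) hN0
        gcongr
      have e6 : a * (c * err) ≤ a * (1 * err) := by gcongr
      have e7 := h i
      nlinarith
  have hfin : N ≤ 2 * (a + 1) / (c * δ) * err := by
    have e1 := hall k
    rw [← hN] at e1
    have e2 : a ^ 2 * (1 - c * δ) * N ≤ (1 - c * δ / 2) * N := by gcongr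
    have e3 : c * δ / 2 * N ≤ (a + 1) * err := by linarith
    have hcd : 0 < c * δ := mul_pos hc hδ
    rw [div_mul_eq_mul_div, le_div_iff₀ hcd]
    nlinarith
  exact (hk i).trans hfin

/-- the property which `alg` proves -/
def AP (w : ι → ι → ℝ) (κ : ι → ℝ) (t Ci C : ℝ) : Prop :=
  ∀ (θ sθ : ℝ) (m d p y v g : ι → ℝ), 0 ≤ θ → θ ≤ 1 → 0 ≤ sθ → sθ ^ 2 ≤ θ →
      (∀ i, 0 ≤ m i) → (∀ i, 0 ≤ d i) → (∀ i, 0 ≤ p i) → (∀ i, 0 ≤ g i) →
      (∀ i, p i ^ 2 ≤ y i) →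
      (∀ i, m i ≤ κ i * y i + p i ^ 2) →
      (∀ i, y i ≤ (1 + t) ^ 5 * ∑ j ∈ Finset.univ.erase i, w i j * m j +
        16 * (1 + 1 / t) * θ ^ 2) →
      (∀ i, p i ≤ (1 + t) ^ 2 * ∑ j ∈ Finset.univ.erase i, w i j * (3 * d j + m j) + 4 * θ) →
      (∀ i, d i ≤ (1 + t) * (κ i * v i + g i ^ 2) + (1 + 1 / t) * y i) →
      (∀ i, v i ≤ (1 + t) * ∑ j ∈ Finset.univ.erase i, w i j * d j + θ) →
      (∀ B, (∀ i, p i ≤ B) → ∀ i, g i ≤ (Ci + 1) * (sθ + B)) →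
      ∀ M, (∀ i, m i ≤ M) → (∃ i, m i = M) → M ≤ C * (θ ^ 2 + M ^ 2)

/-- the moment inequalities -/
theorem alg (w : ι → ι → ℝ) (κ : ι → ℝ) (i0 : ι) {δ c t Ci : ℝ} (hw0 : ∀ i j, 0 ≤ w i j)
    (hw1 : ∀ i, ∑ j ∈ Finset.univ.erase i, w i j = 1) (hc : 0 < c) (hc1 : c ≤ 1)
    (hwc : ∀ i, i ≠ i0 → c ≤ w i i0) (hδ : 0 < δ) (hδ1 : δ ≤ 1)
    (hκ0 : ∀ i, 0 ≤ κ i) (hκ1 : ∀ i, κ i ≤ 1)
    (hκ : κ i0 ≤ 1 - δ) (ht : 0 < t)
    (hat : ((1 + t) ^ 5) ^ 2 * (1 - c * δ) ≤ 1 - c * δ / 2) (hCi : 0 ≤ Ci) :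
    ∃ C : ℝ, 0 < C ∧ AP w κ t Ci C := by
  obtain ⟨a, hadef⟩ : ∃ a, a = (1 + t) ^ 5 := ⟨_, rfl⟩
  have ha : 1 ≤ a := by
    rw [hadef]
    exact one_le_pow₀ (by linarith)
  have ha2 : (1 + t) ^ 2 ≤ a := by
    rw [hadef]
    exact pow_le_pow_right₀ (by linarith) (by norm_num)
  have ha1 : 1 + t ≤ a := by
    refine le_trans ?_ ha2
    nlinarith
  have ha0 : (0 : ℝ) ≤ a := by linarith
  rw [← hadef] at hat
  obtain ⟨T, hT⟩ : ∃ T, T = 1 + 1 / t := ⟨_, rfl⟩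
  have hT1 : 1 ≤ T := by
    rw [hT]
    have : 0 ≤ 1 / t := by positivity
    linarith
  obtain ⟨K, hK⟩ : ∃ K, K = 2 * (a + 1) / (c * δ) := ⟨_, rfl⟩
  have hK0 : 0 < K := by
    rw [hK]
    positivity
  obtain ⟨G, hG⟩ : ∃ G, G = 2 * (Ci + 1) ^ 2 := ⟨_, rfl⟩
  have hG0 : 0 ≤ G := by
    rw [hG]
    positivity
  obtain ⟨C2, hC2⟩ : ∃ C2, C2 = a * (1 + G) + (a * G + T) * (a + 16 * T) := ⟨_, rfl⟩
  have hC20 : 0 ≤ C2 := by
    rw [hC2]
    positivity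
  obtain ⟨C3, hC3⟩ : ∃ C3, C3 = 3 * a * (K * C2) + a + 4 := ⟨_, rfl⟩
  have hC30 : 0 ≤ C3 := by
    rw [hC3]
    positivity
  refine ⟨K * (16 * T + 2 * C3 ^ 2), by positivity, ?_⟩
  intro θ sθ m d p y v g hθ0 hθ1 hs0 hs1 hm hd hp hg hpy h1 h2 h3 h4 h5 h6 M hM1 hM2
  rw [← hadef, ← hT] at h2
  rw [← hT] at h4
  obtain ⟨i1, hi1⟩ := hM2
  have hM0 : 0 ≤ M := by
    rw [← hi1]
    exact hm i1
  have hbd : ∀ (f : ι → ℝ) (F : ℝ), (∀ i, f i ≤ F) → ∀ i,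
      ∑ j ∈ Finset.univ.erase i, w i j * f j ≤ F := by
    intro f F hf i
    calc ∑ j ∈ Finset.univ.erase i, w i j * f j ≤ ∑ j ∈ Finset.univ.erase i, w i j * F :=
          Finset.sum_le_sum fun j _ => mul_le_mul_of_nonneg_left (hf j) (hw0 i j)
      _ = F := by rw [← Finset.sum_mul, hw1, one_mul]
  have hsn : ∀ (f : ι → ℝ), (∀ i, 0 ≤ f i) → ∀ i,
      0 ≤ ∑ j ∈ Finset.univ.erase i, w i j * f j := fun f hf i =>
    Finset.sum_nonneg fun j _ => mul_nonneg (hw0 i j) (hf j)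
  obtain ⟨Y, hY⟩ : ∃ Y, Y = a * M + 16 * T * θ ^ 2 := ⟨_, rfl⟩
  have hY0 : 0 ≤ Y := by
    rw [hY]
    positivity
  have hyY : ∀ i, y i ≤ Y := by
    intro i
    rw [hY]
    have := hbd m M hM1 i
    refine (h2 i).trans ?_
    gcongr
  have hgG : ∀ i, g i ^ 2 ≤ G * (θ + Y) := by
    intro i
    have e1 : ∀ j, p j ≤ Real.sqrt Y := fun j =>
      Real.le_sqrt_of_sq_le ((hpy j).trans (hyY j))
    have e2 := h6 _ e1 i
    have e3 : g i ^ 2 ≤ ((Ci + 1) * (sθ + Real.sqrt Y)) ^ 2 := pow_le_pow_left₀ (hg i) e2 2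
    have e4 : (sθ + Real.sqrt Y) ^ 2 ≤ 2 * (θ + Y) := by
      have := Real.sq_sqrt hY0
      nlinarith [sq_nonneg (sθ - Real.sqrt Y)]
    rw [mul_pow] at e3
    rw [hG]
    calc g i ^ 2 ≤ (Ci + 1) ^ 2 * (sθ + Real.sqrt Y) ^ 2 := e3
      _ ≤ (Ci + 1) ^ 2 * (2 * (θ + Y)) := by gcongr
      _ = _ := by ring
  obtain ⟨err, herr⟩ : ∃ err, err = a * (θ + G * (θ + Y)) + T * Y := ⟨_, rfl⟩
  have herr0 : 0 ≤ err := by
    rw [herr]
    positivity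
  have hN : ∀ i, d i ≤ K * err := by
    intro i
    rw [hK]
    refine contr w κ i0 hw0 hw1 hc hc1 hwc hδ hδ1 hκ0 hκ1 hκ ha hat d hd herr0 (fun i => ?_) i
    refine (h4 i).trans ?_
    have e0 := hκ0 i
    have e1 := hκ1 i
    have e2 := hsn d hd i
    have e3 := h5 i
    have e4 := hgG i
    have e5 := hyY i
    have e6 : (1 + t) * (κ i * v i) ≤
        a * κ i * ∑ j ∈ Finset.univ.erase i, w i j * d j + a * θ := by
      calc (1 + t) * (κ i * v i) ≤ (1 + t) * (κ i *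
            ((1 + t) * ∑ j ∈ Finset.univ.erase i, w i j * d j + θ)) := by gcongr
        _ = (1 + t) ^ 2 * κ i * (∑ j ∈ Finset.univ.erase i, w i j * d j) +
            (1 + t) * (κ i * θ) := by ring
        _ ≤ a * κ i * (∑ j ∈ Finset.univ.erase i, w i j * d j) + a * (1 * θ) := by gcongr
        _ = _ := by ring
    have e7 : (1 + t) * g i ^ 2 ≤ a * (G * (θ + Y)) := by gcongr
    have e8 : T * y i ≤ T * Y := by gcongr
    rw [herr]
    nlinarith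
  have hY1 : Y ≤ (a + 16 * T) * (θ + M) := by
    rw [hY]
    have e1 : θ ^ 2 ≤ θ := by nlinarith
    have e2 : 16 * T * θ ^ 2 ≤ 16 * T * θ := by gcongr
    have e3 : 0 ≤ a * θ := by positivity
    have e4 : 0 ≤ 16 * T * M := by positivity
    nlinarith
  have herr1 : err ≤ C2 * (θ + M) := by
    rw [herr, hC2]
    have e1 : (a * G + T) * Y ≤ (a * G + T) * ((a + 16 * T) * (θ + M)) := by gcongr
    have e2 : 0 ≤ a * (1 + G) * M := by positivity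
    nlinarith
  have hN1 : ∀ i, d i ≤ K * C2 * (θ + M) := by
    intro i
    refine (hN i).trans ?_
    rw [mul_assoc]
    gcongr
  have hp1 : ∀ i, p i ≤ C3 * (θ + M) := by
    intro i
    refine (h3 i).trans ?_
    have e1 : ∑ j ∈ Finset.univ.erase i, w i j * (3 * d j + m j) ≤
        3 * (K * C2 * (θ + M)) + M := by
      refine hbd (fun j => 3 * d j + m j) _ (fun j => ?_) i
      have := hN1 j
      have := hM1 j
      linarith
    have e2 := hsn (fun j => 3 * d j + m j) (fun j => by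
      have := hd j
      have := hm j
      positivity) i
    have e3 : (1 + t) ^ 2 * ∑ j ∈ Finset.univ.erase i, w i j * (3 * d j + m j) ≤
        a * (3 * (K * C2 * (θ + M)) + M) := by gcongr
    rw [hC3]
    have e4 : 0 ≤ a * θ := by positivity
    nlinarith
  have hfin : ∀ i, m i ≤ K * (16 * T * θ ^ 2 + (C3 * (θ + M)) ^ 2) := by
    intro i
    rw [hK]
    refine contr w κ i0 hw0 hw1 hc hc1 hwc hδ hδ1 hκ0 hκ1 hκ ha hat m hm (by positivity)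
      (fun i => ?_) i
    refine (h1 i).trans ?_
    have e0 := hκ0 i
    have e1 := hκ1 i
    have e2 := hsn m hm i
    have e3 : p i ^ 2 ≤ (C3 * (θ + M)) ^ 2 := pow_le_pow_left₀ (hp i) (hp1 i) 2
    have e4 : κ i * y i ≤ a * κ i * ∑ j ∈ Finset.univ.erase i, w i j * m j +
        16 * T * θ ^ 2 := by
      calc κ i * y i ≤ κ i * (a * ∑ j ∈ Finset.univ.erase i, w i j * m j +
            16 * T * θ ^ 2) := by
            have := h2 i
            gcongr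
        _ = a * κ i * (∑ j ∈ Finset.univ.erase i, w i j * m j) + κ i * (16 * T * θ ^ 2) := by
            ring
        _ ≤ a * κ i * (∑ j ∈ Finset.univ.erase i, w i j * m j) + 1 * (16 * T * θ ^ 2) := by
            gcongr
        _ = _ := by ring
    linarith
  have e1 := hfin i1
  rw [hi1] at e1
  refine e1.trans ?_
  have e2 : (C3 * (θ + M)) ^ 2 ≤ 2 * C3 ^ 2 * (θ ^ 2 + M ^ 2) := by
    have : (θ + M) ^ 2 ≤ 2 * (θ ^ 2 + M ^ 2) := by nlinarith [sq_nonneg (θ - M)]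
    calc (C3 * (θ + M)) ^ 2 = C3 ^ 2 * (θ + M) ^ 2 := by ring
      _ ≤ C3 ^ 2 * (2 * (θ ^ 2 + M ^ 2)) := by gcongr
      _ = _ := by ring
  have e3 : 0 ≤ 16 * T * M ^ 2 := by positivity
  calc K * (16 * T * θ ^ 2 + (C3 * (θ + M)) ^ 2) ≤
        K * ((16 * T + 2 * C3 ^ 2) * (θ ^ 2 + M ^ 2)) := by
          refine mul_le_mul_of_nonneg_left ?_ hK0.le
          nlinarith
    _ = _ := by ring

/-- a small parameter -/
theorem exists_t {x : ℝ} (hx : 0 < x) (hx1 : x ≤ 1) :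
    ∃ t : ℝ, 0 < t ∧ t ≤ 1 / 2 ∧ ((1 + t) ^ 5) ^ 2 * (1 - x) ≤ 1 - x / 2 := by
  have h1 : ContinuousAt (fun t : ℝ => ((1 + t) ^ 5) ^ 2 * (1 - x)) 0 := by fun_prop
  have h2 : ((1 + (0 : ℝ)) ^ 5) ^ 2 * (1 - x) < 1 - x / 2 := by
    norm_num
    linarith
  have h3 := h1.eventually_lt_const h2
  rw [Metric.eventually_nhds_iff] at h3
  obtain ⟨r, hr, h4⟩ := h3
  refine ⟨min (r / 2) (1 / 2), by positivity, min_le_right _ _, ?_⟩
  refine (h4 ?_).le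
  rw [Real.dist_eq, sub_zero, abs_of_pos (by positivity)]
  have := min_le_left (r / 2) (1 / 2 : ℝ)
  linarith

end contr

end Pool.Agent.Helper32.FG
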