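import Pool.Agent.Helper32.FG.Br

/-! The powers of the hopping operator are linearly independent. -/

set_option autoImplicit false
set_option linter.unusedSectionVars false
set_option linter.unusedSimpArgs false
set_option linter.deprecated false
set_option linter.unusedVariables false

open scoped BigOperators InnerProductSpace Topology
open Monoid (CoprodI)
open Monoid.CoprodI (of Word of_injective)

namespace Pool.Agent.Helper32.FG

open Pool.Agent.Y662.TR (LL dv dv_apply dv_self dv_ne add_coord sub_coord smul_coord)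

section len

variable {ι : Type} {Γ : ι → Type} [∀ i, Group (Γ i)]

open Classical in
/-- the number of letters -/
noncomputable def ln (x : CoprodI Γ) : ℕ := (Word.equiv x).toList.length

theorem ln_one : ln (1 : CoprodI Γ) = 0 := by
  classical
  unfold ln
  have h : Word.equiv (1 : CoprodI Γ) = Word.empty := by
    change (1 : CoprodI Γ) • (Word.empty : Word Γ) = (Word.empty : Word Γ)
    rw [one_smul]
  rw [h]
  rfl

theorem ln_mul {i : ι} {y : Γ i} (hy : y ≠ 1) {x : CoprodI Γ} (hx : hd x ≠ some i) :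
    ln (of y * x) = ln x + 1 := by
  classical
  unfold hd at hx
  unfold ln
  have h : Word.equiv (of y * x) = Word.cons y (Word.equiv x) hx hy := by
    rw [Word.cons_eq_smul]
    change (of y * x) • (Word.empty : Word Γ) =
      (of y : CoprodI Γ) • (x • (Word.empty : Word Γ))
    rw [mul_smul]
  rw [h]
  simp [Word.cons]

theorem dec_word (w : Word Γ) : ∀ i : ι, w.fstIdx = some i →
    ∃ m : Γ i, m ≠ 1 ∧ ∃ x' : CoprodI Γ, hd x' ≠ some i ∧ w.prod = of m * x' := by
  classical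
  refine Word.consRecOn w ?_ ?_
  · intro i h
    simp [Word.fstIdx, Word.empty] at h
  · intro j m w hmw h1 _ i hi
    rw [Word.fstIdx_cons] at hi
    simp only [Option.some.injEq] at hi
    subst hi
    exact ⟨m, h1, w.prod, by rw [hd_word]; exact hmw, Word.prod_cons _ _ _ _ _⟩

theorem dec {i : ι} {x : CoprodI Γ} (h : hd x = some i) :
    ∃ m : Γ i, m ≠ 1 ∧ ∃ x' : CoprodI Γ, hd x' ≠ some i ∧ x = of m * x' := by
  classical
  obtain ⟨w, rfl⟩ : ∃ w : Word Γ, w.prod = x := by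
    refine ⟨Word.equiv x, ?_⟩
    have := Word.equiv.symm_apply_apply x
    exact this
  exact dec_word w i (by rw [← hd_word]; exact h)

theorem ln_le {i : ι} (y : Γ i) (x : CoprodI Γ) : ln (of y * x) ≤ ln x + 1 := by
  by_cases hy : y = 1
  · rw [hy, map_one, one_mul]
    omega
  · by_cases hx : hd x = some i
    · obtain ⟨m, hm, x', hx', rfl⟩ := dec hx
      rw [← mul_assoc, ← map_mul, ln_mul hm hx']
      by_cases hym : y * m = 1
      · rw [hym, map_one, one_mul]
        omega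
      · rw [ln_mul hym hx']
        omega
    · rw [ln_mul hy hx]

end len

section main

variable {ι : Type} [Fintype ι] [DecidableEq ι] {Γ : ι → Type} [∀ i, Group (Γ i)]

/-- the iterated hopping -/
noncomputable def wk (a : ∀ i, Γ i →₀ ℝ) (k : ℕ) : LL (CoprodI Γ) := (Lf a ^ k) (dv 1)

theorem wk_succ (a : ∀ i, Γ i →₀ ℝ) (k : ℕ) : wk a (k + 1) = Lf a (wk a k) := by
  unfold wk
  rw [pow_succ', ContinuousLinearMap.mul_apply]

theorem wk_zero (a : ∀ i, Γ i →₀ ℝ) : wk a 0 = dv 1 := by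
  unfold wk
  rw [pow_zero, ContinuousLinearMap.one_apply]

/-- the letters -/
noncomputable def Ss (a : ∀ i, Γ i →₀ ℝ) : Finset (Σ i, Γ i) :=
  Finset.univ.sigma fun i => (a i).support

theorem sum_Ss (a : ∀ i, Γ i →₀ ℝ) (f : ∀ i, Γ i → ℂ) :
    ∑ p ∈ Ss a, f p.1 p.2 = ∑ i, ∑ s ∈ (a i).support, f i s :=
  Finset.sum_sigma _ _ _

theorem Lf_apply' (a : ∀ i, Γ i →₀ ℝ) (u : LL (CoprodI Γ)) (x : CoprodI Γ) :
    Lf a u x = ∑ p ∈ Ss a, ((a p.1 p.2 : ℝ) : ℂ) * u (x * em Γ p.1 p.2) := by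
  rw [Lf_apply, sum_Ss a fun i s => ((a i s : ℝ) : ℂ) * u (x * em Γ i s)]

theorem wk_left' (a : ∀ i, Γ i →₀ ℝ) (k : ℕ) : ∀ x : CoprodI Γ,
    wk a (k + 1) x = ∑ p ∈ Ss a, ((a p.1 p.2 : ℝ) : ℂ) * wk a k (em Γ p.1 p.2 * x) := by
  classical
  induction k with
  | zero =>
    intro x
    rw [wk_succ, Lf_apply', wk_zero]
    refine Finset.sum_congr rfl fun p _ => ?_
    congr 1
    rw [dv_apply, dv_apply]
    by_cases h : x * em Γ p.1 p.2 = 1
    · rw [if_pos h, if_pos (mul_eq_one_comm.1 h)]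
    · rw [if_neg h, if_neg (fun h2 => h (mul_eq_one_comm.1 h2))]
  | succ k ih =>
    intro x
    calc wk a (k + 1 + 1) x = ∑ p ∈ Ss a, ((a p.1 p.2 : ℝ) : ℂ) *
          wk a (k + 1) (x * em Γ p.1 p.2) := by rw [wk_succ, Lf_apply']
      _ = ∑ p ∈ Ss a, ∑ q ∈ Ss a, ((a p.1 p.2 : ℝ) : ℂ) * (((a q.1 q.2 : ℝ) : ℂ) *
          wk a k (em Γ q.1 q.2 * x * em Γ p.1 p.2)) := by
          refine Finset.sum_congr rfl fun p _ => ?_
          rw [ih, Finset.mul_sum]
          refine Finset.sum_congr rfl fun q _ => ?_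
          rw [mul_assoc (em Γ q.1 q.2) x]
      _ = ∑ q ∈ Ss a, ∑ p ∈ Ss a, ((a p.1 p.2 : ℝ) : ℂ) * (((a q.1 q.2 : ℝ) : ℂ) *
          wk a k (em Γ q.1 q.2 * x * em Γ p.1 p.2)) := Finset.sum_comm
      _ = _ := by
          refine Finset.sum_congr rfl fun q _ => ?_
          rw [wk_succ, Lf_apply', Finset.mul_sum]
          refine Finset.sum_congr rfl fun p _ => ?_
          ring

/-- the hopping acts from the left as well -/
theorem wk_left (a : ∀ i, Γ i →₀ ℝ) (k : ℕ) (x : CoprodI Γ) :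
    Lf a (wk a k) x = ∑ i, ∑ s ∈ (a i).support, ((a i s : ℝ) : ℂ) * wk a k (em Γ i s * x) := by
  rw [← wk_succ, wk_left', sum_Ss a fun i s => ((a i s : ℝ) : ℂ) * wk a k (em Γ i s * x)]

theorem wk_supp (a : ∀ i, Γ i →₀ ℝ) (k : ℕ) (x : CoprodI Γ) (h : k < ln x) : wk a k x = 0 := by
  induction k generalizing x with
  | zero =>
    rw [wk_zero, dv_ne]
    rintro rfl
    rw [ln_one] at h
    omega
  | succ k ih =>
    rw [wk_succ, wk_left]
    refine Finset.sum_eq_zero fun i _ => Finset.sum_eq_zero fun s _ => ?_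
    rw [ih, mul_zero]
    have h1 := ln_le (s⁻¹) (em Γ i s * x)
    rw [← mul_assoc, ← map_mul, inv_mul_cancel, map_one, one_mul] at h1
    have h2 : ln (of s * x) = ln (em Γ i s * x) := rfl
    omega

theorem wk_path [Nontrivial ι] {a : ∀ i, Γ i →₀ ℝ} (hs : ∀ i s, a i s⁻¹ = a i s)
    (h1 : ∀ i, a i 1 = 0) (h0 : ∀ i, a i ≠ 0) (k : ℕ) :
    ∃ x : CoprodI Γ, ln x = k ∧ wk a k x ≠ 0 := by
  classical
  induction k with
  | zero =>
    refine ⟨1, ln_one, ?_⟩
    rw [wk_zero, dv_self]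
    exact one_ne_zero
  | succ k ih =>
    obtain ⟨x, hx, hw⟩ := ih
    obtain ⟨i, hi⟩ : ∃ i : ι, hd x ≠ some i := by
      obtain ⟨i, j, hij⟩ := exists_pair_ne ι
      by_cases h : hd x = some i
      · exact ⟨j, by rw [h]; simpa using hij⟩
      · exact ⟨i, h⟩
    obtain ⟨t, ht⟩ : ∃ t, t ∈ (a i).support := Finsupp.support_nonempty_iff.2 (h0 i)
    have hat : a i t ≠ 0 := Finsupp.mem_support_iff.1 ht
    have ht1 : t ≠ 1 := by
      rintro rfl
      exact hat (h1 i)
    have hl : ln (em Γ i t * x) = k + 1 := by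
      rw [← hx]
      exact ln_mul ht1 hi
    refine ⟨em Γ i t * x, hl, ?_⟩
    rw [wk_succ, wk_left, Finset.sum_eq_single_of_mem i (Finset.mem_univ i)]
    · have hti : t⁻¹ ∈ (a i).support := by
        rw [Finsupp.mem_support_iff, hs]
        exact hat
      rw [Finset.sum_eq_single_of_mem t⁻¹ hti]
      · rw [← mul_assoc, ← map_mul, inv_mul_cancel, map_one, one_mul, hs]
        exact mul_ne_zero (Complex.ofReal_ne_zero.2 hat) hw
      · intro s hs' hst
        rw [wk_supp, mul_zero]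
        rw [← mul_assoc, ← map_mul]
        have h2 : s * t ≠ 1 := fun h => hst (eq_inv_of_mul_eq_one_left h)
        have h3 : ln (em Γ i (s * t) * x) = ln x + 1 := ln_mul h2 hi
        omega
    · intro j _ hji
      refine Finset.sum_eq_zero fun s hs' => ?_
      have hs1 : s ≠ 1 := by
        rintro rfl
        exact (Finsupp.mem_support_iff.1 hs') (h1 j)
      rw [wk_supp, mul_zero]
      have h2 : hd (em Γ i t * x) ≠ some j := by
        have h3 : hd (em Γ i t * x) = some i := hd_mul ht1 hi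
        rw [h3]
        simpa using Ne.symm hji
      have h3 : ln (em Γ j s * (em Γ i t * x)) = ln (em Γ i t * x) + 1 := ln_mul hs1 h2
      omega

open Polynomial in
/-- **no polynomial relation** -/
theorem aeval_ne [Nontrivial ι] {a : ∀ i, Γ i →₀ ℝ} (hs : ∀ i s, a i s⁻¹ = a i s)
    (h1 : ∀ i, a i 1 = 0) (h0 : ∀ i, a i ≠ 0) (Q : ℂ[X]) (hQ : Q ≠ 0) :
    aeval (Lf a) Q (dv (1 : CoprodI Γ)) ≠ 0 := by
  intro h
  obtain ⟨x, hx, hw⟩ := wk_path hs h1 h0 Q.natDegree
  rw [aeval_eq_sum_range, ContinuousLinearMap.sum_apply] at h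
  have h2 : (∑ n ∈ Finset.range (Q.natDegree + 1), (Q.coeff n • Lf a ^ n) (dv 1) :
      LL (CoprodI Γ)) x = 0 := by
    rw [h]
    rfl
  rw [sum_coord, Finset.sum_range_succ, Finset.sum_eq_zero, zero_add] at h2
  · have h3 : Q.leadingCoeff * wk a Q.natDegree x = 0 := h2
    rcases mul_eq_zero.1 h3 with h4 | h4
    · exact hQ (leadingCoeff_eq_zero.1 h4)
    · exact hw h4
  · intro n hn
    rw [Finset.mem_range] at hn
    have h3 : wk a n x = 0 := wk_supp a n x (by omega)
    have h4 : ((Q.coeff n • Lf a ^ n) (dv 1) : LL (CoprodI Γ)) x = Q.coeff n * wk a n x := rfl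
    rw [h4, h3, mul_zero]

end main

end Pool.Agent.Helper32.FG
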