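import Pool.Agent.Helper32.FG.Reg
import Pool.Agent.Helper32.FG.Cy
import Pool.Agent.Helper32.FG.Len
import Pool.Graph.R_seed8.TH369.MU.W3

/-! The main theorem: the regular energies of a free product. -/

set_option autoImplicit false
set_option linter.unusedSectionVars false
set_option linter.unusedSimpArgs false
set_option linter.deprecated false
set_option linter.unusedVariables false

open scoped BigOperators InnerProductSpace Topology ENNReal
open Filter MeasureTheory ProbabilityTheory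
open Monoid (CoprodI)
open Monoid.CoprodI (of Word of_injective)

namespace Pool.Agent.Helper32.FG

open Pool.Agent.TH369.AN (Rz rz_eq rz_uniq rz_norm)
open Pool.Agent.TH369.MU (SpM ep zk qk Fk qk_sq poisson_ae liminf_ae spm_exists)
open Pool.Agent.TH369.MU.PO2 (ep_pos ep_tendsto)
open Pool.Agent.TH794.LL2 (Po Po_int Po_im)
open Pool.Agent.Y662.TR (LL dv lmk lmk_apply ll_inner ll_ext ll_summable ll_sum add_coord
  sub_coord smul_coord zk_eq qk_po)

theorem Th_univ_zero {V : Type} (L : LL V →L[ℂ] LL V) (b : ℝ) (ω : V → ℝ) :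
    Th L Set.univ 0 b ω = L := by
  rw [Th_zero]
  ext1 u
  apply ll_ext
  intro x
  rw [Cp_mem _ _ (Set.mem_univ x)]
  have : Pj Set.univ u = u := by
    apply ll_ext
    intro y
    exact Pj_mem _ (Set.mem_univ y)
  rw [this]

variable {ι : Type} [Fintype ι] [DecidableEq ι] {Γ : ι → Type} [∀ i, Group (Γ i)]

theorem G0_gr (a : ∀ i, Γ i →₀ ℝ) (z : ℂ) : G0 a z = gr (Lf a) (dv (1 : CoprodI Γ)) z := by
  unfold G0 GF Gg gr
  rw [Th_univ_zero]

/-- **regular energies exist** -/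
theorem reg_exists [Nontrivial ι] {a : ∀ i, Γ i →₀ ℝ} (hs : ∀ i s, a i s⁻¹ = a i s)
    (h1 : ∀ i, a i 1 = 0) (h0 : ∀ i, a i ≠ 0) : ∃ E : ℝ, RegE a E := by
  by_contra hcon
  push Not at hcon
  obtain ⟨Q, hQ, hQ2⟩ := gr_fin (Lf a) (Lf_sa hs) (dv (1 : CoprodI Γ)) (by
    intro E hE
    apply hcon E
    obtain ⟨z, w, e1, e2, e3, e4⟩ := hE
    refine ⟨z, w, e1, e2, ?_, e4⟩
    simp only [G0_gr]
    exact e3)
  exact aeval_ne hs h1 h0 Q hQ hQ2

/-- **almost all energies with a positive density are regular** -/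
theorem reg_ae {a : ∀ i, Γ i →₀ ℝ} (hs : ∀ i s, a i s⁻¹ = a i s) (m : Measure ℝ)
    (hm : SpM (Lf a) (dv (1 : CoprodI Γ)) m) :
    ∀ᵐ E : ℝ, 0 < m.rnDeriv volume E → RegE a E := by
  haveI := hm.1
  filter_upwards [poisson_ae m, liminf_ae m, m.rnDeriv_lt_top (volume : Measure ℝ)]
    with E e1 e2 e3 hpos
  obtain ⟨C, hC⟩ := e2
  obtain ⟨φ, hφ, hφC⟩ := Filter.extraction_of_frequently_atTop hC
  have hgr : ∀ k, gr (Lf a) (dv (1 : CoprodI Γ)) (zk E k) = ∫ x : ℝ, ((x : ℂ) - zk E k)⁻¹ ∂m :=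
    fun k => hm.2 _ (zk_im_pos E k).ne'
  have hK : IsCompact (Metric.closedBall (0 : ℂ) C) := isCompact_closedBall _ _
  obtain ⟨w, hw, ψ, hψ, hlim⟩ := hK.tendsto_subseq
    (x := fun n => ∫ x : ℝ, ((x : ℂ) - zk E (φ n))⁻¹ ∂m) (fun n => by simpa using hφC n)
  refine ⟨fun n => zk E (φ (ψ n)), w, fun n => zk_im_pos _ _, ?_, ?_, ?_⟩
  · have h1 : Tendsto (fun k => zk E k) atTop (𝓝 (E : ℂ)) := by
      have h2 : Tendsto (fun k => (E : ℂ) + (ep k : ℂ) * Complex.I) atTop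
          (𝓝 ((E : ℂ) + ((0 : ℝ) : ℂ) * Complex.I)) := by
        refine tendsto_const_nhds.add (Tendsto.mul_const _ ?_)
        exact (Complex.continuous_ofReal.tendsto 0).comp
          (tendsto_nhds_of_tendsto_nhdsWithin ep_tendsto)
      have h3 : Tendsto (fun k => (E : ℂ) + (ep k : ℂ) * Complex.I) atTop (𝓝 (E : ℂ)) := by
        simpa using h2
      exact h3
    exact h1.comp (hφ.tendsto_atTop.comp hψ.tendsto_atTop)
  · refine hlim.congr fun n => ?_
    rw [G0_gr, hgr]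
    rfl
  · have h1 : Tendsto (fun k => (gr (Lf a) (dv (1 : CoprodI Γ)) (zk E k)).im) atTop
        (𝓝 (Real.pi * (m.rnDeriv volume E).toReal)) := by
      refine e1.congr fun k => ?_
      have h2 := qk_po (Lf a) (Lf_sa hs) (dv (1 : CoprodI Γ)) m hm E k
      rw [qk_sq _ (Lf_sa hs)] at h2
      exact h2.symm
    have h2 := h1.comp (hφ.tendsto_atTop.comp hψ.tendsto_atTop)
    have h3 := (Complex.continuous_im.tendsto w).comp hlim
    have h4 : w.im = Real.pi * (m.rnDeriv volume E).toReal := by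
      refine tendsto_nhds_unique h3 (h2.congr fun n => ?_)
      simp only [Function.comp]
      rw [hgr]
    rw [h4]
    have := ENNReal.toReal_pos hpos.ne' e3.ne
    positivity

section main

variable [∀ i, Countable (Γ i)]

/-- the conclusion for a set of energies -/
def Ext (a : ∀ i, Γ i →₀ ℝ) (lam b : ℝ) (K : Set ℝ) (ρ : Measure ℝ) : Prop :=
  ∀ᵐ ω ∂(Pf (CoprodI Γ) ρ),
    (∀ (φ : LL (CoprodI Γ)) (m : Measure ℝ), SpM (Th (Lf a) Set.univ lam b ω) φ m →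
      ∀ A : Set ℝ, A ⊆ K → volume A = 0 → m A = 0) ∧
    (∀ (v : CoprodI Γ) (m : Measure ℝ), SpM (Th (Lf a) Set.univ lam b ω) (dv v) m →
      ∀ A : Set ℝ, A ⊆ K → MeasurableSet A → m A = 0 → volume A = 0)

/-- **the set of the regular energies is open, and its compact subsets are stable** -/
theorem main_fg [Nontrivial ι] {a : ∀ i, Γ i →₀ ℝ} (hs : ∀ i s, a i s⁻¹ = a i s)
    (h1 : ∀ i, a i 1 = 0) (h0 : ∀ i, a i ≠ 0) (hN1 : ∃ i, 2 ≤ (a i).support.card)
    (K : Set ℝ) (hK : IsCompact K) (hKr : ∀ E ∈ K, RegE a E ∧ ¬ Exc a E) :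
    ∃ lam1 > 0, ∀ lam b : ℝ, |lam * b| ≤ lam1 →
      ∀ (ρ : Measure ℝ) [IsProbabilityMeasure ρ], Ext a lam b K ρ := by
  have hloc : ∀ E : K, ∃ δ : ℝ, 0 < δ ∧ ∃ lam1 : ℝ, 0 < lam1 ∧ ∀ lam b : ℝ, |lam * b| ≤ lam1 →
      ∀ (ρ : Measure ℝ) [IsProbabilityMeasure ρ], Ext a lam b (Set.Ioo (E - δ) (E + δ)) ρ := by
    intro E
    obtain ⟨F, u, R, hst⟩ := reg_ref hs h1 h0 (hKr E E.2).1
    obtain ⟨δ, hδ, lam1, hlam1, h⟩ := loc_nd R hN1 (hKr E E.2).2 hst
    exact ⟨δ, hδ, lam1, hlam1, fun lam b hl ρ _ => h lam b hl ρ⟩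
  choose δ hδ lam1 hlam1 h using hloc
  obtain ⟨t, ht⟩ := hK.elim_finite_subcover
    (fun E : K => Set.Ioo ((E : ℝ) - δ E) (E + δ E)) (fun E => isOpen_Ioo) (by
      intro E hE
      rw [Set.mem_iUnion]
      refine ⟨⟨E, hE⟩, ?_⟩
      have := hδ ⟨E, hE⟩
      constructor
      · simp only
        linarith
      · simp only
        linarith)
  obtain ⟨l, hl0, hl⟩ : ∃ l : ℝ, 0 < l ∧ ∀ E ∈ t, l ≤ lam1 E := by
    rcases t.eq_empty_or_nonempty with he | hne
    · exact ⟨1, one_pos, fun E hE => by rw [he] at hE; simp at hE⟩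
    · obtain ⟨k, hk, hmin⟩ := t.exists_min_image lam1 hne
      exact ⟨lam1 k, hlam1 k, hmin⟩
  refine ⟨l, hl0, fun lam b hlb ρ _ => ?_⟩
  have hall : ∀ᵐ ω ∂(Pf (CoprodI Γ) ρ), ∀ E ∈ t,
      (∀ (φ : LL (CoprodI Γ)) (m : Measure ℝ), SpM (Th (Lf a) Set.univ lam b ω) φ m →
        ∀ A : Set ℝ, A ⊆ Set.Ioo ((E : ℝ) - δ E) (E + δ E) → volume A = 0 → m A = 0) ∧
      (∀ (v : CoprodI Γ) (m : Measure ℝ), SpM (Th (Lf a) Set.univ lam b ω) (dv v) m →
        ∀ A : Set ℝ, A ⊆ Set.Ioo ((E : ℝ) - δ E) (E + δ E) → MeasurableSet A → m A = 0 →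
          volume A = 0) := by
    rw [Filter.eventually_all_finset]
    intro E hE
    exact h E lam b (hlb.trans (hl E hE)) ρ
  filter_upwards [hall] with ω hω
  have hsub : ∀ A : Set ℝ, A ⊆ K → A ⊆ ⋃ E ∈ t, A ∩ Set.Ioo ((E : ℝ) - δ E) (E + δ E) := by
    intro A hA x hx
    have := ht (hA hx)
    rw [Set.mem_iUnion₂] at this ⊢
    obtain ⟨E, hE, hxE⟩ := this
    exact ⟨E, hE, hx, hxE⟩
  refine ⟨fun φ m hm A hA hv => ?_, fun v m hm A hA hAm hv => ?_⟩
  · refine measure_mono_null (hsub A hA) ?_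
    refine (measure_biUnion_null_iff t.countable_toSet).2 ?_
    intro E hE
    exact (hω E hE).1 φ m hm _ Set.inter_subset_right
      (measure_mono_null Set.inter_subset_left hv)
  · refine measure_mono_null (hsub A hA) ?_
    refine (measure_biUnion_null_iff t.countable_toSet).2 ?_
    intro E hE
    exact (hω E hE).2 v m hm _ Set.inter_subset_right (hAm.inter measurableSet_Ioo)
      (measure_mono_null Set.inter_subset_left hv)

theorem reg_open_aux [Nontrivial ι] {a : ∀ i, Γ i →₀ ℝ} {E0 : ℝ} {F : ι → ℂ}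
    {u : ∀ i, LL (Γ i)} (R : Rf a E0 F u) {ε1 K : ℝ} (hε : 0 < ε1)
    (h : ∀ z : ℂ, 0 < z.im → ‖z - E0‖ < ε1 → ∀ i, Xd (F0 a i z) (F i) ≤ K) {E : ℝ}
    (hE : |E - E0| < ε1 / 2) : RegE a E := by
  obtain ⟨r, hr⟩ : ∃ r : ℕ → ℝ, r = fun n : ℕ => ε1 / 4 * (1 / ((n : ℝ) + 1)) := ⟨_, rfl⟩
  obtain ⟨zn, hzn⟩ : ∃ zn : ℕ → ℂ, zn = fun n : ℕ => (E : ℂ) + ((r n : ℝ) : ℂ) * Complex.I :=
    ⟨_, rfl⟩
  have hrn : ∀ n : ℕ, 0 < r n ∧ r n ≤ ε1 / 4 := by
    intro n
    have e1 : 1 / ((n : ℝ) + 1) ≤ 1 := by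
      rw [div_le_one (by positivity)]
      have : (0 : ℝ) ≤ n := Nat.cast_nonneg n
      linarith
    rw [hr]
    constructor
    · positivity
    · simp only
      nlinarith
  have him : ∀ n, (zn n).im = r n := by
    intro n
    rw [hzn]
    simp
  have hpos : ∀ n, 0 < (zn n).im := by
    intro n
    rw [him]
    exact (hrn n).1
  have hdist : ∀ n, ‖zn n - E0‖ < ε1 := by
    intro n
    have e1 : zn n - E0 = ((E - E0 : ℝ) : ℂ) + ((r n : ℝ) : ℂ) * Complex.I := by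
      rw [hzn]
      push_cast
      ring
    rw [e1]
    refine (norm_add_le _ _).trans_lt ?_
    obtain ⟨e2, e3⟩ := hrn n
    rw [norm_mul, Complex.norm_real, Complex.norm_real, Complex.norm_I, mul_one,
      Real.norm_of_nonneg e2.le, Real.norm_eq_abs]
    linarith
  have hlimz : Tendsto zn atTop (𝓝 (E : ℂ)) := by
    rw [hzn]
    have e1 : Tendsto r atTop (𝓝 (ε1 / 4 * 0)) := by
      rw [hr]
      exact tendsto_one_div_add_atTop_nhds_zero_nat.const_mul _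
    rw [mul_zero] at e1
    have e2 : Tendsto (fun n : ℕ => (E : ℂ) + ((r n : ℝ) : ℂ) * Complex.I) atTop
        (𝓝 ((E : ℂ) + ((0 : ℝ) : ℂ) * Complex.I)) :=
      tendsto_const_nhds.add (((Complex.continuous_ofReal.tendsto 0).comp e1).mul_const _)
    simpa using e2
  -- the Green functions of the branches stay in a compact set
  obtain ⟨k, -⟩ := exists_pair_ne ι
  have hK0 : 0 ≤ K := (Xd_nonneg (Fi_pos R k 0 0 (hpos 0) 0) (R.Fpos k)).trans
    (h (zn 0) (hpos 0) (hdist 0) k)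
  have hF0 : ∀ i n, (F i).im / (K + 2) ≤ (F0 a i (zn n)).im ∧
      ‖F0 a i (zn n)‖ ≤ ‖F i‖ + (K + 2) * (F i).im := by
    intro i n
    have hp : 0 < (F0 a i (zn n)).im := Fi_pos R i 0 0 (hpos n) 0
    have hq := R.Fpos i
    have hX := h (zn n) (hpos n) (hdist n) i
    have e1 := Xd_low hp hq
    have e2 := Xd_up hp hq
    have e3 := Xd_mul hp hq
    have hX0 := Xd_nonneg hp hq
    constructor
    · rw [div_le_iff₀ (by linarith)]
      nlinarith
    · have e4 : ‖F0 a i (zn n) - F i‖ ^ 2 ≤ ((K + 2) * (F i).im) ^ 2 := by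
        rw [e3]
        have e5 : (F0 a i (zn n)).im ≤ (K + 2) * (F i).im := by nlinarith
        calc Xd (F0 a i (zn n)) (F i) * (F i).im * (F0 a i (zn n)).im ≤
              (K + 2) * (F i).im * ((K + 2) * (F i).im) := by
              have : Xd (F0 a i (zn n)) (F i) ≤ K + 2 := by linarith
              gcongr
          _ = _ := by ring
      have e6 : ‖F0 a i (zn n) - F i‖ ≤ (K + 2) * (F i).im :=
        (pow_le_pow_iff_left₀ (norm_nonneg _) (by positivity) two_ne_zero).1 e4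
      have e7 := norm_add_le (F i) (F0 a i (zn n) - F i)
      rw [add_sub_cancel] at e7
      linarith
  -- the Green function
  obtain ⟨Kc, hKc⟩ : ∃ Kc : Set ℂ, Kc = Metric.closedBall (0 : ℂ)
      (|E0| + ε1 + ∑ i, (‖F i‖ + (K + 2) * (F i).im)) ∩ {p | (F k).im / (K + 2) ≤ p.im} :=
    ⟨_, rfl⟩
  have hKcc : IsCompact Kc := by
    rw [hKc]
    exact (isCompact_closedBall _ _).inter_right
      (isClosed_le continuous_const Complex.continuous_im)
  obtain ⟨p, hp, ψ, hψ, hlim⟩ := hKcc.tendsto_subseq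
    (x := fun n => zn n + ∑ j, F0 a j (zn n)) (fun n => by
      rw [hKc]
      constructor
      · rw [Metric.mem_closedBall, dist_zero_right]
        have e1 := norm_add_le (zn n) (∑ j, F0 a j (zn n))
        have e2 : ‖zn n‖ ≤ |E0| + ε1 := by
          have e3 := norm_add_le (zn n - E0) (E0 : ℂ)
          rw [sub_add_cancel, Complex.norm_real, Real.norm_eq_abs] at e3
          have e4 := hdist n
          linarith
        have e5 : ‖∑ j, F0 a j (zn n)‖ ≤ ∑ i, (‖F i‖ + (K + 2) * (F i).im) :=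
          (norm_sum_le _ _).trans (Finset.sum_le_sum fun j _ => (hF0 j n).2)
        linarith
      · change (F k).im / (K + 2) ≤ (zn n + ∑ j, F0 a j (zn n)).im
        rw [Complex.add_im, Complex.im_sum]
        have e1 := Finset.single_le_sum (f := fun j => (F0 a j (zn n)).im)
          (fun j _ => (Fi_pos R j 0 0 (hpos n) 0).le) (Finset.mem_univ k)
        have e2 := (hF0 k n).1
        have e3 := (hpos n).le
        linarith)
  have hpim : 0 < p.im := by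
    rw [hKc] at hp
    have e1 : (F k).im / (K + 2) ≤ p.im := hp.2
    have e2 := R.Fpos k
    have e3 : 0 < (F k).im / (K + 2) := by positivity
    linarith
  have hp0 : p ≠ 0 := by
    rintro rfl
    simp at hpim
  refine ⟨zn ∘ ψ, -p⁻¹, fun n => hpos _, hlimz.comp hψ.tendsto_atTop, ?_, ?_⟩
  · have e1 : ∀ n, G0 a ((zn ∘ ψ) n) = -(zn (ψ n) + ∑ j, F0 a j (zn (ψ n)))⁻¹ := by
      intro n
      have e2 := G0_eq R.hs R.h1 (hpos (ψ n))
      have e3 : zn (ψ n) + ∑ j, F0 a j (zn (ψ n)) ≠ 0 := by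
        intro h0
        rw [h0, mul_zero] at e2
        norm_num at e2
      simp only [Function.comp]
      field_simp
      exact e2
    simp only [e1]
    exact (hlim.inv₀ hp0).neg
  · rw [Complex.neg_im, Complex.inv_im]
    have := Complex.normSq_pos.2 hp0
    have e2 : -(-p.im / Complex.normSq p) = p.im / Complex.normSq p := by ring
    rw [e2]
    positivity

theorem boot_nd [Nontrivial ι] {a : ∀ i, Γ i →₀ ℝ} {E0 : ℝ} {F : ι → ℂ}
    {u : ∀ i, LL (Γ i)} (R : Rf a E0 F u) (hN1 : ∃ i, 2 ≤ (a i).support.card)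
    (hN2 : ¬ Exc a E0)
    (hst : ∀ η : ℝ, 0 < η → ∃ z : ℂ, 0 < z.im ∧ ‖z - E0‖ < η ∧ ∀ i, Xd (F0 a i z) (F i) < η) :
    ∃ K : ℝ, ∃ ε1 > 0, ∃ lam1 > 0, ∀ z : ℂ, 0 < z.im → ‖z - E0‖ < ε1 → ∀ lam b : ℝ,
      |lam * b| ≤ lam1 → ∀ (ρ : Measure ℝ) [IsProbabilityMeasure ρ],
        ∀ i, mX a F lam b z ρ i ≤ K := by
  obtain ⟨i0, hi0⟩ := hN1
  haveI : Nonempty ι := ⟨i0⟩
  have hκ := kq_lt R hi0
  obtain ⟨δ, hδ⟩ : ∃ δ, δ = 1 - kq (u i0) := ⟨_, rfl⟩
  have hδ0 : 0 < δ := by linarith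
  have hδ1 : δ ≤ 1 := by
    have := kq_nonneg (u i0)
    linarith
  obtain ⟨k, hk⟩ := Finite.exists_min fun i => ww E0 F i i0
  obtain ⟨c, hc⟩ : ∃ c, c = min 1 (ww E0 F k i0) := ⟨_, rfl⟩
  have hc0 : 0 < c := by
    rw [hc]
    exact lt_min one_pos (ww_pos R k i0)
  have hc1 : c ≤ 1 := by
    rw [hc]
    exact min_le_left _ _
  obtain ⟨t, ht, ht1, ht2⟩ := exists_t (mul_pos hc0 hδ0) (by nlinarith)
  obtain ⟨l, hl⟩ := Finite.exists_min fun i => (W0 E0 F i).im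
  obtain ⟨Ci, hCi, hInv⟩ := inv_bd R hN2
  obtain ⟨C, hC, hAP⟩ := alg (ww E0 F) (fun i => kq (u i)) i0 (ww_nonneg R) (ww_sum R) hc0 hc1
    (fun i _ => by
      rw [hc]
      exact (min_le_right _ _).trans (hk i)) hδ0 hδ1 (fun i => kq_nonneg _)
    (fun i => kq_le (R.ne i)) (by rw [hδ]; linarith) ht ht2 hCi
  exact ⟨1 / (2 * C), boot R ht ht1 (R.Wpos l) hl hCi hInv hC hAP hst⟩

/-- there is at most one exceptional energy -/
theorem exc_uniq [Nontrivial ι] {a : ∀ i, Γ i →₀ ℝ} (h1 : ∀ i, a i 1 = 0) (h0 : ∀ i, a i ≠ 0)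
    {E E' : ℝ} (h : Exc a E) (h' : Exc a E') : E = E' := by
  obtain ⟨k, -⟩ := exists_pair_ne ι
  obtain ⟨y, hy⟩ : ∃ y, a k y ≠ 0 := by
    by_contra hcon
    push Not at hcon
    exact h0 k (Finsupp.ext hcon)
  have hy1 : y ≠ 1 := by
    rintro rfl
    exact hy (h1 k)
  have e1 := h.2 k y hy1
  rw [h'.2 k y hy1] at e1
  exact (mul_right_cancel₀ hy e1).symm

/-- **the set of the regular energies is open** -/
theorem reg_open [Nontrivial ι] {a : ∀ i, Γ i →₀ ℝ} (hs : ∀ i s, a i s⁻¹ = a i s)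
    (h1 : ∀ i, a i 1 = 0) (h0 : ∀ i, a i ≠ 0) (hN1 : ∃ i, 2 ≤ (a i).support.card) :
    IsOpen {E : ℝ | RegE a E ∧ ¬ Exc a E} := by
  have hcl : IsClosed {E : ℝ | Exc a E} := by
    refine Set.Subsingleton.isClosed ?_
    intro E hE E' hE'
    exact exc_uniq h1 h0 hE hE'
  rw [Metric.isOpen_iff]
  intro E0 hE0
  obtain ⟨F, u, R, hst⟩ := reg_ref hs h1 h0 hE0.1
  obtain ⟨K, ε1, hε1, lam1, hlam1, hb⟩ := boot_nd R hN1 hE0.2 hst
  obtain ⟨ε2, hε2, hball⟩ := Metric.isOpen_iff.1 hcl.isOpen_compl E0 hE0.2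
  refine ⟨min (ε1 / 2) ε2, by positivity, fun E hE => ⟨?_, ?_⟩⟩
  swap
  · exact hball (Metric.ball_subset_ball (min_le_right _ _) hE)
  rw [Metric.mem_ball, Real.dist_eq] at hE
  refine reg_open_aux R (K := K + 1) hε1 (fun z hz hzE i => ?_) (hE.trans_le (min_le_left _ _))
  have h2 := hb z hz hzE 0 0 (by simpa using hlam1.le) (Measure.dirac 0) i
  have h3 : mX a F 0 0 z (Measure.dirac 0) i = Xd (F0 a i z) (F i) ^ 2 := by
    unfold mX Xi
    simp only [Fi_zero]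
    simp
  rw [h3] at h2
  nlinarith [sq_nonneg (Xd (F0 a i z) (F i) - 1)]

end main

end Pool.Agent.Helper32.FG
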