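import Pool.Agent.Helper32.FG.Gap
import Pool.Agent.Helper32.FG.Ac

/-! The moments of the Green function, and the local theorem. -/

set_option autoImplicit false
set_option linter.unusedSectionVars false
set_option linter.unusedSimpArgs false
set_option linter.deprecated false
set_option linter.unusedVariables false

open scoped BigOperators InnerProductSpace Topology ENNReal
open Filter MeasureTheory ProbabilityTheory
open Monoid (CoprodI)
open Monoid.CoprodI (of Word of_injective)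

namespace Pool.Agent.Helper32.FG

open Pool.Agent.TH369.AN (Rz rz_eq rz_uniq rz_norm)
open Pool.Agent.TH369.MU (SpM ep zk)
open Pool.Agent.TH369.MU.PO2 (ep_pos ep_tendsto)
open Pool.Agent.Y662.TR (LL dv zk_eq)

variable {ι : Type} [Fintype ι] [DecidableEq ι] {Γ : ι → Type} [∀ i, Group (Γ i)]
  [∀ i, Countable (Γ i)]

variable {a : ∀ i, Γ i →₀ ℝ} {E0 : ℝ} {F : ι → ℂ} {u : ∀ i, LL (Γ i)}

theorem root_univ (R : Rf a E0 F u) (lam b : ℝ) {z : ℂ} (hz : 0 < z.im) (ω : CoprodI Γ → ℝ) :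
    GF (Lf a) lam b z 1 ω * Ws a Finset.univ lam b z ω = -1 := by
  have h := root_eq R.hs R.h1 Finset.univ lam b hz ω
  rw [Rg_univ] at h
  exact h

theorem Fi_im_le (R : Rf a E0 F u) (lam b : ℝ) {z : ℂ} (hz : 0 < z.im) (ω : CoprodI Γ → ℝ)
    (k : ι) : (Fi a k lam b z ω).im ≤ (Ws a Finset.univ lam b z ω).im := by
  rw [Ws_im]
  have h1 := Finset.single_le_sum (f := fun j => (Fi a j lam b z ω).im)
    (fun j _ => (Fi_pos R j lam b hz ω).le) (Finset.mem_univ k)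
  linarith

/-- the first bound -/
theorem gf_b1 (R : Rf a E0 F u) (lam b : ℝ) {z : ℂ} (hz : 0 < z.im) (ω : CoprodI Γ → ℝ)
    (k : ι) : ‖GF (Lf a) lam b z 1 ω‖ ^ 2 ≤ (2 * Xi a F k lam b z ω ^ 2 + 8) / (F k).im ^ 2 := by
  have h1 := root_univ R lam b hz ω
  have h2 := Fi_im_le R lam b hz ω k
  have h3 := Fi_pos R k lam b hz ω
  have h4 := Xd_low h3 (R.Fpos k)
  have h5 : ‖GF (Lf a) lam b z 1 ω‖ * ‖Ws a Finset.univ lam b z ω‖ = 1 := by
    rw [← norm_mul, h1]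
    simp
  have h6 := Complex.im_le_norm (Ws a Finset.univ lam b z ω)
  obtain ⟨g, hg⟩ : ∃ g, g = ‖GF (Lf a) lam b z 1 ω‖ := ⟨_, rfl⟩
  obtain ⟨w, hw⟩ : ∃ w, w = ‖Ws a Finset.univ lam b z ω‖ := ⟨_, rfl⟩
  obtain ⟨X, hX⟩ : ∃ X, X = Xi a F k lam b z ω := ⟨_, rfl⟩
  have hX' : Xd (Fi a k lam b z ω) (F k) = X := hX.symm
  rw [hX'] at h4
  rw [← hg, ← hw] at h5
  rw [← hw] at h6
  rw [← hg, ← hX]
  have hg0 : 0 ≤ g := by
    rw [hg]
    exact norm_nonneg _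
  have hX0 : 0 ≤ X := by
    rw [hX]
    exact Xi_nonneg R k lam b hz ω
  have hF := R.Fpos k
  have h7 : (F k).im ≤ (X + 2) * w := by
    refine h4.trans ?_
    have : (Fi a k lam b z ω).im ≤ w := by linarith
    gcongr
  have h8 : g * (F k).im ≤ X + 2 := by
    calc g * (F k).im ≤ g * ((X + 2) * w) := by gcongr
      _ = (X + 2) * (g * w) := by ring
      _ = X + 2 := by rw [h5, mul_one]
  rw [le_div_iff₀ (by positivity)]
  have h9 : (g * (F k).im) ^ 2 ≤ (X + 2) ^ 2 := by gcongr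
  nlinarith [sq_nonneg (X - 2)]

/-- the second bound -/
theorem gf_b2 (R : Rf a E0 F u) (k : ι) (r : ℝ) (hr : 0 ≤ r) : ∃ B : ℝ, 0 ≤ B ∧
    ∀ (lam b : ℝ) (z : ℂ), 0 < z.im → ‖z‖ + |lam * b| ≤ r → ∀ ω : CoprodI Γ → ℝ,
      (1 / (GF (Lf a) lam b z 1 ω).im) ^ 2 ≤ B * (1 + ∑ j, Xi a F j lam b z ω ^ 2) := by
  obtain ⟨n, hn⟩ : ∃ n : ℝ, n = (Finset.univ : Finset ι).card := ⟨_, rfl⟩
  have hn0 : 0 ≤ n := by
    rw [hn]
    positivity
  obtain ⟨A, hA⟩ : ∃ A, A = 2 * r ^ 2 + 2 * n * (2 * ∑ j, ‖F j‖ ^ 2) := ⟨_, rfl⟩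
  have hA0 : 0 ≤ A := by
    rw [hA]
    positivity
  obtain ⟨S, hS⟩ : ∃ S, S = ∑ j, (F j).im := ⟨_, rfl⟩
  have hSj : ∀ j, (F j).im ≤ S := fun j => by
    rw [hS]
    exact Finset.single_le_sum (f := fun j => (F j).im) (fun j _ => (R.Fpos j).le)
      (Finset.mem_univ j)
  have hS0 : 0 ≤ S := (R.Fpos k).le.trans (hSj k)
  have hF := R.Fpos k
  obtain ⟨B0, hB0⟩ : ∃ B0, B0 = A * 2 / (F k).im := ⟨_, rfl⟩
  obtain ⟨B1, hB1⟩ : ∃ B1, B1 = A / (F k).im + 4 * n * S := ⟨_, rfl⟩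
  have hB00 : 0 ≤ B0 := by
    rw [hB0]
    positivity
  have hB10 : 0 ≤ B1 := by
    rw [hB1]
    positivity
  refine ⟨2 * B0 ^ 2 + 2 * B1 ^ 2 * n, by positivity, ?_⟩
  intro lam b z hz hzr ω
  have hp := fun j => Fi_pos R j lam b hz ω
  have hX0 := fun j => Xi_nonneg R j lam b hz ω
  obtain ⟨W, hW⟩ : ∃ W, W = Ws a Finset.univ lam b z ω := ⟨_, rfl⟩
  have hWim : ∀ j, (Fi a j lam b z ω).im ≤ W.im := fun j => by
    rw [hW]
    exact Fi_im_le R lam b hz ω j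
  have hW0 : 0 < W.im := (hp k).trans_le (hWim k)
  -- the size of W
  have hFj : ∀ j, ‖Fi a j lam b z ω‖ ^ 2 ≤ 2 * ‖F j‖ ^ 2 + 2 * (Xi a F j lam b z ω * S * W.im) := by
    intro j
    have e1 : Fi a j lam b z ω = F j + (Fi a j lam b z ω - F j) := by ring
    have e2 := Xd_mul (hp j) (R.Fpos j)
    have e3 := norm_add_le (F j) (Fi a j lam b z ω - F j)
    rw [← e1] at e3
    have e4 : Xd (Fi a j lam b z ω) (F j) * (F j).im * (Fi a j lam b z ω).im ≤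
        Xi a F j lam b z ω * S * W.im := by
      have := hX0 j
      have := hSj j
      have := hWim j
      have := (hp j).le
      have := (R.Fpos j).le
      unfold Xi at *
      gcongr
    have e5 : ‖Fi a j lam b z ω‖ ^ 2 ≤ (‖F j‖ + ‖Fi a j lam b z ω - F j‖) ^ 2 := by gcongr
    nlinarith [sq_nonneg (‖F j‖ - ‖Fi a j lam b z ω - F j‖)]
  obtain ⟨X, hX⟩ : ∃ X, X = ∑ j, Xi a F j lam b z ω := ⟨_, rfl⟩
  have hXX0 : 0 ≤ X := by
    rw [hX]
    exact Finset.sum_nonneg fun j _ => hX0 j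
  have hWn : ‖W‖ ^ 2 ≤ A + 4 * n * S * X * W.im := by
    have e1 : ‖W‖ ≤ r + ∑ j, ‖Fi a j lam b z ω‖ := by
      rw [hW]
      unfold Ws
      have e2 := norm_sub_le (z + ∑ j, Fi a j lam b z ω) ((lam * _root_.Pool.Agent.Y662.TR.clp b (ω 1) : ℝ) : ℂ)
      have e3 := norm_add_le z (∑ j, Fi a j lam b z ω)
      have e4 := norm_sum_le Finset.univ fun j => Fi a j lam b z ω
      have e5 := pot_le lam b (ω 1)
      linarith
    have e6 : (∑ j, ‖Fi a j lam b z ω‖) ^ 2 ≤ n * ∑ j, ‖Fi a j lam b z ω‖ ^ 2 := by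
      rw [hn]
      exact sq_sum_le_card_mul_sum_sq
    have e7 : ∑ j, ‖Fi a j lam b z ω‖ ^ 2 ≤ 2 * ∑ j, ‖F j‖ ^ 2 + 2 * (X * S * W.im) := by
      calc ∑ j, ‖Fi a j lam b z ω‖ ^ 2 ≤
            ∑ j, (2 * ‖F j‖ ^ 2 + 2 * (Xi a F j lam b z ω * S * W.im)) :=
            Finset.sum_le_sum fun j _ => hFj j
        _ = _ := by
            rw [Finset.sum_add_distrib, ← Finset.mul_sum, ← Finset.mul_sum, hX, Finset.sum_mul,
              Finset.sum_mul]
    have e8 : ‖W‖ ^ 2 ≤ (r + ∑ j, ‖Fi a j lam b z ω‖) ^ 2 := by gcongr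
    have e9 : (r + ∑ j, ‖Fi a j lam b z ω‖) ^ 2 ≤
        2 * r ^ 2 + 2 * (∑ j, ‖Fi a j lam b z ω‖) ^ 2 := by
      nlinarith [sq_nonneg (r - ∑ j, ‖Fi a j lam b z ω‖)]
    have e10 : n * ∑ j, ‖Fi a j lam b z ω‖ ^ 2 ≤
        n * (2 * ∑ j, ‖F j‖ ^ 2 + 2 * (X * S * W.im)) := by gcongr
    rw [hA]
    nlinarith
  -- 1 / Im G
  have hG := root_univ R lam b hz ω
  rw [← hW] at hG
  have hGi : (GF (Lf a) lam b z 1 ω).im * ‖W‖ ^ 2 = W.im := by
    have e1 : GF (Lf a) lam b z 1 ω * ((‖W‖ ^ 2 : ℝ) : ℂ) = -(starRingEnd ℂ) W := by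
      rw [sq_conj, ← mul_assoc, hG]
      ring
    have e2 := congrArg Complex.im e1
    rw [Complex.im_mul_ofReal, Complex.neg_im, Complex.conj_im, neg_neg] at e2
    exact e2
  have hGpos := gf_im_pos R.sa lam b hz (1 : CoprodI Γ) ω
  have hinv : 1 / (GF (Lf a) lam b z 1 ω).im = ‖W‖ ^ 2 / W.im := by
    have hWn0 : ‖W‖ ≠ 0 := by
      intro h
      rw [h] at hGi
      norm_num at hGi
      exact hW0.ne hGi
    rw [← hGi]
    field_simp
  have hWinv : 1 / W.im ≤ (Xi a F k lam b z ω + 2) / (F k).im := by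
    have e1 := Xd_low (hp k) (R.Fpos k)
    rw [div_le_div_iff₀ hW0 hF, one_mul]
    refine e1.trans ?_
    have := hWim k
    have := hX0 k
    unfold Xi at *
    gcongr
  have hXk : Xi a F k lam b z ω ≤ X := by
    rw [hX]
    exact Finset.single_le_sum (f := fun j => Xi a F j lam b z ω) (fun j _ => hX0 j)
      (Finset.mem_univ k)
  have hmain : ‖W‖ ^ 2 / W.im ≤ B0 + B1 * X := by
    calc ‖W‖ ^ 2 / W.im ≤ (A + 4 * n * S * X * W.im) / W.im := by gcongr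
      _ = A * (1 / W.im) + 4 * n * S * X := by field_simp
      _ ≤ A * ((X + 2) / (F k).im) + 4 * n * S * X := by
          have : (Xi a F k lam b z ω + 2) / (F k).im ≤ (X + 2) / (F k).im := by gcongr
          have := hWinv.trans this
          gcongr
      _ = _ := by
          rw [hB0, hB1]
          ring
  have hX2 : X ^ 2 ≤ n * ∑ j, Xi a F j lam b z ω ^ 2 := by
    rw [hX, hn]
    exact sq_sum_le_card_mul_sum_sq
  rw [hinv]
  have hnn : 0 ≤ ‖W‖ ^ 2 / W.im := by positivity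
  have hq0 : 0 ≤ ∑ j, Xi a F j lam b z ω ^ 2 := by positivity
  calc (‖W‖ ^ 2 / W.im) ^ 2 ≤ (B0 + B1 * X) ^ 2 := by gcongr
    _ ≤ 2 * B0 ^ 2 + 2 * B1 ^ 2 * X ^ 2 := by nlinarith [sq_nonneg (B0 - B1 * X)]
    _ ≤ 2 * B0 ^ 2 + 2 * B1 ^ 2 * (n * ∑ j, Xi a F j lam b z ω ^ 2) := by gcongr
    _ ≤ _ := by
        have e1 : 0 ≤ 2 * B0 ^ 2 * ∑ j, Xi a F j lam b z ω ^ 2 := by positivity
        have e2 : 0 ≤ 2 * B1 ^ 2 * n := by positivity
        nlinarith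

theorem gf_tr {a : ∀ i, Γ i →₀ ℝ} (hs : ∀ i s, a i s⁻¹ = a i s) (lam b : ℝ) {z : ℂ}
    (hz : 0 < z.im) (ω : CoprodI Γ → ℝ) (g : CoprodI Γ) :
    GF (Lf a) lam b z g ω = GF (Lf a) lam b z 1 (tr g ω) := gg_tr hs lam b hz ω g

/-- **the local theorem** -/
theorem main_loc (R : Rf a E0 F u) [Nonempty ι] {t cW Ci C : ℝ} (ht : 0 < t) (ht1 : t ≤ 1 / 2)
    (hcW : 0 < cW) (hcW' : ∀ i, cW ≤ (W0 E0 F i).im) (hCi : 0 ≤ Ci) (hInv : Inv E0 F u Ci)
    (hC : 0 < C) (hAP : AP (ww E0 F) (fun i => kq (u i)) t Ci C)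
    (hst : ∀ η : ℝ, 0 < η → ∃ z : ℂ, 0 < z.im ∧ ‖z - E0‖ < η ∧ ∀ i, Xd (F0 a i z) (F i) < η) :
    ∃ δ > 0, ∃ lam1 > 0, ∀ lam b : ℝ, |lam * b| ≤ lam1 →
      ∀ (ρ : Measure ℝ) [IsProbabilityMeasure ρ], ∀ᵐ ω ∂(Pf (CoprodI Γ) ρ),
        (∀ (φ : LL (CoprodI Γ)) (m : Measure ℝ), SpM (Th (Lf a) Set.univ lam b ω) φ m →
          ∀ A : Set ℝ, A ⊆ Set.Ioo (E0 - δ) (E0 + δ) → volume A = 0 → m A = 0) ∧
        (∀ (v : CoprodI Γ) (m : Measure ℝ), SpM (Th (Lf a) Set.univ lam b ω) (dv v) m →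
          ∀ A : Set ℝ, A ⊆ Set.Ioo (E0 - δ) (E0 + δ) → MeasurableSet A → m A = 0 →
            volume A = 0) := by
  obtain ⟨ε1, hε1, lam1, hlam1, hb⟩ := boot R ht ht1 hcW hcW' hCi hInv hC hAP hst
  obtain ⟨k⟩ := ‹Nonempty ι›
  obtain ⟨B, hB0, hB⟩ := gf_b2 R k (|E0| + ε1 + lam1) (by positivity)
  refine ⟨ε1 / 2, by positivity, lam1, hlam1, ?_⟩
  intro lam b hl ρ _
  obtain ⟨k0, hk0⟩ : ∃ k0, ∀ n, k0 ≤ n → ep n ≤ ε1 / 4 := by
    have h8 := (tendsto_nhds_of_tendsto_nhdsWithin ep_tendsto).eventually_le_const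
      (show (0 : ℝ) < ε1 / 4 by positivity)
    exact Filter.eventually_atTop.1 h8
  obtain ⟨K, hK⟩ : ∃ K, K = 1 / (2 * C) := ⟨_, rfl⟩
  have hzk : ∀ n, k0 ≤ n → ∀ E ∈ Set.Ioo (E0 - ε1 / 2) (E0 + ε1 / 2), ‖zk E n - E0‖ < ε1 := by
    intro n hn E hE
    have h1 : zk E n - E0 = ((E - E0 : ℝ) : ℂ) + (ep n : ℂ) * Complex.I := by
      rw [zk_eq]
      push_cast
      ring
    rw [h1]
    refine (norm_add_le _ _).trans_lt ?_
    rw [norm_mul, Complex.norm_real, Complex.norm_real, Complex.norm_I, mul_one,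
      Real.norm_of_nonneg (ep_pos n).le, Real.norm_eq_abs]
    have h2 := hk0 n hn
    have h3 : |E - E0| < ε1 / 2 := by
      rw [abs_lt]
      constructor
      · linarith [hE.1]
      · linarith [hE.2]
    linarith
  have hmX : ∀ n, k0 ≤ n → ∀ E ∈ Set.Ioo (E0 - ε1 / 2) (E0 + ε1 / 2), ∀ i,
      ∫ ω, Xi a F i lam b (zk E n) ω ^ 2 ∂(Pf (CoprodI Γ) ρ) ≤ K := by
    intro n hn E hE i
    rw [hK]
    exact hb (zk E n) (zk_im_pos E n) (hzk n hn E hE) lam b hl ρ i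
  have hcomp : ∀ (g : ℂ → ℝ≥0∞), Measurable g → ∀ n E (v : CoprodI Γ),
      ∫⁻ ω, g (GF (Lf a) lam b (zk E n) v ω) ∂(Pf (CoprodI Γ) ρ) =
        ∫⁻ ω, g (GF (Lf a) lam b (zk E n) 1 ω) ∂(Pf (CoprodI Γ) ρ) := by
    intro g hg n E v
    have h1 : Measurable fun ω : CoprodI Γ → ℝ => g (GF (Lf a) lam b (zk E n) 1 ω) :=
      hg.comp (Gg_cont R.sa Set.univ (dv 1) lam b (zk E n) (zk_im_pos E n)).measurable
    rw [← (tr_mp ρ v).lintegral_comp h1]
    refine lintegral_congr fun ω => ?_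
    rw [gf_tr R.hs lam b (zk_im_pos E n) ω v]
  refine main_ac R.sa lam b _ _ (Pf (CoprodI Γ) ρ)
    (ENNReal.ofReal ((2 * K + 8) / (F k).im ^ 2))
    (ENNReal.ofReal (B * (1 + Fintype.card ι * K))) ENNReal.ofReal_ne_top ENNReal.ofReal_ne_top
    k0 (fun n hn E hE v => ?_) (fun n hn E hE v => ?_)
  · have h1 := hcomp (fun w => ENNReal.ofReal (‖w‖ ^ 2)) (by fun_prop) n E v
    unfold q1
    rw [h1]
    have bX := Xi_BM R k lam b (zk_im_pos E n)
    have hg : BM fun ω : CoprodI Γ → ℝ =>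
        (2 * Xi a F k lam b (zk E n) ω ^ 2 + 8) * (1 / (F k).im ^ 2) :=
      ((bX.sqR.smulR 2).addR (BM.const 8)).mulR (BM.const _)
    calc ∫⁻ ω, ENNReal.ofReal (‖GF (Lf a) lam b (zk E n) 1 ω‖ ^ 2) ∂(Pf (CoprodI Γ) ρ) ≤
          ∫⁻ ω, ENNReal.ofReal ((2 * Xi a F k lam b (zk E n) ω ^ 2 + 8) * (1 / (F k).im ^ 2))
            ∂(Pf (CoprodI Γ) ρ) := by
          refine lintegral_mono fun ω => ENNReal.ofReal_le_ofReal ?_
          refine (gf_b1 R lam b (zk_im_pos E n) ω k).trans (le_of_eq ?_)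
          ring
      _ = ENNReal.ofReal (∫ ω, (2 * Xi a F k lam b (zk E n) ω ^ 2 + 8) * (1 / (F k).im ^ 2)
            ∂(Pf (CoprodI Γ) ρ)) := by
          rw [ofReal_integral_eq_lintegral_ofReal (hg.int _)
            (Eventually.of_forall fun ω => by positivity)]
      _ ≤ _ := by
          apply ENNReal.ofReal_le_ofReal
          rw [integral_mul_const, integral_add ((bX.sqR.smulR 2).int _) (integrable_const _),
            integral_const_mul]
          have := hmX n hn E hE k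
          have hF := R.Fpos k
          simp only [integral_const, probReal_univ, one_smul]
          rw [mul_one_div]
          gcongr
  · have h1 := hcomp (fun w => ENNReal.ofReal ((1 / w.im) ^ 2))
      (((Complex.measurable_im.const_div 1).pow_const 2).ennreal_ofReal) n E v
    unfold q2
    rw [h1]
    have bX := fun j => Xi_BM R j lam b (zk_im_pos E n)
    have hs : BM fun ω : CoprodI Γ → ℝ => ∑ j, Xi a F j lam b (zk E n) ω ^ 2 :=
      BM.sumR _ fun j _ => (bX j).sqR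
    have hg : BM fun ω : CoprodI Γ → ℝ => B * (1 + ∑ j, Xi a F j lam b (zk E n) ω ^ 2) :=
      ((BM.const 1).addR hs).smulR B
    have hzn : ‖zk E n‖ + |lam * b| ≤ |E0| + ε1 + lam1 := by
      have e1 := hzk n hn E hE
      have e2 : ‖zk E n‖ ≤ ‖zk E n - E0‖ + |E0| := by
        have e3 := norm_add_le (zk E n - E0) (E0 : ℂ)
        rw [sub_add_cancel, Complex.norm_real, Real.norm_eq_abs] at e3
        exact e3
      linarith
    calc ∫⁻ ω, ENNReal.ofReal ((1 / (GF (Lf a) lam b (zk E n) 1 ω).im) ^ 2)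
          ∂(Pf (CoprodI Γ) ρ) ≤
          ∫⁻ ω, ENNReal.ofReal (B * (1 + ∑ j, Xi a F j lam b (zk E n) ω ^ 2))
            ∂(Pf (CoprodI Γ) ρ) :=
          lintegral_mono fun ω => ENNReal.ofReal_le_ofReal
            (hB lam b (zk E n) (zk_im_pos E n) hzn ω)
      _ = ENNReal.ofReal (∫ ω, B * (1 + ∑ j, Xi a F j lam b (zk E n) ω ^ 2)
            ∂(Pf (CoprodI Γ) ρ)) := by
          rw [ofReal_integral_eq_lintegral_ofReal (hg.int _)
            (Eventually.of_forall fun ω => by positivity)]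
      _ ≤ _ := by
          apply ENNReal.ofReal_le_ofReal
          rw [integral_const_mul, integral_add (integrable_const _) (hs.int _),
            integral_finset_sum _ fun j _ => (bX j).sqR.int _]
          simp only [integral_const, probReal_univ, one_smul]
          have h2 : ∑ j, ∫ ω, Xi a F j lam b (zk E n) ω ^ 2 ∂(Pf (CoprodI Γ) ρ) ≤
              Fintype.card ι * K := by
            refine (Finset.sum_le_sum fun j _ => hmX n hn E hE j).trans (le_of_eq ?_)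
            rw [Finset.sum_const, nsmul_eq_mul, Finset.card_univ]
          gcongr

end Pool.Agent.Helper32.FG
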