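import Pool.Agent.Helper32.FG.Pr
import Pool.Agent.Helper32.FG.Iq

/-! The comparison with a reference solution: pointwise estimates. -/

set_option autoImplicit false
set_option linter.unusedSectionVars false
set_option linter.unusedSimpArgs false
set_option linter.deprecated false

open scoped BigOperators InnerProductSpace Topology
open Filter MeasureTheory ProbabilityTheory
open Monoid (CoprodI)
open Monoid.CoprodI (of Word of_injective)

namespace Pool.Agent.Helper32.FG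

open Pool.Agent.TH369.AN (Rz rz_eq rz_uniq rz_norm)
open Pool.Agent.Y662.TR (LL lmk lmk_apply ll_inner ll_ext ll_summable ll_coord ll_sum dv dv_apply
  dv_self dv_ne inner_dv norm_dv ev ev_apply add_coord sub_coord neg_coord smul_coord Cf Cf_apply
  Cf_norm clp clp_abs clp_eq clp_cont Mw Mw_apply Mw_norm Mw_sa Mw_tendsto)
open Pool.Agent.Helper32.BS (pw clp_pw)

section weights

variable {V : Type}

/-- the weights -/
noncomputable def qq (u : LL V) (y : V) : ℝ := ‖u y‖ ^ 2 / ‖u‖ ^ 2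

/-- the complex weights -/
noncomputable def zz (u : LL V) (y : V) : ℂ := u y ^ 2 / ((‖u‖ ^ 2 : ℝ) : ℂ)

theorem qq_nonneg (u : LL V) (y : V) : 0 ≤ qq u y := by
  unfold qq
  positivity

theorem qq_hasSum {u : LL V} (hu : u ≠ 0) : HasSum (qq u) 1 := by
  have h1 := (ll_sum u).div_const (‖u‖ ^ 2)
  have h2 : ‖u‖ ^ 2 ≠ 0 := pow_ne_zero 2 (norm_ne_zero_iff.2 hu)
  rwa [div_self h2] at h1

theorem qq_le {u : LL V} (hu : u ≠ 0) (y : V) : qq u y ≤ 1 :=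
  le_hasSum (qq_hasSum hu) y fun j _ => qq_nonneg u j

theorem qq_sq {u : LL V} (hu : u ≠ 0) (y : V) : qq u y ^ 2 ≤ qq u y := by
  have := qq_nonneg u y
  have := qq_le hu y
  nlinarith

theorem qq2_summable {u : LL V} (hu : u ≠ 0) : Summable fun y => qq u y ^ 2 :=
  Summable.of_nonneg_of_le (fun y => sq_nonneg _) (qq_sq hu) (qq_hasSum hu).summable

/-- the concentration -/
noncomputable def kq (u : LL V) : ℝ := ∑' y, qq u y ^ 2

theorem kq_nonneg (u : LL V) : 0 ≤ kq u := tsum_nonneg fun y => sq_nonneg _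

theorem kq_le {u : LL V} (hu : u ≠ 0) : kq u ≤ 1 := by
  unfold kq
  rw [← (qq_hasSum hu).tsum_eq]
  exact (qq2_summable hu).tsum_le_tsum (qq_sq hu) (qq_hasSum hu).summable

theorem zz_norm (u : LL V) (y : V) : ‖zz u y‖ = qq u y := by
  unfold zz qq
  rw [norm_div, norm_pow, Complex.norm_real, Real.norm_of_nonneg (by positivity)]

theorem zz_summable {u : LL V} (hu : u ≠ 0) : Summable fun y => ‖zz u y‖ := by
  simp only [zz_norm]
  exact (qq_hasSum hu).summable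

/-- the sum of the complex weights -/
noncomputable def sq' (u : LL V) : ℂ := ∑' y, zz u y

theorem sq_le {u : LL V} (hu : u ≠ 0) : ‖sq' u‖ ≤ 1 := by
  unfold sq'
  refine (norm_tsum_le_tsum_norm (zz_summable hu)).trans (le_of_eq ?_)
  simp only [zz_norm]
  exact (qq_hasSum hu).tsum_eq

end weights

section ref

variable {ι : Type} [Fintype ι] [DecidableEq ι] {Γ : ι → Type} [∀ i, Group (Γ i)]

/-- the self-energy of the reference solution -/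
noncomputable def W0 (E0 : ℝ) (F : ι → ℂ) (i : ι) : ℂ :=
  (E0 : ℂ) + ∑ j ∈ Finset.univ.erase i, F j

theorem W0_im (E0 : ℝ) (F : ι → ℂ) (i : ι) :
    (W0 E0 F i).im = ∑ j ∈ Finset.univ.erase i, (F j).im := by
  unfold W0
  rw [Complex.add_im, Complex.ofReal_im, zero_add, Complex.im_sum]

/-- a solution of the unperturbed equations at the energy `E0` -/
structure Rf (a : ∀ i, Γ i →₀ ℝ) (E0 : ℝ) (F : ι → ℂ) (u : ∀ i, LL (Γ i)) : Prop where
  hs : ∀ i s, a i s⁻¹ = a i s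
  h1 : ∀ i, a i 1 = 0
  h0 : ∀ i, a i ≠ 0
  Fpos : ∀ i, 0 < (F i).im
  Wpos : ∀ i, 0 < (W0 E0 F i).im
  eq : ∀ i y, Dp (a i) (u i) y - W0 E0 F i * u i y = Ag (a i) y
  Feq : ∀ i, ⟪Ag (a i), u i⟫_ℂ = F i

variable {a : ∀ i, Γ i →₀ ℝ} {E0 : ℝ} {F : ι → ℂ} {u : ∀ i, LL (Γ i)}

theorem Rf.sa (R : Rf a E0 F u) : IsSelfAdjoint (Lf a) := Lf_sa R.hs

theorem Rf.im (R : Rf a E0 F u) (i : ι) : (W0 E0 F i).im * ‖u i‖ ^ 2 = (F i).im := by
  have h := one_im' (Dp_sa (R.hs i)) (A := Ag (a i)) (W := fun _ => W0 E0 F i) (R.eq i)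
  rw [R.Feq] at h
  exact ((ll_sum (u i)).mul_left (W0 E0 F i).im).unique h

theorem Rf.ne (R : Rf a E0 F u) (i : ι) : u i ≠ 0 := by
  intro h
  have h1 := R.im i
  rw [h, norm_zero] at h1
  have h2 := R.Fpos i
  rw [← h1] at h2
  simp at h2

theorem Ai_ne_zero (R : Rf a E0 F u) (i : ι) : Ai a i ≠ 0 := Av_ne_zero (em_inj i) (R.h0 i)

theorem Fi_pos (R : Rf a E0 F u) (i : ι) (lam b : ℝ) {z : ℂ} (hz : 0 < z.im)
    (ω : CoprodI Γ → ℝ) : 0 < (Fi a i lam b z ω).im :=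
  Gg_pos R.sa _ (Ai_ne_zero R i) lam b hz ω

theorem Ws_im (J : Finset ι) (lam b : ℝ) (z : ℂ) (ω : CoprodI Γ → ℝ) :
    (Ws a J lam b z ω).im = z.im + ∑ j ∈ J, (Fi a j lam b z ω).im := by
  unfold Ws
  rw [Complex.sub_im, Complex.add_im, Complex.ofReal_im, sub_zero, Complex.im_sum]

theorem Ws_im_le (R : Rf a E0 F u) (J : Finset ι) (lam b : ℝ) {z : ℂ} (hz : 0 < z.im)
    (ω : CoprodI Γ → ℝ) : z.im ≤ (Ws a J lam b z ω).im := by
  rw [Ws_im]
  have : 0 ≤ ∑ j ∈ J, (Fi a j lam b z ω).im :=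
    Finset.sum_nonneg fun j _ => (Fi_pos R j lam b hz ω).le
  linarith

theorem Ws_pos (R : Rf a E0 F u) (J : Finset ι) (lam b : ℝ) {z : ℂ} (hz : 0 < z.im)
    (ω : CoprodI Γ → ℝ) : 0 < (Ws a J lam b z ω).im := hz.trans_le (Ws_im_le R J lam b hz ω)

theorem pot_le (lam b : ℝ) (x : ℝ) : ‖((lam * clp b x : ℝ) : ℂ)‖ ≤ |lam * b| := by
  rw [Complex.norm_real, Real.norm_eq_abs, abs_mul, abs_mul]
  have := clp_abs b x
  gcongr

theorem Fi_BM (R : Rf a E0 F u) (i : ι) (lam b : ℝ) {z : ℂ} (hz : 0 < z.im)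
    [Countable (CoprodI Γ)] : BM fun ω : CoprodI Γ → ℝ => Fi a i lam b z ω :=
  ⟨(Gg_cont R.sa _ _ lam b z hz).measurable, _, fun ω => Gg_norm R.sa _ _ lam b hz ω⟩

theorem pot_BM (lam b : ℝ) : BM fun ω : CoprodI Γ → ℝ => ((lam * clp b (ω 1) : ℝ) : ℂ) := by
  refine ⟨?_, |lam * b|, fun ω => pot_le lam b _⟩
  have : Measurable fun ω : CoprodI Γ → ℝ => lam * clp b (ω 1) :=
    ((clp_cont b).measurable.comp (measurable_pi_apply _)).const_mul lam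
  exact Complex.measurable_ofReal.comp this

theorem Ws_BM (R : Rf a E0 F u) (J : Finset ι) (lam b : ℝ) {z : ℂ} (hz : 0 < z.im)
    [Countable (CoprodI Γ)] : BM fun ω : CoprodI Γ → ℝ => Ws a J lam b z ω := by
  unfold Ws
  exact ((BM.const z).addC (BM.sumC J fun j _ => Fi_BM R j lam b hz)).subC (pot_BM lam b)

/-- quotients -/
theorem BM.xd {Ω : Type} [MeasurableSpace Ω] {f : Ω → ℂ} (hf : BM f) {c : ℝ} (hc : 0 < c)
    (h : ∀ ω, c ≤ (f ω).im) (q : ℂ) (hq : 0 < q.im) : BM fun ω => Xd (f ω) q := by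
  obtain ⟨C, hC⟩ := (hf.subC (BM.const q)).normC.sqR.2
  have hm := (hf.subC (BM.const q)).normC.sqR.1
  refine ⟨?_, C / (c * q.im), fun ω => ?_⟩
  · unfold Xd
    exact hm.div ((Complex.measurable_im.comp hf.1).mul_const _)
  · have h1 := hC ω
    have h2 := h ω
    have h3 : 0 < (f ω).im := hc.trans_le h2
    unfold Xd
    rw [norm_div, Real.norm_of_nonneg (by positivity : 0 ≤ (f ω).im * q.im)]
    have h4 : 0 ≤ C := (norm_nonneg _).trans h1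
    gcongr

/-- the distance of the Green functions -/
noncomputable def Xi (a : ∀ i, Γ i →₀ ℝ) (F : ι → ℂ) (i : ι) (lam b : ℝ) (z : ℂ)
    (ω : CoprodI Γ → ℝ) : ℝ := Xd (Fi a i lam b z ω) (F i)

/-- the distance of the self-energies -/
noncomputable def Yi (a : ∀ i, Γ i →₀ ℝ) (E0 : ℝ) (F : ι → ℂ) (i : ι) (lam b : ℝ) (z : ℂ)
    (ω : CoprodI Γ → ℝ) : ℝ := Xd (Ws a (Finset.univ.erase i) lam b z ω) (W0 E0 F i)

/-- a uniform lower bound -/
theorem Fi_low (R : Rf a E0 F u) (i : ι) (lam b : ℝ) {z : ℂ} (hz : 0 < z.im)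
    (ω : CoprodI Γ → ℝ) :
    z.im * ‖Ai a i‖ ^ 2 / (‖Lf a‖ + |lam * b| + ‖z‖ + 1) ^ 2 ≤ (Fi a i lam b z ω).im := by
  have h := Gg_im_lower R.sa (Bs i) (Ai a i) lam b hz ω
    (show ‖Lf a‖ + |lam * b| + ‖z‖ ≤ ‖Lf a‖ + |lam * b| + ‖z‖ + 1 by linarith)
  rw [div_le_iff₀ (by positivity), mul_comm]
  rw [mul_comm] at h
  unfold Fi
  linarith

theorem Xi_BM (R : Rf a E0 F u) (i : ι) (lam b : ℝ) {z : ℂ} (hz : 0 < z.im)
    [Countable (CoprodI Γ)] : BM fun ω : CoprodI Γ → ℝ => Xi a F i lam b z ω := by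
  refine (Fi_BM R i lam b hz).xd ?_ (fun ω => Fi_low R i lam b hz ω) (F i) (R.Fpos i)
  have := norm_pos_iff.2 (Ai_ne_zero R i)
  positivity

theorem Yi_BM (R : Rf a E0 F u) (i : ι) (lam b : ℝ) {z : ℂ} (hz : 0 < z.im)
    [Countable (CoprodI Γ)] : BM fun ω : CoprodI Γ → ℝ => Yi a E0 F i lam b z ω :=
  (Ws_BM R (Finset.univ.erase i) lam b hz).xd hz (fun ω => Ws_im_le R _ lam b hz ω) _ (R.Wpos i)

theorem Xi_nonneg (R : Rf a E0 F u) (i : ι) (lam b : ℝ) {z : ℂ} (hz : 0 < z.im)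
    (ω : CoprodI Γ → ℝ) : 0 ≤ Xi a F i lam b z ω := Xd_nonneg (Fi_pos R i lam b hz ω) (R.Fpos i)

theorem Yi_nonneg (R : Rf a E0 F u) (i : ι) (lam b : ℝ) {z : ℂ} (hz : 0 < z.im)
    (ω : CoprodI Γ → ℝ) : 0 ≤ Yi a E0 F i lam b z ω := Xd_nonneg (Ws_pos R _ lam b hz ω) (R.Wpos i)

theorem Ws_bd (R : Rf a E0 F u) (J : Finset ι) (lam b : ℝ) {z : ℂ} (hz : 0 < z.im) :
    ∃ M : ℝ, ∀ ω : CoprodI Γ → ℝ, ‖Ws a J lam b z ω‖ ≤ M := by
  refine ⟨‖z‖ + ∑ j ∈ J, ‖Ai a j‖ ^ 2 / z.im + |lam * b|, fun ω => ?_⟩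
  unfold Ws
  refine (norm_sub_le _ _).trans (add_le_add ((norm_add_le _ _).trans
    (add_le_add le_rfl ((norm_sum_le _ _).trans (Finset.sum_le_sum fun j _ => ?_))))
    (pot_le lam b _))
  exact Gg_norm R.sa _ _ lam b hz ω

theorem quot_bd (R : Rf a E0 F u) (i : ι) (lam b : ℝ) {z : ℂ} (hz : 0 < z.im) :
    ∃ C : ℝ, ∀ ω : CoprodI Γ → ℝ, ‖Ws a (Finset.univ.erase i) lam b z ω - W0 E0 F i‖ ^ 2 /
      (Ws a (Finset.univ.erase i) lam b z ω).im ≤ C := by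
  obtain ⟨M, hM⟩ := Ws_bd R (Finset.univ.erase i) lam b hz
  refine ⟨(M + ‖W0 E0 F i‖) ^ 2 / z.im, fun ω => ?_⟩
  have h1 := hM ω
  have h2 := Ws_im_le R (Finset.univ.erase i) lam b hz ω
  have h3 := norm_sub_le (Ws a (Finset.univ.erase i) lam b z ω) (W0 E0 F i)
  have h4 := norm_nonneg (Ws a (Finset.univ.erase i) lam b z ω - W0 E0 F i)
  gcongr
  linarith

theorem term_eq (R : Rf a E0 F u) (i : ι) (lam b : ℝ) {z : ℂ} (hz : 0 < z.im)
    (ω : CoprodI Γ → ℝ) (y : Γ i) :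
    ‖u i y‖ ^ 2 * (‖Ws a (Finset.univ.erase i) lam b z (tr (em Γ i y) ω) - W0 E0 F i‖ ^ 2 /
      (Ws a (Finset.univ.erase i) lam b z (tr (em Γ i y) ω)).im) =
    qq (u i) y * Yi a E0 F i lam b z (tr (em Γ i y) ω) * (F i).im := by
  unfold qq Yi Xd
  rw [← R.im i]
  have h1 := (R.Wpos i).ne'
  have h2 := (Ws_pos R (Finset.univ.erase i) lam b hz (tr (em Γ i y) ω)).ne'
  have h3 := norm_ne_zero_iff.2 (R.ne i)
  field_simp

/-- the first pointwise estimate -/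
theorem Xi_le (R : Rf a E0 F u) (i : ι) (lam b : ℝ) {z : ℂ} (hz : 0 < z.im)
    (ω : CoprodI Γ → ℝ) :
    Xi a F i lam b z ω ≤ ∑' y : Γ i, qq (u i) y * Yi a E0 F i lam b z (tr (em Γ i y) ω) := by
  obtain ⟨C, hC⟩ := quot_bd R i lam b hz
  have h := one_J1 (Dp_sa (R.hs i)) (Dp_cj (a i)) (Ag_cj (a i))
    (br_eq R.hs R.h1 i lam b hz ω) (R.eq i)
    (fun y => Ws_pos R (Finset.univ.erase i) lam b hz (tr (em Γ i y) ω)) (C := C)
    (fun y => hC _)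
  rw [← Fi_eq, R.Feq, tsum_congr (term_eq R i lam b hz ω), tsum_mul_right] at h
  unfold Xi Xd
  have h1 := Fi_pos R i lam b hz ω
  have h2 := R.Fpos i
  rw [div_le_iff₀ (mul_pos h1 h2)]
  linarith

/-- the second pointwise estimate -/
theorem Di_le (R : Rf a E0 F u) (i : ι) (lam b : ℝ) {z : ℂ} (hz : 0 < z.im)
    (ω : CoprodI Γ → ℝ) :
    ‖(Fi a i lam b z ω - F i) / (((F i).im : ℝ) : ℂ) - ∑' y : Γ i, zz (u i) y *
      ((Ws a (Finset.univ.erase i) lam b z (tr (em Γ i y) ω) - W0 E0 F i) /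
        (((W0 E0 F i).im : ℝ) : ℂ))‖ ≤
      ∑' y : Γ i, qq (u i) y * Yi a E0 F i lam b z (tr (em Γ i y) ω) := by
  obtain ⟨C, hC⟩ := quot_bd R i lam b hz
  obtain ⟨M, hM⟩ := Ws_bd R (Finset.univ.erase i) lam b hz
  have h := one_J2 (Dp_sa (R.hs i)) (Dp_cj (a i)) (Ag_cj (a i))
    (br_eq R.hs R.h1 i lam b hz ω) (R.eq i)
    (fun y => Ws_pos R (Finset.univ.erase i) lam b hz (tr (em Γ i y) ω)) (C := C)
    (M := max M ‖W0 E0 F i‖) (fun y => hC _) (fun y => (hM _).trans (le_max_left _ _))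
    (fun y => le_max_right _ _)
  rw [← Fi_eq, R.Feq, tsum_congr (term_eq R i lam b hz ω), tsum_mul_right] at h
  have h2 := R.Fpos i
  have h3 : ∀ y : Γ i, (Ws a (Finset.univ.erase i) lam b z (tr (em Γ i y) ω) - W0 E0 F i) *
      u i y ^ 2 = (((F i).im : ℝ) : ℂ) * (zz (u i) y *
      ((Ws a (Finset.univ.erase i) lam b z (tr (em Γ i y) ω) - W0 E0 F i) /
        (((W0 E0 F i).im : ℝ) : ℂ))) := by
    intro y
    unfold zz
    rw [← R.im i]
    have h4 : (((W0 E0 F i).im : ℝ) : ℂ) ≠ 0 := by exact_mod_cast (R.Wpos i).ne'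
    have h5 : ((‖u i‖ : ℝ) : ℂ) ≠ 0 := by exact_mod_cast norm_ne_zero_iff.2 (R.ne i)
    push_cast
    field_simp
  rw [tsum_congr h3, tsum_mul_left] at h
  obtain ⟨T, hT⟩ : ∃ T, T = ∑' y : Γ i, zz (u i) y *
      ((Ws a (Finset.univ.erase i) lam b z (tr (em Γ i y) ω) - W0 E0 F i) /
        (((W0 E0 F i).im : ℝ) : ℂ)) := ⟨_, rfl⟩
  rw [← hT] at h ⊢
  have h6 : (((F i).im : ℝ) : ℂ) ≠ 0 := by exact_mod_cast h2.ne'
  have h7 : (Fi a i lam b z ω - F i) / (((F i).im : ℝ) : ℂ) - T =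
      (Fi a i lam b z ω - F i - (((F i).im : ℝ) : ℂ) * T) / (((F i).im : ℝ) : ℂ) := by
    field_simp
  rw [h7, norm_div, Complex.norm_real, Real.norm_of_nonneg h2.le, div_le_iff₀ h2]
  exact h

end ref

end Pool.Agent.Helper32.FG
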