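import Pool.Agent.Helper32.FG.Mo

/-! The comparison with a reference solution: the moments. -/

set_option autoImplicit false
set_option linter.unusedSectionVars false
set_option linter.unusedSimpArgs false
set_option linter.deprecated false
set_option linter.unusedVariables false

open scoped BigOperators InnerProductSpace Topology
open Filter MeasureTheory ProbabilityTheory
open Monoid (CoprodI)
open Monoid.CoprodI (of Word of_injective)

namespace Pool.Agent.Helper32.FG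

open Pool.Agent.TH369.AN (Rz rz_eq rz_uniq rz_norm)
open Pool.Agent.Y662.TR (LL lmk lmk_apply ll_inner ll_ext ll_summable ll_coord ll_sum dv dv_apply
  dv_self dv_ne inner_dv norm_dv ev ev_apply add_coord sub_coord neg_coord smul_coord Cf Cf_apply
  Cf_norm clp clp_abs clp_eq clp_cont Mw Mw_apply Mw_norm Mw_sa Mw_tendsto)
open Pool.Agent.Helper32.BS (pw clp_pw)

section pre

variable {Ω : Type} [MeasurableSpace Ω] (P : Measure Ω) [IsProbabilityMeasure P]

theorem sq_int_le {f : Ω → ℝ} (hf : BM f) : (∫ ω, f ω ∂P) ^ 2 ≤ ∫ ω, f ω ^ 2 ∂P := by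
  obtain ⟨p, hp⟩ : ∃ p, p = ∫ ω, f ω ∂P := ⟨_, rfl⟩
  have h1 : 0 ≤ ∫ ω, (f ω - p) ^ 2 ∂P := integral_nonneg fun ω => sq_nonneg _
  have h2 : ∫ ω, (f ω - p) ^ 2 ∂P = ∫ ω, f ω ^ 2 ∂P - 2 * p * p + p ^ 2 := by
    have e1 : ∀ ω, (f ω - p) ^ 2 = (f ω ^ 2 - 2 * p * f ω) + p ^ 2 := fun ω => by ring
    have i1 := hf.sqR.int P
    have i2 := (hf.int P).const_mul (2 * p)
    simp only [e1]
    have e2 := integral_add (i1.sub i2) (integrable_const (μ := P) (p ^ 2))
    have e3 := integral_sub i1 i2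
    simp only [Pi.sub_apply] at e2
    rw [e2, e3, integral_const_mul, ← hp]
    simp
  rw [h2] at h1
  rw [← hp]
  nlinarith

theorem mono_int {f g : Ω → ℝ} (hf : BM f) (hg : BM g) (h : ∀ ω, f ω ≤ g ω) :
    ∫ ω, f ω ∂P ≤ ∫ ω, g ω ∂P := integral_mono (hf.int P) (hg.int P) h

end pre

section mom

variable {ι : Type} [Fintype ι] [DecidableEq ι] {Γ : ι → Type} [∀ i, Group (Γ i)]
  [∀ i, Countable (Γ i)]

instance : Countable (CoprodI Γ) := coprod_countable

theorem Ws_local (a : ∀ i, Γ i →₀ ℝ) (i : ι) (lam b : ℝ) (z : ℂ) (ω ω' : CoprodI Γ → ℝ)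
    (h : ∀ x, x ∉ Bs i → ω x = ω' x) :
    Ws a (Finset.univ.erase i) lam b z ω = Ws a (Finset.univ.erase i) lam b z ω' := by
  unfold Ws
  rw [h 1 (one_notMem i)]
  congr 2
  refine Finset.sum_congr rfl fun j hj => ?_
  unfold Fi Gg
  rw [Th_congr (Lf a) lam b (fun x hx => h x (Bs_disj (Finset.ne_of_mem_erase hj) hx))]

variable {a : ∀ i, Γ i →₀ ℝ} {E0 : ℝ} {F : ι → ℂ} {u : ∀ i, LL (Γ i)}

/-- the normalised difference of the self-energies -/
noncomputable def Vi (a : ∀ i, Γ i →₀ ℝ) (E0 : ℝ) (F : ι → ℂ) (i : ι) (lam b : ℝ) (z : ℂ)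
    (ω : CoprodI Γ → ℝ) : ℂ :=
  (Ws a (Finset.univ.erase i) lam b z ω - W0 E0 F i) / (((W0 E0 F i).im : ℝ) : ℂ)

theorem Vi_BM (R : Rf a E0 F u) (i : ι) (lam b : ℝ) {z : ℂ} (hz : 0 < z.im) :
    BM fun ω : CoprodI Γ → ℝ => Vi a E0 F i lam b z ω := by
  unfold Vi
  simp only [div_eq_mul_inv]
  exact ((Ws_BM R _ lam b hz).subC (BM.const _)).mulC (BM.const _)

variable (ρ : Measure ℝ) [IsProbabilityMeasure ρ]

/-- the random convex combination -/
theorem E_qY (R : Rf a E0 F u) (i : ι) (lam b : ℝ) {z : ℂ} (hz : 0 < z.im) :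
    (BM fun ω : CoprodI Γ → ℝ => ∑' y : Γ i, qq (u i) y * Yi a E0 F i lam b z (tr (em Γ i y) ω)) ∧
    ∫ ω, (∑' y : Γ i, qq (u i) y * Yi a E0 F i lam b z (tr (em Γ i y) ω)) ^ 2
      ∂(Pf (CoprodI Γ) ρ) = (∫ ω, Yi a E0 F i lam b z ω ∂(Pf (CoprodI Γ) ρ)) ^ 2 +
      kq (u i) * (∫ ω, Yi a E0 F i lam b z ω ^ 2 ∂(Pf (CoprodI Γ) ρ) -
        (∫ ω, Yi a E0 F i lam b z ω ∂(Pf (CoprodI Γ) ρ)) ^ 2) := by
  obtain ⟨P, hP⟩ : ∃ P, P = Pf (CoprodI Γ) ρ := ⟨_, rfl⟩
  haveI : IsProbabilityMeasure P := by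
    rw [hP]
    infer_instance
  rw [← hP]
  have hY := Yi_BM R i lam b hz
  have hu := R.ne i
  constructor
  · obtain ⟨C, hC⟩ := hY.2
    refine BM.tsumR (fun y => ((hY.comp (tr_mp ρ (em Γ i y)).measurable).smulR _).1)
      ((qq_hasSum hu).summable.mul_right C) (fun y ω => ?_)
    rw [norm_mul, Real.norm_of_nonneg (qq_nonneg _ _)]
    exact mul_le_mul_of_nonneg_left (hC _) (qq_nonneg _ _)
  · have h := pr_sum P (fun ω => ((Yi a E0 F i lam b z ω : ℝ) : ℂ)) hY.ofR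
      (fun y : Γ i => tr (em Γ i y)) (fun y => by rw [hP]; exact tr_mp ρ _)
      (fun y y' hyy => by
        rw [hP]
        refine tr_indep ρ hyy hY.ofR.1 fun ω ω' hω => ?_
        simp only [Yi]
        rw [Ws_local a i lam b z ω ω' hω])
      (fun y => ((qq (u i) y : ℝ) : ℂ))
      (by
        simp only [Complex.norm_real, Real.norm_of_nonneg (qq_nonneg _ _)]
        exact (qq_hasSum hu).summable)
      (by
        simp only [Complex.norm_real, Real.norm_of_nonneg (qq_nonneg _ _)]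
        exact qq2_summable hu)
    have e1 : ∀ ω : CoprodI Γ → ℝ,
        ‖∑' y : Γ i, ((qq (u i) y : ℝ) : ℂ) * ((Yi a E0 F i lam b z (tr (em Γ i y) ω) : ℝ) : ℂ)‖ ^ 2
        = (∑' y : Γ i, qq (u i) y * Yi a E0 F i lam b z (tr (em Γ i y) ω)) ^ 2 := by
      intro ω
      simp only [← Complex.ofReal_mul]
      rw [← Complex.ofReal_tsum, Complex.norm_real, Real.norm_eq_abs, sq_abs]
    simp only [e1] at h
    rw [h, ← Complex.ofReal_tsum, (qq_hasSum hu).tsum_eq, integral_complex_ofReal,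
      Complex.norm_real, Real.norm_eq_abs, sq_abs]
    simp only [Complex.norm_real, Real.norm_eq_abs, sq_abs]
    unfold kq
    norm_num

/-- the random linear combination -/
theorem E_zV (R : Rf a E0 F u) (i : ι) (lam b : ℝ) {z : ℂ} (hz : 0 < z.im) :
    (BM fun ω : CoprodI Γ → ℝ => ∑' y : Γ i, zz (u i) y * Vi a E0 F i lam b z (tr (em Γ i y) ω)) ∧
    (∫ ω, (∑' y : Γ i, zz (u i) y * Vi a E0 F i lam b z (tr (em Γ i y) ω)) ∂(Pf (CoprodI Γ) ρ) =
      sq' (u i) * ∫ ω, Vi a E0 F i lam b z ω ∂(Pf (CoprodI Γ) ρ)) ∧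
    ∫ ω, ‖∑' y : Γ i, zz (u i) y * Vi a E0 F i lam b z (tr (em Γ i y) ω)‖ ^ 2
      ∂(Pf (CoprodI Γ) ρ) =
      ‖sq' (u i)‖ ^ 2 * ‖∫ ω, Vi a E0 F i lam b z ω ∂(Pf (CoprodI Γ) ρ)‖ ^ 2 +
      kq (u i) * (∫ ω, ‖Vi a E0 F i lam b z ω‖ ^ 2 ∂(Pf (CoprodI Γ) ρ) -
        ‖∫ ω, Vi a E0 F i lam b z ω ∂(Pf (CoprodI Γ) ρ)‖ ^ 2) := by
  obtain ⟨P, hP⟩ : ∃ P, P = Pf (CoprodI Γ) ρ := ⟨_, rfl⟩
  haveI : IsProbabilityMeasure P := by
    rw [hP]
    infer_instance
  rw [← hP]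
  have hV := Vi_BM R i lam b hz
  have hu := R.ne i
  obtain ⟨C, hC⟩ := hV.2
  have hbd : ∀ (y : Γ i) (ω : CoprodI Γ → ℝ),
      ‖zz (u i) y * Vi a E0 F i lam b z (tr (em Γ i y) ω)‖ ≤ qq (u i) y * C := by
    intro y ω
    rw [norm_mul, zz_norm]
    exact mul_le_mul_of_nonneg_left (hC _) (qq_nonneg _ _)
  have hms : ∀ y : Γ i, BM fun ω : CoprodI Γ → ℝ =>
      zz (u i) y * Vi a E0 F i lam b z (tr (em Γ i y) ω) := fun y =>
    (BM.const _).mulC (hV.comp (tr_mp ρ (em Γ i y)).measurable)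
  have hqs := (qq_hasSum hu).summable.mul_right C
  refine ⟨BM.tsumC (fun y => (hms y).1) hqs hbd, ?_, ?_⟩
  · rw [← integral_tsum_of_summable_integral_norm (fun y => (hms y).int P)]
    · unfold sq'
      rw [← tsum_mul_right]
      refine tsum_congr fun y => ?_
      rw [integral_const_mul]
      congr 1
      have h1 := (tr_mp (Γ := Γ) ρ (em Γ i y))
      rw [← hP] at h1
      have h2 := integral_map (μ := P) h1.measurable.aemeasurable
        (f := fun ω => Vi a E0 F i lam b z ω) (by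
          rw [h1.map_eq]
          exact hV.1.aestronglyMeasurable)
      rw [h1.map_eq] at h2
      exact h2.symm
    · refine Summable.of_nonneg_of_le (fun y => integral_nonneg fun ω => norm_nonneg _)
        (fun y => ?_) hqs
      refine (integral_mono ((hms y).normC.int P) (integrable_const (qq (u i) y * C))
        (fun ω => hbd y ω)).trans ?_
      simp
  · have h := pr_sum P (fun ω => Vi a E0 F i lam b z ω) hV
      (fun y : Γ i => tr (em Γ i y)) (fun y => by rw [hP]; exact tr_mp ρ _)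
      (fun y y' hyy => by
        rw [hP]
        refine tr_indep ρ hyy hV.1 fun ω ω' hω => ?_
        simp only [Vi]
        rw [Ws_local a i lam b z ω ω' hω])
      (fun y => zz (u i) y) (zz_summable hu)
      (by
        simp only [zz_norm]
        exact qq2_summable hu)
    rw [h]
    simp only [zz_norm]
    rfl

/-- the relative weights -/
noncomputable def ww (E0 : ℝ) (F : ι → ℂ) (i j : ι) : ℝ := (F j).im / (W0 E0 F i).im

theorem diff_le (R : Rf a E0 F u) (i : ι) (lam b : ℝ) {z : ℂ} {ε : ℝ}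
    (hε : ‖z - E0‖ + |lam * b| ≤ ε) (ω : CoprodI Γ → ℝ) :
    ‖Ws a (Finset.univ.erase i) lam b z ω - W0 E0 F i -
      ∑ j ∈ Finset.univ.erase i, (Fi a j lam b z ω - F j)‖ ≤ ε := by
  have h1 : Ws a (Finset.univ.erase i) lam b z ω - W0 E0 F i -
      ∑ j ∈ Finset.univ.erase i, (Fi a j lam b z ω - F j) =
      (z - E0) - ((lam * clp b (ω 1) : ℝ) : ℂ) := by
    unfold Ws W0
    rw [Finset.sum_sub_distrib]
    ring
  rw [h1]
  refine (norm_sub_le _ _).trans (le_trans ?_ hε)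
  have := pot_le lam b (ω 1)
  linarith

theorem diff_le' (R : Rf a E0 F u) (i : ι) (lam b : ℝ) {z : ℂ} {ε : ℝ}
    (hε : ‖z - E0‖ + |lam * b| ≤ ε) (ω : CoprodI Γ → ℝ) :
    ‖Ws a (Finset.univ.erase i) lam b z ω - W0 E0 F i‖ ≤
      ∑ j ∈ Finset.univ.erase i, ‖Fi a j lam b z ω - F j‖ + ε := by
  have h1 := diff_le R i lam b hε ω
  have h2 := norm_sum_le (Finset.univ.erase i) fun j => Fi a j lam b z ω - F j
  have h3 := norm_le_norm_add_norm_sub' (Ws a (Finset.univ.erase i) lam b z ω - W0 E0 F i)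
    (∑ j ∈ Finset.univ.erase i, (Fi a j lam b z ω - F j))
  linarith

theorem Yi_le (R : Rf a E0 F u) (i : ι) (lam b : ℝ) {z : ℂ} (hz : 0 < z.im) {ε t θ : ℝ}
    (ht : 0 < t) (ht1 : t ≤ 1 / 2) (hε : ‖z - E0‖ + |lam * b| ≤ ε)
    (hθ : (1 + 1 / t) * (ε / (W0 E0 F i).im) ^ 2 ≤ θ) (hθ1 : θ ≤ t / 2) (ω : CoprodI Γ → ℝ) :
    Yi a E0 F i lam b z ω ≤ (1 + t) ^ 2 *
      ∑ j ∈ Finset.univ.erase i, ww E0 F i j * Xi a F j lam b z ω + 4 * θ := by
  have hε0 : 0 ≤ ε := le_trans (by positivity) hε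
  refine step_X (Finset.univ.erase i) (fun j => Fi a j lam b z ω) F _ _
    (fun j _ => Fi_pos R j lam b hz ω) (fun j _ => R.Fpos j) (W0_im E0 F i) (R.Wpos i) ?_
    (Ws_pos R _ lam b hz ω) ht hε0 (diff_le' R i lam b hε ω) hθ hθ1 ht1
  rw [Ws_im]
  linarith

theorem Vi_le (R : Rf a E0 F u) (i : ι) (lam b : ℝ) {z : ℂ} {ε t θ : ℝ}
    (ht : 0 < t) (hε : ‖z - E0‖ + |lam * b| ≤ ε)
    (hθ : (1 + 1 / t) * (ε / (W0 E0 F i).im) ^ 2 ≤ θ) (ω : CoprodI Γ → ℝ) :
    ‖Vi a E0 F i lam b z ω‖ ^ 2 ≤ (1 + t) *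
      ∑ j ∈ Finset.univ.erase i, ww E0 F i j * (‖Fi a j lam b z ω - F j‖ ^ 2 / (F j).im ^ 2) +
        θ := by
  have h := step_V (Finset.univ.erase i) (fun j => Fi a j lam b z ω) F
    (Ws a (Finset.univ.erase i) lam b z ω) (W0 E0 F i)
    (fun j _ => R.Fpos j) (W0_im E0 F i) (R.Wpos i) ht (diff_le' R i lam b hε ω) hθ
  unfold Vi
  rw [norm_div, Complex.norm_real, Real.norm_of_nonneg (R.Wpos i).le]
  exact h

theorem ww_nonneg (R : Rf a E0 F u) (i j : ι) : 0 ≤ ww E0 F i j :=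
  div_nonneg (R.Fpos j).le (R.Wpos i).le

theorem ww_sum (R : Rf a E0 F u) (i : ι) : ∑ j ∈ Finset.univ.erase i, ww E0 F i j = 1 := by
  unfold ww
  rw [← Finset.sum_div, ← W0_im, div_self (R.Wpos i).ne']

/-- the linear stability of the reference solution -/
def Inv (E0 : ℝ) (F : ι → ℂ) (u : ∀ i, LL (Γ i)) (Ci : ℝ) : Prop :=
  ∀ (e : ι → ℂ) (B : ℝ), (∀ i, ‖e i - sq' (u i) *
    ∑ j ∈ Finset.univ.erase i, ((ww E0 F i j : ℝ) : ℂ) * e j‖ ≤ B) → ∀ i, ‖e i‖ ≤ Ci * B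

/-- the fourth moments -/
noncomputable def mX (a : ∀ i, Γ i →₀ ℝ) (F : ι → ℂ) (lam b : ℝ) (z : ℂ) (ρ : Measure ℝ)
    (i : ι) : ℝ := ∫ ω, Xi a F i lam b z ω ^ 2 ∂(Pf (CoprodI Γ) ρ)

/-- **the recursion of the moments** -/
theorem mom_rec (R : Rf a E0 F u) {t cW Ci C : ℝ} (ht : 0 < t) (ht1 : t ≤ 1 / 2) (hcW : 0 < cW)
    (hcW' : ∀ i, cW ≤ (W0 E0 F i).im) (hCi : 0 ≤ Ci) (hInv : Inv E0 F u Ci)
    (hAP : AP (ww E0 F) (fun i => kq (u i)) t Ci C) (lam b : ℝ) {z : ℂ} (hz : 0 < z.im) {ε : ℝ}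
    (hε : ‖z - E0‖ + |lam * b| ≤ ε) (hθ : (1 + 1 / t) * (ε / cW) ^ 2 ≤ t / 2) (M : ℝ)
    (hM : ∀ i, mX a F lam b z ρ i ≤ M) (hM' : ∃ i, mX a F lam b z ρ i = M) :
    M ≤ C * (((1 + 1 / t) * (ε / cW) ^ 2) ^ 2 + M ^ 2) := by
  obtain ⟨P, hP⟩ : ∃ P, P = Pf (CoprodI Γ) ρ := ⟨_, rfl⟩
  haveI : IsProbabilityMeasure P := by
    rw [hP]
    infer_instance
  obtain ⟨θ, hθd⟩ : ∃ θ, θ = (1 + 1 / t) * (ε / cW) ^ 2 := ⟨_, rfl⟩
  rw [← hθd] at hθ ⊢
  have hε0 : 0 ≤ ε := le_trans (by positivity) hε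
  have hθ0 : 0 ≤ θ := by
    rw [hθd]
    positivity
  have hsθ : (ε / cW) ^ 2 ≤ θ := by
    rw [hθd]
    have : 0 ≤ 1 / t := by positivity
    nlinarith [sq_nonneg (ε / cW)]
  have hεi : ∀ i, ε / (W0 E0 F i).im ≤ ε / cW := fun i => by
    have := hcW' i
    gcongr
  have hθi : ∀ i, (1 + 1 / t) * (ε / (W0 E0 F i).im) ^ 2 ≤ θ := by
    intro i
    rw [hθd]
    have := hεi i
    have := (R.Wpos i)
    gcongr
  have bX := fun i => Xi_BM R i lam b hz
  have bY := fun i => Yi_BM R i lam b hz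
  have bV := fun i => Vi_BM R i lam b hz
  have bF := fun i => Fi_BM R i lam b hz
  have bD : ∀ i, BM fun ω : CoprodI Γ → ℝ => ‖Fi a i lam b z ω - F i‖ ^ 2 / (F i).im ^ 2 := by
    intro i
    simp only [div_eq_mul_inv]
    exact (((bF i).subC (BM.const _)).normC.sqR).mulR (BM.const _)
  have nX := fun i ω => Xi_nonneg R i lam b hz ω
  have nY := fun i ω => Yi_nonneg R i lam b hz ω
  refine hAP θ (ε / cW) (fun i => mX a F lam b z ρ i)
    (fun i => ∫ ω, ‖Fi a i lam b z ω - F i‖ ^ 2 / (F i).im ^ 2 ∂P)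
    (fun i => ∫ ω, Yi a E0 F i lam b z ω ∂P) (fun i => ∫ ω, Yi a E0 F i lam b z ω ^ 2 ∂P)
    (fun i => ∫ ω, ‖Vi a E0 F i lam b z ω‖ ^ 2 ∂P) (fun i => ‖∫ ω, Vi a E0 F i lam b z ω ∂P‖)
    hθ0 (by linarith) (by positivity) hsθ (fun i => ?_) (fun i => ?_) (fun i => ?_) (fun i => ?_)
    (fun i => ?_) (fun i => ?_) (fun i => ?_) (fun i => ?_) (fun i => ?_) (fun i => ?_) ?_
    M hM hM'
  · exact integral_nonneg fun ω => sq_nonneg _
  · exact integral_nonneg fun ω => by positivity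
  · exact integral_nonneg fun ω => nY i ω
  · exact norm_nonneg _
  · exact sq_int_le P (bY i)
  · -- the fourth moment
    obtain ⟨hb, he⟩ := E_qY ρ R i lam b hz
    rw [← hP] at he
    have h1 : mX a F lam b z ρ i ≤
        ∫ ω, (∑' y : Γ i, qq (u i) y * Yi a E0 F i lam b z (tr (em Γ i y) ω)) ^ 2 ∂P := by
      unfold mX
      rw [← hP]
      exact mono_int P (bX i).sqR hb.sqR fun ω =>
        pow_le_pow_left₀ (nX i ω) (Xi_le R i lam b hz ω) 2
    rw [he] at h1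
    have h2 := kq_nonneg (u i)
    nlinarith [sq_nonneg (∫ ω, Yi a E0 F i lam b z ω ∂P)]
  · -- the self-energies
    have h1 : ∀ ω, Yi a E0 F i lam b z ω ^ 2 ≤ (1 + t) ^ 5 *
        ∑ j ∈ Finset.univ.erase i, ww E0 F i j * Xi a F j lam b z ω ^ 2 +
          16 * (1 + 1 / t) * θ ^ 2 := by
      intro ω
      have e1 := Yi_le R i lam b hz ht ht1 hε (hθi i) hθ ω
      have e2 := pow_le_pow_left₀ (nY i ω) e1 2
      have e3 := young ht ((1 + t) ^ 2 *
        ∑ j ∈ Finset.univ.erase i, ww E0 F i j * Xi a F j lam b z ω) (4 * θ)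
      have e4 := jensen (Finset.univ.erase i) (ww E0 F i) (fun j => Xi a F j lam b z ω)
        (fun j _ => ww_nonneg R i j) (ww_sum R i)
      refine (e2.trans e3).trans ?_
      have e5 : (1 + t) * ((1 + t) ^ 2 *
          ∑ j ∈ Finset.univ.erase i, ww E0 F i j * Xi a F j lam b z ω) ^ 2 ≤ (1 + t) ^ 5 *
          ∑ j ∈ Finset.univ.erase i, ww E0 F i j * Xi a F j lam b z ω ^ 2 := by
        calc _ = (1 + t) ^ 5 *
              (∑ j ∈ Finset.univ.erase i, ww E0 F i j * Xi a F j lam b z ω) ^ 2 := by ring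
          _ ≤ _ := by gcongr
      linarith
    have h2 : BM fun ω : CoprodI Γ → ℝ =>
        ∑ j ∈ Finset.univ.erase i, ww E0 F i j * Xi a F j lam b z ω ^ 2 :=
      BM.sumR _ fun j _ => (bX j).sqR.smulR _
    refine (mono_int P (bY i).sqR ((h2.smulR _).addR (BM.const _)) h1).trans (le_of_eq ?_)
    rw [integral_add ((h2.smulR _).int P) (integrable_const _), integral_const_mul,
      integral_finset_sum _ fun j _ => ((bX j).sqR.smulR _).int P]
    simp only [integral_const_mul, mX, ← hP, integral_const, probReal_univ, one_smul]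
  · -- the first moments
    have h1 : ∀ ω, Yi a E0 F i lam b z ω ≤ (1 + t) ^ 2 *
        ∑ j ∈ Finset.univ.erase i, ww E0 F i j *
          (3 * (‖Fi a j lam b z ω - F j‖ ^ 2 / (F j).im ^ 2) + Xi a F j lam b z ω ^ 2) +
          4 * θ := by
      intro ω
      refine (Yi_le R i lam b hz ht ht1 hε (hθi i) hθ ω).trans ?_
      gcongr with j hj
      · exact ww_nonneg R i j
      · exact Xd_le (Fi_pos R j lam b hz ω) (R.Fpos j)
    have h2 : ∀ j, BM fun ω : CoprodI Γ → ℝ =>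
        3 * (‖Fi a j lam b z ω - F j‖ ^ 2 / (F j).im ^ 2) + Xi a F j lam b z ω ^ 2 := fun j =>
      ((bD j).smulR 3).addR (bX j).sqR
    have h3 : BM fun ω : CoprodI Γ → ℝ => ∑ j ∈ Finset.univ.erase i, ww E0 F i j *
          (3 * (‖Fi a j lam b z ω - F j‖ ^ 2 / (F j).im ^ 2) + Xi a F j lam b z ω ^ 2) :=
      BM.sumR _ fun j _ => (h2 j).smulR _
    refine (mono_int P (bY i) ((h3.smulR _).addR (BM.const _)) h1).trans (le_of_eq ?_)
    rw [integral_add ((h3.smulR _).int P) (integrable_const _), integral_const_mul,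
      integral_finset_sum _ fun j _ => ((h2 j).smulR _).int P]
    have h4 : ∀ j, ∫ ω, 3 * (‖Fi a j lam b z ω - F j‖ ^ 2 / (F j).im ^ 2) +
        Xi a F j lam b z ω ^ 2 ∂P =
        3 * ∫ ω, ‖Fi a j lam b z ω - F j‖ ^ 2 / (F j).im ^ 2 ∂P + mX a F lam b z ρ j := by
      intro j
      rw [integral_add (((bD j).smulR 3).int P) ((bX j).sqR.int P), integral_const_mul, mX, ← hP]
    simp only [integral_const_mul, h4, integral_const, probReal_univ, one_smul]
  · -- the second moments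
    obtain ⟨hb, he⟩ := E_qY ρ R i lam b hz
    obtain ⟨hb2, -, he2⟩ := E_zV ρ R i lam b hz
    rw [← hP] at he he2
    have h1 : ∀ ω, ‖Fi a i lam b z ω - F i‖ ^ 2 / (F i).im ^ 2 ≤
        (1 + t) * ‖∑' y : Γ i, zz (u i) y * Vi a E0 F i lam b z (tr (em Γ i y) ω)‖ ^ 2 +
        (1 + 1 / t) * (∑' y : Γ i, qq (u i) y * Yi a E0 F i lam b z (tr (em Γ i y) ω)) ^ 2 := by
      intro ω
      have e1 := Di_le R i lam b hz ω
      obtain ⟨L, hL⟩ : ∃ L, L = ∑' y : Γ i, zz (u i) y *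
          Vi a E0 F i lam b z (tr (em Γ i y) ω) := ⟨_, rfl⟩
      obtain ⟨Z, hZ⟩ : ∃ Z, Z = ∑' y : Γ i, qq (u i) y *
          Yi a E0 F i lam b z (tr (em Γ i y) ω) := ⟨_, rfl⟩
      obtain ⟨D, hD⟩ : ∃ D, D = (Fi a i lam b z ω - F i) / (((F i).im : ℝ) : ℂ) := ⟨_, rfl⟩
      have e2 : ‖D - L‖ ≤ Z := by
        rw [hD, hL, hZ]
        exact e1
      rw [← hL, ← hZ]
      have e3 : ‖Fi a i lam b z ω - F i‖ ^ 2 / (F i).im ^ 2 = ‖L + (D - L)‖ ^ 2 := by
        rw [add_sub_cancel, hD, norm_div, Complex.norm_real, Real.norm_of_nonneg (R.Fpos i).le,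
          div_pow]
      rw [e3]
      refine (youngC ht _ _).trans ?_
      have e4 := norm_nonneg (D - L)
      gcongr
    refine (mono_int P (bD i) ((hb2.normC.sqR.smulR _).addR (hb.sqR.smulR _)) h1).trans ?_
    rw [integral_add ((hb2.normC.sqR.smulR _).int P) ((hb.sqR.smulR _).int P),
      integral_const_mul, integral_const_mul, he, he2]
    have k0 := kq_nonneg (u i)
    have k1 := kq_le (R.ne i)
    have k2 := sq_le (R.ne i)
    have k3 : ‖sq' (u i)‖ ^ 2 ≤ 1 := by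
      rw [← one_pow 2]
      exact pow_le_pow_left₀ (norm_nonneg _) k2 2
    have k4 := sq_int_le P (bY i)
    obtain ⟨g, hg⟩ : ∃ g, g = ‖∫ ω, Vi a E0 F i lam b z ω ∂P‖ ^ 2 := ⟨_, rfl⟩
    have g0 : 0 ≤ g := by
      rw [hg]
      positivity
    rw [← hg]
    have k5 : ‖sq' (u i)‖ ^ 2 * g + kq (u i) * (∫ ω, ‖Vi a E0 F i lam b z ω‖ ^ 2 ∂P - g) ≤
        kq (u i) * ∫ ω, ‖Vi a E0 F i lam b z ω‖ ^ 2 ∂P + g := by nlinarith
    have k6 : (∫ ω, Yi a E0 F i lam b z ω ∂P) ^ 2 + kq (u i) *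
        (∫ ω, Yi a E0 F i lam b z ω ^ 2 ∂P - (∫ ω, Yi a E0 F i lam b z ω ∂P) ^ 2) ≤
        ∫ ω, Yi a E0 F i lam b z ω ^ 2 ∂P := by nlinarith
    gcongr
  · -- the variances
    have h1 := fun ω => Vi_le R i lam b ht hε (hθi i) ω
    have h2 : BM fun ω : CoprodI Γ → ℝ => ∑ j ∈ Finset.univ.erase i, ww E0 F i j *
        (‖Fi a j lam b z ω - F j‖ ^ 2 / (F j).im ^ 2) := BM.sumR _ fun j _ => (bD j).smulR _
    refine (mono_int P (bV i).normC.sqR ((h2.smulR _).addR (BM.const _)) h1).trans (le_of_eq ?_)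
    rw [integral_add ((h2.smulR _).int P) (integrable_const _), integral_const_mul,
      integral_finset_sum _ fun j _ => ((bD j).smulR _).int P]
    simp only [integral_const_mul, integral_const, probReal_univ, one_smul]
  · -- the means
    intro B hB
    obtain ⟨e, he⟩ : ∃ e : ι → ℂ, e = fun i =>
        ∫ ω, (Fi a i lam b z ω - F i) / (((F i).im : ℝ) : ℂ) ∂P := ⟨_, rfl⟩
    have bE : ∀ i, BM fun ω : CoprodI Γ → ℝ =>
        (Fi a i lam b z ω - F i) / (((F i).im : ℝ) : ℂ) := by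
      intro i
      simp only [div_eq_mul_inv]
      exact ((bF i).subC (BM.const _)).mulC (BM.const _)
    have hVe : ∀ i, ‖∫ ω, Vi a E0 F i lam b z ω ∂P -
        ∑ j ∈ Finset.univ.erase i, ((ww E0 F i j : ℝ) : ℂ) * e j‖ ≤ ε / cW := by
      intro i
      have h1 : BM fun ω : CoprodI Γ → ℝ => ∑ j ∈ Finset.univ.erase i,
          ((ww E0 F i j : ℝ) : ℂ) * ((Fi a j lam b z ω - F j) / (((F j).im : ℝ) : ℂ)) :=
        BM.sumC _ fun j _ => (BM.const _).mulC (bE j)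
      have h2 : ∑ j ∈ Finset.univ.erase i, ((ww E0 F i j : ℝ) : ℂ) * e j =
          ∫ ω, (∑ j ∈ Finset.univ.erase i,
          ((ww E0 F i j : ℝ) : ℂ) * ((Fi a j lam b z ω - F j) / (((F j).im : ℝ) : ℂ))) ∂P := by
        rw [integral_finset_sum _ fun j _ => ((BM.const _).mulC (bE j)).int P]
        refine Finset.sum_congr rfl fun j _ => ?_
        rw [integral_const_mul, he]
      rw [h2, ← integral_sub ((bV i).int P) (h1.int P)]
      refine (norm_integral_le_of_norm_le_const (C := ε / cW) (Eventually.of_forall fun ω =>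
        ?_)).trans (by simp)
      have h3 : Vi a E0 F i lam b z ω - ∑ j ∈ Finset.univ.erase i,
          ((ww E0 F i j : ℝ) : ℂ) * ((Fi a j lam b z ω - F j) / (((F j).im : ℝ) : ℂ)) =
          (Ws a (Finset.univ.erase i) lam b z ω - W0 E0 F i -
            ∑ j ∈ Finset.univ.erase i, (Fi a j lam b z ω - F j)) /
              (((W0 E0 F i).im : ℝ) : ℂ) := by
        unfold Vi ww
        rw [sub_div (Ws a (Finset.univ.erase i) lam b z ω - W0 E0 F i)
          (∑ j ∈ Finset.univ.erase i, (Fi a j lam b z ω - F j)), Finset.sum_div]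
        congr 1
        refine Finset.sum_congr rfl fun j _ => ?_
        have h4 : (((F j).im : ℝ) : ℂ) ≠ 0 := by exact_mod_cast (R.Fpos j).ne'
        have h5 : (((W0 E0 F i).im : ℝ) : ℂ) ≠ 0 := by exact_mod_cast (R.Wpos i).ne'
        push_cast
        field_simp
      rw [h3, norm_div, Complex.norm_real, Real.norm_of_nonneg (R.Wpos i).le]
      refine le_trans ?_ (hεi i)
      have := diff_le R i lam b hε ω
      have := R.Wpos i
      gcongr
    have hee : ∀ i, ‖e i - sq' (u i) *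
        ∑ j ∈ Finset.univ.erase i, ((ww E0 F i j : ℝ) : ℂ) * e j‖ ≤ ε / cW + B := by
      intro i
      obtain ⟨hb, -⟩ := E_qY ρ R i lam b hz
      obtain ⟨hb2, hb3, -⟩ := E_zV ρ R i lam b hz
      rw [← hP] at hb3
      have h1 : ‖e i - sq' (u i) * ∫ ω, Vi a E0 F i lam b z ω ∂P‖ ≤ B := by
        rw [← hb3]
        have h2 : e i = ∫ ω, (Fi a i lam b z ω - F i) / (((F i).im : ℝ) : ℂ) ∂P := by rw [he]
        rw [h2, ← integral_sub ((bE i).int P) (hb2.int P)]
        refine (norm_integral_le_integral_norm _).trans (le_trans ?_ (hB i))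
        refine (mono_int P ((bE i).subC hb2).normC hb fun ω => Di_le R i lam b hz ω).trans
          (le_of_eq ?_)
        have hms : ∀ y : Γ i, BM fun ω : CoprodI Γ → ℝ =>
            qq (u i) y * Yi a E0 F i lam b z (tr (em Γ i y) ω) := fun y =>
          ((bY i).comp (tr_mp ρ (em Γ i y)).measurable).smulR _
        have hyy : ∀ y : Γ i, ∫ ω, qq (u i) y * Yi a E0 F i lam b z (tr (em Γ i y) ω) ∂P =
            qq (u i) y * ∫ ω, Yi a E0 F i lam b z ω ∂P := by
          intro y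
          rw [integral_const_mul]
          congr 1
          have h1 := (tr_mp (Γ := Γ) ρ (em Γ i y))
          rw [← hP] at h1
          have h2 := integral_map (μ := P) h1.measurable.aemeasurable
            (f := fun ω => Yi a E0 F i lam b z ω) (by
              rw [h1.map_eq]
              exact (bY i).1.aestronglyMeasurable)
          rw [h1.map_eq] at h2
          exact h2.symm
        rw [← integral_tsum_of_summable_integral_norm (fun y => (hms y).int P)]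
        · rw [tsum_congr hyy, tsum_mul_right, (qq_hasSum (R.ne i)).tsum_eq, one_mul]
        · have hn : ∀ y : Γ i, ∫ ω, ‖qq (u i) y * Yi a E0 F i lam b z (tr (em Γ i y) ω)‖ ∂P =
              qq (u i) y * ∫ ω, Yi a E0 F i lam b z ω ∂P := by
            intro y
            rw [← hyy]
            refine integral_congr_ae (Eventually.of_forall fun ω => ?_)
            exact Real.norm_of_nonneg (mul_nonneg (qq_nonneg _ _) (nY i _))
          simp only [hn]
          exact (qq_hasSum (R.ne i)).summable.mul_right _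
      have h3 := hVe i
      have h4 : e i - sq' (u i) * ∑ j ∈ Finset.univ.erase i, ((ww E0 F i j : ℝ) : ℂ) * e j =
          (e i - sq' (u i) * ∫ ω, Vi a E0 F i lam b z ω ∂P) +
          sq' (u i) * (∫ ω, Vi a E0 F i lam b z ω ∂P -
            ∑ j ∈ Finset.univ.erase i, ((ww E0 F i j : ℝ) : ℂ) * e j) := by ring
      rw [h4]
      refine (norm_add_le _ _).trans ?_
      rw [norm_mul]
      have h5 := sq_le (R.ne i)
      have h6 : ‖sq' (u i)‖ * ‖∫ ω, Vi a E0 F i lam b z ω ∂P -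
            ∑ j ∈ Finset.univ.erase i, ((ww E0 F i j : ℝ) : ℂ) * e j‖ ≤ 1 * (ε / cW) := by
        gcongr
      linarith
    have hec := hInv e _ hee
    intro i
    have h1 := hVe i
    have h2 : ‖∑ j ∈ Finset.univ.erase i, ((ww E0 F i j : ℝ) : ℂ) * e j‖ ≤
        Ci * (ε / cW + B) := by
      refine (norm_sum_le _ _).trans ?_
      calc ∑ j ∈ Finset.univ.erase i, ‖((ww E0 F i j : ℝ) : ℂ) * e j‖ ≤
            ∑ j ∈ Finset.univ.erase i, ww E0 F i j * (Ci * (ε / cW + B)) := by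
            refine Finset.sum_le_sum fun j _ => ?_
            rw [norm_mul, Complex.norm_real, Real.norm_of_nonneg (ww_nonneg R i j)]
            exact mul_le_mul_of_nonneg_left (hec j) (ww_nonneg R i j)
        _ = _ := by rw [← Finset.sum_mul, ww_sum R, one_mul]
    have h3 := norm_le_norm_add_norm_sub' (∫ ω, Vi a E0 F i lam b z ω ∂P)
      (∑ j ∈ Finset.univ.erase i, ((ww E0 F i j : ℝ) : ℂ) * e j)
    have hB0 : 0 ≤ B := le_trans (integral_nonneg fun ω => nY i ω) (hB i)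
    calc ‖∫ ω, Vi a E0 F i lam b z ω ∂P‖ ≤ Ci * (ε / cW + B) + ε / cW := by linarith
      _ ≤ (Ci + 1) * (ε / cW + B) := by nlinarith

end mom

end Pool.Agent.Helper32.FG
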