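import Pool.Agent.Helper32.FG.Mn

/-! Non-degenerate weights: strict contraction and linear stability. -/

set_option autoImplicit false
set_option linter.unusedSectionVars false
set_option linter.unusedSimpArgs false
set_option linter.deprecated false
set_option linter.unusedVariables false

open scoped BigOperators InnerProductSpace Topology ENNReal
open Filter MeasureTheory ProbabilityTheory
open Monoid (CoprodI)
open Monoid.CoprodI (of Word of_injective)

namespace Pool.Agent.Helper32.FG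

open Pool.Agent.TH369.MU (SpM ep zk)
open Pool.Agent.Y662.TR (LL dv lmk lmk_apply ll_inner ll_ext ll_summable ll_sum add_coord
  sub_coord smul_coord)

section vec

variable {V : Type}

/-- a concentrated vector -/
theorem kq_one {u : LL V} (hu : u ≠ 0) (h : 1 ≤ kq u) : ∃ y0, ∀ y, y ≠ y0 → u y = 0 := by
  have h1 := qq_hasSum hu
  have h2 := (qq2_summable hu).hasSum
  have h3 := h1.sub h2
  have h4 : ∀ y, 0 ≤ qq u y - qq u y ^ 2 := fun y => sub_nonneg.2 (qq_sq hu y)
  have h5 : (1 : ℝ) - ∑' y, qq u y ^ 2 = 0 := by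
    have h6 := kq_le hu
    have h7 : kq u = ∑' y, qq u y ^ 2 := rfl
    linarith
  rw [h5] at h3
  have h8 := (hasSum_zero_iff_of_nonneg h4).1 h3
  have h9 : ∀ y, qq u y = 0 ∨ qq u y = 1 := by
    intro y
    have := congrFun h8 y
    simp only [Pi.zero_apply] at this
    have h10 : qq u y * (1 - qq u y) = 0 := by linarith
    rcases mul_eq_zero.1 h10 with h | h
    · exact Or.inl h
    · right
      linarith
  obtain ⟨y0, hy0⟩ : ∃ y0, qq u y0 = 1 := by
    by_contra hcon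
    push Not at hcon
    have h10 : ∀ y, qq u y = 0 := fun y => (h9 y).resolve_right (hcon y)
    have h11 : HasSum (qq u) 0 := by
      have : qq u = fun _ => 0 := funext h10
      rw [this]
      exact hasSum_zero
    exact one_ne_zero (h1.unique h11)
  refine ⟨y0, fun y hy => ?_⟩
  have h10 : qq u y = 0 := by
    rcases h9 y with h | h
    · exact h
    · exfalso
      classical
      have h11 := h1.summable.sum_le_tsum {y, y0} (fun i _ => qq_nonneg u i)
      rw [Finset.sum_pair hy, h, hy0, h1.tsum_eq] at h11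
      norm_num at h11
  unfold qq at h10
  rcases div_eq_zero_iff.1 h10 with h | h
  · simpa using h
  · exact absurd h (pow_ne_zero 2 (norm_ne_zero_iff.2 hu))

/-- vectors with parallel components -/
theorem sq_one {u : LL V} (hu : u ≠ 0) (h : 1 ≤ ‖sq' u‖) :
    ∃ c0 : ℂ, c0 ^ 2 = sq' u ∧ c0 ≠ 0 ∧ ∃ r : V → ℝ, ∀ y, u y = c0 * r y := by
  obtain ⟨c0, hc0⟩ := IsAlgClosed.exists_pow_nat_eq (sq' u) (n := 2) (by norm_num)
  have hn : ‖sq' u‖ = 1 := le_antisymm (sq_le hu) h
  have hc0' : c0 ≠ 0 := by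
    rintro rfl
    rw [← hc0] at hn
    norm_num at hn
  refine ⟨c0, hc0, hc0', ?_⟩
  obtain ⟨τ, hτ⟩ : ∃ τ, τ = (starRingEnd ℂ) (sq' u) := ⟨_, rfl⟩
  have hτ1 : τ * sq' u = 1 := by
    rw [hτ, mul_comm, ← sq_conj, hn]
    norm_num
  have hτn : ‖τ‖ = 1 := by
    rw [hτ, Complex.norm_conj, hn]
  have hz : HasSum (zz u) (sq' u) := (zz_summable hu).of_norm.hasSum
  have h1 := (hz.mul_left τ)
  rw [hτ1] at h1
  have h2 := Complex.hasSum_re h1
  have h3 := (qq_hasSum hu).sub h2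
  simp only [Complex.one_re, sub_self] at h3
  have h4 : ∀ y, (τ * zz u y).re ≤ qq u y := by
    intro y
    refine (Complex.re_le_norm _).trans (le_of_eq ?_)
    rw [norm_mul, hτn, one_mul, zz_norm]
  have h5 := (hasSum_zero_iff_of_nonneg fun y => sub_nonneg.2 (h4 y)).1 h3
  have h6 : ∀ y, (τ * zz u y).re = qq u y := by
    intro y
    have := congrFun h5 y
    simp only [Pi.zero_apply] at this
    linarith
  have h7 : ∀ y, τ * zz u y = ((qq u y : ℝ) : ℂ) := by
    intro y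
    have e1 : ‖τ * zz u y‖ = (τ * zz u y).re := by
      rw [h6, norm_mul, hτn, one_mul, zz_norm]
    have e2 := Complex.sq_norm_sub_sq_re (τ * zz u y)
    rw [e1, sub_self] at e2
    have e3 : (τ * zz u y).im = 0 := by
      have : (τ * zz u y).im ^ 2 = 0 := e2.symm
      simpa using this
    apply Complex.ext
    · rw [h6, Complex.ofReal_re]
    · rw [e3, Complex.ofReal_im]
  have h8 : ∀ y, ∃ r : ℝ, u y = c0 * r := by
    intro y
    have e1 := h7 y
    unfold zz qq at e1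
    have e2 : ((‖u‖ : ℝ) : ℂ) ≠ 0 := by
      exact_mod_cast norm_ne_zero_iff.2 hu
    have e3 : τ * u y ^ 2 = ((‖u y‖ ^ 2 : ℝ) : ℂ) := by
      push_cast at e1 ⊢
      field_simp at e1
      exact e1
    have e4 : (u y / c0) ^ 2 = ((‖u y‖ : ℝ) : ℂ) ^ 2 := by
      rw [div_pow, hc0]
      have e5 : sq' u ≠ 0 := by
        intro h0
        rw [h0, mul_zero] at hτ1
        exact zero_ne_one hτ1
      rw [div_eq_iff e5]
      push_cast at e3
      rw [← e3]
      linear_combination (-(u y ^ 2)) * hτ1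
    rcases sq_eq_sq_iff_eq_or_eq_neg.1 e4 with h | h
    · exact ⟨‖u y‖, by rw [← h]; field_simp⟩
    · refine ⟨-‖u y‖, ?_⟩
      push_cast
      rw [← h]
      field_simp
  choose r hr using h8
  exact ⟨r, hr⟩

end vec

section grp

variable {Γ' : Type} [Group Γ']

/-- the weights are not degenerate -/
def Nondeg (a : Γ' →₀ ℝ) : Prop :=
  ¬ ∃ μ : ℝ, ∀ y : Γ', y ≠ 1 → ∑ s ∈ a.support, a s * a (y * s) = μ * a y

/-- solutions with parallel components -/
theorem real_dir {a : Γ' →₀ ℝ} (h1 : a 1 = 0) {W : ℂ} (hW : 0 < W.im) {u : LL Γ'}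
    (hu : ∀ y, Dp a u y - W * u y = Ag a y) (h0 : a ≠ 0) {c : ℂ} (hc : c ≠ 0) {r : Γ' → ℝ}
    (hr : ∀ y, u y = c * r y) : (∃ ρ : ℝ, ∀ y, a y = ρ * r y) ∧ (c⁻¹).im ≠ 0 ∧ ¬ Nondeg a := by
  classical
  obtain ⟨κ, hκ⟩ : ∃ κ, κ = c⁻¹ := ⟨_, rfl⟩
  have hr1 : r 1 = 0 := by
    have e1 := hu 1
    rw [Dp_one, Ag_apply, h1, hr 1] at e1
    have e2 : W * (c * (r 1 : ℂ)) = 0 := by
      rw [Complex.ofReal_zero] at e1
      linear_combination -e1
    have hW0 : W ≠ 0 := by
      rintro rfl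
      simp at hW
    rcases mul_eq_zero.1 e2 with h | h
    · exact absurd h hW0
    · rcases mul_eq_zero.1 h with h | h
      · exact absurd h hc
      · exact_mod_cast h
  -- the equation for r
  have e1 : ∀ y, y ≠ 1 → ((∑ s ∈ a.support, a s * r (y * s) : ℝ) : ℂ) - W * r y = κ * a y := by
    intro y hy
    have e2 := hu y
    rw [Dp_apply _ _ hy, Ag_apply, hr y] at e2
    have e3 : ∀ s, Pj {1}ᶜ u (y * s) = c * ((r (y * s) : ℝ) : ℂ) := by
      intro s
      rw [Pj_apply]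
      by_cases hs : y * s = 1
      · rw [if_neg (by simp [hs]), hs, hr1]
        simp
      · rw [if_pos (by simpa using hs), hr]
    simp only [e3] at e2
    have e4 : ∑ s ∈ a.support, ((a s : ℝ) : ℂ) * (c * ((r (y * s) : ℝ) : ℂ)) =
        c * ((∑ s ∈ a.support, a s * r (y * s) : ℝ) : ℂ) := by
      push_cast
      rw [Finset.mul_sum]
      exact Finset.sum_congr rfl fun s _ => by ring
    rw [e4] at e2
    rw [hκ, ← e2]
    field_simp
  have him : ∀ y, -(W.im * r y) = κ.im * a y := by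
    intro y
    by_cases hy : y = 1
    · rw [hy, hr1, h1]
      ring
    · have e2 := congrArg Complex.im (e1 y hy)
      rw [Complex.sub_im, Complex.ofReal_im, Complex.im_mul_ofReal, Complex.im_mul_ofReal,
        zero_sub] at e2
      exact e2
  have hre : ∀ y, y ≠ 1 → ∑ s ∈ a.support, a s * r (y * s) - W.re * r y = κ.re * a y := by
    intro y hy
    have e2 := congrArg Complex.re (e1 y hy)
    rw [Complex.sub_re, Complex.ofReal_re, Complex.re_mul_ofReal, Complex.re_mul_ofReal] at e2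
    exact e2
  have hκi : κ.im ≠ 0 := by
    intro h
    apply h0
    have e2 : ∀ y, r y = 0 := by
      intro y
      have e3 := him y
      rw [h, zero_mul, neg_eq_zero] at e3
      exact (mul_eq_zero.1 e3).resolve_left hW.ne'
    ext y
    rw [Finsupp.coe_zero, Pi.zero_apply]
    by_cases hy : y = 1
    · rw [hy, h1]
    · have e4 := e1 y hy
      simp only [e2, mul_zero, Finset.sum_const_zero, Complex.ofReal_zero, sub_zero] at e4
      have e5 : κ ≠ 0 := by
        rw [hκ]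
        exact inv_ne_zero hc
      have e6 := (mul_eq_zero.1 e4.symm).resolve_left e5
      exact_mod_cast e6
  refine ⟨⟨-(W.im / κ.im), fun y => ?_⟩, by rw [← hκ]; exact hκi, ?_⟩
  · have e2 := him y
    field_simp
    linarith
  · intro hN
    apply hN
    have har : ∀ y, a y = -(W.im / κ.im) * r y := by
      intro y
      have e2 := him y
      field_simp
      linarith
    refine ⟨W.re - κ.re * (W.im / κ.im), fun y hy => ?_⟩
    have e2 := hre y hy
    have e3 : ∑ s ∈ a.support, a s * a (y * s) =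
        -(W.im / κ.im) * ∑ s ∈ a.support, a s * r (y * s) := by
      rw [Finset.mul_sum]
      refine Finset.sum_congr rfl fun s _ => ?_
      rw [har (y * s)]
      ring
    have e4 : ∑ s ∈ a.support, a s * r (y * s) = κ.re * a y + W.re * r y := by linarith
    rw [e3, e4]
    linear_combination (-(W.re)) * har y

/-- solutions with parallel components, in detail -/
theorem real_dir2 {a : Γ' →₀ ℝ} (h1 : a 1 = 0) {W : ℂ} (hW : 0 < W.im) {u : LL Γ'}
    (hu : ∀ y, Dp a u y - W * u y = Ag a y) (h0 : a ≠ 0) {c : ℂ} (hc : c ≠ 0) {r : Γ' → ℝ}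
    (hr : ∀ y, u y = c * r y) : ∃ μ t : ℝ, (∀ y : Γ', y ≠ 1 →
      ∑ s ∈ a.support, a s * a (y * s) = μ * a y) ∧ t ≠ 0 ∧ c⁻¹ = t * (μ - W) ∧
      ⟪Ag a, u⟫_ℂ * (μ - W) = ((‖Ag a‖ ^ 2 : ℝ) : ℂ) := by
  obtain ⟨⟨ρ, hρ⟩, hκ, hN⟩ := real_dir h1 hW hu h0 hc hr
  unfold Nondeg at hN
  push Not at hN
  obtain ⟨μ, hμ⟩ := hN
  obtain ⟨y0, hy0⟩ : ∃ y, a y ≠ 0 := by
    by_contra hcon
    push Not at hcon
    exact h0 (Finsupp.ext hcon)
  have hρ0 : ρ ≠ 0 := by
    rintro rfl
    rw [hρ, zero_mul] at hy0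
    exact hy0 rfl
  have hy1 : y0 ≠ 1 := by
    rintro rfl
    exact hy0 h1
  have hr2 : ∀ y, r y = ρ⁻¹ * a y := by
    intro y
    rw [hρ y]
    field_simp
  have hμW : (μ : ℂ) - W ≠ 0 := by
    intro h
    have := congrArg Complex.im h
    rw [Complex.sub_im, Complex.ofReal_im, Complex.zero_im] at this
    linarith
  have hua : ∀ y, u y * (μ - W) = a y := by
    have e1 : ∀ y, y ≠ 1 → u y * (μ - W) = a y := by
      intro y hy
      have e2 := hu y
      rw [Dp_apply _ _ hy, Ag_apply] at e2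
      have e3 : ∀ s, Pj {1}ᶜ u (y * s) = c * (((ρ⁻¹ * a (y * s) : ℝ)) : ℂ) := by
        intro s
        classical
        rw [Pj_apply]
        by_cases hs : y * s = 1
        · rw [if_neg (by simp [hs]), hs, h1]
          simp
        · rw [if_pos (by simpa using hs), hr, hr2]
      simp only [e3] at e2
      have e4 : ∑ s ∈ a.support, ((a s : ℝ) : ℂ) * (c * ((ρ⁻¹ * a (y * s) : ℝ) : ℂ)) =
          c * ((ρ⁻¹ : ℝ) : ℂ) * ((∑ s ∈ a.support, a s * a (y * s) : ℝ) : ℂ) := by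
        push_cast
        rw [Finset.mul_sum]
        exact Finset.sum_congr rfl fun s _ => by ring
      rw [e4, hμ y hy, hr y, hr2 y] at e2
      rw [hr y, hr2 y]
      push_cast at e2 ⊢
      linear_combination e2
    intro y
    by_cases hy : y = 1
    · rw [hy, h1, hr 1, hr2 1, h1]
      simp
    · exact e1 y hy
  refine ⟨μ, ρ⁻¹, hμ, inv_ne_zero hρ0, ?_, ?_⟩
  · have e1 := hua y0
    rw [hr y0, hr2 y0] at e1
    have e2 : ((a y0 : ℝ) : ℂ) ≠ 0 := by exact_mod_cast hy0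
    have e3 : ((ρ : ℝ) : ℂ) ≠ 0 := by exact_mod_cast hρ0
    push_cast at e1 ⊢
    have e4 : c * (ρ : ℂ)⁻¹ * ((μ : ℂ) - W) = 1 := by
      have e5 : (c * (ρ : ℂ)⁻¹ * ((μ : ℂ) - W) - 1) * (a y0 : ℂ) = 0 := by
        linear_combination e1
      have := (mul_eq_zero.1 e5).resolve_right e2
      exact sub_eq_zero.1 this
    rw [inv_eq_iff_eq_inv, eq_comm, inv_eq_iff_eq_inv, eq_comm]
    rw [inv_eq_iff_eq_inv]
    have e6 : (ρ : ℂ)⁻¹ * ((μ : ℂ) - W) ≠ 0 := by
      intro h
      rw [mul_assoc, h, mul_zero] at e4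
      exact zero_ne_one e4
    field_simp at e4 ⊢
    linear_combination e4
  · have e1 : u = ((μ : ℂ) - W)⁻¹ • Ag a := by
      apply ll_ext
      intro y
      rw [smul_coord, Ag_apply, ← hua y]
      field_simp
    rw [e1, inner_smul_right, inner_self_eq_norm_sq_to_K]
    push_cast
    field_simp
    rfl

end grp

section main

variable {ι : Type} [Fintype ι] [DecidableEq ι] {Γ : ι → Type} [∀ i, Group (Γ i)]
  [∀ i, Countable (Γ i)]

variable {a : ∀ i, Γ i →₀ ℝ} {E0 : ℝ} {F : ι → ℂ} {u : ∀ i, LL (Γ i)}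

/-- the exceptional energy -/
def Exc (a : ∀ i, Γ i →₀ ℝ) (E : ℝ) : Prop :=
  Fintype.card ι = 2 ∧ ∀ i, ∀ y : Γ i, y ≠ 1 →
    ∑ s ∈ (a i).support, a i s * a i (y * s) = E * a i y

theorem kq_lt (R : Rf a E0 F u) {i : ι} (h : 2 ≤ (a i).support.card) : kq (u i) < 1 := by
  classical
  by_contra hcon
  push Not at hcon
  obtain ⟨y0, hy0⟩ := kq_one (R.ne i) hcon
  have hc : u i y0 ≠ 0 := by
    intro h0
    apply R.ne i
    apply ll_ext
    intro y
    by_cases hy : y = y0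
    · rw [hy, h0]
      rfl
    · rw [hy0 y hy]
      rfl
  obtain ⟨⟨ρ, hρ⟩, -, -⟩ := real_dir (R.h1 i) (R.Wpos i) (R.eq i) (R.h0 i) hc
    (r := fun y => if y = y0 then 1 else 0) (by
      intro y
      by_cases hy : y = y0
      · simp [hy]
      · simp [hy, hy0 y hy])
  have h2 : (a i).support ⊆ {y0} := by
    intro y hy
    rw [Finset.mem_singleton]
    by_contra hne
    rw [Finsupp.mem_support_iff, hρ y, if_neg hne, mul_zero] at hy
    exact hy rfl
  have h3 := Finset.card_le_card h2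
  rw [Finset.card_singleton] at h3
  omega

theorem sq_lt (R : Rf a E0 F u) {i : ι} (h : Nondeg (a i)) : ‖sq' (u i)‖ < 1 := by
  by_contra hcon
  push Not at hcon
  obtain ⟨c0, -, hc0, r, hr⟩ := sq_one (R.ne i) hcon
  exact (real_dir (R.h1 i) (R.Wpos i) (R.eq i) (R.h0 i) hc0 hr).2.2 h

theorem sq_ne_one (R : Rf a E0 F u) (i : ι) : sq' (u i) ≠ 1 := by
  intro h
  obtain ⟨c0, hc, hc0, r, hr⟩ := sq_one (R.ne i) (by rw [h]; simp)
  have h1 := (real_dir (R.h1 i) (R.Wpos i) (R.eq i) (R.h0 i) hc0 hr).2.1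
  rw [h] at hc
  have h3 : (c0 - 1) * (c0 + 1) = 0 := by linear_combination hc
  rcases mul_eq_zero.1 h3 with h2 | h2
  · rw [sub_eq_zero.1 h2] at h1
    simp at h1
  · rw [eq_neg_of_add_eq_zero_left h2] at h1
    norm_num at h1

/-- strict convexity -/
theorem str_conv {J : Finset ι} (w : ι → ℝ) (e : ι → ℂ) {M : ℝ} (hM : 0 ≤ M)
    (hw : ∀ j ∈ J, 0 < w j) (h1 : ∑ j ∈ J, w j = 1) (he : ∀ j ∈ J, ‖e j‖ ≤ M)
    (hS : M ≤ ‖∑ j ∈ J, ((w j : ℝ) : ℂ) * e j‖) :
    ∀ j ∈ J, e j = ∑ j ∈ J, ((w j : ℝ) : ℂ) * e j := by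
  obtain ⟨S, hSd⟩ : ∃ S, S = ∑ j ∈ J, ((w j : ℝ) : ℂ) * e j := ⟨_, rfl⟩
  rw [← hSd] at hS ⊢
  have hSle : ‖S‖ ≤ M := by
    rw [hSd]
    refine (norm_sum_le _ _).trans ?_
    calc ∑ j ∈ J, ‖((w j : ℝ) : ℂ) * e j‖ ≤ ∑ j ∈ J, w j * M := by
          refine Finset.sum_le_sum fun j hj => ?_
          rw [norm_mul, Complex.norm_real, Real.norm_of_nonneg (hw j hj).le]
          exact mul_le_mul_of_nonneg_left (he j hj) (hw j hj).le
      _ = M := by rw [← Finset.sum_mul, h1, one_mul]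
  have hSM : ‖S‖ = M := le_antisymm hSle hS
  have h2 : ∀ j ∈ J, 0 ≤ w j * (M ^ 2 - ((starRingEnd ℂ) S * e j).re) := by
    intro j hj
    refine mul_nonneg (hw j hj).le ?_
    have e1 := Complex.re_le_norm ((starRingEnd ℂ) S * e j)
    rw [norm_mul, Complex.norm_conj, hSM] at e1
    have e2 := mul_le_mul_of_nonneg_left (he j hj) hM
    nlinarith
  have h3 : ∑ j ∈ J, w j * (M ^ 2 - ((starRingEnd ℂ) S * e j).re) = 0 := by
    have e1 : ∑ j ∈ J, w j * ((starRingEnd ℂ) S * e j).re = M ^ 2 := by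
      have e2 : ((starRingEnd ℂ) S * S).re = M ^ 2 := by
        rw [mul_comm, ← sq_conj, Complex.ofReal_re, hSM]
      rw [← e2]
      conv_rhs => rw [hSd, Finset.mul_sum, Complex.re_sum]
      refine Finset.sum_congr rfl fun j _ => ?_
      rw [← hSd]
      have e3 : (starRingEnd ℂ) S * (((w j : ℝ) : ℂ) * e j) =
          ((w j : ℝ) : ℂ) * ((starRingEnd ℂ) S * e j) := by ring
      rw [e3, Complex.re_ofReal_mul]
    simp only [mul_sub, Finset.sum_sub_distrib]
    rw [e1, ← Finset.sum_mul, h1]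
    ring
  intro j hj
  have h4 := (Finset.sum_eq_zero_iff_of_nonneg h2).1 h3 j hj
  have h5 : ((starRingEnd ℂ) S * e j).re = M ^ 2 := by
    have := (mul_eq_zero.1 h4).resolve_left (hw j hj).ne'
    linarith
  have h6 : ‖e j - S‖ ^ 2 ≤ 0 := by
    have e1 : ‖e j - S‖ ^ 2 = ‖e j‖ ^ 2 - 2 * ((starRingEnd ℂ) S * e j).re + ‖S‖ ^ 2 := by
      rw [Complex.sq_norm, Complex.sq_norm, Complex.sq_norm, Complex.normSq_apply,
        Complex.normSq_apply, Complex.normSq_apply]
      simp only [Complex.sub_re, Complex.sub_im, Complex.mul_re, Complex.conj_re,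
        Complex.conj_im]
      ring
    rw [e1, h5, hSM]
    have := he j hj
    have := norm_nonneg (e j)
    nlinarith
  have h7 : ‖e j - S‖ = 0 := by
    have := sq_nonneg ‖e j - S‖
    have : ‖e j - S‖ ^ 2 = 0 := le_antisymm h6 this
    simpa using this
  exact sub_eq_zero.1 (norm_eq_zero.1 h7)

theorem ww_pos (R : Rf a E0 F u) (i j : ι) : 0 < ww E0 F i j := div_pos (R.Fpos j) (R.Wpos i)

/-- two factors -/
theorem two_exc (R : Rf a E0 F u) {k l : ι} (hkl : k ≠ l) (hu : ∀ i, i = k ∨ i = l)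
    (h : sq' (u k) * sq' (u l) = 1) : Exc a E0 := by
  have hn : ∀ i, ‖sq' (u i)‖ ≤ 1 := fun i => sq_le (R.ne i)
  have hprod : ‖sq' (u k)‖ * ‖sq' (u l)‖ = 1 := by
    rw [← norm_mul, h, norm_one]
  have hk : 1 ≤ ‖sq' (u k)‖ := by
    have e1 := hn k
    have e2 := hn l
    have e3 := norm_nonneg (sq' (u k))
    nlinarith
  have hl : 1 ≤ ‖sq' (u l)‖ := by
    have e1 := hn k
    have e2 := hn l
    have e3 := norm_nonneg (sq' (u l))
    nlinarith
  obtain ⟨ck, hck, hck0, rk, hrk⟩ := sq_one (R.ne k) hk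
  obtain ⟨cl, hcl, hcl0, rl, hrl⟩ := sq_one (R.ne l) hl
  obtain ⟨μk, tk, hμk, htk, hk1, hk2⟩ :=
    real_dir2 (R.h1 k) (R.Wpos k) (R.eq k) (R.h0 k) hck0 hrk
  obtain ⟨μl, tl, hμl, htl, hl1, hl2⟩ :=
    real_dir2 (R.h1 l) (R.Wpos l) (R.eq l) (R.h0 l) hcl0 hrl
  rw [R.Feq] at hk2 hl2
  have hWk : W0 E0 F k = E0 + F l := by
    unfold W0
    have : (Finset.univ.erase k : Finset ι) = {l} := by
      ext i
      rw [Finset.mem_erase, Finset.mem_singleton]
      constructor
      · rintro ⟨h1, -⟩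
        exact (hu i).resolve_left h1
      · rintro rfl
        exact ⟨hkl.symm, Finset.mem_univ _⟩
    rw [this, Finset.sum_singleton]
  have hWl : W0 E0 F l = E0 + F k := by
    unfold W0
    have : (Finset.univ.erase l : Finset ι) = {k} := by
      ext i
      rw [Finset.mem_erase, Finset.mem_singleton]
      constructor
      · rintro ⟨h1, -⟩
        exact (hu i).resolve_right h1
      · rintro rfl
        exact ⟨hkl, Finset.mem_univ _⟩
    rw [this, Finset.sum_singleton]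
  have hcc : (ck * cl) ^ 2 = 1 := by
    rw [mul_pow, hck, hcl, h]
  obtain ⟨q, hq⟩ : ∃ q : ℝ, (μk - W0 E0 F k) * (μl - W0 E0 F l) = (q : ℂ) := by
    have e1 : (tk * tl : ℂ) * ((μk - W0 E0 F k) * (μl - W0 E0 F l)) = (ck * cl)⁻¹ := by
      rw [mul_inv, hk1, hl1]
      ring
    have htk' : (tk : ℂ) ≠ 0 := by exact_mod_cast htk
    have htl' : (tl : ℂ) ≠ 0 := by exact_mod_cast htl
    have htt : (tk : ℂ) * tl ≠ 0 := mul_ne_zero htk' htl'
    have h2 : (ck * cl - 1) * (ck * cl + 1) = 0 := by linear_combination hcc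
    rcases mul_eq_zero.1 h2 with h1 | h1
    · refine ⟨(tk * tl)⁻¹, ?_⟩
      rw [sub_eq_zero.1 h1, inv_one] at e1
      push_cast
      exact eq_inv_of_mul_eq_one_right e1
    · refine ⟨-(tk * tl)⁻¹, ?_⟩
      rw [eq_neg_of_add_eq_zero_left h1, inv_neg, inv_one] at e1
      push_cast
      rw [eq_neg_iff_add_eq_zero]
      field_simp
      linear_combination e1
  have hkey : ∀ (F1 : ℂ) (n μ : ℝ), 0 < F1.im → n ≠ 0 →
      F1 * q = n * (μ - (E0 + F1)) → μ = E0 := by
    intro F1 n μ hF hn0 he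
    have e1 := congrArg Complex.im he
    have e2 : F1.im * (q + n) = 0 := by
      rw [Complex.im_mul_ofReal, Complex.im_ofReal_mul] at e1
      simp only [Complex.sub_im, Complex.ofReal_im, Complex.add_im] at e1
      linarith
    have e3 := (mul_eq_zero.1 e2).resolve_left hF.ne'
    have e4 := congrArg Complex.re he
    rw [Complex.re_mul_ofReal, Complex.re_ofReal_mul] at e4
    simp only [Complex.sub_re, Complex.ofReal_re, Complex.add_re] at e4
    have e5 : n * (μ - E0) = 0 := by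
      linear_combination F1.re * e3 - e4
    have e6 := (mul_eq_zero.1 e5).resolve_left hn0
    linarith
  have hAg : ∀ i, ‖Ag (a i)‖ ^ 2 ≠ 0 := by
    intro i h0
    have h1 : Ag (a i) = 0 := by simpa using h0
    apply R.h0 i
    ext y
    have h2 := Ag_apply (a i) y
    rw [h1] at h2
    have h3 : ((a i y : ℝ) : ℂ) = 0 := h2.symm
    exact_mod_cast h3
  have hμl' : μl = E0 := by
    refine hkey (F k) (‖Ag (a k)‖ ^ 2) μl (R.Fpos k) (hAg k) ?_
    rw [← hq, ← hWl]
    push_cast at hk2 ⊢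
    linear_combination (μl - W0 E0 F l) * hk2
  have hμk' : μk = E0 := by
    refine hkey (F l) (‖Ag (a l)‖ ^ 2) μk (R.Fpos l) (hAg l) ?_
    rw [← hq, ← hWk]
    push_cast at hl2 ⊢
    linear_combination (μk - W0 E0 F k) * hl2
  refine ⟨?_, fun i => ?_⟩
  · rw [← Finset.card_univ]
    have : (Finset.univ : Finset ι) = {k, l} := by
      ext i
      rw [Finset.mem_insert, Finset.mem_singleton]
      exact ⟨fun _ => hu i, fun _ => Finset.mem_univ _⟩
    rw [this, Finset.card_pair hkl]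
  · rcases hu i with rfl | rfl
    · rw [← hμk']
      exact hμk
    · rw [← hμl']
      exact hμl

/-- injectivity -/
theorem inv_inj (R : Rf a E0 F u) (h : ¬ Exc a E0) (e : ι → ℂ)
    (he : ∀ i, e i = sq' (u i) * ∑ j ∈ Finset.univ.erase i, ((ww E0 F i j : ℝ) : ℂ) * e j) :
    e = 0 := by
  by_contra hne
  obtain ⟨i1, hi1⟩ := Function.ne_iff.1 hne
  haveI : Nonempty ι := ⟨i1⟩
  obtain ⟨k, hk⟩ := Finite.exists_max fun i => ‖e i‖
  obtain ⟨M, hM⟩ : ∃ M, M = ‖e k‖ := ⟨_, rfl⟩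
  have hk' : ∀ i, ‖e i‖ ≤ M := by
    intro i
    rw [hM]
    exact hk i
  have hM0 : 0 < M := (norm_pos_iff.2 hi1).trans_le (hk' i1)
  have hS : ∀ i, ‖∑ j ∈ Finset.univ.erase i, ((ww E0 F i j : ℝ) : ℂ) * e j‖ ≤ M := by
    intro i
    refine (norm_sum_le _ _).trans ?_
    calc ∑ j ∈ Finset.univ.erase i, ‖((ww E0 F i j : ℝ) : ℂ) * e j‖ ≤
          ∑ j ∈ Finset.univ.erase i, ww E0 F i j * M := by
          refine Finset.sum_le_sum fun j _ => ?_
          rw [norm_mul, Complex.norm_real, Real.norm_of_nonneg (ww_nonneg R i j)]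
          exact mul_le_mul_of_nonneg_left (hk' j) (ww_nonneg R i j)
      _ = M := by rw [← Finset.sum_mul, ww_sum R, one_mul]
  -- at a maximum
  have hmax : ∀ i, ‖e i‖ = M → ¬ ‖sq' (u i)‖ < 1 ∧ ∀ j, j ≠ i →
      e j = ∑ j ∈ Finset.univ.erase i, ((ww E0 F i j : ℝ) : ℂ) * e j := by
    intro i hi
    have h1 : M = ‖sq' (u i)‖ * ‖∑ j ∈ Finset.univ.erase i, ((ww E0 F i j : ℝ) : ℂ) * e j‖ := by
      rw [← norm_mul, ← he i, hi]
    have h2 := sq_le (R.ne i)
    have h3 := hS i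
    have h4 := norm_nonneg (sq' (u i))
    have h5 := norm_nonneg (∑ j ∈ Finset.univ.erase i, ((ww E0 F i j : ℝ) : ℂ) * e j)
    constructor
    · intro h6
      nlinarith
    · intro j hj
      refine str_conv (ww E0 F i) e hM0.le (fun j _ => ww_pos R i j) (ww_sum R i)
        (fun j _ => hk' j) ?_ j (Finset.mem_erase.2 ⟨hj, Finset.mem_univ _⟩)
      nlinarith
  have hall : ∀ j, ‖e j‖ = M := by
    intro j
    by_cases hj : j = k
    · rw [hj, hM]
    · have h1 := (hmax k hM.symm).2 j hj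
      have h2 : M ≤ ‖∑ j ∈ Finset.univ.erase k, ((ww E0 F k j : ℝ) : ℂ) * e j‖ := by
        have e1 : M = ‖sq' (u k)‖ *
            ‖∑ j ∈ Finset.univ.erase k, ((ww E0 F k j : ℝ) : ℂ) * e j‖ := by
          rw [← norm_mul, ← he k, hM]
        have e2 := sq_le (R.ne k)
        have e3 := norm_nonneg (∑ j ∈ Finset.univ.erase k, ((ww E0 F k j : ℝ) : ℂ) * e j)
        nlinarith
      rw [h1]
      exact le_antisymm (hS k) h2
  have he0 : ∀ i, e i ≠ 0 := by
    intro i h0
    have := hall i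
    rw [h0, norm_zero] at this
    exact hM0.ne this
  obtain ⟨l, hlk⟩ : ∃ l, l ≠ k := by
    by_contra hcon
    push Not at hcon
    have h1 := he k
    rw [Finset.sum_eq_zero, mul_zero] at h1
    · exact he0 k h1
    · intro j hj
      exact absurd (hcon j) (Finset.mem_erase.1 hj).1
  by_cases hthree : ∃ n, n ≠ k ∧ n ≠ l
  · obtain ⟨n, hnk, hnl⟩ := hthree
    have h1 := hmax k (hall k)
    have h2 := hmax l (hall l)
    have h3 : e l = e n := by rw [h1.2 l hlk, h1.2 n hnk]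
    have h4 : e k = e n := by rw [h2.2 k (Ne.symm hlk), h2.2 n hnl]
    have h5 := he k
    rw [← h1.2 l hlk, h3, ← h4] at h5
    have h7 : sq' (u k) = 1 := by
      have h8 : (sq' (u k) - 1) * e k = 0 := by linear_combination -h5
      exact sub_eq_zero.1 ((mul_eq_zero.1 h8).resolve_right (he0 k))
    exact sq_ne_one R k h7
  · push Not at hthree
    have hu : ∀ i, i = k ∨ i = l := by
      intro i
      by_cases hi : i = k
      · exact Or.inl hi
      · exact Or.inr (hthree i hi)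
    apply h
    refine two_exc R hlk.symm hu ?_
    have h1 := he k
    rw [← (hmax k (hall k)).2 l hlk] at h1
    have h2 := he l
    rw [← (hmax l (hall l)).2 k (Ne.symm hlk)] at h2
    have h3 : (sq' (u k) * sq' (u l) - 1) * e k = 0 := by
      linear_combination (-sq' (u k)) * h2 - h1
    exact sub_eq_zero.1 ((mul_eq_zero.1 h3).resolve_right (he0 k))

/-- the bound -/
theorem inv_bd (R : Rf a E0 F u) [Nonempty ι] (h : ¬ Exc a E0) :
    ∃ Ci, 0 ≤ Ci ∧ Inv E0 F u Ci := by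
  obtain ⟨T, hT⟩ : ∃ T : (ι → ℂ) →ₗ[ℂ] (ι → ℂ), ∀ e i, T e i = e i - sq' (u i) *
      ∑ j ∈ Finset.univ.erase i, ((ww E0 F i j : ℝ) : ℂ) * e j := by
    refine ⟨{ toFun := fun e i => e i - sq' (u i) *
                ∑ j ∈ Finset.univ.erase i, ((ww E0 F i j : ℝ) : ℂ) * e j
              map_add' := ?_
              map_smul' := ?_ }, fun e i => rfl⟩
    · intro e e'
      funext i
      simp only [Pi.add_apply, mul_add, Finset.sum_add_distrib]
      ring
    · intro c e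
      funext i
      simp only [Pi.smul_apply, smul_eq_mul, RingHom.id_apply]
      have : ∑ j ∈ Finset.univ.erase i, ((ww E0 F i j : ℝ) : ℂ) * (c * e j) =
          c * ∑ j ∈ Finset.univ.erase i, ((ww E0 F i j : ℝ) : ℂ) * e j := by
        rw [Finset.mul_sum]
        exact Finset.sum_congr rfl fun j _ => by ring
      rw [this]
      ring
  have hker : LinearMap.ker T = ⊥ := by
    rw [LinearMap.ker_eq_bot']
    intro e he
    refine inv_inj R h e fun i => ?_
    have h1 := congrFun he i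
    rw [hT] at h1
    exact sub_eq_zero.1 h1
  obtain ⟨K, hK, hanti⟩ := T.exists_antilipschitzWith hker
  refine ⟨K, K.2, fun e B hB i => ?_⟩
  have hB0 : 0 ≤ B := by
    obtain ⟨k⟩ := ‹Nonempty ι›
    exact (norm_nonneg _).trans (hB k)
  have h1 : ‖T e‖ ≤ B := by
    rw [pi_norm_le_iff_of_nonneg hB0]
    intro k
    rw [hT]
    exact hB k
  have h2 := hanti.le_mul_dist e 0
  rw [map_zero, dist_zero_right, dist_zero_right] at h2
  refine (norm_le_pi_norm e i).trans (h2.trans ?_)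
  have := K.2
  gcongr

/-- **the local theorem, for non-degenerate weights** -/
theorem loc_nd (R : Rf a E0 F u) (hN1 : ∃ i, 2 ≤ (a i).support.card) (hN2 : ¬ Exc a E0)
    (hst : ∀ η : ℝ, 0 < η → ∃ z : ℂ, 0 < z.im ∧ ‖z - E0‖ < η ∧ ∀ i, Xd (F0 a i z) (F i) < η) :
    ∃ δ > 0, ∃ lam1 > 0, ∀ lam b : ℝ, |lam * b| ≤ lam1 →
      ∀ (ρ : Measure ℝ) [IsProbabilityMeasure ρ], ∀ᵐ ω ∂(Pf (CoprodI Γ) ρ),
        (∀ (φ : LL (CoprodI Γ)) (m : Measure ℝ), SpM (Th (Lf a) Set.univ lam b ω) φ m →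
          ∀ A : Set ℝ, A ⊆ Set.Ioo (E0 - δ) (E0 + δ) → volume A = 0 → m A = 0) ∧
        (∀ (v : CoprodI Γ) (m : Measure ℝ), SpM (Th (Lf a) Set.univ lam b ω) (dv v) m →
          ∀ A : Set ℝ, A ⊆ Set.Ioo (E0 - δ) (E0 + δ) → MeasurableSet A → m A = 0 →
            volume A = 0) := by
  obtain ⟨i0, hi0⟩ := hN1
  haveI : Nonempty ι := ⟨i0⟩
  have hκ := kq_lt R hi0
  obtain ⟨δ, hδ⟩ : ∃ δ, δ = 1 - kq (u i0) := ⟨_, rfl⟩
  have hδ0 : 0 < δ := by linarith
  have hδ1 : δ ≤ 1 := by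
    have := kq_nonneg (u i0)
    linarith
  obtain ⟨k, hk⟩ := Finite.exists_min fun i => ww E0 F i i0
  obtain ⟨c, hc⟩ : ∃ c, c = min 1 (ww E0 F k i0) := ⟨_, rfl⟩
  have hc0 : 0 < c := by
    rw [hc]
    exact lt_min one_pos (ww_pos R k i0)
  have hc1 : c ≤ 1 := by
    rw [hc]
    exact min_le_left _ _
  obtain ⟨t, ht, ht1, ht2⟩ := exists_t (mul_pos hc0 hδ0) (by nlinarith)
  obtain ⟨l, hl⟩ := Finite.exists_min fun i => (W0 E0 F i).im
  obtain ⟨Ci, hCi, hInv⟩ := inv_bd R hN2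
  obtain ⟨C, hC, hAP⟩ := alg (ww E0 F) (fun i => kq (u i)) i0 (ww_nonneg R) (ww_sum R) hc0 hc1
    (fun i _ => by
      rw [hc]
      exact (min_le_right _ _).trans (hk i)) hδ0 hδ1 (fun i => kq_nonneg _)
    (fun i => kq_le (R.ne i)) (by rw [hδ]; linarith) ht ht2 hCi
  exact main_loc R ht ht1 (R.Wpos l) hl hCi hInv hC hAP hst

end main

end Pool.Agent.Helper32.FG
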