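import Pool.Agent.Helper32.FG.Op

/-! The equation on a single copy of a factor. -/

set_option autoImplicit false
set_option linter.unusedSectionVars false
set_option linter.unusedSimpArgs false
set_option linter.deprecated false

open scoped BigOperators InnerProductSpace Topology
open Filter MeasureTheory

namespace Pool.Agent.Helper32.FG

open Pool.Agent.TH369.AN (Rz rz_eq rz_uniq rz_norm)
open Pool.Agent.Y662.TR (LL lmk lmk_apply lmk_norm ll_inner ll_ext ll_summable ll_coord ll_sum dv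
  dv_apply dv_self dv_ne inner_dv norm_dv ev ev_apply add_coord sub_coord neg_coord smul_coord
  Cf Cf_apply Mw Mw_apply Mw_norm Mw_sa clp clp_abs clp_eq)

variable {V : Type}

/-- the complex conjugate -/
noncomputable def cj (u : LL V) : LL V := lmk (fun x => (starRingEnd ℂ) (u x)) (by
  simpa using ll_summable u)

theorem cj_apply (u : LL V) (x : V) : cj u x = (starRingEnd ℂ) (u x) := rfl

theorem cj_inner (u v : LL V) : HasSum (fun x => u x * v x) ⟪cj u, v⟫_ℂ := by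
  have h := ll_inner (cj u) v
  refine h.congr_fun ?_ |> fun h => h
  intro x
  rw [cj_apply, Complex.conj_conj]

theorem cj_comm (u v : LL V) : ⟪cj u, v⟫_ℂ = ⟪cj v, u⟫_ℂ := by
  refine (cj_inner u v).unique ?_
  simpa only [mul_comm] using cj_inner v u

theorem cj_cj (u : LL V) : cj (cj u) = u := by
  apply ll_ext
  intro x
  rw [cj_apply, cj_apply, Complex.conj_conj]

theorem inner_self_im (D : LL V →L[ℂ] LL V) (hD : IsSelfAdjoint D) (u : LL V) :
    (⟪u, D u⟫_ℂ).im = 0 := by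
  rw [ContinuousLinearMap.isSelfAdjoint_iff_isSymmetric] at hD
  exact hD.im_inner_self_apply u

/-- the inequality of Cauchy and Schwarz with a weight -/
theorem csw (p q : V → ℂ) (s : V → ℝ) (hs : ∀ x, 0 < s x) (hp : Summable fun x => s x * ‖p x‖ ^ 2)
    (hq : Summable fun x => ‖q x‖ ^ 2 / s x) (S : ℂ) (hS : HasSum (fun x => p x * q x) S) :
    ‖S‖ ^ 2 ≤ (∑' x, s x * ‖p x‖ ^ 2) * ∑' x, ‖q x‖ ^ 2 / s x := by
  have e1 : ∀ x, ‖((Real.sqrt (s x) : ℝ) : ℂ) * (starRingEnd ℂ) (p x)‖ ^ 2 = s x * ‖p x‖ ^ 2 := by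
    intro x
    rw [norm_mul, mul_pow, Complex.norm_real, Real.norm_eq_abs, sq_abs, Real.sq_sqrt (hs x).le,
      Complex.norm_conj]
  have e2 : ∀ x, ‖q x / ((Real.sqrt (s x) : ℝ) : ℂ)‖ ^ 2 = ‖q x‖ ^ 2 / s x := by
    intro x
    rw [norm_div, div_pow, Complex.norm_real, Real.norm_eq_abs, sq_abs, Real.sq_sqrt (hs x).le]
  have h1 : Summable fun x => ‖((Real.sqrt (s x) : ℝ) : ℂ) * (starRingEnd ℂ) (p x)‖ ^ 2 := by
    simpa only [e1] using hp
  have h2 : Summable fun x => ‖q x / ((Real.sqrt (s x) : ℝ) : ℂ)‖ ^ 2 := by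
    simpa only [e2] using hq
  have h3 := ll_inner (lmk _ h1) (lmk _ h2)
  have h4 : ∀ x, (starRingEnd ℂ) (lmk _ h1 x) * lmk _ h2 x = p x * q x := by
    intro x
    rw [lmk_apply, lmk_apply, map_mul, Complex.conj_conj, Complex.conj_ofReal]
    have h5 : ((Real.sqrt (s x) : ℝ) : ℂ) ≠ 0 := by
      have := Real.sqrt_pos.2 (hs x)
      exact_mod_cast this.ne'
    field_simp
  simp only [h4] at h3
  have h6 := norm_inner_le_norm (𝕜 := ℂ) (lmk _ h1) (lmk _ h2)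
  rw [← hS.unique h3] at h6
  have h7 : ‖S‖ ^ 2 ≤ (‖lmk _ h1‖ * ‖lmk _ h2‖) ^ 2 := by gcongr
  rw [mul_pow, lmk_norm, lmk_norm] at h7
  simpa only [e1, e2] using h7

/-- multiplication with a bounded function -/
theorem mul_summable {W : V → ℂ} {M : ℝ} (hW : ∀ x, ‖W x‖ ≤ M) (u : LL V) :
    Summable fun x => ‖W x * u x‖ ^ 2 := by
  refine Summable.of_nonneg_of_le (fun x => by positivity) (fun x => ?_)
    ((ll_summable u).mul_left (M ^ 2))
  rw [norm_mul, mul_pow]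
  have := hW x
  gcongr

variable {D : LL V →L[ℂ] LL V} {A : LL V}

/-- the imaginary part -/
theorem one_im (hD : IsSelfAdjoint D) {W : V → ℂ} {u f : LL V}
    (hu : ∀ x, D u x - W x * u x = f x) :
    HasSum (fun x => (W x).im * ‖u x‖ ^ 2) (-(⟪u, f⟫_ℂ).im) := by
  have h1 := ll_inner u (D u - f)
  have h2 : (fun x => (starRingEnd ℂ) (u x) * (D u - f : LL V) x) =
      fun x => W x * ((‖u x‖ ^ 2 : ℝ) : ℂ) := by
    funext x
    rw [sub_coord, ← hu x]
    have : ((‖u x‖ ^ 2 : ℝ) : ℂ) = (starRingEnd ℂ) (u x) * u x := by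
      rw [mul_comm, Complex.mul_conj, Complex.normSq_eq_norm_sq]
    rw [this]
    ring
  rw [h2] at h1
  have h3 := Complex.hasSum_im h1
  have h4 : (fun x => (W x * ((‖u x‖ ^ 2 : ℝ) : ℂ)).im) = fun x => (W x).im * ‖u x‖ ^ 2 := by
    funext x
    rw [Complex.im_mul_ofReal]
  rw [h4, inner_sub_right, Complex.sub_im, inner_self_im D hD, zero_sub] at h3
  exact h3

theorem one_im' (hD : IsSelfAdjoint D) {W : V → ℂ} {u : LL V}
    (hu : ∀ x, D u x - W x * u x = A x) :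
    HasSum (fun x => (W x).im * ‖u x‖ ^ 2) (⟪A, u⟫_ℂ).im := by
  have h := one_im hD hu
  rwa [← inner_conj_symm, Complex.conj_im, neg_neg] at h

/-- the difference of two solutions -/
theorem one_sub (hD : IsSelfAdjoint D) (hr : ∀ u, D (cj u) = cj (D u)) (hA : cj A = A)
    {W W' : V → ℂ} {u u' : LL V} (hu : ∀ x, D u x - W x * u x = A x)
    (hu' : ∀ x, D u' x - W' x * u' x = A x) :
    HasSum (fun x => u x * ((W x - W' x) * u' x)) (⟪A, u⟫_ℂ - ⟪A, u'⟫_ℂ) := by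
  have h1 := cj_inner u' (D u - A)
  have h2 := cj_inner u (D u' - A)
  have h3 := h1.sub h2
  have h4 : (fun x => u' x * (D u - A : LL V) x - u x * (D u' - A : LL V) x) =
      fun x => u x * ((W x - W' x) * u' x) := by
    funext x
    rw [sub_coord, sub_coord, ← hu x]
    have h5 : D u' x - (D u x - W x * u x) = W' x * u' x := by
      rw [hu x, ← hu' x]
      ring
    rw [h5]
    ring
  rw [h4] at h3
  have h6 : ⟪cj u', D u⟫_ℂ = ⟪cj u, D u'⟫_ℂ := by
    have h7 := hD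
    rw [ContinuousLinearMap.isSelfAdjoint_iff_isSymmetric] at h7
    have h8 : ⟪D (cj u'), u⟫_ℂ = ⟪cj u', D u⟫_ℂ := h7 (cj u') u
    rw [← h8, hr, cj_comm]
  have h9 : ∀ v : LL V, ⟪cj v, A⟫_ℂ = ⟪A, v⟫_ℂ := by
    intro v
    rw [cj_comm, hA]
  have h10 : ⟪cj u', D u - A⟫_ℂ - ⟪cj u, D u' - A⟫_ℂ = ⟪A, u⟫_ℂ - ⟪A, u'⟫_ℂ := by
    rw [inner_sub_right, inner_sub_right, h6, h9, h9]
    ring
  rw [h10] at h3
  exact h3

/-- the first inequality -/
theorem one_J1 (hD : IsSelfAdjoint D) (hr : ∀ u, D (cj u) = cj (D u)) (hA : cj A = A)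
    {W W' : V → ℂ} {u u' : LL V} (hu : ∀ x, D u x - W x * u x = A x)
    (hu' : ∀ x, D u' x - W' x * u' x = A x) (hW : ∀ x, 0 < (W x).im) {C : ℝ}
    (hC : ∀ x, ‖W x - W' x‖ ^ 2 / (W x).im ≤ C) :
    ‖⟪A, u⟫_ℂ - ⟪A, u'⟫_ℂ‖ ^ 2 ≤
      (⟪A, u⟫_ℂ).im * ∑' x, ‖u' x‖ ^ 2 * (‖W x - W' x‖ ^ 2 / (W x).im) := by
  have h1 := one_im' hD hu
  have h2 := one_sub hD hr hA hu hu'
  have e1 : ∀ x, ‖(W x - W' x) * u' x‖ ^ 2 / (W x).im =
      ‖u' x‖ ^ 2 * (‖W x - W' x‖ ^ 2 / (W x).im) := by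
    intro x
    rw [norm_mul, mul_pow]
    ring
  have h3 : Summable fun x => ‖(W x - W' x) * u' x‖ ^ 2 / (W x).im := by
    simp only [e1]
    refine Summable.of_nonneg_of_le (fun x => ?_) (fun x => ?_) ((ll_summable u').mul_right C)
    · have := hW x
      positivity
    · have := hC x
      gcongr
  have h4 := csw u (fun x => (W x - W' x) * u' x) (fun x => (W x).im) hW h1.summable h3 _ h2
  simp only [e1] at h4
  rwa [h1.tsum_eq] at h4

/-- the second inequality -/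
theorem one_J2 (hD : IsSelfAdjoint D) (hr : ∀ u, D (cj u) = cj (D u)) (hA : cj A = A)
    {W W' : V → ℂ} {u u' : LL V} (hu : ∀ x, D u x - W x * u x = A x)
    (hu' : ∀ x, D u' x - W' x * u' x = A x) (hW : ∀ x, 0 < (W x).im) {C M : ℝ}
    (hC : ∀ x, ‖W x - W' x‖ ^ 2 / (W x).im ≤ C) (hM : ∀ x, ‖W x‖ ≤ M) (hM' : ∀ x, ‖W' x‖ ≤ M) :
    ‖⟪A, u⟫_ℂ - ⟪A, u'⟫_ℂ - ∑' x, (W x - W' x) * u' x ^ 2‖ ≤
      ∑' x, ‖u' x‖ ^ 2 * (‖W x - W' x‖ ^ 2 / (W x).im) := by
  have hWW : ∀ x, ‖W x - W' x‖ ≤ M + M := fun x =>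
    (norm_sub_le _ _).trans (add_le_add (hM x) (hM' x))
  obtain ⟨f, hf⟩ : ∃ f, f = lmk (fun x => (W x - W' x) * u' x) (mul_summable hWW u') := ⟨_, rfl⟩
  obtain ⟨e, he⟩ : ∃ e, e = u - u' := ⟨_, rfl⟩
  have hfx : ∀ x, f x = (W x - W' x) * u' x := by
    intro x
    rw [hf]
    rfl
  have hex : ∀ x, e x = u x - u' x := by
    intro x
    rw [he]
    rfl
  have hev : ∀ x, D e x - W x * e x = f x := by
    intro x
    rw [hex, hfx, he, map_sub, sub_coord]
    linear_combination hu x - hu' x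
  have h1 := one_im hD hev
  have e1 : ∀ x, ‖f x‖ ^ 2 / (W x).im = ‖u' x‖ ^ 2 * (‖W x - W' x‖ ^ 2 / (W x).im) := by
    intro x
    rw [hfx, norm_mul, mul_pow]
    ring
  have h3 : Summable fun x => ‖f x‖ ^ 2 / (W x).im := by
    simp only [e1]
    refine Summable.of_nonneg_of_le (fun x => ?_) (fun x => ?_) ((ll_summable u').mul_right C)
    · have := hW x
      positivity
    · have := hC x
      gcongr
  obtain ⟨P, hP⟩ : ∃ P, P = -(⟪e, f⟫_ℂ).im := ⟨_, rfl⟩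
  obtain ⟨Q, hQ⟩ : ∃ Q, Q = ∑' x, ‖f x‖ ^ 2 / (W x).im := ⟨_, rfl⟩
  rw [← hP] at h1
  have hP0 : 0 ≤ P := by
    rw [← h1.tsum_eq]
    exact tsum_nonneg fun x => mul_nonneg (hW x).le (sq_nonneg _)
  have hQ0 : 0 ≤ Q := by
    rw [hQ]
    exact tsum_nonneg fun x => div_nonneg (sq_nonneg _) (hW x).le
  have h4 : ‖⟪e, f⟫_ℂ‖ ^ 2 ≤ P * Q := by
    have hs : Summable fun x => (W x).im * ‖(starRingEnd ℂ) (e x)‖ ^ 2 := by
      simpa only [Complex.norm_conj] using h1.summable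
    have := csw (fun x => (starRingEnd ℂ) (e x)) (fun x => f x) (fun x => (W x).im) hW hs h3 _
      (ll_inner e f)
    simp only [Complex.norm_conj] at this
    rwa [h1.tsum_eq, ← hQ] at this
  have h5 : P ≤ Q := by
    have h6 : P ≤ ‖⟪e, f⟫_ℂ‖ := by
      rw [hP]
      exact (neg_le_abs _).trans (Complex.abs_im_le_norm _)
    have h7 : P ^ 2 ≤ P * Q := (pow_le_pow_left₀ hP0 h6 2).trans h4
    rcases hP0.eq_or_lt with h8 | h8
    · rw [← h8]
      exact hQ0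
    · nlinarith
  have h8 : ‖⟪cj e, f⟫_ℂ‖ ^ 2 ≤ P * Q := by
    have := csw (fun x => e x) (fun x => f x) (fun x => (W x).im) hW h1.summable h3 _
      (cj_inner e f)
    rwa [h1.tsum_eq, ← hQ] at this
  have h9 : ‖⟪cj e, f⟫_ℂ‖ ≤ Q := by
    refine abs_le_of_sq_le_sq' ?_ hQ0 |>.2
    nlinarith
  have h10 : ⟪A, u⟫_ℂ - ⟪A, u'⟫_ℂ - ∑' x, (W x - W' x) * u' x ^ 2 = ⟪cj e, f⟫_ℂ := by
    have h11 := one_sub hD hr hA hu hu'
    have h12 := cj_inner u' f
    have h13 := h11.sub h12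
    have h14 := cj_inner e f
    have h15 : (fun x => u x * ((W x - W' x) * u' x) - u' x * f x) = fun x => e x * f x := by
      funext x
      rw [hfx, hex]
      ring
    rw [h15] at h13
    rw [h14.unique h13]
    congr 1
    rw [← h12.tsum_eq]
    refine tsum_congr fun x => ?_
    rw [hfx]
    ring
  rw [h10]
  refine h9.trans (le_of_eq ?_)
  rw [hQ]
  exact tsum_congr e1

end Pool.Agent.Helper32.FG
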