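import Pool.Agent.Helper32.FG.Br

/-! Sums of pairwise independent identically distributed variables. -/

set_option autoImplicit false
set_option linter.unusedSectionVars false
set_option linter.unusedSimpArgs false
set_option linter.deprecated false

open scoped BigOperators InnerProductSpace Topology
open Filter MeasureTheory ProbabilityTheory
open Monoid (CoprodI)
open Monoid.CoprodI (of Word of_injective)

namespace Pool.Agent.Helper32.FG

open Pool.Agent.Helper32.BS (pi_comp pi_mp pi_indep)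

section bm

variable {Ω E : Type} [MeasurableSpace Ω] [NormedAddCommGroup E] [MeasurableSpace E]

/-- bounded measurable functions -/
def BM (f : Ω → E) : Prop := Measurable f ∧ ∃ C, ∀ ω, ‖f ω‖ ≤ C

theorem BM.int {f : Ω → E} [BorelSpace E] [SecondCountableTopology E] (h : BM f)
    (P : Measure Ω) [IsFiniteMeasure P] : Integrable f P := by
  obtain ⟨C, hC⟩ := h.2
  exact Integrable.of_bound h.1.aestronglyMeasurable C (Eventually.of_forall hC)

theorem BM.const (c : E) : BM (fun _ : Ω => c) := ⟨measurable_const, ‖c‖, fun _ => le_rfl⟩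

theorem BM.comp {f : Ω → E} (h : BM f) {T : Ω → Ω} (hT : Measurable T) : BM fun ω => f (T ω) := by
  obtain ⟨C, hC⟩ := h.2
  exact ⟨h.1.comp hT, C, fun ω => hC _⟩

end bm

section bm2

variable {Ω : Type} [MeasurableSpace Ω]

theorem BM.mulR {f g : Ω → ℝ} (hf : BM f) (hg : BM g) : BM fun ω => f ω * g ω := by
  obtain ⟨C, hC⟩ := hf.2
  obtain ⟨D, hD⟩ := hg.2
  refine ⟨hf.1.mul hg.1, C * D, fun ω => ?_⟩
  rw [norm_mul]
  have := hC ω
  have := hD ω
  have := (norm_nonneg (f ω)).trans (hC ω)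
  gcongr

theorem BM.addR {f g : Ω → ℝ} (hf : BM f) (hg : BM g) : BM fun ω => f ω + g ω := by
  obtain ⟨C, hC⟩ := hf.2
  obtain ⟨D, hD⟩ := hg.2
  exact ⟨hf.1.add hg.1, C + D, fun ω => (norm_add_le _ _).trans (add_le_add (hC ω) (hD ω))⟩

theorem BM.sqR {f : Ω → ℝ} (hf : BM f) : BM fun ω => f ω ^ 2 := by
  simpa only [sq] using hf.mulR hf

theorem BM.smulR {f : Ω → ℝ} (c : ℝ) (hf : BM f) : BM fun ω => c * f ω := (BM.const c).mulR hf

theorem BM.sumR {κ : Type} (s : Finset κ) {f : κ → Ω → ℝ} (hf : ∀ i ∈ s, BM (f i)) :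
    BM fun ω => ∑ i ∈ s, f i ω := by
  classical
  induction s using Finset.induction_on with
  | empty => simpa using BM.const (0 : ℝ)
  | insert a s ha ih =>
    simp only [Finset.sum_insert ha]
    exact (hf a (Finset.mem_insert_self _ _)).addR (ih fun i hi => hf i (Finset.mem_insert_of_mem hi))

theorem BM.normC {f : Ω → ℂ} (hf : BM f) : BM fun ω => ‖f ω‖ := by
  obtain ⟨C, hC⟩ := hf.2
  exact ⟨hf.1.norm, C, fun ω => by rw [norm_norm]; exact hC ω⟩

theorem BM.ofR {f : Ω → ℝ} (hf : BM f) : BM fun ω => ((f ω : ℝ) : ℂ) := by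
  obtain ⟨C, hC⟩ := hf.2
  exact ⟨Complex.measurable_ofReal.comp hf.1, C, fun ω => by
    rw [Complex.norm_real]
    exact hC ω⟩

theorem BM.addC {f g : Ω → ℂ} (hf : BM f) (hg : BM g) : BM fun ω => f ω + g ω := by
  obtain ⟨C, hC⟩ := hf.2
  obtain ⟨D, hD⟩ := hg.2
  exact ⟨hf.1.add hg.1, C + D, fun ω => (norm_add_le _ _).trans (add_le_add (hC ω) (hD ω))⟩

theorem BM.subC {f g : Ω → ℂ} (hf : BM f) (hg : BM g) : BM fun ω => f ω - g ω := by
  obtain ⟨C, hC⟩ := hf.2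
  obtain ⟨D, hD⟩ := hg.2
  exact ⟨hf.1.sub hg.1, C + D, fun ω => (norm_sub_le _ _).trans (add_le_add (hC ω) (hD ω))⟩

theorem BM.mulC {f g : Ω → ℂ} (hf : BM f) (hg : BM g) : BM fun ω => f ω * g ω := by
  obtain ⟨C, hC⟩ := hf.2
  obtain ⟨D, hD⟩ := hg.2
  refine ⟨hf.1.mul hg.1, C * D, fun ω => ?_⟩
  rw [norm_mul]
  have := hC ω
  have := hD ω
  have := (norm_nonneg (f ω)).trans (hC ω)
  gcongr

theorem BM.sumC {κ : Type} (s : Finset κ) {f : κ → Ω → ℂ} (hf : ∀ i ∈ s, BM (f i)) :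
    BM fun ω => ∑ i ∈ s, f i ω := by
  classical
  induction s using Finset.induction_on with
  | empty => simpa using BM.const (0 : ℂ)
  | insert a s ha ih =>
    simp only [Finset.sum_insert ha]
    exact (hf a (Finset.mem_insert_self _ _)).addC (ih fun i hi => hf i (Finset.mem_insert_of_mem hi))

theorem BM.im {f : Ω → ℂ} (hf : BM f) : BM fun ω => (f ω).im := by
  obtain ⟨C, hC⟩ := hf.2
  exact ⟨Complex.measurable_im.comp hf.1, C, fun ω => (Complex.abs_im_le_norm _).trans (hC ω)⟩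

theorem BM.tsumR {κ : Type} [Countable κ] {f : κ → Ω → ℝ} (hf : ∀ i, Measurable (f i))
    {c : κ → ℝ} (hc : Summable c) (h : ∀ i ω, ‖f i ω‖ ≤ c i) : BM fun ω => ∑' i, f i ω := by
  refine ⟨Measurable.tsum hf, ∑' i, c i, fun ω => ?_⟩
  exact tsum_of_norm_bounded hc.hasSum fun i => h i ω

theorem BM.tsumC {κ : Type} [Countable κ] {f : κ → Ω → ℂ} (hf : ∀ i, Measurable (f i))
    {c : κ → ℝ} (hc : Summable c) (h : ∀ i ω, ‖f i ω‖ ≤ c i) : BM fun ω => ∑' i, f i ω := by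
  refine ⟨Measurable.tsum hf, ∑' i, c i, fun ω => ?_⟩
  exact tsum_of_norm_bounded hc.hasSum fun i => h i ω

end bm2

section iid

variable {Ω κ : Type} [MeasurableSpace Ω] (P : Measure Ω) [IsProbabilityMeasure P]

theorem sq_conj (w : ℂ) : ((‖w‖ ^ 2 : ℝ) : ℂ) = w * (starRingEnd ℂ) w := by
  rw [Complex.mul_conj, Complex.normSq_eq_norm_sq]

/-- finite sums -/
theorem pr_fin (φ : Ω → ℂ) (hφ : BM φ) (T : κ → Ω → Ω) (hT : ∀ y, MeasurePreserving (T y) P P)
    (hI : ∀ y y', y ≠ y' → IndepFun (fun ω => φ (T y ω)) (fun ω => φ (T y' ω)) P) (c : κ → ℂ)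
    (s : Finset κ) :
    ∫ ω, ‖∑ y ∈ s, c y * φ (T y ω)‖ ^ 2 ∂P = ‖∑ y ∈ s, c y‖ ^ 2 * ‖∫ ω, φ ω ∂P‖ ^ 2 +
      (∑ y ∈ s, ‖c y‖ ^ 2) * (∫ ω, ‖φ ω‖ ^ 2 ∂P - ‖∫ ω, φ ω ∂P‖ ^ 2) := by
  classical
  obtain ⟨m, hm⟩ : ∃ m, m = ∫ ω, φ ω ∂P := ⟨_, rfl⟩
  obtain ⟨v, hv⟩ : ∃ v, v = ∫ ω, ‖φ ω‖ ^ 2 ∂P := ⟨_, rfl⟩
  rw [← hm, ← hv]
  have hmap : ∀ (y : κ) (g : Ω → ℂ), BM g → ∫ ω, g (T y ω) ∂P = ∫ ω, g ω ∂P := by
    intro y g hg
    have h1 := integral_map (μ := P) (hT y).measurable.aemeasurable (f := g) (by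
      rw [(hT y).map_eq]
      exact hg.1.aestronglyMeasurable)
    rw [(hT y).map_eq] at h1
    exact h1.symm
  have hcm : ∀ y y', ∫ ω, φ (T y ω) * (starRingEnd ℂ) (φ (T y' ω)) ∂P =
      m * (starRingEnd ℂ) m + (if y = y' then ((v : ℂ) - m * (starRingEnd ℂ) m) else 0) := by
    intro y y'
    by_cases h : y = y'
    · subst h
      rw [if_pos rfl, add_sub_cancel]
      have e1 := hmap y (fun ω => φ ω * (starRingEnd ℂ) (φ ω)) (by
        obtain ⟨C, hC⟩ := hφ.2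
        refine ⟨hφ.1.mul (Complex.continuous_conj.measurable.comp hφ.1), C * C, fun ω => ?_⟩
        rw [norm_mul, Complex.norm_conj]
        have := hC ω
        have := (norm_nonneg (φ ω)).trans (hC ω)
        gcongr <;> assumption)
      rw [e1, hv, ← integral_complex_ofReal]
      refine integral_congr_ae (Eventually.of_forall fun ω => ?_)
      exact (sq_conj (φ ω)).symm
    · rw [if_neg h, add_zero]
      have e2 := (hI y y' h).comp measurable_id Complex.continuous_conj.measurable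
      have e3 := e2.integral_fun_mul_eq_mul_integral
        (hφ.comp (hT y).measurable).1.aestronglyMeasurable
        (Complex.continuous_conj.measurable.comp
          (hφ.comp (hT y').measurable).1).aestronglyMeasurable
      simp only [Function.comp, id] at e3
      rw [e3, hmap y φ hφ, integral_conj, hmap y' φ hφ, ← hm]
  have hexp : ∀ ω, ((‖∑ y ∈ s, c y * φ (T y ω)‖ ^ 2 : ℝ) : ℂ) =
      ∑ y ∈ s, ∑ y' ∈ s, c y * (starRingEnd ℂ) (c y') *
        (φ (T y ω) * (starRingEnd ℂ) (φ (T y' ω))) := by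
    intro ω
    rw [sq_conj, map_sum, Finset.sum_mul_sum]
    refine Finset.sum_congr rfl fun y _ => Finset.sum_congr rfl fun y' _ => ?_
    rw [map_mul]
    ring
  have hint : ∀ y y', Integrable (fun ω => c y * (starRingEnd ℂ) (c y') *
      (φ (T y ω) * (starRingEnd ℂ) (φ (T y' ω)))) P := by
    intro y y'
    refine Integrable.const_mul ?_ _
    have e1 := hφ.comp (hT y).measurable
    have e2 := hφ.comp (hT y').measurable
    have e3 : BM fun ω => (starRingEnd ℂ) (φ (T y' ω)) := by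
      obtain ⟨C, hC⟩ := e2.2
      exact ⟨Complex.continuous_conj.measurable.comp e2.1, C, fun ω => by
        rw [Complex.norm_conj]
        exact hC ω⟩
    exact (e1.mulC e3).int P
  apply Complex.ofReal_injective
  rw [← integral_complex_ofReal]
  have h1 : ∫ ω, ((‖∑ y ∈ s, c y * φ (T y ω)‖ ^ 2 : ℝ) : ℂ) ∂P =
      ∑ y ∈ s, ∑ y' ∈ s, c y * (starRingEnd ℂ) (c y') *
        (m * (starRingEnd ℂ) m + (if y = y' then ((v : ℂ) - m * (starRingEnd ℂ) m) else 0)) := by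
    rw [integral_congr_ae (Eventually.of_forall hexp), integral_finset_sum s fun y _ =>
      integrable_finset_sum s fun y' _ => hint y y']
    refine Finset.sum_congr rfl fun y _ => ?_
    rw [integral_finset_sum s fun y' _ => hint y y']
    refine Finset.sum_congr rfl fun y' _ => ?_
    rw [integral_const_mul, hcm]
  rw [h1]
  push_cast
  have h2 : ∀ w : ℂ, ((‖w‖ : ℝ) : ℂ) ^ 2 = w * (starRingEnd ℂ) w := by
    intro w
    rw [← sq_conj]
    push_cast
    rfl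
  simp only [mul_add, Finset.sum_add_distrib, h2]
  congr 1
  · rw [map_sum, Finset.sum_mul_sum, Finset.sum_mul]
    refine Finset.sum_congr rfl fun y _ => ?_
    rw [Finset.sum_mul]
  · rw [Finset.sum_mul]
    refine Finset.sum_congr rfl fun y hy => ?_
    rw [Finset.sum_eq_single_of_mem y hy (fun y' _ h => by rw [if_neg (Ne.symm h), mul_zero]),
      if_pos rfl]

/-- countable sums -/
theorem pr_sum [Countable κ] (φ : Ω → ℂ) (hφ : BM φ) (T : κ → Ω → Ω)
    (hT : ∀ y, MeasurePreserving (T y) P P)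
    (hI : ∀ y y', y ≠ y' → IndepFun (fun ω => φ (T y ω)) (fun ω => φ (T y' ω)) P) (c : κ → ℂ)
    (hc : Summable fun y => ‖c y‖) (hc2 : Summable fun y => ‖c y‖ ^ 2) :
    ∫ ω, ‖∑' y, c y * φ (T y ω)‖ ^ 2 ∂P = ‖∑' y, c y‖ ^ 2 * ‖∫ ω, φ ω ∂P‖ ^ 2 +
      (∑' y, ‖c y‖ ^ 2) * (∫ ω, ‖φ ω‖ ^ 2 ∂P - ‖∫ ω, φ ω ∂P‖ ^ 2) := by
  obtain ⟨C, hC⟩ := hφ.2
  have hC0 : 0 ≤ |C| := abs_nonneg C
  have hC' : ∀ ω, ‖φ ω‖ ≤ |C| := fun ω => (hC ω).trans (le_abs_self C)
  have hsum : ∀ ω, Summable fun y => c y * φ (T y ω) := by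
    intro ω
    refine Summable.of_norm_bounded (hc.mul_right |C|) fun y => ?_
    rw [norm_mul]
    have := hC' (T y ω)
    gcongr
  have h1 : Tendsto (fun s : Finset κ => ∫ ω, ‖∑ y ∈ s, c y * φ (T y ω)‖ ^ 2 ∂P) atTop
      (𝓝 (∫ ω, ‖∑' y, c y * φ (T y ω)‖ ^ 2 ∂P)) := by
    refine tendsto_integral_filter_of_dominated_convergence
      (fun _ => ((∑' y, ‖c y‖) * |C|) ^ 2) ?_ ?_ (integrable_const _) ?_
    · refine Eventually.of_forall fun s => ?_
      have : BM fun ω => ∑ y ∈ s, c y * φ (T y ω) :=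
        BM.sumC s fun y _ => (BM.const (c y)).mulC (hφ.comp (hT y).measurable)
      exact this.normC.sqR.1.aestronglyMeasurable
    · refine Eventually.of_forall fun s => Eventually.of_forall fun ω => ?_
      rw [Real.norm_of_nonneg (sq_nonneg _)]
      refine pow_le_pow_left₀ (norm_nonneg _) ?_ 2
      refine (norm_sum_le _ _).trans ?_
      rw [← tsum_mul_right]
      refine le_trans (Finset.sum_le_sum fun y _ => ?_)
        ((hc.mul_right |C|).sum_le_tsum s fun y _ => by positivity)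
      rw [norm_mul]
      have := hC' (T y ω)
      gcongr
    · refine Eventually.of_forall fun ω => ?_
      exact ((hsum ω).hasSum.norm).pow 2
  have h2 : Tendsto (fun s : Finset κ => ‖∑ y ∈ s, c y‖ ^ 2 * ‖∫ ω, φ ω ∂P‖ ^ 2 +
      (∑ y ∈ s, ‖c y‖ ^ 2) * (∫ ω, ‖φ ω‖ ^ 2 ∂P - ‖∫ ω, φ ω ∂P‖ ^ 2)) atTop
      (𝓝 (‖∑' y, c y‖ ^ 2 * ‖∫ ω, φ ω ∂P‖ ^ 2 +
      (∑' y, ‖c y‖ ^ 2) * (∫ ω, ‖φ ω‖ ^ 2 ∂P - ‖∫ ω, φ ω ∂P‖ ^ 2))) := by
    have hcs : HasSum c (∑' y, c y) := hc.of_norm.hasSum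
    exact ((hcs.norm.pow 2).mul_const _).add (hc2.hasSum.mul_const _)
  refine tendsto_nhds_unique h1 (h2.congr fun s => ?_)
  rw [pr_fin P φ hφ T hT hI c s]

end iid

section law

variable {ι : Type} [Fintype ι] [DecidableEq ι] {Γ : ι → Type} [∀ i, Group (Γ i)]

/-- the law of the environment -/
noncomputable def Pf (Q : Type) (ρ : Measure ℝ) : Measure (Q → ℝ) :=
  Measure.infinitePi fun _ : Q => ρ

instance (Q : Type) (ρ : Measure ℝ) [IsProbabilityMeasure ρ] : IsProbabilityMeasure (Pf Q ρ) := by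
  unfold Pf
  infer_instance

theorem tr_mp (ρ : Measure ℝ) [IsProbabilityMeasure ρ] (g : CoprodI Γ) :
    MeasurePreserving (tr g) (Pf (CoprodI Γ) ρ) (Pf (CoprodI Γ) ρ) :=
  pi_mp ρ (fun x : CoprodI Γ => g * x) (lt_inj g)

theorem tr_indep (ρ : Measure ℝ) [IsProbabilityMeasure ρ] {i : ι} {y y' : Γ i} (h : y ≠ y')
    {φ : (CoprodI Γ → ℝ) → ℂ} (hm : Measurable φ)
    (hφ : ∀ ω ω', (∀ x, x ∉ Bs i → ω x = ω' x) → φ ω = φ ω') :
    IndepFun (fun ω => φ (tr (em Γ i y) ω)) (fun ω => φ (tr (em Γ i y') ω))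
      (Pf (CoprodI Γ) ρ) := by
  classical
  obtain ⟨ex, hex⟩ : ∃ ex : ({x : CoprodI Γ // x ∉ Bs i} → ℝ) → (CoprodI Γ → ℝ),
      ex = fun η x => if h : x ∉ Bs i then η ⟨x, h⟩ else 0 := ⟨_, rfl⟩
  have hexm : Measurable ex := by
    rw [hex, measurable_pi_iff]
    intro x
    by_cases hx : x ∉ Bs i
    · simp only [hx, not_false_eq_true, dite_true]
      exact measurable_pi_apply _
    · simp only [hx, dite_false]
      exact measurable_const
  have key : ∀ t : Γ i, (fun ω : CoprodI Γ → ℝ => φ (tr (em Γ i t) ω)) =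
      fun ω => (φ ∘ ex) (fun x : {x : CoprodI Γ // x ∉ Bs i} => ω (em Γ i t * x.1)) := by
    intro t
    funext ω
    apply hφ
    intro x hx
    rw [hex]
    simp only [hx, not_false_eq_true, dite_true]
    rfl
  rw [key y, key y']
  have h2 := pi_indep ρ (fun x : {x : CoprodI Γ // x ∉ Bs i} => em Γ i y * x.1)
    (fun x : {x : CoprodI Γ // x ∉ Bs i} => em Γ i y' * x.1) (by
      intro x x'
      exact tr_disj h x.2 x'.2)
  exact h2.comp (hm.comp hexm) (hm.comp hexm)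

end law

end Pool.Agent.Helper32.FG
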