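import Pool.Agent.Helper32.FG.Nd

/-! Regular energies. -/

set_option autoImplicit false
set_option linter.unusedSectionVars false
set_option linter.unusedSimpArgs false
set_option linter.deprecated false
set_option linter.unusedVariables false

open scoped BigOperators InnerProductSpace Topology ENNReal
open Filter MeasureTheory ProbabilityTheory
open Monoid (CoprodI)
open Monoid.CoprodI (of Word of_injective)

namespace Pool.Agent.Helper32.FG

open Pool.Agent.TH369.AN (Rz rz_eq rz_uniq rz_norm)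
open Pool.Agent.TH369.MU (SpM ep zk)
open Pool.Agent.Y662.TR (LL dv lmk lmk_apply ll_inner ll_ext ll_summable ll_sum add_coord
  sub_coord smul_coord)

section phi

variable {Γ' : Type} [Group Γ']

/-- the Green function of a factor, with `1` removed -/
noncomputable def Ph (a : Γ' →₀ ℝ) (W : ℂ) : ℂ := ⟪Ag a, Rz (Dp a) W (Ag a)⟫_ℂ

theorem Ph_eq (a : Γ' →₀ ℝ) (W : ℂ) :
    Ph a W = Gg (Cv (MonoidHom.id Γ') a) {1}ᶜ (Ag a) 0 0 W 0 := by
  unfold Ph Gg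
  rw [Th_zero]
  rfl

theorem Ph_cont {a : Γ' →₀ ℝ} (h : ∀ s, a s⁻¹ = a s) {W : ℂ} (hW : 0 < W.im) :
    ContinuousAt (Ph a) W := by
  have h1 := Gg_contz (Cv_sa (MonoidHom.id Γ') h) {1}ᶜ (Ag a) 0 0 0
  have h2 : ContinuousOn (Ph a) {z | 0 < z.im} := h1.congr fun z _ => Ph_eq a z
  exact h2.continuousAt ((isOpen_lt continuous_const Complex.continuous_im).mem_nhds hW)

theorem Ag_ne_zero {a : Γ' →₀ ℝ} (h0 : a ≠ 0) : Ag a ≠ 0 :=
  Av_ne_zero (f := MonoidHom.id Γ') Function.injective_id h0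

theorem Ph_im (a : Γ' →₀ ℝ) (h : ∀ s, a s⁻¹ = a s) {W : ℂ} (hW : 0 < W.im) :
    (Ph a W).im = W.im * ‖Rz (Dp a) W (Ag a)‖ ^ 2 :=
  Pool.Agent.H12R2.And.im_inner (Dp_sa h) hW.ne' (Ag a)

theorem Ph_pos {a : Γ' →₀ ℝ} (h : ∀ s, a s⁻¹ = a s) (h0 : a ≠ 0) {W : ℂ} (hW : 0 < W.im) :
    0 < (Ph a W).im := by
  rw [Ph_eq]
  exact Gg_pos (Cv_sa (MonoidHom.id Γ') h) _ (Ag_ne_zero h0) 0 0 hW 0

/-- the upper bound -/
theorem Ph_up {a : Γ' →₀ ℝ} (h : ∀ s, a s⁻¹ = a s) {W : ℂ} (hW : 0 < W.im) (S : ℂ)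
    (hS : W = S - Ph a W) : ‖Ph a W‖ ≤ ‖Ag a‖ ^ 2 + ‖S‖ + ‖Dp a‖ + 1 := by
  by_cases hc : ‖W‖ ≤ ‖Dp a‖ + 1
  · have h1 : Ph a W = S - W := by linear_combination hS
    have h2 := norm_sub_le S W
    rw [← h1] at h2
    have := sq_nonneg ‖Ag a‖
    linarith
  · push Not at hc
    have h1 := rz_eq (Dp a) (Dp_sa h) W hW.ne' (Ag a)
    obtain ⟨u, hu⟩ : ∃ u, u = Rz (Dp a) W (Ag a) := ⟨_, rfl⟩
    rw [← hu] at h1
    have h2 : ‖u‖ ≤ ‖Ag a‖ := by
      have e1 : ‖W • u‖ ≤ ‖Dp a u‖ + ‖Ag a‖ := by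
        have e2 : W • u = Dp a u - Ag a := by rw [← h1]; abel
        rw [e2]
        exact norm_sub_le _ _
      rw [norm_smul] at e1
      have e3 := (Dp a).le_opNorm u
      have e4 := norm_nonneg u
      nlinarith
    have h3 : ‖Ph a W‖ ≤ ‖Ag a‖ * ‖u‖ := by
      unfold Ph
      rw [← hu]
      exact norm_inner_le_norm _ _
    have h4 := norm_nonneg (Ag a)
    have h5 := norm_nonneg S
    have h6 := norm_nonneg (Dp a)
    nlinarith

/-- the lower bound -/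
theorem Ph_low {a : Γ' →₀ ℝ} (h : ∀ s, a s⁻¹ = a s) {W : ℂ} (hW : 0 < W.im) {M : ℝ}
    (hM : ‖Dp a‖ + ‖W‖ ≤ M) : W.im * ‖Ag a‖ ^ 2 ≤ M ^ 2 * (Ph a W).im := by
  rw [Ph_im a h hW]
  have h1 := rz_lower _ (Dp_sa h) W hW (Ag a)
  have h3 : ‖Ag a‖ ≤ M * ‖Rz (Dp a) W (Ag a)‖ := by
    refine h1.trans ?_
    gcongr
  have h4 : ‖Ag a‖ ^ 2 ≤ (M * ‖Rz (Dp a) W (Ag a)‖) ^ 2 := by gcongr
  nlinarith

end phi

section reg

variable {ι : Type} [Fintype ι] [DecidableEq ι] {Γ : ι → Type} [∀ i, Group (Γ i)]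

/-- `F` at `z` solves the system -/
theorem F0_eq {a : ∀ i, Γ i →₀ ℝ} (hs : ∀ i s, a i s⁻¹ = a i s) (h1 : ∀ i, a i 1 = 0) (i : ι)
    {z : ℂ} (hz : 0 < z.im) (h0 : ∀ i, a i ≠ 0) :
    0 < (z + ∑ j ∈ Finset.univ.erase i, F0 a j z).im ∧
    F0 a i z = Ph (a i) (z + ∑ j ∈ Finset.univ.erase i, F0 a j z) := by
  have hpos : ∀ j, 0 < (F0 a j z).im := fun j =>
    Gg_pos (Lf_sa hs) _ (Av_ne_zero (em_inj j) (h0 j)) 0 0 hz 0
  have hW : 0 < (z + ∑ j ∈ Finset.univ.erase i, F0 a j z).im := by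
    rw [Complex.add_im, Complex.im_sum]
    have : 0 ≤ ∑ j ∈ Finset.univ.erase i, (F0 a j z).im :=
      Finset.sum_nonneg fun j _ => (hpos j).le
    linarith
  refine ⟨hW, ?_⟩
  have h2 := br_eq hs h1 i 0 0 hz (0 : CoprodI Γ → ℝ)
  have h3 : ∀ y : Γ i, Ws a (Finset.univ.erase i) 0 0 z (tr (em Γ i y) 0) =
      z + ∑ j ∈ Finset.univ.erase i, F0 a j z := by
    intro y
    have h4 : tr (em Γ i y) (0 : CoprodI Γ → ℝ) = 0 := rfl
    rw [h4]
    unfold Ws F0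
    simp
  simp only [h3] at h2
  have h5 : Uv a i 0 0 z 0 = Rz (Dp (a i)) (z + ∑ j ∈ Finset.univ.erase i, F0 a j z)
      (Ag (a i)) := by
    apply rz_uniq _ (Dp_sa (hs i)) _ hW.ne'
    apply ll_ext
    intro y
    rw [sub_coord, smul_coord]
    exact h2 y
  unfold F0 at h5 ⊢
  rw [Fi_eq, h5]
  rfl

/-- the unperturbed Green function -/
noncomputable def G0 (a : ∀ i, Γ i →₀ ℝ) (z : ℂ) : ℂ := GF (Lf a) 0 0 z 1 0

theorem G0_eq {a : ∀ i, Γ i →₀ ℝ} (hs : ∀ i s, a i s⁻¹ = a i s) (h1 : ∀ i, a i 1 = 0)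
    {z : ℂ} (hz : 0 < z.im) : G0 a z * (z + ∑ j, F0 a j z) = -1 := by
  have h := root_eq hs h1 Finset.univ 0 0 hz (0 : CoprodI Γ → ℝ)
  rw [Rg_univ] at h
  have h2 : Ws a Finset.univ 0 0 z 0 = z + ∑ j, F0 a j z := by
    unfold Ws F0
    simp
  rw [h2] at h
  exact h

/-- regular energies: the Green function has a cluster point in the upper half plane -/
def RegE (a : ∀ i, Γ i →₀ ℝ) (E0 : ℝ) : Prop :=
  ∃ (z : ℕ → ℂ) (w : ℂ), (∀ n, 0 < (z n).im) ∧ Tendsto z atTop (𝓝 (E0 : ℂ)) ∧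
    Tendsto (fun n => G0 a (z n)) atTop (𝓝 w) ∧ 0 < w.im

/-- **regular energies have a reference solution** -/
theorem reg_ref [Nontrivial ι] {a : ∀ i, Γ i →₀ ℝ} (hs : ∀ i s, a i s⁻¹ = a i s)
    (h1 : ∀ i, a i 1 = 0) (h0 : ∀ i, a i ≠ 0) {E0 : ℝ} (h : RegE a E0) :
    ∃ (F : ι → ℂ) (u : ∀ i, LL (Γ i)), Rf a E0 F u ∧
      ∀ η : ℝ, 0 < η → ∃ z : ℂ, 0 < z.im ∧ ‖z - E0‖ < η ∧ ∀ i, Xd (F0 a i z) (F i) < η := by
  obtain ⟨z, w, hz, hzE, hG, hw⟩ := h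
  have hpos : ∀ j n, 0 < (F0 a j (z n)).im := fun j n =>
    Gg_pos (Lf_sa hs) _ (Av_ne_zero (em_inj j) (h0 j)) 0 0 (hz n) 0
  have hw0 : w ≠ 0 := by
    rintro rfl
    simp at hw
  -- the total self-energy
  obtain ⟨S, hSd⟩ : ∃ S : ℕ → ℂ, S = fun n => z n + ∑ j, F0 a j (z n) := ⟨_, rfl⟩
  have hSn : ∀ n, S n = z n + ∑ j, F0 a j (z n) := fun n => by rw [hSd]
  have hSG : ∀ n, S n = -(G0 a (z n))⁻¹ := by
    intro n
    have e1 := G0_eq hs h1 (hz n)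
    rw [← hSn] at e1
    have e2 : G0 a (z n) ≠ 0 := by
      intro h
      rw [h, zero_mul] at e1
      norm_num at e1
    field_simp
    linear_combination e1
  have hS : Tendsto S atTop (𝓝 (-w⁻¹)) := by
    have e1 : S = fun n => -(G0 a (z n))⁻¹ := funext hSG
    rw [e1]
    exact (hG.inv₀ hw0).neg
  have hSim : 0 < (-w⁻¹).im := by
    rw [Complex.neg_im, Complex.inv_im]
    have := Complex.normSq_pos.2 hw0
    have e2 : -(-w.im / Complex.normSq w) = w.im / Complex.normSq w := by ring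
    rw [e2]
    positivity
  obtain ⟨s, hs0⟩ : ∃ s, s = (-w⁻¹).im := ⟨_, rfl⟩
  rw [← hs0] at hSim
  -- eventually
  obtain ⟨T, hT⟩ : ∃ T, T = ‖-w⁻¹‖ + 1 := ⟨_, rfl⟩
  have hev1 : ∀ᶠ n in atTop, ‖S n‖ ≤ T := by
    have := hS.norm.eventually_lt_const (show ‖-w⁻¹‖ < T by rw [hT]; linarith)
    exact this.mono fun n hn => hn.le
  have hev2 : ∀ᶠ n in atTop, s / 2 ≤ ∑ j, (F0 a j (z n)).im := by
    have e1 : Tendsto (fun n => (S n).im - (z n).im) atTop (𝓝 (s - 0)) := by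
      refine Tendsto.sub ?_ ?_
      · rw [hs0]
        exact (Complex.continuous_im.tendsto _).comp hS
      · have := (Complex.continuous_im.tendsto _).comp hzE
        simpa [Function.comp_def] using this
    rw [sub_zero] at e1
    have e2 := e1.eventually_const_lt (show s / 2 < s by linarith)
    refine e2.mono fun n hn => ?_
    rw [hSn, Complex.add_im, Complex.im_sum] at hn
    linarith
  -- bounds
  obtain ⟨A, hA⟩ : ∃ A : ℝ, A = ∑ i, (‖Ag (a i)‖ ^ 2 + T + ‖Dp (a i)‖ + 1) := ⟨_, rfl⟩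
  have hT0 : 0 < T := by
    rw [hT]
    positivity
  have hAi : ∀ i, ‖Ag (a i)‖ ^ 2 + T + ‖Dp (a i)‖ + 1 ≤ A := by
    intro i
    rw [hA]
    exact Finset.single_le_sum (f := fun i => ‖Ag (a i)‖ ^ 2 + T + ‖Dp (a i)‖ + 1)
      (fun j _ => by positivity) (Finset.mem_univ i)
  have hWS : ∀ i n, z n + ∑ j ∈ Finset.univ.erase i, F0 a j (z n) = S n - F0 a i (z n) := by
    intro i n
    rw [hSn, ← Finset.add_sum_erase _ _ (Finset.mem_univ i)]
    ring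
  have hup : ∀ᶠ n in atTop, ∀ i, ‖F0 a i (z n)‖ ≤ A := by
    filter_upwards [hev1] with n hn i
    obtain ⟨e1, e2⟩ := F0_eq hs h1 i (hz n) h0
    obtain ⟨W, hW⟩ : ∃ W, W = z n + ∑ j ∈ Finset.univ.erase i, F0 a j (z n) := ⟨_, rfl⟩
    rw [← hW] at e1 e2
    have e3 := Ph_up (hs i) e1 (S n) (by rw [← e2, hW, hWS])
    rw [← e2] at e3
    exact e3.trans ((by linarith : _ ≤ ‖Ag (a i)‖ ^ 2 + T + ‖Dp (a i)‖ + 1).trans (hAi i))
  obtain ⟨N, hN⟩ : ∃ N : ℝ, N = Fintype.card ι := ⟨_, rfl⟩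
  have hN0 : 0 < N := by
    rw [hN]
    exact_mod_cast Fintype.card_pos
  obtain ⟨k1, hk1⟩ := Finite.exists_min fun i => ‖Ag (a i)‖
  obtain ⟨c, hc⟩ : ∃ c, c = ‖Ag (a k1)‖ ^ 2 / (3 * A) ^ 2 := ⟨_, rfl⟩
  have hA0 : 0 < A := by
    have := hAi k1
    have : 0 < ‖Ag (a k1)‖ ^ 2 + T + ‖Dp (a k1)‖ + 1 := by positivity
    linarith
  have hAg0 : 0 < ‖Ag (a k1)‖ := norm_pos_iff.2 (Ag_ne_zero (h0 k1))
  have hc0 : 0 < c := by
    rw [hc]
    positivity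
  have hlowW : ∀ᶠ n in atTop, ∀ i,
      c * (z n + ∑ j ∈ Finset.univ.erase i, F0 a j (z n)).im ≤ (F0 a i (z n)).im := by
    filter_upwards [hev1, hup] with n hn hn2 i
    obtain ⟨e1, e2⟩ := F0_eq hs h1 i (hz n) h0
    obtain ⟨W, hW⟩ : ∃ W, W = z n + ∑ j ∈ Finset.univ.erase i, F0 a j (z n) := ⟨_, rfl⟩
    rw [← hW] at e1 e2 ⊢
    have e3 : ‖Dp (a i)‖ + ‖W‖ ≤ 3 * A := by
      have f1 : ‖W‖ ≤ ‖S n‖ + ‖F0 a i (z n)‖ := by
        rw [hW, hWS]
        exact norm_sub_le _ _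
      have f2 := hn2 i
      have f3 := hAi i
      have f4 := sq_nonneg ‖Ag (a i)‖
      have f5 := norm_nonneg (Dp (a i))
      linarith
    have e4 := Ph_low (hs i) e1 e3
    rw [← e2] at e4
    have e5 : ‖Ag (a k1)‖ ^ 2 ≤ ‖Ag (a i)‖ ^ 2 := by
      have := hk1 i
      gcongr
    rw [hc, div_mul_eq_mul_div, div_le_iff₀ (by positivity)]
    nlinarith
  obtain ⟨c', hc'⟩ : ∃ c', c' = min 1 c * (s / 2 / N) := ⟨_, rfl⟩
  have hc'0 : 0 < c' := by
    rw [hc']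
    have : 0 < min 1 c := lt_min one_pos hc0
    positivity
  have hlow : ∀ᶠ n in atTop, ∀ i, c' ≤ (F0 a i (z n)).im := by
    filter_upwards [hev2, hlowW] with n hn hn2 i
    obtain ⟨k, hk⟩ : ∃ k, s / 2 / N ≤ (F0 a k (z n)).im := by
      by_contra hcon
      push Not at hcon
      have e1 : ∑ j, (F0 a j (z n)).im < ∑ j : ι, s / 2 / N :=
        Finset.sum_lt_sum_of_nonempty Finset.univ_nonempty fun j _ => hcon j
      rw [Finset.sum_const, nsmul_eq_mul, Finset.card_univ, ← hN] at e1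
      have e2 : N * (s / 2 / N) = s / 2 := by field_simp
      linarith
    have hsN : 0 < s / 2 / N := by positivity
    by_cases hik : i = k
    · rw [hik]
      refine le_trans ?_ hk
      rw [hc']
      have := min_le_left 1 c
      nlinarith
    · refine le_trans ?_ (hn2 i)
      rw [hc']
      have e1 : s / 2 / N ≤ (z n + ∑ j ∈ Finset.univ.erase i, F0 a j (z n)).im := by
        rw [Complex.add_im, Complex.im_sum]
        have e2 := Finset.single_le_sum (f := fun j => (F0 a j (z n)).im)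
          (fun j _ => (hpos j n).le) (Finset.mem_erase.2 ⟨Ne.symm hik, Finset.mem_univ k⟩)
        have e3 := (hz n).le
        linarith
      have e4 := min_le_right 1 c
      have e5 : 0 < min 1 c := lt_min one_pos hc0
      gcongr
  -- compactness
  obtain ⟨n0, hn0⟩ := Filter.eventually_atTop.1 (hup.and hlow)
  obtain ⟨K, hK⟩ : ∃ K : Set (ι → ℂ), K = Set.pi Set.univ fun _ =>
      Metric.closedBall (0 : ℂ) A ∩ {p | c' ≤ p.im} := ⟨_, rfl⟩
  have hKc : IsCompact K := by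
    rw [hK]
    exact isCompact_univ_pi fun _ => (isCompact_closedBall _ _).inter_right
      (isClosed_le continuous_const Complex.continuous_im)
  obtain ⟨F, hFK, φ, hφ, hlim⟩ := hKc.tendsto_subseq (x := fun n i => F0 a i (z (n + n0)))
    (fun n => by
      rw [hK]
      intro i _
      obtain ⟨e1, e2⟩ := hn0 (n + n0) (Nat.le_add_left _ _)
      exact ⟨by simpa using e1 i, e2 i⟩)
  have hFi : ∀ i, c' ≤ (F i).im := by
    intro i
    rw [hK] at hFK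
    exact (hFK i (Set.mem_univ i)).2
  obtain ⟨ψ, hψd⟩ : ∃ ψ : ℕ → ℕ, ψ = fun n => φ n + n0 := ⟨_, rfl⟩
  have hψ : Tendsto ψ atTop atTop := by
    rw [hψd]
    exact (tendsto_add_atTop_nat n0).comp hφ.tendsto_atTop
  have hlimi : ∀ i, Tendsto (fun n => F0 a i (z (ψ n))) atTop (𝓝 (F i)) := by
    intro i
    rw [hψd]
    exact (tendsto_pi_nhds.1 hlim) i
  have hzψ : Tendsto (fun n => z (ψ n)) atTop (𝓝 (E0 : ℂ)) := hzE.comp hψ
  have hWlim : ∀ i, Tendsto (fun n => z (ψ n) + ∑ j ∈ Finset.univ.erase i, F0 a j (z (ψ n)))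
      atTop (𝓝 (W0 E0 F i)) := by
    intro i
    exact hzψ.add (tendsto_finsetSum _ fun j _ => hlimi j)
  have hWpos : ∀ i, 0 < (W0 E0 F i).im := by
    intro i
    rw [W0_im]
    obtain ⟨k, hk⟩ := exists_ne i
    refine Finset.sum_pos (fun j _ => hc'0.trans_le (hFi j)) ⟨k, ?_⟩
    exact Finset.mem_erase.2 ⟨hk, Finset.mem_univ _⟩
  have hFeq : ∀ i, Ph (a i) (W0 E0 F i) = F i := by
    intro i
    have e1 := (Ph_cont (hs i) (hWpos i)).tendsto.comp (hWlim i)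
    refine tendsto_nhds_unique e1 ((hlimi i).congr fun n => ?_)
    exact (F0_eq hs h1 i (hz _) h0).2
  refine ⟨F, fun i => Rz (Dp (a i)) (W0 E0 F i) (Ag (a i)), ?_, ?_⟩
  · refine ⟨hs, h1, h0, fun i => hc'0.trans_le (hFi i), hWpos, fun i y => ?_, fun i => ?_⟩
    · have e1 := rz_eq (Dp (a i)) (Dp_sa (hs i)) (W0 E0 F i) (hWpos i).ne' (Ag (a i))
      have e2 : (Dp (a i) (Rz (Dp (a i)) (W0 E0 F i) (Ag (a i))) -
          W0 E0 F i • Rz (Dp (a i)) (W0 E0 F i) (Ag (a i)) : LL (Γ i)) y = Ag (a i) y := by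
        rw [e1]
      rw [sub_coord, smul_coord] at e2
      exact e2
    · exact hFeq i
  · intro η hη
    have e1 : ∀ᶠ n in atTop, ‖z (ψ n) - E0‖ < η := by
      have := (tendsto_iff_norm_sub_tendsto_zero.1 hzψ).eventually_lt_const hη
      exact this
    have e2 : ∀ i, ∀ᶠ n in atTop, Xd (F0 a i (z (ψ n))) (F i) < η := by
      intro i
      have hp : 0 < (F i).im := hc'0.trans_le (hFi i)
      have e3 := (Xd_cont hp hp).tendsto.comp (hlimi i)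
      have e4 : Xd (F i) (F i) < η := by
        unfold Xd
        simpa using hη
      exact e3.eventually_lt_const e4
    obtain ⟨n, hn1, hn2⟩ := (e1.and (Filter.eventually_all.2 e2)).exists
    exact ⟨z (ψ n), hz _, hn1, hn2⟩

end reg

end Pool.Agent.Helper32.FG
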